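import Pool.Agent.Lib.MP_ae6bb1_pr.NV.FM

/-! First moments of bad chains. -/

open Finset LCSH
open scoped ENNReal

namespace NV

variable {α : Type} [DecidableEq α] [Fintype α] {L : Law α} {o : α}

open Classical in
/-- The common bound: chains with a property `P` whose value is at most `A` times a product weight. -/
theorem FMgen (hm : 0 < L.p o) (hr0 : 0 < rr L o) (n m : ℕ) (P : List (ℕ × ℕ) → Prop)
    [DecidablePred P] {A Λ lm : ℝ} (hA : 0 ≤ A) (hΛ : 0 ≤ Λ) (hl : 0 ≤ lm)
    (hq : rr L o * Λ * (cth (1 / 8) * ((1 + 1000 * rr L o) / (1 + 1000 * rr L o - 1)) +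
      2 * lm * cth (1 / 8)) ≤ 1 / 2)
    (hP : ∀ C, adm n m C → P C → Real.exp (vI n m C) ≤
      A * (Λ ^ C.length * Real.exp (-(1 / 8 * (tvI n m C : ℝ))) * (1 + lm) ^ nsc C)) :
    (SS2 L o true n m fun x y => ∑' C, if RealI o x y C ∧ P C then ex (vI n m C) else 0) ≤
      ENNReal.ofReal (2 * A * Real.exp (1000 * rr L o * n)) := by
  have hr := rr_nonneg L o
  have h1 : (SS2 L o true n m fun x y =>
      ∑' C, if RealI o x y C ∧ P C then ex (vI n m C) else 0) =
      SS2 L o true n m fun x y =>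
        ∑' C, if RealI o x y C then (if P C then ex (vI n m C) else 0) else 0 := by
    congr 1
    funext x y
    refine tsum_congr fun C => ?_
    by_cases h : RealI o x y C
    · by_cases h' : P C
      · rw [if_pos ⟨h, h'⟩, if_pos h, if_pos h']
      · rw [if_neg (fun hh => h' hh.2), if_pos h, if_neg h']
    · rw [if_neg (fun hh => h hh.1), if_neg h]
  rw [h1]
  refine (SS2_chains L o hm true n m _).trans ?_
  have hMs : Ms L o true = 1 := by
    unfold Ms
    rw [if_pos rfl]
  rw [hMs, one_pow, one_mul]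
  have h3 : ∀ C : List (ℕ × ℕ), (if adm n m C then
      ENNReal.ofReal (rr L o ^ C.length) * (if P C then ex (vI n m C) else 0) else 0) ≤
      ENNReal.ofReal A * (if adm n m C then
        ENNReal.ofReal ((rr L o * Λ) ^ C.length *
          Real.exp (-(1 / 8 * (tvI n m C : ℝ))) * (1 + lm) ^ nsc C) else 0) := by
    intro C
    by_cases hC : adm n m C
    · rw [if_pos hC, if_pos hC]
      by_cases hPC : P C
      · rw [if_pos hPC, ex, ← ENNReal.ofReal_mul (pow_nonneg hr _), ← ENNReal.ofReal_mul hA]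
        apply ENNReal.ofReal_le_ofReal
        calc rr L o ^ C.length * Real.exp (vI n m C)
            ≤ rr L o ^ C.length * (A * (Λ ^ C.length *
              Real.exp (-(1 / 8 * (tvI n m C : ℝ))) * (1 + lm) ^ nsc C)) :=
              mul_le_mul_of_nonneg_left (hP C hC hPC) (pow_nonneg hr _)
          _ = _ := by
              rw [mul_pow]
              ring
      · rw [if_neg hPC, mul_zero]
        exact zero_le
    · rw [if_neg hC, if_neg hC, mul_zero]
  have hz : 1 < 1 + 1000 * rr L o := by linarith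
  calc _ ≤ ∑' C : List (ℕ × ℕ), ENNReal.ofReal A * (if adm n m C then
        ENNReal.ofReal ((rr L o * Λ) ^ C.length *
          Real.exp (-(1 / 8 * (tvI n m C : ℝ))) * (1 + lm) ^ nsc C) else 0) :=
        ENNReal.tsum_le_tsum h3
    _ = ENNReal.ofReal A * ∑' C : List (ℕ × ℕ), (if adm n m C then
        ENNReal.ofReal ((rr L o * Λ) ^ C.length *
          Real.exp (-(1 / 8 * (tvI n m C : ℝ))) * (1 + lm) ^ nsc C) else 0) :=
        ENNReal.tsum_mul_left
    _ ≤ ENNReal.ofReal A * ENNReal.ofReal ((1 + 1000 * rr L o) ^ n / (1 - 1 / 2)) := by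
        refine mul_le_mul_of_nonneg_left ?_ (zero_le)
        exact comb hr hΛ (by norm_num) hl hz (by norm_num) (by norm_num) hq n m
    _ = ENNReal.ofReal (A * ((1 + 1000 * rr L o) ^ n / (1 - 1 / 2))) := by
        rw [← ENNReal.ofReal_mul hA]
    _ ≤ _ := by
        apply ENNReal.ofReal_le_ofReal
        have h7 : (1 + 1000 * rr L o) ^ n ≤ Real.exp (1000 * rr L o * n) := by
          have h8 : 1 + 1000 * rr L o ≤ Real.exp (1000 * rr L o) := by
            have := Real.add_one_le_exp (1000 * rr L o)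
            linarith
          calc (1 + 1000 * rr L o) ^ n ≤ Real.exp (1000 * rr L o) ^ n :=
                pow_le_pow_left₀ (by linarith) h8 n
            _ = Real.exp (1000 * rr L o * n) := by rw [← Real.exp_nat_mul]; ring_nf
        have h9 : (1 + 1000 * rr L o) ^ n / (1 - 1 / 2) ≤ 2 * Real.exp (1000 * rr L o * n) := by
          rw [div_le_iff₀ (by norm_num)]
          linarith
        calc A * ((1 + 1000 * rr L o) ^ n / (1 - 1 / 2))
            ≤ A * (2 * Real.exp (1000 * rr L o * n)) := mul_le_mul_of_nonneg_left h9 hA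
          _ = _ := by ring

/-- The ratio of the geometric sum. -/
theorem rr_z {L : Law α} {o : α} (hr0 : 0 < rr L o) (Λ c lm : ℝ) :
    rr L o * Λ * (c * ((1 + 1000 * rr L o) / (1 + 1000 * rr L o - 1)) + 2 * lm * c) =
      Λ * c * ((1 + 1000 * rr L o) / 1000 + 2 * (lm * rr L o)) := by
  have h3 : rr L o ≠ 0 := hr0.ne'
  have h4 : (1 + 1000 * rr L o - 1) = 1000 * rr L o := by ring
  rw [h4]
  field_simp

open Classical in
/-- Chains with a non strict step. Proof: `SS2_chains`, `1 ≤ (1 + lm)^(nsc C) / (1 + lm)` with `lm = 1 / (2000 rr)`, `comb` with `Λ = e`,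
`θ = 1/8`, `z = 1 + 1000 rr`, `q = 1/2`, `exp (- tvI / 2) ≤ exp (- tvI / 8)`. -/
theorem FMns (hm : 0 < L.p o) (hr0 : 0 < rr L o) (hr : rr L o ≤ 1 / 1000) (n m : ℕ) :
    (SS2 L o true n m fun x y => ∑' C, if RealI o x y C ∧ 1 ≤ nsc C.tail then ex (vI n m C) else 0) ≤
      ENNReal.ofReal (4000 * rr L o * Real.exp (1000 * rr L o * n)) := by
  obtain ⟨-, hc, -⟩ := cth_bounds
  have hc0 : 0 < cth (1 / 8) := cth_pos (by norm_num)
  have hlm : (1 / (2000 * rr L o)) * rr L o = 1 / 2000 := by
    field_simp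
  have h1 := FMgen (L := L) (o := o) hm hr0 n m (fun C => 1 ≤ nsc C.tail)
    (A := 2000 * rr L o) (Λ := Real.exp 1) (lm := 1 / (2000 * rr L o)) (by positivity)
    (Real.exp_pos 1).le (by positivity) (by
      rw [rr_z hr0, hlm]
      calc Real.exp 1 * cth (1 / 8) * ((1 + 1000 * rr L o) / 1000 + 2 * (1 / 2000))
          ≤ 47 * (3 / 1000) := mul_le_mul hc (by linarith) (by positivity) (by norm_num)
        _ ≤ 1 / 2 := by norm_num) (by
      intro C _ hC
      have h2 : 1 ≤ nsc C := by
        refine le_trans hC ?_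
        cases C with
        | nil => exact le_refl _
        | cons c C =>
          rw [List.tail_cons]
          unfold nsc
          rw [List.filter_cons]
          split_ifs
          · rw [List.length_cons]
            exact Nat.le_succ _
          · exact le_refl _
      have h3 : 1 ≤ 2000 * rr L o * (1 + 1 / (2000 * rr L o)) ^ nsc C := by
        have h4 : (0 : ℝ) ≤ 1 / (2000 * rr L o) := by positivity
        have h5 : 1 + 1 / (2000 * rr L o) ≤ (1 + 1 / (2000 * rr L o)) ^ nsc C := by
          calc 1 + 1 / (2000 * rr L o) = (1 + 1 / (2000 * rr L o)) ^ 1 := (pow_one _).symm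
            _ ≤ _ := pow_le_pow_right₀ (by linarith) h2
        calc (1 : ℝ) ≤ 2000 * rr L o * (1 + 1 / (2000 * rr L o)) := by
              have : 2000 * rr L o * (1 / (2000 * rr L o)) = 1 := by field_simp
              nlinarith
          _ ≤ _ := mul_le_mul_of_nonneg_left h5 (by positivity)
      have h6 : Real.exp (vI n m C) ≤
          Real.exp 1 ^ C.length * Real.exp (-(1 / 8 * (tvI n m C : ℝ))) := by
        rw [← Real.exp_nat_mul, ← Real.exp_add]
        apply Real.exp_le_exp.2
        have h7 : (0 : ℝ) ≤ (tvI n m C : ℝ) := Nat.cast_nonneg _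
        unfold vI
        linarith
      calc Real.exp (vI n m C) ≤
          (Real.exp 1 ^ C.length * Real.exp (-(1 / 8 * (tvI n m C : ℝ)))) * 1 := by
            rw [mul_one]
            exact h6
        _ ≤ (Real.exp 1 ^ C.length * Real.exp (-(1 / 8 * (tvI n m C : ℝ)))) *
            (2000 * rr L o * (1 + 1 / (2000 * rr L o)) ^ nsc C) :=
            mul_le_mul_of_nonneg_left h3 (by positivity)
        _ = _ := by ring)
  refine h1.trans (le_of_eq ?_)
  congr 1
  ring

open Classical in
/-- Long chains. Proof: `1 ≤ exp (length - R)`, `comb` with `Λ = e^2`. -/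
theorem FMr (hm : 0 < L.p o) (hr0 : 0 < rr L o) (hr : rr L o ≤ 1 / 1000) (n m R : ℕ) :
    (SS2 L o true n m fun x y => ∑' C, if RealI o x y C ∧ R < C.length then ex (vI n m C) else 0) ≤
      ENNReal.ofReal (2 * Real.exp (-R) * Real.exp (1000 * rr L o * n)) := by
  obtain ⟨-, -, hc⟩ := cth_bounds
  have hc0 : 0 < cth (1 / 8) := cth_pos (by norm_num)
  exact FMgen (L := L) (o := o) hm hr0 n m (fun C => R < C.length)
    (A := Real.exp (-R)) (Λ := Real.exp 2) (lm := 0) (Real.exp_pos _).le
    (Real.exp_pos 2).le (le_refl 0) (by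
      rw [rr_z hr0]
      calc Real.exp 2 * cth (1 / 8) * ((1 + 1000 * rr L o) / 1000 + 2 * (0 * rr L o))
          ≤ 126 * (2 / 1000) := mul_le_mul hc (by linarith) (by positivity) (by norm_num)
        _ ≤ 1 / 2 := by norm_num) (by
      intro C _ hC
      rw [add_zero, one_pow, mul_one, ← Real.exp_nat_mul, ← Real.exp_add, ← Real.exp_add]
      apply Real.exp_le_exp.2
      have h7 : (0 : ℝ) ≤ (tvI n m C : ℝ) := Nat.cast_nonneg _
      have h8 : (R : ℝ) ≤ (C.length : ℝ) := by exact_mod_cast hC.le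
      unfold vI
      linarith)

open Classical in
/-- Chains with large total variation. Proof: `exp (- tvI / 2) ≤ exp (- 3 w / 4) exp (- tvI / 8)`. -/
theorem FMw (hm : 0 < L.p o) (hr0 : 0 < rr L o) (hr : rr L o ≤ 1 / 1000) (n m w : ℕ) :
    (SS2 L o true n m fun x y =>
      ∑' C, if RealI o x y C ∧ 2 * w ≤ tvI n m C then ex (vI n m C) else 0) ≤
      ENNReal.ofReal (2 * Real.exp (-(3 / 4 * (w : ℝ))) * Real.exp (1000 * rr L o * n)) := by
  obtain ⟨-, hc, -⟩ := cth_bounds
  have hc0 : 0 < cth (1 / 8) := cth_pos (by norm_num)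
  exact FMgen (L := L) (o := o) hm hr0 n m (fun C => 2 * w ≤ tvI n m C)
    (A := Real.exp (-(3 / 4 * (w : ℝ)))) (Λ := Real.exp 1) (lm := 0) (Real.exp_pos _).le
    (Real.exp_pos 1).le (le_refl 0) (by
      rw [rr_z hr0]
      calc Real.exp 1 * cth (1 / 8) * ((1 + 1000 * rr L o) / 1000 + 2 * (0 * rr L o))
          ≤ 47 * (2 / 1000) := mul_le_mul hc (by linarith) (by positivity) (by norm_num)
        _ ≤ 1 / 2 := by norm_num) (by
      intro C _ hC
      rw [add_zero, one_pow, mul_one, ← Real.exp_nat_mul, ← Real.exp_add, ← Real.exp_add]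
      apply Real.exp_le_exp.2
      have h8 : (2 * (w : ℝ)) ≤ (tvI n m C : ℝ) := by exact_mod_cast hC
      unfold vI
      linarith)

end NV
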