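import Pool.Agent.Lib.MP_ae6bb1_pr.NV.Link
import Pool.Agent.Lib.MP_ae6bb1_pr.NV.FMb

/-! Exponential moments. -/

open Finset LCSH
open scoped ENNReal

namespace NV

variable {α : Type} [DecidableEq α] [Fintype α] {L : Law α} {o : α}

/-- Proof: `D_le_or_R`: `ex (s D) ≤ ex (s vv) + (1 - s) + s ∑'_C [RealI, 1 ≤ nsc tail or R < length] ex vI`
(`e^{s D} ≤ 1 - s + s e^D`), `FMns`, `FMr`, `SS_one`, `words_E2`. -/
theorem SS2_ex_le (hm : 0 < L.p o) (hr0 : 0 < rr L o) (hr : rr L o ≤ 1 / 1000) {s : ℝ}
    (hs0 : 0 ≤ s) (hs1 : s ≤ 1) (N M R : ℕ)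
    (hbad : (4000 * rr L o + 2 * Real.exp (-(R : ℝ))) * Real.exp (1000 * rr L o * N) ≤ 1) :
    (SS2 L o true N M fun x y => ex (s * D o x y)) ≤
      ENNReal.ofReal (E2 (lam L o) N M
        (fun A B => Real.exp (s * vv (rlr mt A B) N M (Qr R))) + 1) := by
  classical
  let F : (Fin N → Finset α) → (Fin M → Finset α) → ℝ :=
    fun A B => Real.exp (s * vv (rlr mt A B) N M (Qr R))
  let T1 : List α → List α → ℝ≥0∞ := fun x y =>
    ∑' C, if RealI o x y C ∧ 1 ≤ nsc C.tail then ex (vI N M C) else 0
  let T2 : List α → List α → ℝ≥0∞ := fun x y =>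
    ∑' C, if RealI o x y C ∧ R < C.length then ex (vI N M C) else 0
  have hpt : ∀ x, Z o x = N → isB o x → ∀ y, Z o y = M → isB o y →
      ex (s * D o x y) ≤ ENNReal.ofReal (F (fun t => ws o x t) fun u => ws o y u) +
        (ENNReal.ofReal (1 - s) * 1 + ENNReal.ofReal s * (T1 x y + T2 x y)) := by
    intro x hx hbx y hy hby
    rcases D_le_or_R hx hy hbx hby R with h | ⟨C, hC, hD, hC'⟩
    · refine le_trans ?_ le_self_add
      unfold ex
      refine ENNReal.ofReal_le_ofReal (Real.exp_le_exp.2 ?_)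
      exact mul_le_mul_of_nonneg_left h hs0
    · refine le_trans ?_ le_add_self
      have h1 : Real.exp (s * D o x y) ≤ (1 - s) * 1 + s * Real.exp (vI N M C) := by
        refine (Real.exp_le_exp.2 (mul_le_mul_of_nonneg_left hD hs0)).trans ?_
        have h2 := convexOn_exp.2 (Set.mem_univ (0 : ℝ)) (Set.mem_univ (vI N M C))
          (by linarith : (0 : ℝ) ≤ 1 - s) hs0 (by ring)
        simp only [smul_eq_mul, mul_zero, zero_add, Real.exp_zero] at h2
        exact h2
      have h3 : ex (vI N M C) ≤ T1 x y + T2 x y := by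
        rcases hC' with h4 | h4
        · refine le_trans ?_ le_self_add
          refine le_trans (le_of_eq ?_) (ENNReal.le_tsum C)
          rw [if_pos ⟨hC, h4⟩]
        · refine le_trans ?_ le_add_self
          refine le_trans (le_of_eq ?_) (ENNReal.le_tsum C)
          rw [if_pos ⟨hC, h4⟩]
      calc ex (s * D o x y) ≤ ENNReal.ofReal ((1 - s) * 1 + s * Real.exp (vI N M C)) :=
            ENNReal.ofReal_le_ofReal h1
        _ = ENNReal.ofReal (1 - s) * 1 + ENNReal.ofReal s * ex (vI N M C) := by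
            rw [ENNReal.ofReal_add (by linarith) (by positivity), mul_one, mul_one,
              ENNReal.ofReal_mul hs0]
            rfl
        _ ≤ _ := by gcongr
  have h1 : (SS2 L o true N M fun x y => ex (s * D o x y)) ≤
      SS2 L o true N M fun x y => ENNReal.ofReal (F (fun t => ws o x t) fun u => ws o y u) +
        (ENNReal.ofReal (1 - s) * 1 + ENNReal.ofReal s * (T1 x y + T2 x y)) := by
    unfold SS2
    exact SS_mono L o fun x hx hbx => SS_mono L o fun y hy hby => hpt x hx (hbx rfl) y hy (hby rfl)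
  have h2 : (SS2 L o true N M fun x y =>
      ENNReal.ofReal (F (fun t => ws o x t) fun u => ws o y u) +
        (ENNReal.ofReal (1 - s) * 1 + ENNReal.ofReal s * (T1 x y + T2 x y))) =
      (SS2 L o true N M fun x y =>
        ENNReal.ofReal (F (fun t => ws o x t) fun u => ws o y u)) +
        (ENNReal.ofReal (1 - s) * 1 + ENNReal.ofReal s *
          (SS2 L o true N M T1 + SS2 L o true N M T2)) := by
    unfold SS2
    simp only [SS_add, SS_const_mul, SS_one L o hm]
    simp only [Ms, if_true]
    rw [SS_one L o hm]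
    simp only [Ms, if_true]
  have h3 := words_E2 hm N M F (fun A B => (Real.exp_pos _).le)
  have h4 : SS2 L o true N M T1 ≤
      ENNReal.ofReal (4000 * rr L o * Real.exp (1000 * rr L o * N)) := FMns hm hr0 hr N M
  have h5 : SS2 L o true N M T2 ≤
      ENNReal.ofReal (2 * Real.exp (-R) * Real.exp (1000 * rr L o * N)) := FMr hm hr0 hr N M R
  refine h1.trans ?_
  rw [h2, h3]
  have hE : 0 ≤ E2 (lam L o) N M F := by
    unfold E2 PE
    refine sum_nonneg fun A _ => mul_nonneg (prod_nonneg fun _ _ => lam_nonneg _) ?_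
    exact sum_nonneg fun B _ => mul_nonneg (prod_nonneg fun _ _ => lam_nonneg _)
      (Real.exp_pos _).le
  have h6 : SS2 L o true N M T1 + SS2 L o true N M T2 ≤ 1 := by
    refine (add_le_add h4 h5).trans ?_
    rw [← ENNReal.ofReal_add (by positivity) (by positivity), ← ENNReal.ofReal_one]
    refine ENNReal.ofReal_le_ofReal ?_
    calc _ = (4000 * rr L o + 2 * Real.exp (-(R : ℝ))) * Real.exp (1000 * rr L o * N) := by ring
      _ ≤ 1 := hbad
  calc ENNReal.ofReal (E2 (lam L o) N M F) +
        (ENNReal.ofReal (1 - s) * 1 + ENNReal.ofReal s *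
          (SS2 L o true N M T1 + SS2 L o true N M T2))
      ≤ ENNReal.ofReal (E2 (lam L o) N M F) +
        (ENNReal.ofReal (1 - s) * 1 + ENNReal.ofReal s * 1) := by gcongr
    _ = ENNReal.ofReal (E2 (lam L o) N M F + 1) := by
        rw [mul_one, mul_one, ← ENNReal.ofReal_add (by linarith) hs0,
          ← ENNReal.ofReal_add hE (by linarith)]
        congr 1
        ring

end NV
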