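import Pool.Agent.Lib.MP_ae6bb1_pr.NV.Val

/-! Influences. -/

open Finset LCSH

namespace NV

/-- The part of a chain which avoids the value `a` of a strictly increasing function. -/
theorem infl_aux {m m' : ℕ → ℕ → Prop} {N M R : ℕ} (f : ℕ × ℕ → ℕ) (a : ℕ)
    {C : List (ℕ × ℕ)} (hC : IsCh m N M C) (hR : Qr R C)
    (hf : C.Pairwise (fun c c' => f c < f c'))
    (h : ∀ c : ℕ × ℕ, m c.1 c.2 → f c ≠ a → m' c.1 c.2) :
    (C.length : ℝ) - (tvd 0 (dg C) ((M : ℤ) - (N : ℤ)) : ℝ) / 2 ≤
      vv m' N M (Qr R) + (if a ∈ C.map f then 1 else 0) := by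
  set C' := C.filter (fun c => decide (f c ≠ a)) with hC'
  have hsub : C'.Sublist C := List.filter_sublist
  have h1 : IsCh m' N M C' := by
    refine ⟨hC.1.sublist hsub, ?_⟩
    intro c hc
    have h2 := List.mem_filter.1 hc
    have h3 := hC.2 c h2.1
    exact ⟨h3.1, h3.2.1, h c h3.2.2 (by simpa using h2.2)⟩
  have hR' : Qr R C' := le_trans hsub.length_le hR
  have h2 := le_vv h1 hR'
  have h3 : tvd 0 (dg C') ((M : ℤ) - (N : ℤ)) ≤ tvd 0 (dg C) ((M : ℤ) - (N : ℤ)) :=
    tvd_sublist (hsub.map _) _ _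
  have h3' : (tvd 0 (dg C') ((M : ℤ) - (N : ℤ)) : ℝ) ≤
      (tvd 0 (dg C) ((M : ℤ) - (N : ℤ)) : ℝ) := by exact_mod_cast h3
  have h4 : (C.length : ℝ) ≤ (C'.length : ℝ) + (if a ∈ C.map f then 1 else 0) := by
    split_ifs with ha
    · have h5 : C.length ≤ C'.length + 1 := by
        have h6 : (C.filter (fun c => !decide (f c ≠ a))).length ≤ 1 := by
          have h7 : (C.filter (fun c => !decide (f c ≠ a))).Pairwise
              (fun c c' => f c < f c') := hf.sublist List.filter_sublist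
          have h8 : ∀ c ∈ C.filter (fun c => !decide (f c ≠ a)), f c = a := by
            intro c hc
            have := (List.mem_filter.1 hc).2
            simpa using this
          revert h7 h8
          generalize C.filter (fun c => !decide (f c ≠ a)) = l
          intro h7 h8
          match l, h7, h8 with
          | [], _, _ => simp
          | [_], _, _ => simp
          | x :: y :: l, h7, h8 =>
            exfalso
            have h9 : f x < f y := (List.pairwise_cons.1 h7).1 y (by simp)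
            rw [h8 x (by simp), h8 y (by simp)] at h9
            exact lt_irrefl _ h9
        have h9 := List.length_eq_length_filter_add (l := C) (fun c => decide (f c ≠ a))
        rw [hC']
        omega
      exact_mod_cast h5
    · have h5 : C' = C := by
        rw [hC', List.filter_eq_self]
        intro c hc
        rw [decide_eq_true_iff]
        intro h6
        exact ha (List.mem_map.2 ⟨c, hc, h6⟩)
      rw [h5, add_zero]
  linarith

variable {T : Type} [Fintype T] (Q : Md T)

theorem vv_mono_rel {m m' : ℕ → ℕ → Prop} {N M R : ℕ} (h : ∀ t u, m t u → m' t u) :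
    vv m N M (Qr R) ≤ vv m' N M (Qr R) := by
  obtain ⟨C, h1, h2, h3⟩ := exists_vv m N M (Q := Qr R) (Nat.zero_le R)
  rw [h3]
  exact le_vv ⟨h1.1, fun c hc => ⟨(h1.2 c hc).1, (h1.2 c hc).2.1, h _ _ (h1.2 c hc).2.2⟩⟩ h2

theorem rlr_row_of {N M : ℕ} (A : Fin N → T) (B : Fin M → T) (t : Fin N) (i j : ℕ)
    (h : rlr Q.rel (Function.update A t Q.e) B i j) : rlr Q.rel A B i j := by
  obtain ⟨ht, hu, h⟩ := h
  refine ⟨ht, hu, ?_⟩
  by_cases h1 : (⟨i, ht⟩ : Fin N) = t
  · rw [h1, Function.update_self] at h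
    exact absurd h (Q.null _)
  · rwa [Function.update_of_ne h1] at h

theorem rlr_row_to {N M : ℕ} (A : Fin N → T) (B : Fin M → T) (t : Fin N) (i j : ℕ)
    (h : rlr Q.rel A B i j) (hi : i ≠ t) : rlr Q.rel (Function.update A t Q.e) B i j := by
  obtain ⟨ht, hu, h⟩ := h
  refine ⟨ht, hu, ?_⟩
  rwa [Function.update_of_ne (fun h1 => hi (congrArg Fin.val h1))]

theorem rlr_col_of {N M : ℕ} (A : Fin N → T) (B : Fin M → T) (u : Fin M) (i j : ℕ)
    (h : rlr Q.rel A (Function.update B u Q.e) i j) : rlr Q.rel A B i j := by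
  obtain ⟨ht, hu, h⟩ := h
  refine ⟨ht, hu, ?_⟩
  by_cases h1 : (⟨j, hu⟩ : Fin M) = u
  · rw [h1, Function.update_self] at h
    exact absurd (Q.symm _ _ h) (Q.null _)
  · rwa [Function.update_of_ne h1] at h

theorem rlr_col_to {N M : ℕ} (A : Fin N → T) (B : Fin M → T) (u : Fin M) (i j : ℕ)
    (h : rlr Q.rel A B i j) (hj : j ≠ u) : rlr Q.rel A (Function.update B u Q.e) i j := by
  obtain ⟨ht, hu, h⟩ := h
  refine ⟨ht, hu, ?_⟩
  rwa [Function.update_of_ne (fun h1 => hj (congrArg Fin.val h1))]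

/-- An optimal chain: the influence of a row (column) is at most `1`, and `≤ 0` if it is not used. -/
theorem infl_chain {N M R : ℕ} (A : Fin N → T) (B : Fin M → T) :
    ∃ C : List (ℕ × ℕ), C.length ≤ R ∧
      (∀ t : Fin N, vv (rlr Q.rel A B) N M (Qr R) ≤
        vv (rlr Q.rel (Function.update A t Q.e) B) N M (Qr R) +
          (if (t : ℕ) ∈ C.map Prod.fst then 1 else 0)) ∧
      (∀ u : Fin M, vv (rlr Q.rel A B) N M (Qr R) ≤
        vv (rlr Q.rel A (Function.update B u Q.e)) N M (Qr R) +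
          (if (u : ℕ) ∈ C.map Prod.snd then 1 else 0)) := by
  obtain ⟨C, h1, h2, h3⟩ := exists_vv (rlr Q.rel A B) N M (Q := Qr R) (Nat.zero_le R)
  refine ⟨C, h2, fun t => ?_, fun u => ?_⟩
  · rw [h3]
    exact infl_aux Prod.fst (t : ℕ) h1 h2 (h1.1.imp fun h => h.1)
      fun c hc hct => rlr_row_to Q A B t c.1 c.2 hc hct
  · rw [h3]
    exact infl_aux Prod.snd (u : ℕ) h1 h2 (h1.1.imp fun h => h.2)
      fun c hc hcu => rlr_col_to Q A B u c.1 c.2 hc hcu

/-- Deleting a row. Proof: remove the cell with first coordinate `t` from an optimal chain; `tvd_sublist`. The row of `Q.e` has no related cell. -/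
theorem vv_del_row {N M R : ℕ} (A : Fin N → T) (B : Fin M → T) (t : Fin N) :
    vv (rlr Q.rel (Function.update A t Q.e) B) N M (Qr R) ≤ vv (rlr Q.rel A B) N M (Qr R) ∧
    vv (rlr Q.rel A B) N M (Qr R) ≤ vv (rlr Q.rel (Function.update A t Q.e) B) N M (Qr R) + 1 := by
  refine ⟨vv_mono_rel (rlr_row_of Q A B t), ?_⟩
  obtain ⟨C, _, h1, _⟩ := infl_chain Q (R := R) A B
  refine (h1 t).trans (add_le_add_right ?_ _)
  split_ifs <;> norm_num

theorem vv_del_col {N M R : ℕ} (A : Fin N → T) (B : Fin M → T) (u : Fin M) :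
    vv (rlr Q.rel A (Function.update B u Q.e)) N M (Qr R) ≤ vv (rlr Q.rel A B) N M (Qr R) ∧
    vv (rlr Q.rel A B) N M (Qr R) ≤ vv (rlr Q.rel A (Function.update B u Q.e)) N M (Qr R) + 1 := by
  refine ⟨vv_mono_rel (rlr_col_of Q A B u), ?_⟩
  obtain ⟨C, _, _, h1⟩ := infl_chain Q (R := R) A B
  refine (h1 u).trans (add_le_add_right ?_ _)
  split_ifs <;> norm_num

theorem sum_ind_le {N : ℕ} (l : List ℕ) :
    ∑ t : Fin N, (if (t : ℕ) ∈ l then (1 : ℝ) else 0) ≤ l.length := by
  rw [Finset.sum_ite, Finset.sum_const_zero, add_zero, Finset.sum_const, nsmul_eq_mul, mul_one]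
  have h1 : (univ.filter fun t : Fin N => (t : ℕ) ∈ l).card ≤ l.toFinset.card := by
    refine Finset.card_le_card_of_injOn (fun t => (t : ℕ)) ?_ ?_
    · intro t ht
      have h2 := (Finset.mem_filter.1 (Finset.mem_coe.1 ht)).2
      exact Finset.mem_coe.2 (List.mem_toFinset.2 h2)
    · intro t _ t' _ h
      exact Fin.ext h
  exact_mod_cast h1.trans (List.toFinset_card_le l)

/-- The sum of the influences. Proof: an optimal chain has at most `R` cells; rows which it does not use have influence `≤ 0`. -/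
theorem vv_infl {N M R : ℕ} (A : Fin N → T) (B : Fin M → T) :
    ∑ t, (vv (rlr Q.rel A B) N M (Qr R) -
        vv (rlr Q.rel (Function.update A t Q.e) B) N M (Qr R)) +
      ∑ u, (vv (rlr Q.rel A B) N M (Qr R) -
        vv (rlr Q.rel A (Function.update B u Q.e)) N M (Qr R)) ≤ 2 * R := by
  obtain ⟨C, h0, h1, h2⟩ := infl_chain Q (R := R) A B
  have hR : (C.length : ℝ) ≤ R := by exact_mod_cast h0
  have h3 : ∑ t, (vv (rlr Q.rel A B) N M (Qr R) -
        vv (rlr Q.rel (Function.update A t Q.e) B) N M (Qr R)) ≤ R := by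
    refine le_trans (Finset.sum_le_sum
      (g := fun t : Fin N => if (t : ℕ) ∈ C.map Prod.fst then (1 : ℝ) else 0) fun t _ => ?_)
      ((sum_ind_le (C.map Prod.fst)).trans ?_)
    · have := h1 t
      linarith
    · rw [List.length_map]
      exact hR
  have h4 : ∑ u, (vv (rlr Q.rel A B) N M (Qr R) -
        vv (rlr Q.rel A (Function.update B u Q.e)) N M (Qr R)) ≤ R := by
    refine le_trans (Finset.sum_le_sum
      (g := fun t : Fin M => if (t : ℕ) ∈ C.map Prod.snd then (1 : ℝ) else 0) fun t _ => ?_)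
      ((sum_ind_le (C.map Prod.snd)).trans ?_)
    · have := h2 t
      linarith
    · rw [List.length_map]
      exact hR
  linarith

end NV
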