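import Pool.Agent.Lib.MP_ae6bb1_pr.NV.EsExp
import Pool.Agent.Lib.MP_ae6bb1_pr.NV.InflA

/-! Exponential moments of the value of chains with at most `R` cells. -/

open Finset LCSH

namespace NV

variable {T : Type} [Fintype T] (Q : Md T)

/-- the expectation over two independent sequences as one product expectation -/
theorem infl_E2 (lam : T → ℝ) (N M : ℕ) (F : (Fin N → T) → (Fin M → T) → ℝ) :
    PE (fun _ : Fin N ⊕ Fin M => lam) (fun ω => F (ω ∘ Sum.inl) (ω ∘ Sum.inr)) =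
      E2 lam N M F := by
  unfold E2 PE
  rw [Fintype.sum_equiv (Equiv.sumArrowEquivProdArrow (Fin N) (Fin M) T)
    (fun ω => (∏ i, lam (ω i)) * F (ω ∘ Sum.inl) (ω ∘ Sum.inr))
    (fun p => ((∏ i, lam (p.1 i)) * ∏ j, lam (p.2 j)) * F p.1 p.2) (fun ω => by
      rw [Fintype.prod_sum_type]
      rfl), Fintype.sum_prod_type]
  refine Finset.sum_congr rfl fun A _ => ?_
  rw [Finset.mul_sum]
  exact Finset.sum_congr rfl fun B _ => mul_assoc _ _ _

/-- **Exponential moment.** Proof: `es_exp` for the index type `Fin N ⊕ Fin M` (or `Fin (N + M)` and `PE_append`), with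
`2 R` in place of `R`. -/
theorem vv_mgf {N M R : ℕ} {s : ℝ} (hs : 0 ≤ s) (hsR : 2 * R * s ^ 2 ≤ 1) :
    E2 Q.lam N M (fun A B => Real.exp (s * vv (rlr Q.rel A B) N M (Qr R))) ≤
      Real.exp (s * E2 Q.lam N M (fun A B => vv (rlr Q.rel A B) N M (Qr R)) + 2 * R * s ^ 2) := by
  have hw : IsW (fun _ : Fin N ⊕ Fin M => Q.lam) := ⟨fun _ => Q.nonneg, fun _ => Q.sum_one⟩
  have hl : ∀ (ω : Fin N ⊕ Fin M → T) (t : Fin N),
      Function.update ω (Sum.inl t) Q.e ∘ Sum.inl = Function.update (ω ∘ Sum.inl) t Q.e ∧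
        Function.update ω (Sum.inl t) Q.e ∘ Sum.inr = ω ∘ Sum.inr := fun ω t =>
    ⟨Function.update_comp_eq_of_injective ω Sum.inl_injective t Q.e,
      Function.update_comp_eq_of_forall_ne ω Q.e fun _ => Sum.inr_ne_inl⟩
  have hr : ∀ (ω : Fin N ⊕ Fin M → T) (u : Fin M),
      Function.update ω (Sum.inr u) Q.e ∘ Sum.inl = ω ∘ Sum.inl ∧
        Function.update ω (Sum.inr u) Q.e ∘ Sum.inr = Function.update (ω ∘ Sum.inr) u Q.e :=
    fun ω u => ⟨Function.update_comp_eq_of_forall_ne ω Q.e fun _ => Sum.inl_ne_inr,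
      Function.update_comp_eq_of_injective ω Sum.inr_injective u Q.e⟩
  have h := es_exp hw (fun ω => vv (rlr Q.rel (ω ∘ Sum.inl) (ω ∘ Sum.inr)) N M (Qr R)) Q.e
    (R := 2 * R) (s := s)
    (by
      rintro ω (t | u)
      · rw [(hl ω t).1, (hl ω t).2]
        exact (vv_del_row Q _ _ t).1
      · rw [(hr ω u).1, (hr ω u).2]
        exact (vv_del_col Q _ _ u).1)
    (by
      rintro ω (t | u)
      · rw [(hl ω t).1, (hl ω t).2]
        exact (vv_del_row Q _ _ t).2
      · rw [(hr ω u).1, (hr ω u).2]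
        exact (vv_del_col Q _ _ u).2)
    (by
      intro ω
      rw [Fintype.sum_sum_type]
      have h1 := vv_infl Q (R := R) (ω ∘ Sum.inl) (ω ∘ Sum.inr)
      rw [Finset.sum_congr rfl fun t _ => by rw [(hl ω t).1, (hl ω t).2],
        Finset.sum_congr (s₁ := (Finset.univ : Finset (Fin M))) rfl fun u _ => by
          rw [(hr ω u).1, (hr ω u).2]]
      exact h1)
    hs (by linarith)
  rw [infl_E2 Q.lam N M fun A B => Real.exp (s * vv (rlr Q.rel A B) N M (Qr R)),
    infl_E2 Q.lam N M fun A B => vv (rlr Q.rel A B) N M (Qr R)] at h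
  rw [show 2 * (R : ℝ) * s ^ 2 = s ^ 2 * (2 * R) from by ring]
  exact h

end NV
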