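import Pool.Agent.Lib.MP_ae6bb1_pr.NV.LcLp

/-! Expectations over strings of fixed length as sums over lists. -/

open Finset LCSH
open scoped ENNReal

namespace NV

variable {α : Type} [DecidableEq α]

variable [Fintype α] (L : Law α)

omit [DecidableEq α] in
private theorem wt_ofFn (n : ℕ) (x : Fin n → α) :
    wt L (List.ofFn x) = ENNReal.ofReal (∏ i, L.p (x i)) := by
  unfold wt
  rw [List.map_ofFn, List.prod_ofFn, ENNReal.ofReal_prod_of_nonneg (fun i _ => L.nonneg _)]
  rfl

/-- Sums over the lists of length `n`. Proof: the map `List.ofFn` is a bijection of `Fin n → α` with the lists of length `n`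
(or induction on `n` with `PE_cons`). -/
theorem ofReal_PE (n : ℕ) (f : List α → ℝ) (hf : ∀ x, 0 ≤ f x) :
    ENNReal.ofReal (PE (fun _ : Fin n => L.p) fun x => f (List.ofFn x)) =
      ∑' x : List α, if x.length = n then wt L x * ENNReal.ofReal (f x) else 0 := by
  have hinj : Function.Injective (fun x : Fin n → α => List.ofFn x) := List.ofFn_injective
  have hsupp : Function.support (fun x : List α =>
      if x.length = n then wt L x * ENNReal.ofReal (f x) else 0) ⊆
      Set.range (fun x : Fin n → α => List.ofFn x) := by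
    intro l hl
    by_cases h : l.length = n
    · subst h
      exact ⟨l.get, by simp⟩
    · exact absurd (by simp [h]) hl
  rw [← hinj.tsum_eq hsupp, tsum_fintype]
  unfold PE
  rw [ENNReal.ofReal_sum_of_nonneg (fun x _ =>
    mul_nonneg (Finset.prod_nonneg fun i _ => L.nonneg _) (hf _))]
  refine Finset.sum_congr rfl fun x _ => ?_
  rw [ENNReal.ofReal_mul (Finset.prod_nonneg fun i _ => L.nonneg _), if_pos (by simp), wt_ofFn]

theorem EL_lists (n m : ℕ) : ENNReal.ofReal (EL L n m) =
    ∑' x : List α, if x.length = n then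
      wt L x * ∑' y : List α, (if y.length = m then wt L y * (lc x y : ℝ≥0∞) else 0) else 0 := by
  have h1 : EL L n m = PE (fun _ : Fin n => L.p) fun x =>
      (fun l : List α => PE (fun _ : Fin m => L.p) fun y => (lc l (List.ofFn y) : ℝ))
        (List.ofFn x) := by
    unfold EL
    simp only [lc_eq_lp]
  have h0 : ∀ l : List α,
      0 ≤ (fun l : List α => PE (fun _ : Fin m => L.p) fun y => (lc l (List.ofFn y) : ℝ)) l :=
    fun l => Finset.sum_nonneg fun y _ =>
      mul_nonneg (Finset.prod_nonneg fun i _ => L.nonneg _) (Nat.cast_nonneg _)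
  rw [h1, ofReal_PE L n _ h0]
  refine tsum_congr fun x => ?_
  by_cases hx : x.length = n
  · rw [if_pos hx, if_pos hx]
    congr 1
    rw [ofReal_PE L m (fun y => (lc x y : ℝ)) (fun y => Nat.cast_nonneg _)]
    refine tsum_congr fun y => ?_
    by_cases hy : y.length = m
    · rw [if_pos hy, if_pos hy, ENNReal.ofReal_natCast]
    · rw [if_neg hy, if_neg hy]
  · rw [if_neg hx, if_neg hx]

end NV
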