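import Pool.Agent.Lib.MP_ae6bb1_pr.NV.Mass
import Pool.Agent.Lib.MP_ae6bb1_pr.NV.ListE

/-! Truncated blocks inside strings of fixed length. -/

open Finset LCSH
open scoped ENNReal

namespace NV

variable {α : Type} [DecidableEq α] [Fintype α] {L : Law α} {o : α}

omit [Fintype α] in
theorem block_ext {x a : List α} {n : ℕ} (hx : Z o x = n) (hxa : Z o (x ++ a) = n)
    (hB : isB o (x ++ a)) : a = [] := by
  rcases List.eq_nil_or_concat a with h | ⟨b, c, h⟩
  · exact h
  · exfalso
    rw [List.concat_eq_append] at h
    subst h
    have h1 : c = o := hB (x ++ b) c (by rw [← List.append_assoc])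
    subst h1
    rw [Z_append, hx, Z_append] at hxa
    have h2 : Z c [c] = 1 := by
      unfold Z
      rw [List.count_singleton_self]
    omega

omit [Fintype α] in
/-- the block with `n` zeros at the beginning of a string is unique -/
theorem block_unique {x x' y y' : List α} {n : ℕ} (hx : Z o x = n) (hBx : isB o x)
    (hy : Z o y = n) (hBy : isB o y) (h : x ++ x' = y ++ y') : x = y ∧ x' = y' := by
  rcases List.append_eq_append_iff.1 h with ⟨a, h1, h2⟩ | ⟨a, h1, h2⟩
  · subst h1
    have h3 := block_ext hx hy hBy
    subst h3
    rw [List.append_nil]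
    exact ⟨rfl, by simpa using h2⟩
  · subst h1
    have h3 := block_ext hy hx hBx
    subst h3
    rw [List.append_nil]
    exact ⟨rfl, by simpa using h2.symm⟩

theorem wt_length (k : ℕ) : ∑' x : List α, (if x.length = k then wt L x else 0) = 1 := by
  have h := ofReal_PE L k (fun _ => 1) (fun _ => zero_le_one)
  rw [PE_const (isW_law L)] at h
  simp only [ENNReal.ofReal_one, mul_one] at h
  exact h.symm

open Classical in
/-- blocks inside strings of length `l` -/
theorem trunc_aux (n l : ℕ) (g G : List α → ℝ≥0∞)
    (hg : ∀ x x', Z o x = n → isB o x → (x ++ x').length = l → g x ≤ G (x ++ x')) :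
    (∑' x : List α, if Z o x = n ∧ (true = true → isB o x) then
      wt L x * (if x.length ≤ l then g x else 0) else 0) ≤
      ∑' X : List α, if X.length = l then wt L X * G X else 0 := by
  set H : List α → ℝ≥0∞ := fun X => if X.length = l then wt L X * G X else 0 with hH
  set S : Set (List α × List α) := {p | Z o p.1 = n ∧ isB o p.1} with hS
  have h1 : ∀ x : List α, (if Z o x = n ∧ (true = true → isB o x) then
      wt L x * (if x.length ≤ l then g x else 0) else 0) ≤
      ∑' x' : List α, S.indicator (fun p : List α × List α => H (p.1 ++ p.2)) (x, x') := by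
    intro x
    by_cases hx : Z o x = n ∧ (true = true → isB o x)
    · rw [if_pos hx]
      have hx2 : isB o x := hx.2 rfl
      by_cases hl : x.length ≤ l
      · rw [if_pos hl]
        calc wt L x * g x
            = wt L x * g x * ∑' x' : List α, (if x'.length = l - x.length then wt L x' else 0) := by
              rw [wt_length, mul_one]
          _ = ∑' x' : List α, wt L x * g x *
                (if x'.length = l - x.length then wt L x' else 0) := by
              rw [ENNReal.tsum_mul_left]
          _ ≤ _ := by
              refine ENNReal.tsum_le_tsum fun x' => ?_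
              have hm : (x, x') ∈ S := ⟨hx.1, hx2⟩
              rw [Set.indicator_of_mem hm]
              simp only [hH]
              by_cases h' : x'.length = l - x.length
              · have h2 : (x ++ x').length = l := by
                  rw [List.length_append]
                  omega
                rw [if_pos h', if_pos h2, wt_append]
                have h3 := hg x x' hx.1 hx2 h2
                calc wt L x * g x * wt L x' = wt L x * wt L x' * g x := by ring
                  _ ≤ wt L x * wt L x' * G (x ++ x') := by gcongr
              · rw [if_neg h', mul_zero]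
                exact zero_le
      · rw [if_neg hl, mul_zero]
        exact zero_le
    · rw [if_neg hx]
      exact zero_le
  refine (ENNReal.tsum_le_tsum h1).trans ?_
  rw [← ENNReal.tsum_prod (f := fun x x' =>
    S.indicator (fun p : List α × List α => H (p.1 ++ p.2)) (x, x'))]
  have h2 : ∑' p : List α × List α,
      S.indicator (fun p : List α × List α => H (p.1 ++ p.2)) (p.1, p.2) =
      ∑' p : S, H (p.1.1 ++ p.1.2) := by
    rw [tsum_subtype S (fun p : List α × List α => H (p.1 ++ p.2))]
  rw [h2]
  refine ENNReal.tsum_comp_le_tsum_of_injective (f := fun p : S => p.1.1 ++ p.1.2) ?_ H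
  rintro ⟨⟨x, x'⟩, hx⟩ ⟨⟨y, y'⟩, hy⟩ h
  obtain ⟨h3, h4⟩ := block_unique hx.1 hx.2 hy.1 hy.2 h
  subst h3
  subst h4
  rfl

open Classical in
/-- Truncated blocks inside strings of length `l`. Proof: for a block `x` with `|x| ≤ l` the strings `x ++ x'` with `|x'| = l - |x|` have the total
weight `wt x`; the map `(x, x') ↦ x ++ x'` is injective for blocks `x` with `n` zeros; `lc_mono`, `EL_lists`. -/
theorem trunc_le_EL (hm : 0 < L.p o) (n l : ℕ) :
    (SS2 L o true n n fun x y => if x.length ≤ l ∧ y.length ≤ l then (lc x y : ℝ≥0∞) else 0) ≤
      ENNReal.ofReal (EL L l l) := by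
  rw [EL_lists]
  have h1 := trunc_aux (L := L) (o := o) n l
    (fun x => ∑' y : List α, if Z o y = n ∧ (true = true → isB o y) then
      wt L y * (if y.length ≤ l then (lc x y : ℝ≥0∞) else 0) else 0)
    (fun X => ∑' y : List α, if y.length = l then wt L y * (lc X y : ℝ≥0∞) else 0) (by
      intro x x' _ _ _
      refine trunc_aux (L := L) (o := o) n l (fun y => (lc x y : ℝ≥0∞))
        (fun Y => (lc (x ++ x') Y : ℝ≥0∞)) ?_
      intro y y' _ _ _
      exact_mod_cast lc_mono x x' y y')
  refine le_trans (le_of_eq ?_) h1
  unfold SS2 SS
  refine tsum_congr fun x => ?_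
  by_cases hx : Z o x = n ∧ (true = true → isB o x)
  · rw [if_pos hx, if_pos hx]
    congr 1
    by_cases hl : x.length ≤ l
    · rw [if_pos hl]
      refine tsum_congr fun y => ?_
      by_cases hy : Z o y = n ∧ (true = true → isB o y)
      · rw [if_pos hy, if_pos hy]
        congr 1
        beta_reduce
        by_cases hl' : y.length ≤ l
        · rw [if_pos ⟨hl, hl'⟩, if_pos hl']
        · rw [if_neg (fun h => hl' h.2), if_neg hl']
      · rw [if_neg hy, if_neg hy]
    · rw [if_neg hl]
      rw [ENNReal.tsum_eq_zero]
      intro y
      by_cases hy : Z o y = n ∧ (true = true → isB o y)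
      · rw [if_pos hy]
        beta_reduce
        rw [if_neg (fun h => hl h.1), mul_zero]
      · rw [if_neg hy]
  · rw [if_neg hx, if_neg hx]

end NV
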