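import Pool.Agent.Lib.MP_ae6bb1_pr.NV.LbB
import Pool.Agent.Lib.MP_ae6bb1_pr.NV.LbC

/-! Lower bound for the growth constant. -/

open Finset LCSH
open scoped ENNReal

namespace NV

variable {α : Type} [DecidableEq α] [Fintype α] {L : Law α} {o : α}

theorem lb_p_le_one : L.p o ≤ 1 := by
  rw [← L.sum_one]
  exact Finset.single_le_sum (fun a _ => L.nonneg a) (Finset.mem_univ o)

theorem lb_pt {ε μ K : ℝ} (hε : 0 < ε) (hμ : 0 < μ) (hK : K = (1 + ε) / (ε ^ 2 * μ)) (t : ℝ) (ht : (1 + ε) * μ ≤ t) :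
    t + 2 * K * μ * t ≤ K * t ^ 2 + K * μ ^ 2 := by
  have hK0 : 0 < K := by
    rw [hK]
    positivity
  have h1 : K * (ε ^ 2 * μ) = 1 + ε := by
    rw [hK]
    field_simp
  have h2 : 0 ≤ t - μ - ε * μ := by linarith
  have h3 : ε * t ≤ (1 + ε) * (t - μ) := by linarith
  have h4 : 0 ≤ t - μ := by nlinarith
  have h5 : ε * t * (ε * μ) ≤ (1 + ε) * (t - μ) * (t - μ) := by
    have ht0 : 0 ≤ t := by nlinarith
    have h6 : ε * μ ≤ t - μ := by linarith
    have := mul_le_mul h3 h6 (by positivity) (by positivity)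
    linarith
  have h7 : (1 + ε) * t ≤ (1 + ε) * (K * (t - μ) ^ 2) := by
    have := mul_le_mul_of_nonneg_left h5 hK0.le
    have e1 : K * (ε * t * (ε * μ)) = (1 + ε) * t := by
      rw [← h1]
      ring
    rw [e1] at this
    refine this.trans (le_of_eq ?_)
    ring
  have h8 : t ≤ K * (t - μ) ^ 2 := le_of_mul_le_mul_left h7 (by positivity)
  linarith [h8]

/-- the tail of the length of a block -/
theorem lb_tail (hm : 0 < L.p o) {ε : ℝ} (hε : 0 < ε) (n l : ℕ) (hn : 0 < n)
    (hl : (1 + ε) * (n / L.p o) ≤ l) :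
    SS L o true n (fun x => if l < x.length then (x.length : ℝ≥0∞) else 0) ≤
      ENNReal.ofReal ((1 + ε) / (ε ^ 2 * L.p o)) := by
  have hm1 : L.p o ≤ 1 := lb_p_le_one
  have hn' : (0 : ℝ) < n := by exact_mod_cast hn
  obtain ⟨μ, hμ⟩ : ∃ μ : ℝ, μ = n / L.p o := ⟨_, rfl⟩
  obtain ⟨K, hK⟩ : ∃ K : ℝ, K = (1 + ε) / (ε ^ 2 * μ) := ⟨_, rfl⟩
  obtain ⟨v, hv⟩ : ∃ v : ℝ, v = n * (1 - L.p o) / L.p o ^ 2 := ⟨_, rfl⟩
  have hμ0 : 0 < μ := by
    rw [hμ]
    positivity
  have hK0 : 0 < K := by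
    rw [hK]
    positivity
  have hv0 : 0 ≤ v := by
    rw [hv]
    have : 0 ≤ 1 - L.p o := by linarith
    positivity
  have key : SS L o true n (fun x => if l < x.length then (x.length : ℝ≥0∞) else 0) +
      ENNReal.ofReal (2 * K * μ) * SS L o true n (fun x => (x.length : ℝ≥0∞)) ≤
      ENNReal.ofReal K * SS L o true n (fun x => (x.length : ℝ≥0∞) ^ 2) +
      ENNReal.ofReal (K * μ ^ 2) * SS L o true n (fun _ => 1) := by
    rw [← SS_const_mul, ← SS_const_mul, ← SS_const_mul, ← SS_add, ← SS_add]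
    refine SS_mono L o fun x _ _ => ?_
    have e1 : (if l < x.length then (x.length : ℝ≥0∞) else 0) = ENNReal.ofReal (if l < x.length then (x.length : ℝ) else 0) := by
      split_ifs
      · rw [ENNReal.ofReal_natCast]
      · rw [ENNReal.ofReal_zero]
    have e2 : (x.length : ℝ≥0∞) = ENNReal.ofReal (x.length : ℝ) := (ENNReal.ofReal_natCast _).symm
    rw [e1, e2, ← ENNReal.ofReal_pow (Nat.cast_nonneg _), ← ENNReal.ofReal_mul (by positivity), ← ENNReal.ofReal_mul (by positivity), mul_one,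
      ← ENNReal.ofReal_add (by split_ifs <;> positivity) (by positivity), ← ENNReal.ofReal_add (by positivity) (by positivity)]
    apply ENNReal.ofReal_le_ofReal
    split_ifs with h
    · have h1 : (l : ℝ) < x.length := by exact_mod_cast h
      refine lb_pt hε hμ0 hK _ ?_
      rw [hμ]
      linarith
    · nlinarith [mul_nonneg hK0.le (sq_nonneg ((x.length : ℝ) - μ))]
  rw [SS_len hm, SS_len2 hm, SS_one L o hm] at key
  have e3 : ENNReal.ofReal (2 * K * μ) * ENNReal.ofReal (n / L.p o) = ENNReal.ofReal (2 * K * μ ^ 2) := by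
    rw [← hμ, ← ENNReal.ofReal_mul (by positivity)]
    congr 1
    ring
  have e4 : ENNReal.ofReal K * ENNReal.ofReal ((n : ℝ) ^ 2 / L.p o ^ 2 + n * (1 - L.p o) / L.p o ^ 2) + ENNReal.ofReal (K * μ ^ 2) * Ms L o true =
      ENNReal.ofReal (K * v) + ENNReal.ofReal (2 * K * μ ^ 2) := by
    have e5 : Ms L o true = 1 := rfl
    rw [e5, mul_one, ← ENNReal.ofReal_mul hK0.le, ← ENNReal.ofReal_add _ (by positivity), ← ENNReal.ofReal_add (by positivity) (by positivity)]
    · congr 1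
      rw [← hv, hμ]
      ring
    · rw [← hv]
      positivity
  rw [e3, e4] at key
  refine (ENNReal.le_of_add_le_add_right ENNReal.ofReal_ne_top key).trans ?_
  apply ENNReal.ofReal_le_ofReal
  have e6 : K * v = (1 + ε) / (ε ^ 2 * L.p o) * (1 - L.p o) := by
    rw [hK, hv, hμ]
    field_simp
  rw [e6]
  have h9 : 0 ≤ (1 + ε) / (ε ^ 2 * L.p o) := by positivity
  nlinarith

/-- Long blocks are negligible: for `l ≥ (1 + ε) n / m`,
`elc n n ≤ EL l l + 2 E(|x|; |x| > l) ≤ EL l l + 2 (1 + ε) / (ε ^ 2 m)`. Proof: `lc x y ≤ |x|`, `lc x y ≤ |y|`; for `|x| > l` we have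
`|x| ≤ (1 + ε) / ε (|x| - n / m)` and `|x| - n / m ≥ ε n / m`, so `|x| ≤ (1 + ε) / ε (|x| - n/m)^2 / (ε n / m)`; the variance is
`n (1 - m) / m ^ 2` (`SS_len`, `SS_len2`). -/
theorem elc_le_EL (hm : 0 < L.p o) {ε : ℝ} (hε : 0 < ε) (n l : ℕ) (hn : 0 < n)
    (hl : (1 + ε) * (n / L.p o) ≤ l) :
    elc L o n n ≤ EL L l l + 2 * ((1 + ε) / (ε ^ 2 * L.p o)) := by
  have hT := lb_tail hm hε n l hn hl
  have hE := trunc_le_EL (L := L) (o := o) hm n l
  have hC0 : 0 ≤ (1 + ε) / (ε ^ 2 * L.p o) := by positivity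
  have hEL := EL_nonneg L l l
  have hM : SS L o true n (fun _ => 1) = 1 := SS_one L o hm true n
  obtain ⟨g, hg⟩ : ∃ g : List α → ℝ≥0∞, g = fun x => if l < x.length then (x.length : ℝ≥0∞) else 0 := ⟨_, rfl⟩
  rw [← hg] at hT
  have hpt : ∀ x y : List α, (lc x y : ℝ≥0∞) ≤ (if x.length ≤ l ∧ y.length ≤ l then (lc x y : ℝ≥0∞) else 0) + (g x * 1 + g y) := by
    intro x y
    have h1 := lc_le_left x y
    have h2 := lc_le_right x y
    rw [hg]
    simp only
    by_cases hx : l < x.length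
    · rw [if_pos hx, mul_one]
      refine le_trans (Nat.cast_le.mpr h1) ?_
      rw [← add_assoc]
      exact le_trans le_add_self le_self_add
    · by_cases hy : l < y.length
      · rw [if_pos hy]
        refine le_trans (Nat.cast_le.mpr h2) ?_
        rw [← add_assoc]
        exact le_add_self
      · rw [if_pos (show x.length ≤ l ∧ y.length ≤ l by omega)]
        exact le_self_add
  have hsum : (SS2 L o true n n fun x y => (lc x y : ℝ≥0∞)) ≤
      (SS2 L o true n n fun x y => if x.length ≤ l ∧ y.length ≤ l then (lc x y : ℝ≥0∞) else 0) + (SS L o true n g + SS L o true n g) := by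
    calc (SS2 L o true n n fun x y => (lc x y : ℝ≥0∞))
        ≤ SS L o true n (fun x => SS L o true n (fun y => (if x.length ≤ l ∧ y.length ≤ l then (lc x y : ℝ≥0∞) else 0) + (g x * 1 + g y))) := by
          unfold SS2
          refine SS_mono L o fun x _ _ => ?_
          exact SS_mono L o fun y _ _ => hpt x y
      _ = SS L o true n (fun x => SS L o true n (fun y => (if x.length ≤ l ∧ y.length ≤ l then (lc x y : ℝ≥0∞) else 0)) + (g x + SS L o true n g * 1)) := by
          congr 1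
          funext x
          rw [SS_add, SS_add, SS_const_mul, hM, mul_one, mul_one]
      _ = _ := by
          rw [SS_add, SS_add, SS_const_mul, hM, mul_one]
          rfl
  unfold elc
  refine ENNReal.toReal_le_of_le_ofReal (by positivity) ?_
  refine hsum.trans ?_
  rw [two_mul, ENNReal.ofReal_add hEL (by positivity), ENNReal.ofReal_add hC0 hC0]
  exact add_le_add hE (add_le_add hT hT)

theorem lb_elc_mul (hm : 0 < L.p o) (n j : ℕ) : (j : ℝ) * elc L o n n ≤ elc L o (j * n) (j * n) := by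
  induction j with
  | zero =>
    rw [Nat.cast_zero, zero_mul]
    exact elc_nonneg _ _
  | succ j ih =>
    have h1 := elc_super (L := L) (o := o) hm (j * n) (j * n) n n
    have e : (j + 1) * n = j * n + n := by ring
    rw [e]
    push_cast
    linarith

theorem lb_elc_eps (hm : 0 < L.p o) (n : ℕ) (hn : 0 < n) {ε : ℝ} (hε : 0 < ε) :
    elc L o n n ≤ gam L * ((1 + ε) * (n / L.p o)) := by
  by_contra hcon
  rw [not_le] at hcon
  obtain ⟨a, ha⟩ : ∃ a : ℝ, a = elc L o n n - gam L * ((1 + ε) * (n / L.p o)) := ⟨_, rfl⟩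
  have ha0 : 0 < a := by linarith
  obtain ⟨C, hC⟩ : ∃ C : ℝ, C = 2 * ((1 + ε) / (ε ^ 2 * L.p o)) := ⟨_, rfl⟩
  obtain ⟨j, hj⟩ := exists_nat_gt ((gam L + C) / a)
  have hg := gam_nonneg L
  have hC0 : 0 < C := by
    rw [hC]
    positivity
  have hj0 : (0 : ℝ) < j := lt_of_le_of_lt (by positivity) hj
  have hj1 : 0 < j := by exact_mod_cast hj0
  have h1 := lb_elc_mul hm n j
  have h2 := elc_le_EL hm hε (j * n) ⌈(1 + ε) * (((j * n : ℕ) : ℝ) / L.p o)⌉₊ (Nat.mul_pos hj1 hn) (Nat.le_ceil _)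
  rw [← hC] at h2
  have h3 := EL_le_gam L ⌈(1 + ε) * (((j * n : ℕ) : ℝ) / L.p o)⌉₊
  have h4 : ((⌈(1 + ε) * (((j * n : ℕ) : ℝ) / L.p o)⌉₊ : ℕ) : ℝ) < (1 + ε) * (((j * n : ℕ) : ℝ) / L.p o) + 1 :=
    Nat.ceil_lt_add_one (by positivity)
  have h5 := mul_le_mul_of_nonneg_left h4.le hg
  have h6 : gam L * ((1 + ε) * (((j * n : ℕ) : ℝ) / L.p o) + 1) = j * (gam L * ((1 + ε) * (n / L.p o))) + gam L := by
    push_cast
    ring
  rw [h6] at h5
  have h7 : (j : ℝ) * a ≤ gam L + C := by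
    rw [ha, mul_sub]
    linarith
  rw [div_lt_iff₀ ha0] at hj
  linarith

/-- **Lower bound for the growth constant.** Proof: `j elc n n ≤ elc (j n) (j n) ≤ EL l l + C(ε) ≤ gam l + C(ε)`,
`l = ⌈(1 + ε) j n / m⌉`; divide by `j`, `j → ∞`, then `ε → 0`. -/
theorem elc_le_gam (hm : 0 < L.p o) (n : ℕ) : elc L o n n * L.p o ≤ gam L * n := by
  rcases Nat.eq_zero_or_pos n with rfl | hn
  · have h1 := elc_super (L := L) (o := o) hm 0 0 0 0
    rw [Nat.add_zero] at h1
    have h2 : elc L o 0 0 ≤ 0 := by linarith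
    rw [Nat.cast_zero, mul_zero]
    exact mul_nonpos_of_nonpos_of_nonneg h2 hm.le
  · have hg := gam_nonneg L
    have h1 : elc L o n n ≤ gam L * (n / L.p o) := by
      refine le_of_forall_pos_le_add fun δ hδ => ?_
      have hB : 0 ≤ gam L * (n / L.p o) := by positivity
      have h2 := lb_elc_eps hm n hn (ε := δ / (gam L * (n / L.p o) + 1)) (by positivity)
      refine h2.trans ?_
      have h3 : gam L * ((1 + δ / (gam L * (n / L.p o) + 1)) * (n / L.p o)) =
          gam L * (n / L.p o) + δ * (gam L * (n / L.p o) / (gam L * (n / L.p o) + 1)) := by ring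
      rw [h3]
      have h4 : gam L * (n / L.p o) / (gam L * (n / L.p o) + 1) ≤ 1 := by
        rw [div_le_one (by positivity)]
        linarith
      nlinarith
    have h5 := mul_le_mul_of_nonneg_right h1 hm.le
    have h6 : gam L * (n / L.p o) * L.p o = gam L * n := by
      field_simp
    linarith

end NV
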