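import Pool.Agent.Lib.MP_ae6bb1_pr.NV.ExpA
import Pool.Agent.Lib.MP_ae6bb1_pr.NV.ExpC
import Pool.Agent.Lib.MP_ae6bb1_pr.NV.Infl
import Pool.Agent.Lib.MP_ae6bb1_pr.NV.Lb

/-! Near the diagonal. -/

open Finset LCSH
open scoped ENNReal

namespace NV

variable {α : Type} [DecidableEq α] [Fintype α] {L : Law α} {o : α}

/-- Near the diagonal. Proof: `SS2_ex_le`, `vv_mgf` for `wmd hm`, `E2_vv_le`, `elc_rect`, `elc_mono`. -/
theorem near_le (hm : 0 < L.p o) (hr0 : 0 < rr L o) (hr : rr L o ≤ 1 / 1000) {s b K : ℝ}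
    {N M N' R : ℕ} (hK : rr L o * N ≤ K)
    (hbad : (4000 * rr L o + 2 * Real.exp (-(R : ℝ))) * Real.exp (1000 * K) ≤ 1)
    (hs : 0 < s) (hs1 : s ≤ 1) (hsR : 2 * R * s ^ 2 ≤ 1) (hN' : N + M ≤ N')
    (hb : elc L o N' N' - N' ≤ b) :
    (SS2 L o true N M fun x y => ex (s * D o x y)) ≤
      ENNReal.ofReal (Real.exp (s * b / 2 + 1) + 1) := by
  have hbad' : (4000 * rr L o + 2 * Real.exp (-(R : ℝ))) * Real.exp (1000 * rr L o * N) ≤ 1 := by
    refine le_trans (mul_le_mul_of_nonneg_left (Real.exp_le_exp.2 ?_) (by positivity)) hbad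
    rw [mul_assoc]
    exact mul_le_mul_of_nonneg_left hK (by norm_num)
  refine (SS2_ex_le hm hr0 hr hs.le hs1 N M R hbad').trans (ENNReal.ofReal_le_ofReal ?_)
  have h1 := vv_mgf (wmd (L := L) (o := o) hm) (N := N) (M := M) (R := R) hs.le hsR
  have h2 := E2_vv_le (L := L) (o := o) hm N M (Q := Qr R) (by simp [Qr])
  have h3 := elc_rect (L := L) (o := o) hm N M
  have h4 := elc_mono (L := L) (o := o) hm hN'
  have h5 : E2 (lam L o) N M (fun A B => vv (rlr mt A B) N M (Qr R)) ≤ b / 2 := by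
    push_cast at h4
    linarith
  have h6 : E2 (lam L o) N M (fun A B => Real.exp (s * vv (rlr mt A B) N M (Qr R))) ≤
      Real.exp (s * b / 2 + 1) := by
    refine le_trans h1 (Real.exp_le_exp.2 ?_)
    have h7 : s * E2 (lam L o) N M (fun A B => vv (rlr mt A B) N M (Qr R)) ≤ s * (b / 2) :=
      mul_le_mul_of_nonneg_left h5 hs.le
    change s * E2 (lam L o) N M (fun A B => vv (rlr mt A B) N M (Qr R)) + 2 * R * s ^ 2 ≤ _
    linarith
  linarith

end NV
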