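import Pool.Agent.Lib.MP_ae6bb1_pr.NV.FM

/-! Far from the diagonal. -/

open Finset LCSH
open scoped ENNReal

namespace NV

variable {α : Type} [DecidableEq α] [Fintype α] {L : Law α} {o : α}

/-- Far from the diagonal. Proof: `FMsmall`; `2 exp (1000 K) ≤ exp (V / 8)`. -/
theorem far_le (hm : 0 < L.p o) (hr0 : 0 < rr L o) (hr : rr L o ≤ 1 / 1000) {s K : ℝ}
    {N M V : ℕ} (hK : rr L o * N ≤ K) (hs : 0 < s) (hs1 : s ≤ 1) (hV : 8 * (1000 * K + 1) ≤ V)
    (hM : V < ((N : ℤ) - M).natAbs) :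
    (SS2 L o true N M fun x y => ex (s * D o x y)) ≤
      ENNReal.ofReal (Real.exp (-(s / 4 * (((N : ℤ) - M).natAbs : ℝ)))) := by
  have h1 := FMsmall (L := L) (o := o) hm hr0 hr hs.le hs1 true N M
  have hMs : Ms L o true = 1 := by simp [Ms]
  rw [hMs, one_pow, one_mul] at h1
  refine h1.trans (ENNReal.ofReal_le_ofReal ?_)
  have hVd : (V : ℝ) < (((N : ℤ) - M).natAbs : ℝ) := by exact_mod_cast hM
  set d : ℝ := (((N : ℤ) - M).natAbs : ℝ) with hd
  have h2 : (2 : ℝ) ≤ Real.exp 1 := by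
    have := Real.add_one_le_exp (1 : ℝ)
    linarith
  have h3 : 2 * Real.exp (1000 * rr L o * N) * Real.exp (-(3 / 8 * d)) ≤ Real.exp (-(d / 4)) := by
    calc 2 * Real.exp (1000 * rr L o * N) * Real.exp (-(3 / 8 * d))
        ≤ Real.exp 1 * Real.exp (1000 * rr L o * N) * Real.exp (-(3 / 8 * d)) := by
          gcongr
      _ = Real.exp (1 + 1000 * rr L o * N + -(3 / 8 * d)) := by
          rw [← Real.exp_add, ← Real.exp_add]
      _ ≤ Real.exp (-(d / 4)) := by
          apply Real.exp_le_exp.2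
          have h4 : 1000 * rr L o * N ≤ 1000 * K := by
            rw [mul_assoc]
            exact mul_le_mul_of_nonneg_left hK (by norm_num)
          linarith
  have h5 : 0 ≤ 2 * Real.exp (1000 * rr L o * N) * Real.exp (-(3 / 8 * d)) := by positivity
  calc (2 * Real.exp (1000 * rr L o * N) * Real.exp (-(3 / 8 * d))) ^ s
      ≤ (Real.exp (-(d / 4))) ^ s := Real.rpow_le_rpow h5 h3 hs.le
    _ = Real.exp (-(s / 4 * d)) := by
        rw [← Real.exp_mul]
        congr 1
        ring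

/-- `∑_{M ≠ N} exp (- t |N - M|) ≤ 2 / t`. -/
theorem tsum_exp_le {t : ℝ} (ht : 0 < t) (N : ℕ) :
    (∑' M : ℕ, if M = N then 0 else
      ENNReal.ofReal (Real.exp (-(t * (((N : ℤ) - M).natAbs : ℝ))))) ≤ ENNReal.ofReal (2 / t) := by
  set f : ℕ → ℝ≥0∞ := fun M => if M = N then 0 else
      ENNReal.ofReal (Real.exp (-(t * (((N : ℤ) - M).natAbs : ℝ)))) with hf
  set g : ℕ → ℝ≥0∞ := fun k => ENNReal.ofReal (Real.exp (-(t * ((k : ℝ) + 1)))) with hg
  have h1 : ∑ M ∈ range (N + 1), f M + ∑' i, f (i + (N + 1)) = ∑' i, f i :=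
    Summable.sum_add_tsum_nat_add' ENNReal.summable
  have h2 : ∑' i, f (i + (N + 1)) = ∑' i, g i := by
    refine tsum_congr fun i => ?_
    simp only [hf, hg]
    rw [if_neg (by omega)]
    have h3 : ((((N : ℤ) - ((i + (N + 1) : ℕ) : ℤ)).natAbs : ℕ) : ℝ) = (i : ℝ) + 1 := by
      have : ((N : ℤ) - ((i + (N + 1) : ℕ) : ℤ)).natAbs = i + 1 := by omega
      rw [this]
      push_cast
      ring
    rw [h3]
  have h4 : ∑ M ∈ range (N + 1), f M ≤ ∑' i, g i := by
    rw [Finset.sum_range_succ]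
    have h5 : f N = 0 := by simp [hf]
    rw [h5, add_zero, ← Finset.sum_range_reflect]
    refine le_trans (le_of_eq ?_) (ENNReal.sum_le_tsum (range N))
    refine Finset.sum_congr rfl fun k hk => ?_
    have hk' := Finset.mem_range.1 hk
    simp only [hf, hg]
    rw [if_neg (by omega)]
    have h3 : ((((N : ℤ) - ((N - 1 - k : ℕ) : ℤ)).natAbs : ℕ) : ℝ) = (k : ℝ) + 1 := by
      have : ((N : ℤ) - ((N - 1 - k : ℕ) : ℤ)).natAbs = k + 1 := by omega
      rw [this]
      push_cast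
      ring
    rw [h3]
  have hlt : Real.exp (-t) < 1 := by
    rw [Real.exp_lt_one_iff]
    linarith
  have hg2 : ∀ k : ℕ, Real.exp (-(t * ((k : ℝ) + 1))) = Real.exp (-t) * Real.exp (-t) ^ k := by
    intro k
    rw [← Real.exp_nat_mul, ← Real.exp_add]
    congr 1
    ring
  have h6 : ∑' i, g i = ENNReal.ofReal (Real.exp (-t) * (1 - Real.exp (-t))⁻¹) := by
    simp only [hg, hg2]
    rw [← ENNReal.ofReal_tsum_of_nonneg (fun n => by positivity)
      ((summable_geometric_of_lt_one (Real.exp_pos _).le hlt).mul_left _), tsum_mul_left,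
      tsum_geometric_of_lt_one (Real.exp_pos _).le hlt]
  have h7 : Real.exp (-t) * (1 - Real.exp (-t))⁻¹ ≤ 1 / t := by
    rw [← div_eq_mul_inv, div_le_div_iff₀ (by linarith) ht]
    have h8 := Real.add_one_le_exp t
    have h9 : Real.exp (-t) * Real.exp t = 1 := by
      rw [← Real.exp_add]
      simp
    have h10 := Real.exp_pos (-t)
    nlinarith
  calc (∑' M : ℕ, f M) = ∑ M ∈ range (N + 1), f M + ∑' i, f (i + (N + 1)) := h1.symm
    _ ≤ ENNReal.ofReal (1 / t) + ENNReal.ofReal (1 / t) := by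
        rw [h2]
        refine add_le_add (h4.trans ?_) ?_ <;>
        · rw [h6]
          exact ENNReal.ofReal_le_ofReal h7
    _ = ENNReal.ofReal (2 / t) := by
        rw [← ENNReal.ofReal_add (by positivity) (by positivity)]
        congr 1
        ring

end NV
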