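import Pool.Agent.Lib.MP_ae6bb1_pr.NV.BdA
import Pool.Agent.Lib.MP_ae6bb1_pr.NV.BdB

/-! The sum over the second block. -/

open Finset LCSH
open scoped ENNReal

namespace NV

variable {α : Type} [DecidableEq α] [Fintype α] {L : Law α} {o : α}

/-- Proof: `near_le` for the at most `2 V + 1` values `M` with `|N - M| ≤ V`, `far_le`, `tsum_exp_le` with `t = s / 4` for the others. -/
theorem Zs_le (hm : 0 < L.p o) (hr0 : 0 < rr L o) (hr : rr L o ≤ 1 / 1000) {s b K : ℝ}
    {N N' R V : ℕ} (hK : rr L o * N ≤ K)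
    (hbad : (4000 * rr L o + 2 * Real.exp (-(R : ℝ))) * Real.exp (1000 * K) ≤ 1)
    (hs : 0 < s) (hs1 : s ≤ 1) (hsR : 2 * R * s ^ 2 ≤ 1) (hV : 8 * (1000 * K + 1) ≤ V)
    (hN' : 2 * N + V ≤ N') (hb : elc L o N' N' - N' ≤ b) :
    Zs L o s N ≤ ENNReal.ofReal ((2 * V + 1) * (Real.exp (s * b / 2 + 1) + 1) + 8 / s) := by
  classical
  have hA : (0 : ℝ) ≤ Real.exp (s * b / 2 + 1) + 1 := by positivity
  have hterm : ∀ M : ℕ, (SS2 L o true N M fun x y => ex (s * D o x y)) ≤
      (if ((N : ℤ) - M).natAbs ≤ V then ENNReal.ofReal (Real.exp (s * b / 2 + 1) + 1) else 0) +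
        (if M = N then 0 else
          ENNReal.ofReal (Real.exp (-(s / 4 * (((N : ℤ) - M).natAbs : ℝ))))) := by
    intro M
    by_cases hMV : ((N : ℤ) - M).natAbs ≤ V
    · rw [if_pos hMV]
      refine le_trans ?_ le_self_add
      exact near_le hm hr0 hr hK hbad hs hs1 hsR (by omega) hb
    · rw [if_neg hMV, zero_add, if_neg (by rintro rfl; simp at hMV)]
      exact far_le hm hr0 hr hK hs hs1 hV (not_le.1 hMV)
  have h1 : (∑' M : ℕ, if ((N : ℤ) - M).natAbs ≤ V then
      ENNReal.ofReal (Real.exp (s * b / 2 + 1) + 1) else 0) ≤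
      ENNReal.ofReal ((2 * V + 1) * (Real.exp (s * b / 2 + 1) + 1)) := by
    rw [tsum_eq_sum (s := Finset.Icc (N - V) (N + V))]
    · have h2 : ∀ M ∈ Finset.Icc (N - V) (N + V), (if ((N : ℤ) - M).natAbs ≤ V then
          ENNReal.ofReal (Real.exp (s * b / 2 + 1) + 1) else 0) ≤
          ENNReal.ofReal (Real.exp (s * b / 2 + 1) + 1) := by
        intro M _
        split_ifs
        · exact le_rfl
        · exact zero_le
      refine (Finset.sum_le_card_nsmul _ _ _ h2).trans ?_
      have h3 : (Finset.Icc (N - V) (N + V)).card ≤ 2 * V + 1 := by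
        rw [Nat.card_Icc]
        omega
      have h4 : (0 : ℝ) ≤ 2 * V + 1 := by positivity
      rw [nsmul_eq_mul, ENNReal.ofReal_mul h4]
      gcongr
      rw [← ENNReal.ofReal_natCast]
      apply ENNReal.ofReal_le_ofReal
      exact_mod_cast h3
    · intro M hM
      rw [if_neg]
      intro h
      apply hM
      rw [Finset.mem_Icc]
      omega
  have h5 := tsum_exp_le (t := s / 4) (by positivity) N
  have h6 : 2 / (s / 4) = 8 / s := by
    field_simp
    norm_num
  rw [h6] at h5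
  unfold Zs
  refine (ENNReal.tsum_le_tsum hterm).trans ?_
  have h7 : ENNReal.ofReal ((2 * V + 1) * (Real.exp (s * b / 2 + 1) + 1) + 8 / s) =
      ENNReal.ofReal ((2 * V + 1) * (Real.exp (s * b / 2 + 1) + 1)) + ENNReal.ofReal (8 / s) :=
    ENNReal.ofReal_add (by positivity) (by positivity)
  rw [ENNReal.tsum_add, h7]
  exact add_le_add h1 h5

end NV
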