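import Pool.Agent.Lib.MP_ae6bb1_pr.NV.BdB

/-! The sums over all strings. -/

open Finset LCSH
open scoped ENNReal

namespace NV

variable {α : Type} [DecidableEq α] [Fintype α] {L : Law α} {o : α}

/-- Proof: `FMsmall` with `b = false`, `∑_M exp (- 3 s |i - M| / 8) ≤ 1 + 16 / (3 s)`. -/
theorem Zf_le (hm : 0 < L.p o) (hr0 : 0 < rr L o) (hr : rr L o ≤ 1 / 1000) {s K : ℝ} {i : ℕ}
    (hK : rr L o * i ≤ K) (hs : 0 < s) (hs1 : s ≤ 1) :
    Zf L o s i ≤ (Ms L o false) ^ 2 * ENNReal.ofReal (13 * Real.exp (1000 * K) / s) := by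
  have h1 : ∀ M : ℕ, (SS2 L o false i M fun x y => ex (s * D o x y)) ≤
      (Ms L o false) ^ 2 * (ENNReal.ofReal (2 * Real.exp (1000 * K)) *
        ENNReal.ofReal (Real.exp (-(3 * s / 8 * (((i : ℤ) - M).natAbs : ℝ))))) := by
    intro M
    refine (FMsmall hm hr0 hr hs.le hs1 false i M).trans ?_
    refine mul_le_mul_of_nonneg_left ?_ (zero_le)
    rw [← ENNReal.ofReal_mul (by positivity)]
    apply ENNReal.ofReal_le_ofReal
    rw [Real.mul_rpow (by positivity) (Real.exp_pos _).le,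
      Real.mul_rpow (by norm_num) (Real.exp_pos _).le, ← Real.exp_mul, ← Real.exp_mul]
    have h2 : (2 : ℝ) ^ s ≤ 2 := by
      calc (2 : ℝ) ^ s ≤ 2 ^ (1 : ℝ) := Real.rpow_le_rpow_of_exponent_le (by norm_num) hs1
        _ = 2 := Real.rpow_one 2
    have h3 : Real.exp (1000 * rr L o * i * s) ≤ Real.exp (1000 * K) := by
      apply Real.exp_le_exp.2
      have h4 : 0 ≤ rr L o * i := mul_nonneg hr0.le (Nat.cast_nonneg i)
      nlinarith
    have h5 : (-(3 / 8 * (((i : ℤ) - M).natAbs : ℝ)) * s : ℝ) =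
        -(3 * s / 8 * (((i : ℤ) - M).natAbs : ℝ)) := by ring
    rw [h5]
    exact mul_le_mul_of_nonneg_right (mul_le_mul h2 h3 (Real.exp_pos _).le (by norm_num))
      (Real.exp_pos _).le
  have h6 : (∑' M : ℕ, ENNReal.ofReal (Real.exp (-(3 * s / 8 * (((i : ℤ) - M).natAbs : ℝ))))) ≤
      ENNReal.ofReal (1 + 16 / (3 * s)) := by
    have h7 := tsum_exp_le (t := 3 * s / 8) (by positivity) i
    have h8 : (∑' M : ℕ, ENNReal.ofReal (Real.exp (-(3 * s / 8 * (((i : ℤ) - M).natAbs : ℝ))))) =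
        (∑' M : ℕ, if M = i then (1 : ℝ≥0∞) else 0) +
        ∑' M : ℕ, if M = i then 0 else
          ENNReal.ofReal (Real.exp (-(3 * s / 8 * (((i : ℤ) - M).natAbs : ℝ)))) := by
      rw [← ENNReal.tsum_add]
      congr 1
      funext M
      by_cases h : M = i
      · subst h
        simp
      · simp [h]
    rw [h8, tsum_ite_eq]
    have h9 : ENNReal.ofReal (1 + 16 / (3 * s)) = 1 + ENNReal.ofReal (2 / (3 * s / 8)) := by
      rw [ENNReal.ofReal_add (by norm_num) (by positivity), ENNReal.ofReal_one]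
      congr 2
      field_simp
      norm_num
    rw [h9]
    exact add_le_add le_rfl h7
  calc Zf L o s i ≤ ∑' M : ℕ, (Ms L o false) ^ 2 * (ENNReal.ofReal (2 * Real.exp (1000 * K)) *
        ENNReal.ofReal (Real.exp (-(3 * s / 8 * (((i : ℤ) - M).natAbs : ℝ))))) :=
        ENNReal.tsum_le_tsum h1
    _ = (Ms L o false) ^ 2 * (ENNReal.ofReal (2 * Real.exp (1000 * K)) *
        ∑' M : ℕ, ENNReal.ofReal (Real.exp (-(3 * s / 8 * (((i : ℤ) - M).natAbs : ℝ))))) := by
        rw [ENNReal.tsum_mul_left, ENNReal.tsum_mul_left]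
    _ ≤ (Ms L o false) ^ 2 * (ENNReal.ofReal (2 * Real.exp (1000 * K)) *
        ENNReal.ofReal (1 + 16 / (3 * s))) := by gcongr
    _ ≤ _ := by
        refine mul_le_mul_of_nonneg_left ?_ (zero_le)
        rw [← ENNReal.ofReal_mul (by positivity)]
        apply ENNReal.ofReal_le_ofReal
        have hE := Real.exp_pos (1000 * K)
        rw [le_div_iff₀ hs]
        have h10 : 2 * Real.exp (1000 * K) * (1 + 16 / (3 * s)) * s =
            Real.exp (1000 * K) * (2 * s + 32 / 3) := by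
          field_simp
          ring
        rw [h10]
        nlinarith

/-- Proof: `Zf_le`, `∑_{i < N} exp (- s (N - i) / 2) ≤ 2 / s`, `S / m^2 = rr`. -/
theorem T2_le (hm : 0 < L.p o) (hr0 : 0 < rr L o) (hr : rr L o ≤ 1 / 1000) {s K : ℝ} {N : ℕ}
    (hK : rr L o * N ≤ K) (hs : 0 < s) (hs1 : s ≤ 1) :
    T2 L o s N ≤ ENNReal.ofReal (100 * rr L o * Real.exp (1000 * K) / s ^ 2) := by
  set S : ℝ := ∑ a ∈ univ.erase o, L.p a ^ 2 with hS
  have hS0 : 0 ≤ S := Finset.sum_nonneg fun a _ => sq_nonneg _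
  have hrS : rr L o = S / L.p o ^ 2 := rfl
  have hM : (Ms L o false) ^ 2 = ENNReal.ofReal (1 / L.p o ^ 2) := by
    have : Ms L o false = ENNReal.ofReal (1 / L.p o) := by
      simp only [Ms, Bool.false_eq_true, if_false]
      rw [← ENNReal.ofReal_inv_of_pos hm, one_div]
    rw [this, ← ENNReal.ofReal_pow (by positivity)]
    congr 1
    rw [div_pow, one_pow]
  set B : ℝ := 13 * Real.exp (1000 * K) / s with hB
  have hB0 : 0 < B := by positivity
  have h1 : ∀ i ∈ range N, ex (-(s * ((N : ℝ) - i) / 2)) * Zf L o s i ≤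
      ENNReal.ofReal (Real.exp (-(s * ((N : ℝ) - i) / 2)) * (1 / L.p o ^ 2 * B)) := by
    intro i hi
    have hi' := mem_range.1 hi
    have h2 : rr L o * i ≤ K := by
      have : (i : ℝ) ≤ N := by exact_mod_cast hi'.le
      nlinarith
    rw [ENNReal.ofReal_mul (Real.exp_pos _).le]
    refine mul_le_mul' (le_refl _) ?_
    refine (Zf_le hm hr0 hr h2 hs hs1).trans ?_
    rw [hM, ← ENNReal.ofReal_mul (by positivity)]
  have hgeo : ∀ n : ℕ, ∑ i ∈ range n, Real.exp (-(s * ((n : ℝ) - i) / 2)) ≤ 2 / s := by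
    intro n
    have h3 : ∑ i ∈ range n, Real.exp (-(s * ((n : ℝ) - i) / 2)) =
        ∑ j ∈ range n, Real.exp (-(s / 2)) ^ (j + 1) := by
      rw [← Finset.sum_range_reflect]
      apply Finset.sum_congr rfl
      intro j hj
      have hj' := mem_range.1 hj
      rw [← Real.exp_nat_mul]
      congr 1
      have h4 : ((n - 1 - j : ℕ) : ℝ) = (n : ℝ) - 1 - j := by
        rw [Nat.cast_sub (by omega), Nat.cast_sub (by omega)]
        push_cast
        ring
      rw [h4]
      push_cast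
      ring
    rw [h3]
    have hu0 := Real.exp_pos (-(s / 2))
    have hu1 : Real.exp (-(s / 2)) < 1 := by
      rw [Real.exp_lt_one_iff]
      linarith
    have h5 : ∑ j ∈ range n, Real.exp (-(s / 2)) ^ (j + 1) =
        Real.exp (-(s / 2)) * ∑ j ∈ range n, Real.exp (-(s / 2)) ^ j := by
      rw [Finset.mul_sum]
      exact Finset.sum_congr rfl fun j _ => by rw [pow_succ]; ring
    have h6 : ∑ j ∈ range n, Real.exp (-(s / 2)) ^ j ≤ (1 - Real.exp (-(s / 2)))⁻¹ := by
      rw [geom_sum_eq hu1.ne]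
      have h7 : (Real.exp (-(s / 2)) ^ n - 1) / (Real.exp (-(s / 2)) - 1) =
          (1 - Real.exp (-(s / 2)) ^ n) * (1 - Real.exp (-(s / 2)))⁻¹ := by
        rw [← div_eq_mul_inv, div_eq_div_iff (by linarith) (by linarith)]
        ring
      rw [h7]
      have h8 : 0 < Real.exp (-(s / 2)) ^ n := by positivity
      have h9 : 0 < (1 - Real.exp (-(s / 2)))⁻¹ := inv_pos.2 (by linarith)
      nlinarith
    rw [h5]
    calc Real.exp (-(s / 2)) * ∑ j ∈ range n, Real.exp (-(s / 2)) ^ j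
        ≤ Real.exp (-(s / 2)) * (1 - Real.exp (-(s / 2)))⁻¹ :=
          mul_le_mul_of_nonneg_left h6 hu0.le
      _ ≤ 2 / s := by
          rw [← div_eq_mul_inv, div_le_div_iff₀ (by linarith) hs]
          have h10 : Real.exp (-(s / 2)) * (1 + s / 2) ≤ 1 := by
            have h11 := Real.add_one_le_exp (s / 2)
            have h12 : Real.exp (-(s / 2)) * Real.exp (s / 2) = 1 := by
              rw [← Real.exp_add]
              simp
            nlinarith
          linarith
  have h13 : (∑ i ∈ range N, ex (-(s * ((N : ℝ) - i) / 2)) * Zf L o s i) ≤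
      ENNReal.ofReal (2 / s * (1 / L.p o ^ 2 * B)) := by
    refine (Finset.sum_le_sum h1).trans ?_
    rw [← ENNReal.ofReal_sum_of_nonneg fun i _ => by positivity, ← Finset.sum_mul]
    apply ENNReal.ofReal_le_ofReal
    exact mul_le_mul_of_nonneg_right (hgeo N) (by positivity)
  have h14 : T2 L o s N ≤ ENNReal.ofReal (Real.exp s) * ENNReal.ofReal S *
      ENNReal.ofReal (2 / s * (1 / L.p o ^ 2 * B)) :=
    mul_le_mul' (le_refl _) h13
  refine h14.trans ?_
  rw [← ENNReal.ofReal_mul (Real.exp_pos _).le,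
    ← ENNReal.ofReal_mul (mul_nonneg (Real.exp_pos _).le hS0)]
  apply ENNReal.ofReal_le_ofReal
  have h15 : Real.exp s * S * (2 / s * (1 / L.p o ^ 2 * B)) =
      26 * Real.exp s * (rr L o * Real.exp (1000 * K) / s ^ 2) := by
    rw [hrS, hB]
    field_simp
    ring
  have h16 : 100 * rr L o * Real.exp (1000 * K) / s ^ 2 =
      100 * (rr L o * Real.exp (1000 * K) / s ^ 2) := by ring
  rw [h15, h16]
  apply mul_le_mul_of_nonneg_right _ (by positivity)
  have h17 : Real.exp s ≤ Real.exp 1 := Real.exp_le_exp.2 hs1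
  have h18 := Real.exp_one_lt_d9
  linarith

end NV
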