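import Pool.Agent.Lib.MP_ae6bb1_pr.NV.PrA

/-! Mini blocks: the types are independent. -/

open Finset LCSH

namespace NV

/-- the image of a product law -/
theorem PE_image {ι β γ : Type} [Fintype ι] [DecidableEq ι] [Fintype β] [Fintype γ]
    (q : ι → β → ℝ) (φ : β → γ) (f : (ι → γ) → ℝ) :
    PE q (fun ω => f (fun i => φ (ω i))) =
      PE (fun i b => ∑ c, q i c * ind (φ c = b)) f := by
  unfold PE
  have h1 : ∀ τ : ι → γ, (∏ i, ∑ c, q i c * ind (φ c = τ i)) * f τ =
      ∑ ω : ι → β, (∏ i, q i (ω i)) * ((∏ i, ind (φ (ω i) = τ i)) * f τ) := by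
    intro τ
    rw [Finset.prod_univ_sum, Fintype.piFinset_univ, Finset.sum_mul]
    refine sum_congr rfl fun ω _ => ?_
    rw [Finset.prod_mul_distrib]
    ring
  rw [sum_congr rfl fun τ _ => h1 τ, Finset.sum_comm]
  refine sum_congr rfl fun ω _ => ?_
  rw [← Finset.mul_sum]
  congr 1
  rw [Finset.sum_eq_single (fun i => φ (ω i))]
  · rw [Finset.prod_eq_one fun i _ => ind_of rfl, one_mul]
  · intro τ _ hτ
    obtain ⟨i, hi⟩ := Function.ne_iff.1 hτ
    rw [Finset.prod_eq_zero (mem_univ i) (ind_of_not fun h => hi h.symm), zero_mul]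
  · intro h
    exact absurd (mem_univ _) h

variable {T : Type} [Fintype T] (Q : Md T)

/-- the law of the type of a pair of mini blocks -/
noncomputable def tyw (w h : ℕ) (b : Option (Fin (2 * w + 1))) : ℝ :=
  E2 Q.lam h h fun a a' => ind (ty Q.rel w a a' = b)

/-- the law of a pair of mini blocks -/
noncomputable def prw (h : ℕ) (c : (Fin h → T) × (Fin h → T)) : ℝ :=
  (∏ t, Q.lam (c.1 t)) * ∏ t, Q.lam (c.2 t)

theorem E2_prw (h : ℕ) (F : (Fin h → T) → (Fin h → T) → ℝ) :
    E2 Q.lam h h F = ∑ c : (Fin h → T) × (Fin h → T), prw Q h c * F c.1 c.2 := by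
  unfold E2 PE prw
  rw [Fintype.sum_prod_type]
  refine sum_congr rfl fun a _ => ?_
  rw [Finset.mul_sum]
  refine sum_congr rfl fun b _ => ?_
  ring

theorem prw_nonneg (h : ℕ) (c : (Fin h → T) × (Fin h → T)) : 0 ≤ prw Q h c :=
  mul_nonneg (Finset.prod_nonneg fun _ _ => Q.nonneg _) (Finset.prod_nonneg fun _ _ => Q.nonneg _)

theorem E2_one (N M : ℕ) : E2 Q.lam N M (fun _ _ => 1) = 1 := by
  unfold E2
  simp only [PE_const (E2_isW Q M), PE_const (E2_isW Q N)]

theorem isW_prw (J h : ℕ) : IsW (fun _ : Fin J => prw Q h) := by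
  refine ⟨fun _ => prw_nonneg Q h, fun _ => ?_⟩
  have h1 := E2_prw Q h (fun _ _ => 1)
  rw [E2_one] at h1
  simpa using h1.symm

theorem isW_tyw (w J h : ℕ) : IsW (fun _ : Fin J => tyw Q w h) := by
  refine ⟨fun _ b => ?_, fun _ => ?_⟩
  · unfold tyw E2
    exact PE_nonneg (E2_isW Q h) fun a => PE_nonneg (E2_isW Q h) fun a' => ind_nonneg _
  · have h1 : ∀ b, tyw Q w h b = ∑ c : (Fin h → T) × (Fin h → T),
        prw Q h c * ind (ty Q.rel w c.1 c.2 = b) := fun b => E2_prw Q h _
    rw [sum_congr rfl fun b _ => h1 b, Finset.sum_comm]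
    rw [← (isW_prw Q 1 h).sum_one 0]
    refine sum_congr rfl fun c _ => ?_
    rw [← Finset.mul_sum, Finset.sum_eq_single (ty Q.rel w c.1 c.2), ind_of rfl, mul_one]
    · intro b _ hb
      exact ind_of_not fun h => hb h.symm
    · intro h
      exact absurd (mem_univ _) h

/-- Regrouping. Proof: `finProdFinEquiv`, `Fintype.sum` over `Fin (J h) → T` as a sum over `Fin J → Fin h → T`; the weight is a product. -/
theorem E2_blk {J h : ℕ} (F : (Fin J → Fin h → T) → (Fin J → Fin h → T) → ℝ) :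
    E2 Q.lam (J * h) (J * h) (fun A B => F (fun i => blk A i) fun i => blk B i) =
      PE (fun (_ : Fin J) (c : (Fin h → T) × (Fin h → T)) =>
        (∏ t, Q.lam (c.1 t)) * ∏ t, Q.lam (c.2 t))
        (fun ω => F (fun i => (ω i).1) fun i => (ω i).2) := by
  classical
  let e : (Fin J → Fin h → T) ≃ (Fin (J * h) → T) :=
    (Equiv.curry (Fin J) (Fin h) T).symm.trans (Equiv.arrowCongr finProdFinEquiv (Equiv.refl T))
  have he : ∀ (a : Fin J → Fin h → T) (i : Fin J), blk (e a) i = a i := by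
    intro a i
    funext t
    unfold blk
    simp [e, Equiv.arrowCongr]
  have hp : ∀ a : Fin J → Fin h → T, ∏ s, Q.lam (e a s) = ∏ i, ∏ t, Q.lam (a i t) := by
    intro a
    rw [← Fintype.prod_prod_type', ← Equiv.prod_comp finProdFinEquiv]
    refine Finset.prod_congr rfl fun x _ => ?_
    have := congrFun (he a x.1) x.2
    unfold blk at this
    rw [← this]
  unfold E2 PE
  rw [← Equiv.sum_comp e]
  have h1 : ∀ a : Fin J → Fin h → T,
      ∑ B : Fin (J * h) → T, (∏ i, Q.lam (B i)) * F (fun i => blk (e a) i) (fun i => blk B i) =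
      ∑ b : Fin J → Fin h → T, (∏ i, ∏ t, Q.lam (b i t)) * F a b := by
    intro a
    rw [← Equiv.sum_comp e]
    refine sum_congr rfl fun b _ => ?_
    rw [hp, funext (he a), funext (he b)]
  have h3 : ∀ a : Fin J → Fin h → T, (∏ i, Q.lam (e a i)) *
      (∑ B : Fin (J * h) → T, (∏ i, Q.lam (B i)) * F (fun i => blk (e a) i) (fun i => blk B i)) =
      (∏ i, ∏ t, Q.lam (a i t)) *
        ∑ b : Fin J → Fin h → T, (∏ i, ∏ t, Q.lam (b i t)) * F a b := by
    intro a
    rw [h1 a, hp a]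
  refine (sum_congr rfl fun a _ => h3 a).trans ?_
  rw [← Equiv.sum_comp (Equiv.arrowProdEquivProdArrow (Fin J) (fun _ => Fin h → T)
    (fun _ => Fin h → T)).symm, Fintype.sum_prod_type]
  refine sum_congr rfl fun a _ => ?_
  rw [Finset.mul_sum]
  refine sum_congr rfl fun b _ => ?_
  have h2 : ∀ i, (Equiv.arrowProdEquivProdArrow (Fin J) (fun _ => Fin h → T)
    (fun _ => Fin h → T)).symm (a, b) i = (a i, b i) := fun i => rfl
  simp only [h2]
  rw [Finset.prod_mul_distrib]
  ring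

/-- **Independence of the types.** Proof: `E2_blk` and the image of a product law. -/
theorem E2_tys (w J h : ℕ) (f : (Fin J → Option (Fin (2 * w + 1))) → ℝ) :
    E2 Q.lam (J * h) (J * h) (fun A B => f (tys Q.rel w A B)) =
      PE (fun _ : Fin J => tyw Q w h) f := by
  have h1 := E2_blk Q (J := J) (h := h) fun a b => f fun i => ty Q.rel w (a i) (b i)
  have h2 := PE_image (fun _ : Fin J => prw Q h) (fun c => ty Q.rel w c.1 c.2) f
  refine Eq.trans h1 (Eq.trans h2 ?_)
  congr 1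
  funext _ b
  exact (E2_prw Q h fun a a' => ind (ty Q.rel w a a' = b)).symm

/-- Sums over the mini blocks. -/
theorem E2_sum_blk (J h : ℕ) (φ : (Fin h → T) → (Fin h → T) → ℝ) :
    E2 Q.lam (J * h) (J * h) (fun A B => ∑ i : Fin J, φ (blk A i) (blk B i)) =
      J * E2 Q.lam h h φ := by
  have h1 := E2_blk Q (J := J) (h := h) fun a b => ∑ i, φ (a i) (b i)
  refine Eq.trans h1 ?_
  have h2 := PE_sum (fun _ : Fin J => prw Q h) univ
    (fun (i : Fin J) (ω : Fin J → (Fin h → T) × (Fin h → T)) => φ (ω i).1 (ω i).2)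
  refine Eq.trans h2 ?_
  have h3 : ∀ i : Fin J, PE (fun _ : Fin J => prw Q h)
      (fun ω : Fin J → (Fin h → T) × (Fin h → T) => φ (ω i).1 (ω i).2) = E2 Q.lam h h φ := by
    intro i
    have h4 := PE_single (isW_prw Q J h) i (fun c => φ c.1 c.2)
    rw [h4, E2_prw]
  rw [sum_congr rfl fun i _ => h3 i, Finset.sum_const, Finset.card_univ, Fintype.card_fin,
    nsmul_eq_mul]

end NV
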