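import Pool.Agent.Lib.MP_ae6bb1_pr.NV.BlkTy

/-! Mini blocks: lower bound. -/

open Finset LCSH

namespace NV

variable {T : Type} (rel : T → T → Prop)

/-- **Lower bound.** Proof: the related cells `(i h + t, i h + u)` of the mini blocks of type `some k` form a strict chain in the window with
the diagonals `pts`; a sublist of `pts` gives a subchain. -/
theorem gv_le_vv {w J h : ℕ} (A B : Fin (J * h) → T) :
    gv w (tys rel w A B) ≤ vv (rlr rel A B) (J * h) (J * h) (Qw w) := by
  obtain ⟨l, hl, hv⟩ := exists_gv w (tys rel w A B)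
  rw [pts_tys] at hl
  obtain ⟨C, hC, rfl⟩ := List.sublist_map_iff.1 hl
  rw [hv]
  have h1 : IsCh (rlr rel A B) (J * h) (J * h) C := (isCh_cels rel A B).sublist hC
  have h2 : Qw w C := fun c hc => qw_cels rel A B c (hC.subset hc)
  have h3 := le_vv h1 h2
  have h4 : (((J * h : ℕ) : ℤ) - ((J * h : ℕ) : ℤ)) = 0 := sub_self _
  rw [h4] at h3
  rw [List.length_map]
  exact h3

end NV
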