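import Pool.Agent.Lib.MP_ae6bb1_pr.NV.Gv

/-! Types of mini blocks. -/

open Finset LCSH

namespace NV

variable {T : Type} (rel : T → T → Prop)

/-- the types of the mini blocks -/
noncomputable def tys (w : ℕ) {J h : ℕ} (A B : Fin (J * h) → T) :
    Fin J → Option (Fin (2 * w + 1)) :=
  fun i => ty rel w (blk A i) (blk B i)

/-- `ty = some k` iff the window contains exactly one related cell and it is on the diagonal `k - w`. -/
theorem ty_eq_some {w h : ℕ} {a b : Fin h → T} {k : Fin (2 * w + 1)} :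
    ty rel w a b = some k ↔ ∃ c : Fin h × Fin h, win rel w a b = {c} ∧
      (((c.2 : ℕ) : ℤ) - ((c.1 : ℕ) : ℤ)) = (k : ℕ) - (w : ℤ) := by
  classical
  have key : ∀ c : Fin h × Fin h, win rel w a b = {c} →
      ((Fin.ofNat (2 * w + 1) ((((c.2 : ℕ) : ℤ) - ((c.1 : ℕ) : ℤ) + w).toNat) = k) ↔
        (((c.2 : ℕ) : ℤ) - ((c.1 : ℕ) : ℤ)) = (k : ℕ) - (w : ℤ)) := by
    intro c hc
    have hmem : c ∈ win rel w a b := by rw [hc]; exact Finset.mem_singleton_self c
    unfold win at hmem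
    rw [Finset.mem_filter] at hmem
    have h1 := hmem.2.1
    have hlt : (((c.2 : ℕ) : ℤ) - ((c.1 : ℕ) : ℤ) + w).toNat < 2 * w + 1 := by omega
    have hk := k.2
    constructor
    · intro h2
      have h3 := congrArg Fin.val h2
      rw [Fin.val_ofNat, Nat.mod_eq_of_lt hlt] at h3
      omega
    · intro h2
      apply Fin.ext
      rw [Fin.val_ofNat, Nat.mod_eq_of_lt hlt]
      omega
  unfold ty
  split
  · next h1 =>
    rw [Option.some_inj, key _ h1.choose_spec]
    constructor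
    · intro h2
      exact ⟨h1.choose, h1.choose_spec, h2⟩
    · rintro ⟨c, hc, h2⟩
      have h3 : h1.choose = c := Finset.singleton_injective (h1.choose_spec.symm.trans hc)
      rw [h3]
      exact h2
  · next h1 =>
    constructor
    · intro h2
      exact absurd h2 (by simp)
    · rintro ⟨c, hc, -⟩
      exact absurd ⟨c, hc⟩ h1

theorem ty_ne_none {w h : ℕ} {a b : Fin h → T} {c : Fin h × Fin h}
    (hc : win rel w a b = {c}) : ∃ k : Fin (2 * w + 1), ty rel w a b = some k := by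
  classical
  unfold ty
  rw [dif_pos ⟨c, hc⟩]
  exact ⟨_, rfl⟩

open Classical in
/-- the only related cell of the window of the mini block number `i` -/
noncomputable def cel (w : ℕ) {J h : ℕ} (A B : Fin (J * h) → T) (i : Fin J) :
    Option (ℕ × ℕ) :=
  if h1 : ∃ c, win rel w (blk A i) (blk B i) = {c} then
    some ((h1.choose.1 : ℕ) + h * (i : ℕ), (h1.choose.2 : ℕ) + h * (i : ℕ))
  else none

theorem cel_eq_some {w J h : ℕ} {A B : Fin (J * h) → T} {i : Fin J} {p : ℕ × ℕ} :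
    cel rel w A B i = some p ↔ ∃ c : Fin h × Fin h, win rel w (blk A i) (blk B i) = {c} ∧
      p = ((c.1 : ℕ) + h * (i : ℕ), (c.2 : ℕ) + h * (i : ℕ)) := by
  classical
  unfold cel
  split
  · next h1 =>
    rw [Option.some_inj]
    constructor
    · intro h2
      exact ⟨h1.choose, h1.choose_spec, h2.symm⟩
    · rintro ⟨c, hc, h2⟩
      have h3 : h1.choose = c := Finset.singleton_injective (h1.choose_spec.symm.trans hc)
      rw [h3]
      exact h2.symm
  · next h1 =>
    constructor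
    · intro h2
      exact absurd h2 (by simp)
    · rintro ⟨c, hc, -⟩
      exact absurd ⟨c, hc⟩ h1

/-- the list of these cells -/
noncomputable def cels (w : ℕ) {J h : ℕ} (A B : Fin (J * h) → T) : List (ℕ × ℕ) :=
  (List.finRange J).filterMap fun i => cel rel w A B i

theorem mem_cels {w J h : ℕ} {A B : Fin (J * h) → T} {p : ℕ × ℕ} :
    p ∈ cels rel w A B ↔ ∃ i : Fin J, ∃ c : Fin h × Fin h,
      win rel w (blk A i) (blk B i) = {c} ∧
      p = ((c.1 : ℕ) + h * (i : ℕ), (c.2 : ℕ) + h * (i : ℕ)) := by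
  unfold cels
  rw [List.mem_filterMap]
  constructor
  · rintro ⟨i, -, hi⟩
    exact ⟨i, (cel_eq_some rel).1 hi⟩
  · rintro ⟨i, hi⟩
    exact ⟨i, List.mem_finRange i, (cel_eq_some rel).2 hi⟩

theorem pts_tys {w J h : ℕ} (A B : Fin (J * h) → T) :
    pts w (tys rel w A B) = dg (cels rel w A B) := by
  classical
  unfold pts dg cels
  rw [List.map_filterMap]
  apply congrArg (fun f => List.filterMap f (List.finRange J))
  funext i
  unfold tys
  rcases h1 : ty rel w (blk A i) (blk B i) with _ | k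
  · rcases h2 : cel rel w A B i with _ | p
    · rfl
    · obtain ⟨c, hc, -⟩ := (cel_eq_some rel).1 h2
      obtain ⟨k, hk⟩ := ty_ne_none rel hc
      rw [h1] at hk
      exact absurd hk (by simp)
  · obtain ⟨c, hc, h3⟩ := (ty_eq_some rel).1 h1
    have h4 : cel rel w A B i = some ((c.1 : ℕ) + h * (i : ℕ), (c.2 : ℕ) + h * (i : ℕ)) :=
      (cel_eq_some rel).2 ⟨c, hc, rfl⟩
    rw [h4, Option.map_some]
    show some (((k : ℕ) : ℤ) - (w : ℤ)) = _
    rw [← h3, Option.some_inj]
    push_cast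
    ring

theorem mem_win {w h : ℕ} {a b : Fin h → T} {c : Fin h × Fin h} :
    c ∈ win rel w a b ↔
      (((c.2 : ℕ) : ℤ) - ((c.1 : ℕ) : ℤ)).natAbs ≤ w ∧ rel (a c.1) (b c.2) := by
  classical
  unfold win
  rw [Finset.mem_filter]
  exact ⟨fun h => h.2, fun h => ⟨Finset.mem_univ _, h⟩⟩

theorem blk_apply {J h : ℕ} (A : Fin (J * h) → T) (i : Fin J) (t : Fin h)
    (hlt : (t : ℕ) + h * (i : ℕ) < J * h) : blk A i t = A ⟨(t : ℕ) + h * (i : ℕ), hlt⟩ := rfl

theorem blk_lt {J h : ℕ} (i : Fin J) (t : Fin h) : (t : ℕ) + h * (i : ℕ) < J * h :=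
  (finProdFinEquiv (i, t)).2

theorem isCh_cels {w J h : ℕ} (A B : Fin (J * h) → T) :
    IsCh (rlr rel A B) (J * h) (J * h) (cels rel w A B) := by
  constructor
  · unfold cels
    rw [List.pairwise_filterMap]
    refine (List.pairwise_lt_finRange J).imp ?_
    intro i j hij p hp q hq
    obtain ⟨c, -, rfl⟩ := (cel_eq_some rel).1 hp
    obtain ⟨d, -, rfl⟩ := (cel_eq_some rel).1 hq
    have h1 : (i : ℕ) + 1 ≤ (j : ℕ) := hij
    have h2 : h * ((i : ℕ) + 1) ≤ h * (j : ℕ) := Nat.mul_le_mul_left h h1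
    have h3 := c.1.2
    have h4 := c.2.2
    rw [Nat.mul_add, Nat.mul_one] at h2
    constructor
    · show (c.1 : ℕ) + h * (i : ℕ) < (d.1 : ℕ) + h * (j : ℕ)
      omega
    · show (c.2 : ℕ) + h * (i : ℕ) < (d.2 : ℕ) + h * (j : ℕ)
      omega
  · intro p hp
    obtain ⟨i, c, hc, rfl⟩ := (mem_cels rel).1 hp
    have hm : c ∈ win rel w (blk A i) (blk B i) := by rw [hc]; exact Finset.mem_singleton_self c
    refine ⟨blk_lt i c.1, blk_lt i c.2, blk_lt i c.1, blk_lt i c.2, ?_⟩
    exact ((mem_win rel).1 hm).2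

theorem qw_cels {w J h : ℕ} (A B : Fin (J * h) → T) : Qw w (cels rel w A B) := by
  intro p hp
  obtain ⟨i, c, hc, rfl⟩ := (mem_cels rel).1 hp
  have hm : c ∈ win rel w (blk A i) (blk B i) := by rw [hc]; exact Finset.mem_singleton_self c
  have h1 := ((mem_win rel).1 hm).1
  push_cast
  have h2 : (((c.2 : ℕ) : ℤ) + (h : ℤ) * ((i : ℕ) : ℤ) - (((c.1 : ℕ) : ℤ) + (h : ℤ) * ((i : ℕ) : ℤ)))
      = ((c.2 : ℕ) : ℤ) - ((c.1 : ℕ) : ℤ) := by ring
  rw [h2]
  exact h1

end NV
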