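import Pool.Agent.Lib.MP_ae6bb1_pr.NV.BlkTy

/-! Mini blocks: upper bound. -/

open Finset LCSH

namespace NV

variable {T : Type} (rel : T → T → Prop)

private theorem BlkUp_sublist {β : Type} (r : β → β → Prop) (hirr : ∀ a, ¬ r a a)
    (has : ∀ a b, r a b → ¬ r b a) :
    ∀ (P G : List β), P.Pairwise r → G.Pairwise r → (∀ g ∈ G, g ∈ P) → G.Sublist P := by
  intro P
  induction P with
  | nil =>
    intro G _ _ h
    rcases G with _ | ⟨g, G⟩
    · exact List.Sublist.refl _
    · exact absurd (h g List.mem_cons_self) List.not_mem_nil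
  | cons p P ih =>
    intro G hP hG h
    rcases G with _ | ⟨g, G⟩
    · exact List.nil_sublist _
    · rw [List.pairwise_cons] at hP hG
      rcases List.mem_cons.1 (h g List.mem_cons_self) with hgp | hgP
      · subst hgp
        apply List.Sublist.cons_cons
        apply ih G hP.2 hG.2
        intro x hx
        rcases List.mem_cons.1 (h x (List.mem_cons_of_mem _ hx)) with hxg | hxP
        · subst hxg
          exact absurd (hG.1 x hx) (hirr x)
        · exact hxP
      · apply List.Sublist.cons
        apply ih (g :: G) hP.2 (List.pairwise_cons.2 hG)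
        intro x hx
        rcases List.mem_cons.1 (h x hx) with hxp | hxP
        · subst hxp
          rcases List.mem_cons.1 hx with hxg | hxG
          · subst hxg
            exact absurd (hP.1 x hgP) (hirr x)
          · exact absurd (hG.1 x hxG) (has _ _ (hP.1 g hgP))
        · exact hxP

/-- **Upper bound.** Proof: remove from an optimal chain the cells with coordinates in different mini blocks (at most `bdc`) and the cells of
the mini blocks whose window contains at least two related cells; the others are the unique related cells of the windows of different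
mini blocks, their diagonals form a sublist of `pts`; `tvd_sublist`. -/
theorem vv_le_gv {w J h : ℕ} (A B : Fin (J * h) → T) :
    vv (rlr rel A B) (J * h) (J * h) (Qw w) ≤ gv w (tys rel w A B) +
      ∑ i : Fin J, (if 2 ≤ (win rel w (blk A i) (blk B i)).card then
        ((win rel w (blk A i) (blk B i)).card : ℝ) else 0) + bdc rel w A B := by
  classical
  have hQ0 : Qw w ([] : List (ℕ × ℕ)) := fun c hc => absurd hc List.not_mem_nil
  obtain ⟨C, hC, hQ, hv⟩ := exists_vv (rlr rel A B) (J * h) (J * h) hQ0
  have h0 : (((J * h : ℕ) : ℤ) - ((J * h : ℕ) : ℤ)) = 0 := sub_self _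
  rw [h0] at hv
  set P := cels rel w A B with hP
  set G := C.filter (fun c => decide (c ∈ P)) with hG
  have hGC : G.Sublist C := List.filter_sublist
  have hGch := hC.sublist hGC
  -- the good cells
  have hGP : G.Sublist P := by
    apply BlkUp_sublist (fun c c' : ℕ × ℕ => c.1 < c'.1 ∧ c.2 < c'.2)
      (fun a h => lt_irrefl _ h.1) (fun a b h1 h2 => lt_asymm h1.1 h2.1)
      P G (isCh_cels rel A B).1 hGch.1
    intro g hg
    rw [hG, List.mem_filter] at hg
    exact of_decide_eq_true hg.2
  have h1 : (G.length : ℝ) - (tvd 0 (dg G) 0 : ℝ) / 2 ≤ gv w (tys rel w A B) := by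
    have h2 : (dg G).Sublist (pts w (tys rel w A B)) := by
      rw [pts_tys]
      exact hGP.map _
    have h3 := le_gv w (tys rel w A B) h2
    have h4 : (dg G).length = G.length := List.length_map _
    rw [h4] at h3
    exact h3
  have h2 : tvd 0 (dg G) 0 ≤ tvd 0 (dg C) 0 := tvd_sublist (hGC.map _) 0 0
  -- the other cells
  set E := C.filter (fun c => decide (c ∉ P)) with hE
  have h3 : C.length = G.length + E.length := by
    rw [hG, hE]
    have h4 := List.length_eq_length_filter_add (l := C) (fun c => decide (c ∈ P))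
    rw [h4]
    congr 2
    apply List.filter_congr
    intro x _
    by_cases hx : x ∈ P <;> simp [hx]
  have hnd : C.Nodup := by
    refine hC.1.imp ?_
    intro a b hab heq
    subst heq
    exact lt_irrefl _ hab.1
  have h4 : E.length = E.toFinset.card := by
    rw [List.toFinset_card_of_nodup]
    exact hnd.filter _
  set F1 := (univ.filter fun c : Fin (J * h) × Fin (J * h) =>
    (((c.2 : ℕ) : ℤ) - ((c.1 : ℕ) : ℤ)).natAbs ≤ w ∧ (c.1 : ℕ) / h ≠ (c.2 : ℕ) / h ∧
      rel (A c.1) (B c.2)).image (fun c => (((c.1 : ℕ), (c.2 : ℕ)) : ℕ × ℕ)) with hF1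
  set F2 := (univ.filter fun i : Fin J => 2 ≤ (win rel w (blk A i) (blk B i)).card).biUnion
    (fun i => (win rel w (blk A i) (blk B i)).image
      (fun c => (((c.1 : ℕ) + h * (i : ℕ), (c.2 : ℕ) + h * (i : ℕ)) : ℕ × ℕ))) with hF2
  have h5 : E.toFinset ⊆ F1 ∪ F2 := by
    intro c hc
    rw [List.mem_toFinset, hE, List.mem_filter] at hc
    obtain ⟨hcC, hcP⟩ := hc
    have hcP' : c ∉ P := of_decide_eq_true hcP
    obtain ⟨-, -, hc1, hc2, hr⟩ := hC.2 c hcC
    have hw := hQ c hcC
    by_cases hd : c.1 / h = c.2 / h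
    · apply Finset.mem_union_right
      have hh : 0 < h := by
        rcases Nat.eq_zero_or_pos h with h6 | h6
        · subst h6
          exact absurd hc1 (by simp)
        · exact h6
      have hi : c.1 / h < J := Nat.div_lt_of_lt_mul (by rw [Nat.mul_comm]; exact hc1)
      have ht : c.1 % h < h := Nat.mod_lt _ hh
      have hu : c.2 % h < h := Nat.mod_lt _ hh
      have e1 : c.1 % h + h * (c.1 / h) = c.1 := Nat.mod_add_div _ _
      have e2 : c.2 % h + h * (c.1 / h) = c.2 := by rw [hd]; exact Nat.mod_add_div _ _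
      set i : Fin J := ⟨c.1 / h, hi⟩ with hii
      have hm : ((⟨c.1 % h, ht⟩, ⟨c.2 % h, hu⟩) : Fin h × Fin h) ∈
          win rel w (blk A i) (blk B i) := by
        rw [mem_win]
        constructor
        · show (((c.2 % h : ℕ) : ℤ) - ((c.1 % h : ℕ) : ℤ)).natAbs ≤ w
          omega
        · have e3 : blk A i ⟨c.1 % h, ht⟩ = A ⟨c.1, hc1⟩ := by
            rw [blk_apply A i ⟨c.1 % h, ht⟩ (blk_lt i _)]
            exact congrArg A (Fin.ext e1)
          have e4 : blk B i ⟨c.2 % h, hu⟩ = B ⟨c.2, hc2⟩ := by
            rw [blk_apply B i ⟨c.2 % h, hu⟩ (blk_lt i _)]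
            exact congrArg B (Fin.ext e2)
          show rel (blk A i ⟨c.1 % h, ht⟩) (blk B i ⟨c.2 % h, hu⟩)
          rw [e3, e4]
          exact hr
      have hpair : c = ((((⟨c.1 % h, ht⟩ : Fin h) : ℕ) + h * (i : ℕ),
          ((⟨c.2 % h, hu⟩ : Fin h) : ℕ) + h * (i : ℕ)) : ℕ × ℕ) :=
        Prod.ext e1.symm e2.symm
      rw [hF2, Finset.mem_biUnion]
      refine ⟨i, ?_, ?_⟩
      · rw [Finset.mem_filter]
        refine ⟨Finset.mem_univ _, ?_⟩
        by_contra hlt
        have hcard : (win rel w (blk A i) (blk B i)).card = 1 := by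
          have h7 : 0 < (win rel w (blk A i) (blk B i)).card := Finset.card_pos.2 ⟨_, hm⟩
          omega
        obtain ⟨d, hd'⟩ := Finset.card_eq_one.1 hcard
        apply hcP'
        rw [hP, mem_cels]
        refine ⟨i, d, hd', ?_⟩
        rw [hd', Finset.mem_singleton] at hm
        rw [← hm]
        exact hpair
      · rw [Finset.mem_image]
        exact ⟨_, hm, hpair.symm⟩
    · apply Finset.mem_union_left
      rw [hF1, Finset.mem_image]
      refine ⟨(⟨c.1, hc1⟩, ⟨c.2, hc2⟩), ?_, rfl⟩
      rw [Finset.mem_filter]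
      exact ⟨Finset.mem_univ _, hw, hd, hr⟩
  have h6 : (E.toFinset.card : ℝ) ≤ (bdc rel w A B : ℝ) +
      ∑ i : Fin J, (if 2 ≤ (win rel w (blk A i) (blk B i)).card then
        ((win rel w (blk A i) (blk B i)).card : ℝ) else 0) := by
    have h7 : E.toFinset.card ≤ F1.card + F2.card :=
      (Finset.card_le_card h5).trans (Finset.card_union_le _ _)
    have h8 : F1.card ≤ bdc rel w A B := by
      unfold bdc
      exact Finset.card_image_le
    have h9 : F2.card ≤ ∑ i : Fin J, (if 2 ≤ (win rel w (blk A i) (blk B i)).card then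
        (win rel w (blk A i) (blk B i)).card else 0) := by
      rw [← Finset.sum_filter]
      refine Finset.card_biUnion_le.trans ?_
      exact Finset.sum_le_sum fun i _ => Finset.card_image_le
    have h10 : (F2.card : ℝ) ≤ ∑ i : Fin J, (if 2 ≤ (win rel w (blk A i) (blk B i)).card then
        ((win rel w (blk A i) (blk B i)).card : ℝ) else 0) := by
      have h11 : (F2.card : ℝ) ≤
          ((∑ i : Fin J, (if 2 ≤ (win rel w (blk A i) (blk B i)).card then
            (win rel w (blk A i) (blk B i)).card else 0) : ℕ) : ℝ) := by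
        exact_mod_cast h9
      push_cast at h11
      exact h11
    have h12 : (E.toFinset.card : ℝ) ≤ (F1.card : ℝ) + (F2.card : ℝ) := by exact_mod_cast h7
    have h13 : (F1.card : ℝ) ≤ (bdc rel w A B : ℝ) := by exact_mod_cast h8
    linarith
  rw [hv]
  have h7 : (C.length : ℝ) = (G.length : ℝ) + (E.length : ℝ) := by exact_mod_cast h3
  have h8 : (E.length : ℝ) = (E.toFinset.card : ℝ) := by exact_mod_cast h4
  have h9 : (tvd 0 (dg G) 0 : ℝ) ≤ (tvd 0 (dg C) 0 : ℝ) := by exact_mod_cast h2
  linarith

end NV
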