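import Pool.Agent.Lib.MP_ae6bb1_pr.NV.UbD
import Pool.Agent.Lib.MP_ae6bb1_pr.NV.ListE

/-! Jensen. -/

open Finset LCSH
open scoped ENNReal

namespace NV

variable {α : Type} [DecidableEq α] [Fintype α] {L : Law α} {o : α}

theorem UbB_Z_cons (b : α) (x : List α) :
    (Z o (b :: x) : ℝ) = (if b = o then 1 else 0) + (Z o x : ℝ) := by
  unfold Z
  rw [List.count_cons]
  by_cases h : b = o
  · subst h
    rw [if_pos rfl, beq_self_eq_true, if_pos rfl]
    push_cast
    ring
  · have h' : (b == o) = false := beq_false_of_ne h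
    rw [if_neg h, h']
    simp

/-- Mean number of zeros of a string of length `n`: `n m`. -/
theorem PE_Z (n : ℕ) : PE (fun _ : Fin n => L.p) (fun x => (Z o (List.ofFn x) : ℝ)) = n * L.p o := by
  induction n with
  | zero =>
    have h : (fun x : Fin 0 → α => (Z o (List.ofFn x) : ℝ)) = fun _ => 0 := by
      funext x
      rw [List.ofFn_zero]
      simp [Z]
    rw [h, PE_const (isW_law L)]
    simp
  | succ n ih =>
    rw [PE_cons]
    have h : ∀ b : α, PE (fun _ : Fin n => L.p)
        (fun ω => (Z o (List.ofFn (Fin.cons (α := fun _ => α) b ω)) : ℝ)) =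
        (if b = o then 1 else 0) + n * L.p o := by
      intro b
      rw [← ih, ← PE_const (isW_law L) (ι := Fin n) (if b = o then (1 : ℝ) else 0), ← PE_add]
      congr 1
      funext ω
      rw [List.ofFn_succ, Fin.cons_zero, UbB_Z_cons]
      simp only [Fin.cons_succ]
    rw [sum_congr rfl fun b _ => by rw [h b]]
    have h2 : ∀ b, L.p b * ((if b = o then 1 else 0) + n * L.p o) =
        (if b = o then L.p b else 0) + L.p b * (n * L.p o) := by
      intro b
      split_ifs <;> ring
    rw [sum_congr rfl fun b _ => h2 b, sum_add_distrib, sum_ite_eq' univ o, if_pos (mem_univ _),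
      ← sum_mul, L.sum_one]
    push_cast
    ring

/-- Jensen. Proof: `exp_PE_le` twice, `PE_Z`, `lc_eq_lp`, `ofReal_PE` twice; drop the strings `Y` of length `≠ n`. -/
theorem exp_EL_le {s κ : ℝ} (hs : 0 < s) (n : ℕ) :
    ex (s * (EL L n n - n * L.p o * (1 + κ))) ≤ Un L o s κ n := by
  have h1 : s * (EL L n n - n * L.p o * (1 + κ)) =
      PE (fun _ : Fin n => L.p) fun x => PE (fun _ : Fin n => L.p) fun y =>
        s * (D o (List.ofFn x) (List.ofFn y) - κ * Z o (List.ofFn x)) := by
    have h2 : ∀ x : Fin n → α, (PE (fun _ : Fin n => L.p) fun y =>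
        s * (D o (List.ofFn x) (List.ofFn y) - κ * Z o (List.ofFn x))) =
        s * (PE (fun _ : Fin n => L.p) fun y => (lp (rl x y) 0 n 0 n : ℝ)) -
          s * (1 / 2 + κ) * (Z o (List.ofFn x) : ℝ) - s * (n * L.p o / 2) := by
      intro x
      rw [← PE_Z (L := L) (o := o) n, ← PE_const_mul,
        ← PE_const (isW_law L) (ι := Fin n) (s * (1 / 2 + κ) * (Z o (List.ofFn x) : ℝ)),
        ← PE_sub]
      have h3 : s * (PE (fun _ : Fin n => L.p) (fun x => (Z o (List.ofFn x) : ℝ)) / 2) =
          PE (fun _ : Fin n => L.p) (fun x => (s / 2) * (Z o (List.ofFn x) : ℝ)) := by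
        rw [PE_const_mul]
        ring
      rw [h3, ← PE_sub]
      congr 1
      funext y
      rw [D, lc_eq_lp]
      ring
    simp only [h2]
    rw [PE_sub, PE_sub, PE_const_mul, PE_const_mul, PE_const (isW_law L), PE_Z]
    unfold EL
    ring
  have h4 : Real.exp (s * (EL L n n - n * L.p o * (1 + κ))) ≤
      PE (fun _ : Fin n => L.p) fun x => PE (fun _ : Fin n => L.p) fun y =>
        Real.exp (s * (D o (List.ofFn x) (List.ofFn y) - κ * Z o (List.ofFn x))) := by
    rw [h1]
    refine (exp_PE_le (isW_law L) _).trans (PE_mono (isW_law L) fun x => ?_)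
    exact exp_PE_le (isW_law L) _
  have h5 := ofReal_PE L n (fun X => PE (fun _ : Fin n => L.p) fun y =>
        Real.exp (s * (D o X (List.ofFn y) - κ * Z o X)))
    (fun X => PE_nonneg (isW_law L) fun y => (Real.exp_pos _).le)
  refine (ENNReal.ofReal_le_ofReal h4).trans ?_
  rw [h5]
  unfold Un
  refine ENNReal.tsum_le_tsum fun X => ?_
  by_cases hX : X.length = n
  · rw [if_pos hX, if_pos hX]
    refine mul_le_mul_right ?_ _
    have h6 := ofReal_PE L n (fun Y => Real.exp (s * (D o X Y - κ * Z o X)))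
      (fun Y => (Real.exp_pos _).le)
    rw [h6]
    refine ENNReal.tsum_le_tsum fun Y => ?_
    by_cases hY : Y.length = n
    · rw [if_pos hY]
      exact le_refl _
    · rw [if_neg hY]
      exact zero_le
  · rw [if_neg hX, if_neg hX]

end NV
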