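import Pool.Agent.Lib.MP_ae6bb1_pr.NV.UbA
import Pool.Agent.Lib.MP_ae6bb1_pr.NV.UbB

/-! Upper bound for the growth constant from exponential moments of blocks. -/

open Finset LCSH
open scoped ENNReal

namespace NV

variable {α : Type} [DecidableEq α] [Fintype α] {L : Law α} {o : α}

/-- **Upper bound.** Proof: `exp (s (EL n n - n m (1 + κ))) ≤ (n + 1) Cr`, so `EL n n / n ≤ m (1 + κ) + log ((n + 1) Cr) / (s n)`; `gam_tendsto`. -/
theorem gam_le_of_Z {s κ : ℝ} (hm : 0 < L.p o) (hs : 0 < s) (hκ : 0 ≤ κ) {N : ℕ} (hN : 1 ≤ N)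
    (hZ : Zs L o s N + T2 L o s N ≤ ex (s * κ * N)) (hf : ∀ i < N, Zf L o s i ≠ ⊤) :
    gam L ≤ L.p o * (1 + κ) := by
  set Cr : ℝ≥0∞ := ∑ i ∈ range N, Zf L o s i with hCr
  have hCr0 : Cr ≠ ⊤ := by
    rw [hCr]
    exact ENNReal.sum_ne_top.2 (fun i hi => hf i (Finset.mem_range.1 hi))
  set C : ℝ := Cr.toReal with hC
  have hC0 : 0 ≤ C := ENNReal.toReal_nonneg
  have key : ∀ n : ℕ, Real.exp (s * (EL L n n - n * L.p o * (1 + κ))) ≤ ((n : ℝ) + 1) * C := by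
    intro n
    have h1 : ex (s * (EL L n n - n * L.p o * (1 + κ))) ≤ ((n : ℝ≥0∞) + 1) * Cr :=
      (exp_EL_le (L := L) (o := o) (κ := κ) hs n).trans (Un_le hm hs hκ hN hZ n)
    have h2 : ((n : ℝ≥0∞) + 1) * Cr = ENNReal.ofReal (((n : ℝ) + 1) * C) := by
      rw [ENNReal.ofReal_mul (by positivity), ENNReal.ofReal_add (by positivity) (by norm_num),
        ENNReal.ofReal_natCast, ENNReal.ofReal_one, hC, ENNReal.ofReal_toReal hCr0]
    rw [h2] at h1
    unfold ex at h1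
    exact (ENNReal.ofReal_le_ofReal_iff (by positivity)).1 h1
  by_contra hcon
  push Not at hcon
  obtain ⟨δ, hδ0, hδ⟩ : ∃ δ : ℝ, 0 < δ ∧ L.p o * (1 + κ) + δ < gam L :=
    ⟨(gam L - L.p o * (1 + κ)) / 2, by linarith, by linarith⟩
  have hev := (gam_tendsto L).eventually (lt_mem_nhds hδ)
  obtain ⟨n₀, hn₀⟩ := Filter.eventually_atTop.1 hev
  set c : ℝ := (s * δ) ^ 2 / 2 with hc
  have hc0 : 0 < c := by positivity
  obtain ⟨n₁, hn₁⟩ := exists_nat_gt (2 * C / c)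
  set n : ℕ := max (max n₀ n₁) 1 with hn
  have g1 : n₀ ≤ n := (le_max_left _ _).trans (le_max_left _ _)
  have g2 : n₁ ≤ n := (le_max_right _ _).trans (le_max_left _ _)
  have g3 : 1 ≤ n := le_max_right _ _
  have g3' : (1 : ℝ) ≤ n := by exact_mod_cast g3
  have g2' : 2 * C / c < n := lt_of_lt_of_le hn₁ (by exact_mod_cast g2)
  have h4 := hn₀ n g1
  rw [lt_div_iff₀ (by linarith)] at h4
  have h5 : s * δ * n ≤ s * (EL L n n - n * L.p o * (1 + κ)) := by
    have : s * (δ * n) ≤ s * (EL L n n - n * L.p o * (1 + κ)) :=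
      mul_le_mul_of_nonneg_left (by nlinarith) hs.le
    linarith
  have h6 : 0 ≤ s * δ * n := by positivity
  have h7 := Real.quadratic_le_exp_of_nonneg h6
  have h8 : Real.exp (s * δ * n) ≤ ((n : ℝ) + 1) * C := (Real.exp_le_exp.2 h5).trans (key n)
  have h9 : c * n ^ 2 ≤ ((n : ℝ) + 1) * C := by
    have e : (s * δ * n) ^ 2 / 2 = c * n ^ 2 := by
      rw [hc]
      ring
    rw [e] at h7
    linarith
  rw [div_lt_iff₀ hc0] at g2'
  nlinarith

end NV
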