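import Pool.Agent.Lib.MP_ae6bb1_pr.NV.BdC
import Pool.Agent.Lib.MP_ae6bb1_pr.NV.BdD
import Pool.Agent.Lib.MP_ae6bb1_pr.NV.Ub

/-! The growth constant and the excess of finite blocks. -/

open Finset LCSH
open scoped ENNReal

namespace NV

variable {α : Type} [DecidableEq α] [Fintype α] {L : Law α} {o : α}

/-- Proof: `gam_le_of_Z`, `Zs_le`, `T2_le`, `Zf_le`. -/
theorem gam_le_of (hm : 0 < L.p o) (hr0 : 0 < rr L o) (hr : rr L o ≤ 1 / 1000) {s κ b K : ℝ}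
    {N N' R V : ℕ} (hN : 1 ≤ N) (hK : rr L o * N ≤ K)
    (hbad : (4000 * rr L o + 2 * Real.exp (-(R : ℝ))) * Real.exp (1000 * K) ≤ 1)
    (hs : 0 < s) (hs1 : s ≤ 1) (hsR : 2 * R * s ^ 2 ≤ 1) (hV : 8 * (1000 * K + 1) ≤ V)
    (hN' : 2 * N + V ≤ N') (hb : elc L o N' N' - N' ≤ b) (hκ : 0 ≤ κ)
    (hfin : (2 * V + 1) * (Real.exp (s * b / 2 + 1) + 1) + 8 / s +
      100 * rr L o * Real.exp (1000 * K) / s ^ 2 ≤ Real.exp (s * κ * N)) :
    gam L ≤ L.p o * (1 + κ) := by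
  refine gam_le_of_Z hm hs hκ hN ?_ ?_
  · refine (add_le_add (Zs_le hm hr0 hr hK hbad hs hs1 hsR hV hN' hb) (T2_le hm hr0 hr hK hs hs1)).trans ?_
    rw [← ENNReal.ofReal_add (by positivity) (by positivity)]
    exact ENNReal.ofReal_le_ofReal hfin
  · intro i hi
    have hKi : rr L o * i ≤ K := by
      refine le_trans (mul_le_mul_of_nonneg_left ?_ hr0.le) hK
      exact_mod_cast hi.le
    refine ne_top_of_le_ne_top ?_ (Zf_le hm hr0 hr hKi hs hs1)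
    refine ENNReal.mul_ne_top (ENNReal.pow_ne_top ?_) ENNReal.ofReal_ne_top
    have h1 : Ms L o false = (ENNReal.ofReal (L.p o))⁻¹ := rfl
    rw [h1]
    exact ENNReal.inv_ne_top.2 (ENNReal.ofReal_pos.2 hm).ne'

end NV
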