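import Pool.Agent.Lib.MP_ae6bb1_pr.NV.Lc

/-! `D o x y` is the maximum of the values of the chains realised in `x`, `y`. -/

open Finset LCSH
open scoped ENNReal

namespace NV

variable {α : Type} [DecidableEq α]

theorem Z_nil (o : α) : Z o ([] : List α) = 0 := List.count_nil

theorem RealI.cons_iff {o : α} {x y : List α} {c : ℕ × ℕ} {C : List (ℕ × ℕ)} :
    RealI o x y (c :: C) ↔ ∃ (x₀ x' y₀ y' : List α) (a : α), a ≠ o ∧ x = x₀ ++ a :: x' ∧
      y = y₀ ++ a :: y' ∧ Z o x₀ = c.1 ∧ Z o y₀ = c.2 ∧ RealI o x' y' C := by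
  rw [RealI]

theorem tvI_nil (n m : ℕ) : tvI n m [] = ((n : ℤ) - m).natAbs := by
  rw [tvI]

theorem tvI_cons (n m : ℕ) (c : ℕ × ℕ) (C : List (ℕ × ℕ)) :
    tvI n m (c :: C) = ((c.1 : ℤ) - c.2).natAbs + tvI (n - c.1) (m - c.2) C := by
  rw [tvI]

/-- Proof: induction on `C`. -/
theorem RealI.adm {o : α} {x y : List α} {C : List (ℕ × ℕ)} (h : RealI o x y C) :
    adm (Z o x) (Z o y) C := by
  induction C generalizing x y with
  | nil => rw [NV.adm]; trivial
  | cons c C ih =>
    obtain ⟨x₀, x', y₀, y', a, ha, rfl, rfl, h1, h2, h3⟩ := RealI.cons_iff.1 h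
    have h4 := ih h3
    rw [NV.adm]
    rw [Z_append, Z_cons_ne ha, Z_append, Z_cons_ne ha, h1, h2, Nat.add_sub_cancel_left,
      Nat.add_sub_cancel_left]
    exact ⟨Nat.le_add_right _ _, Nat.le_add_right _ _, h4⟩

/-- A realised chain gives a common subsequence: `lc x y ≥ min (Z x₀) (Z y₀) + 1 + lc x' y'` and induction on `C`
(`min i j = (i + j - |i - j|) / 2`). -/
theorem chain_le_lc {o : α} {x y : List α} {C : List (ℕ × ℕ)} (h : RealI o x y C) :
    2 * C.length + Z o x + Z o y ≤ 2 * lc x y + tvI (Z o x) (Z o y) C := by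
  induction C generalizing x y with
  | nil =>
    rw [tvI_nil, List.length_nil]
    have h1 := min_le_lc o x y
    omega
  | cons c C ih =>
    obtain ⟨x₀, x', y₀, y', a, ha, rfl, rfl, h1, h2, h3⟩ := RealI.cons_iff.1 h
    have h4 := ih h3
    have h5 := lc_append x₀ (a :: x') y₀ (a :: y')
    have h6 := lc_cons_cons a x' y'
    have h7 := min_le_lc o x₀ y₀
    rw [tvI_cons, Z_append, Z_cons_ne ha, Z_append, Z_cons_ne ha, h1, h2, Nat.add_sub_cancel_left,
      Nat.add_sub_cancel_left, List.length_cons]
    rw [h1, h2] at h7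
    omega

theorem RealI.cons_left {o a : α} (ha : a ≠ o) {x y : List α} {C : List (ℕ × ℕ)}
    (h : RealI o x y C) : RealI o (a :: x) y C := by
  cases C with
  | nil => rw [RealI]; trivial
  | cons c C =>
    obtain ⟨x₀, x', y₀, y', b, hb, rfl, rfl, h1, h2, h3⟩ := RealI.cons_iff.1 h
    exact RealI.cons_iff.2 ⟨a :: x₀, x', y₀, y', b, hb, rfl, rfl, by rw [Z_cons_ne ha, h1], h2, h3⟩

theorem RealI.cons_right {o a : α} (ha : a ≠ o) {x y : List α} {C : List (ℕ × ℕ)}
    (h : RealI o x y C) : RealI o x (a :: y) C := by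
  cases C with
  | nil => rw [RealI]; trivial
  | cons c C =>
    obtain ⟨x₀, x', y₀, y', b, hb, rfl, rfl, h1, h2, h3⟩ := RealI.cons_iff.1 h
    exact RealI.cons_iff.2 ⟨x₀, x', a :: y₀, y', b, hb, rfl, rfl, h1, by rw [Z_cons_ne ha, h2], h3⟩

/-- Adding a zero in front of the first string. -/
theorem RealI.zero_left {o : α} {x y : List α} {C : List (ℕ × ℕ)} (h : RealI o x y C) :
    ∃ C', RealI o (o :: x) y C' ∧ C'.length = C.length ∧
      tvI (Z o x + 1) (Z o y) C' ≤ tvI (Z o x) (Z o y) C + 1 := by
  cases C with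
  | nil =>
    refine ⟨[], by rw [RealI]; trivial, rfl, ?_⟩
    rw [tvI_nil, tvI_nil]
    omega
  | cons c C =>
    obtain ⟨x₀, x', y₀, y', b, hb, rfl, rfl, h1, h2, h3⟩ := RealI.cons_iff.1 h
    refine ⟨(c.1 + 1, c.2) :: C, RealI.cons_iff.2 ⟨o :: x₀, x', y₀, y', b, hb, rfl, rfl,
      by rw [Z_cons_self, h1], h2, h3⟩, by rw [List.length_cons, List.length_cons], ?_⟩
    rw [tvI_cons, tvI_cons, Nat.add_sub_add_right]
    push_cast
    omega

/-- Adding a zero in front of the second string. -/
theorem RealI.zero_right {o : α} {x y : List α} {C : List (ℕ × ℕ)} (h : RealI o x y C) :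
    ∃ C', RealI o x (o :: y) C' ∧ C'.length = C.length ∧
      tvI (Z o x) (Z o y + 1) C' ≤ tvI (Z o x) (Z o y) C + 1 := by
  cases C with
  | nil =>
    refine ⟨[], by rw [RealI]; trivial, rfl, ?_⟩
    rw [tvI_nil, tvI_nil]
    omega
  | cons c C =>
    obtain ⟨x₀, x', y₀, y', b, hb, rfl, rfl, h1, h2, h3⟩ := RealI.cons_iff.1 h
    refine ⟨(c.1, c.2 + 1) :: C, RealI.cons_iff.2 ⟨x₀, x', o :: y₀, y', b, hb, rfl, rfl,
      h1, by rw [Z_cons_self, h2], h3⟩, by rw [List.length_cons, List.length_cons], ?_⟩
    rw [tvI_cons, tvI_cons, Nat.add_sub_add_right]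
    push_cast
    omega

/-- Adding a zero in front of both strings. -/
theorem RealI.zero_both {o : α} {x y : List α} {C : List (ℕ × ℕ)} (h : RealI o x y C) :
    ∃ C', RealI o (o :: x) (o :: y) C' ∧ C'.length = C.length ∧
      tvI (Z o x + 1) (Z o y + 1) C' ≤ tvI (Z o x) (Z o y) C := by
  cases C with
  | nil =>
    refine ⟨[], by rw [RealI]; trivial, rfl, ?_⟩
    rw [tvI_nil, tvI_nil]
    omega
  | cons c C =>
    obtain ⟨x₀, x', y₀, y', b, hb, rfl, rfl, h1, h2, h3⟩ := RealI.cons_iff.1 h
    refine ⟨(c.1 + 1, c.2 + 1) :: C, RealI.cons_iff.2 ⟨o :: x₀, x', o :: y₀, y', b, hb, rfl, rfl,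
      by rw [Z_cons_self, h1], by rw [Z_cons_self, h2], h3⟩,
      by rw [List.length_cons, List.length_cons], ?_⟩
    rw [tvI_cons, tvI_cons, Nat.add_sub_add_right, Nat.add_sub_add_right]
    push_cast
    omega

/-- An optimal chain. Proof: induction on `x.length + y.length` with `lc_cons`. If one string is empty: `C = []`. If
`lc (a :: x) (b :: y) = lc x (b :: y)`: take `C` for `x`, `b :: y` and, if `a = o`, add `1` to the first component of the first increment
(if `C = []` nothing to do); similarly for `b`. If `a = b = o` and `lc = lc x y + 1`: add `(1, 1)` to the first increment. If `a = b ≠ o`: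
`(0, 0) :: C`. -/
theorem exists_chain_lc (o : α) (x y : List α) :
    ∃ C, RealI o x y C ∧ 2 * lc x y + tvI (Z o x) (Z o y) C ≤ 2 * C.length + Z o x + Z o y := by
  obtain ⟨n, hn⟩ : ∃ n, n = x.length + y.length := ⟨_, rfl⟩
  induction n using Nat.strong_induction_on generalizing x y with
  | _ n ih =>
    cases x with
    | nil =>
      refine ⟨[], by rw [RealI]; trivial, ?_⟩
      rw [lc_nil_left, tvI_nil, Z_nil, List.length_nil]
      omega
    | cons a x =>
      cases y with
      | nil =>
        refine ⟨[], by rw [RealI]; trivial, ?_⟩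
        rw [lc_nil_right, tvI_nil, Z_nil, List.length_nil]
        omega
      | cons b y =>
        rw [List.length_cons, List.length_cons] at hn
        have hcases : lc (a :: x) (b :: y) = lc x (b :: y) ∨
            lc (a :: x) (b :: y) = lc (a :: x) y ∨
            (a = b ∧ lc (a :: x) (b :: y) = lc x y + 1) := by
          rw [lc_cons]
          by_cases hab : a = b
          · rw [if_pos hab]
            rcases max_choice (max (lc x (b :: y)) (lc (a :: x) y)) (lc x y + 1) with h | h
            · rw [h]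
              rcases max_choice (lc x (b :: y)) (lc (a :: x) y) with h' | h'
              · exact Or.inl h'
              · exact Or.inr (Or.inl h')
            · exact Or.inr (Or.inr ⟨hab, h⟩)
          · rw [if_neg hab, max_eq_left (Nat.zero_le _)]
            rcases max_choice (lc x (b :: y)) (lc (a :: x) y) with h' | h'
            · exact Or.inl h'
            · exact Or.inr (Or.inl h')
        rcases hcases with h | h | ⟨hab, h⟩
        · obtain ⟨C, hC, hb⟩ := ih (x.length + (y.length + 1)) (by omega) x (b :: y)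
            (by rw [List.length_cons])
          rw [h]
          by_cases hao : a = o
          · obtain ⟨C', hC', hl, ht⟩ := hC.zero_left
            subst hao
            refine ⟨C', hC', ?_⟩
            rw [hl, Z_cons_self]
            omega
          · refine ⟨C, hC.cons_left hao, ?_⟩
            rw [Z_cons_ne hao x]
            exact hb
        · obtain ⟨C, hC, hb⟩ := ih ((x.length + 1) + y.length) (by omega) (a :: x) y
            (by rw [List.length_cons])
          rw [h]
          by_cases hbo : b = o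
          · obtain ⟨C', hC', hl, ht⟩ := hC.zero_right
            subst hbo
            refine ⟨C', hC', ?_⟩
            rw [hl, Z_cons_self b y]
            omega
          · refine ⟨C, hC.cons_right hbo, ?_⟩
            rw [Z_cons_ne hbo y]
            exact hb
        · subst hab
          obtain ⟨C, hC, hb⟩ := ih (x.length + y.length) (by omega) x y rfl
          rw [h]
          by_cases hao : a = o
          · obtain ⟨C', hC', hl, ht⟩ := hC.zero_both
            subst hao
            refine ⟨C', hC', ?_⟩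
            rw [hl, Z_cons_self, Z_cons_self]
            omega
          · refine ⟨(0, 0) :: C, RealI.cons_iff.2 ⟨[], x, [], y, a, hao, rfl, rfl, rfl, rfl, hC⟩, ?_⟩
            rw [Z_cons_ne hao, Z_cons_ne hao, tvI_cons, List.length_cons]
            simp only [Nat.sub_zero, Nat.cast_zero, sub_self, Int.natAbs_zero]
            omega

theorem le_D {o : α} {x y : List α} {C : List (ℕ × ℕ)} (h : RealI o x y C) :
    vI (Z o x) (Z o y) C ≤ D o x y := by
  have h1 := chain_le_lc h
  have h2 : (2 * (C.length : ℝ) + Z o x + Z o y) ≤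
      2 * (lc x y : ℝ) + (tvI (Z o x) (Z o y) C : ℝ) := by
    exact_mod_cast h1
  unfold vI D
  linarith

theorem exists_D (o : α) (x y : List α) :
    ∃ C, RealI o x y C ∧ D o x y ≤ vI (Z o x) (Z o y) C := by
  obtain ⟨C, hC, h1⟩ := exists_chain_lc o x y
  refine ⟨C, hC, ?_⟩
  have h2 : 2 * (lc x y : ℝ) + (tvI (Z o x) (Z o y) C : ℝ) ≤
      2 * (C.length : ℝ) + Z o x + Z o y := by
    exact_mod_cast h1
  unfold vI D
  linarith

/-- `tvI` is at least the difference of the numbers of zeros. -/
theorem le_tvI {n m : ℕ} {C : List (ℕ × ℕ)} (h : adm n m C) : ((n : ℤ) - m).natAbs ≤ tvI n m C := by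
  induction C generalizing n m with
  | nil => rw [tvI_nil]
  | cons c C ih =>
    rw [adm] at h
    obtain ⟨h1, h2, h3⟩ := h
    have h4 := ih h3
    rw [tvI_cons]
    omega

end NV
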