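import Pool.Agent.Lib.MP_ae6bb1_pr.NV.Defs

/-! The sum over chains. -/

open Finset LCSH
open scoped ENNReal

namespace NV

theorem cth_pos {θ : ℝ} (h : 0 < θ) : 0 < cth θ := by
  unfold cth
  have h1 : Real.exp (-θ) < 1 := by
    rw [Real.exp_lt_one_iff]
    linarith
  have h2 : 0 < Real.exp (-θ) := Real.exp_pos _
  exact div_pos (by linarith) (by linarith)

/-- a finite geometric sum -/
private theorem comb_geom {x : ℝ} (h0 : 0 ≤ x) (h1 : x < 1) (n : ℕ) :
    ∑ k ∈ range n, x ^ k ≤ 1 / (1 - x) := by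
  rw [le_div_iff₀ (by linarith)]
  have h := geom_sum_mul_neg x n
  rw [h]
  have := pow_nonneg h0 n
  linarith

/-- `∑_j exp (- θ |i - j|) ≤ cth θ`, over `j ≤ m`. -/
theorem sum_exp_le {θ : ℝ} (h : 0 < θ) (i m : ℕ) :
    ∑ j ∈ range (m + 1), Real.exp (-(θ * (((i : ℤ) - j).natAbs : ℝ))) ≤ cth θ := by
  have hx1 : Real.exp (-θ) < 1 := by
    rw [Real.exp_lt_one_iff]
    linarith
  have hx0 : 0 < Real.exp (-θ) := Real.exp_pos _
  have hf : ∀ j : ℕ, Real.exp (-(θ * (((i : ℤ) - j).natAbs : ℝ))) =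
      Real.exp (-θ) ^ (((i : ℤ) - j).natAbs) := by
    intro j
    rw [← Real.exp_nat_mul]
    congr 1
    ring
  have h1 : ∑ j ∈ range (m + 1), Real.exp (-(θ * (((i : ℤ) - j).natAbs : ℝ))) ≤
      ∑ j ∈ range (i + 1 + m), Real.exp (-θ) ^ (((i : ℤ) - j).natAbs) := by
    rw [Finset.sum_congr rfl fun j _ => hf j]
    refine Finset.sum_le_sum_of_subset_of_nonneg ?_ fun j _ _ => (pow_pos hx0 _).le
    intro j hj
    rw [mem_range] at hj ⊢
    omega
  refine h1.trans ?_
  rw [Finset.sum_range_add]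
  have h2 : ∑ j ∈ range (i + 1), Real.exp (-θ) ^ (((i : ℤ) - j).natAbs) ≤
      1 / (1 - Real.exp (-θ)) := by
    have e : ∑ j ∈ range (i + 1), Real.exp (-θ) ^ (((i : ℤ) - j).natAbs) =
        ∑ j ∈ range (i + 1), Real.exp (-θ) ^ j := by
      rw [← Finset.sum_range_reflect (fun j => Real.exp (-θ) ^ j) (i + 1)]
      refine Finset.sum_congr rfl fun j hj => ?_
      rw [mem_range] at hj
      congr 1
      omega
    rw [e]
    exact comb_geom hx0.le hx1 _
  have h3 : ∑ k ∈ range m, Real.exp (-θ) ^ (((i : ℤ) - ((i + 1 + k : ℕ) : ℤ)).natAbs) ≤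
      Real.exp (-θ) * (1 / (1 - Real.exp (-θ))) := by
    have e : ∑ k ∈ range m, Real.exp (-θ) ^ (((i : ℤ) - ((i + 1 + k : ℕ) : ℤ)).natAbs) =
        Real.exp (-θ) * ∑ k ∈ range m, Real.exp (-θ) ^ k := by
      rw [Finset.mul_sum]
      refine Finset.sum_congr rfl fun k _ => ?_
      rw [← pow_succ']
      congr 1
      omega
    rw [e]
    exact mul_le_mul_of_nonneg_left (comb_geom hx0.le hx1 _) hx0.le
  have h4 : cth θ = 1 / (1 - Real.exp (-θ)) + Real.exp (-θ) * (1 / (1 - Real.exp (-θ))) := by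
    unfold cth
    field_simp
  rw [h4]
  exact add_le_add h2 h3

/-- a sum over all lists, split at the head -/
private theorem comb_tsum_list {β : Type} (f : List β → ℝ≥0∞) :
    ∑' x, f x = f [] + ∑' a, ∑' x : List β, f (a :: x) := by
  classical
  rw [ENNReal.tsum_eq_add_tsum_ite ([] : List β)]
  congr 1
  have hg : Function.Injective (fun q : β × List β => q.1 :: q.2) := by
    rintro ⟨a, x⟩ ⟨b, y⟩ h
    simp only [List.cons.injEq] at h
    exact Prod.ext h.1 h.2
  have h1 := hg.tsum_eq (f := fun x : List β => if x = [] then 0 else f x) (by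
    intro x hx
    rw [Function.mem_support] at hx
    cases x with
    | nil => exact absurd (if_pos rfl) hx
    | cons a x => exact ⟨(a, x), rfl⟩)
  refine (tsum_congr fun x => ?_).trans (h1.symm.trans ?_)
  · by_cases hx : x = []
    · rw [if_pos hx, if_pos hx]
    · rw [if_neg hx, if_neg hx]
  · rw [ENNReal.tsum_prod']
    refine tsum_congr fun a => tsum_congr fun y => ?_
    exact if_neg (List.cons_ne_nil a y)

/-- the weight of the first increment -/
private noncomputable def combG (P θ lm : ℝ) (c : ℕ × ℕ) : ℝ :=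
  P * Real.exp (-(θ * (((c.1 : ℤ) - c.2).natAbs : ℝ))) *
    (1 + lm) ^ (if c.1 = 0 ∨ c.2 = 0 then 1 else 0)

private theorem combG_nonneg {P θ lm : ℝ} (hP : 0 ≤ P) (hl : 0 ≤ lm) (c : ℕ × ℕ) :
    0 ≤ combG P θ lm c :=
  mul_nonneg (mul_nonneg hP (Real.exp_pos _).le) (pow_nonneg (by linarith) _)

/-- the sum over the first increment -/
private theorem combG_sum {P θ lm z q : ℝ} (hP : 0 ≤ P) (hθ : 0 < θ) (hl : 0 ≤ lm) (hz : 1 < z)
    (h : P * (cth θ * (z / (z - 1)) + 2 * lm * cth θ) ≤ q) (n m : ℕ) :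
    ∑ c ∈ range (n + 1) ×ˢ range (m + 1), combG P θ lm c * z ^ (n - c.1) ≤ q * z ^ n := by
  have hz0 : 0 < z := by linarith
  set E : ℕ → ℕ → ℝ := fun i j => Real.exp (-(θ * (((i : ℤ) - j).natAbs : ℝ))) with hE
  have hEp : ∀ i j, 0 < E i j := fun i j => Real.exp_pos _
  have hcp := cth_pos hθ
  have h1 : ∀ c ∈ range (n + 1) ×ˢ range (m + 1), combG P θ lm c * z ^ (n - c.1) ≤
      P * z ^ n * ((z⁻¹) ^ c.1 * E c.1 c.2 + (if c.1 = 0 then lm * E 0 c.2 else 0) +
        (if c.2 = 0 then lm * E c.1 0 else 0)) := by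
    intro c hc
    rw [mem_product, mem_range, mem_range] at hc
    have hzc : z ^ (n - c.1) = z ^ n * (z⁻¹) ^ c.1 := by
      rw [inv_pow, ← div_eq_mul_inv, eq_div_iff (pow_pos hz0 _).ne', ← pow_add]
      congr 1
      omega
    have hle1 : (z⁻¹) ^ c.1 ≤ 1 := pow_le_one₀ (inv_pos.2 hz0).le (inv_le_one_of_one_le₀ hz.le)
    have hge0 : 0 < (z⁻¹) ^ c.1 := pow_pos (inv_pos.2 hz0) _
    have hzn : 0 < z ^ n := pow_pos hz0 _
    rw [hzc]
    have e : combG P θ lm c * (z ^ n * (z⁻¹) ^ c.1) =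
        P * z ^ n * ((z⁻¹) ^ c.1 * E c.1 c.2 * (1 + lm) ^ (if c.1 = 0 ∨ c.2 = 0 then 1 else 0)) := by
      unfold combG
      ring
    rw [e]
    refine mul_le_mul_of_nonneg_left ?_ (mul_nonneg hP hzn.le)
    have hmul : (z⁻¹) ^ c.1 * E c.1 c.2 * lm ≤ lm * E c.1 c.2 := by
      have : (z⁻¹) ^ c.1 * (E c.1 c.2 * lm) ≤ 1 * (E c.1 c.2 * lm) :=
        mul_le_mul_of_nonneg_right hle1 (mul_nonneg (hEp _ _).le hl)
      linarith
    by_cases h1 : c.1 = 0
    · rw [if_pos (Or.inl h1), if_pos h1, pow_one]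
      have hE0 : E 0 c.2 = E c.1 c.2 := by rw [h1]
      rw [hE0]
      have h3 : 0 ≤ (if c.2 = 0 then lm * E c.1 0 else 0) := by
        split_ifs
        · exact mul_nonneg hl (hEp _ _).le
        · exact le_refl _
      nlinarith
    · by_cases h2 : c.2 = 0
      · rw [if_pos (Or.inr h2), if_neg h1, if_pos h2, pow_one]
        have hE0 : E c.1 0 = E c.1 c.2 := by rw [h2]
        rw [hE0]
        nlinarith
      · rw [if_neg (by tauto), if_neg h1, if_neg h2, pow_zero]
        linarith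
  refine (Finset.sum_le_sum h1).trans ?_
  rw [← Finset.mul_sum, Finset.sum_add_distrib, Finset.sum_add_distrib]
  have s1 : ∑ c ∈ range (n + 1) ×ˢ range (m + 1), (z⁻¹) ^ c.1 * E c.1 c.2 ≤
      cth θ * (z / (z - 1)) := by
    rw [Finset.sum_product]
    have hz1 : z / (z - 1) = 1 / (1 - z⁻¹) := by
      field_simp
    have hz2 : z⁻¹ < 1 := inv_lt_one_of_one_lt₀ hz
    calc ∑ i ∈ range (n + 1), ∑ j ∈ range (m + 1), (z⁻¹) ^ i * E i j
        ≤ ∑ i ∈ range (n + 1), (z⁻¹) ^ i * cth θ := by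
          refine Finset.sum_le_sum fun i _ => ?_
          rw [← Finset.mul_sum]
          exact mul_le_mul_of_nonneg_left (sum_exp_le hθ i m) (pow_pos (inv_pos.2 hz0) _).le
      _ = (∑ i ∈ range (n + 1), (z⁻¹) ^ i) * cth θ := by rw [Finset.sum_mul]
      _ ≤ (1 / (1 - z⁻¹)) * cth θ :=
          mul_le_mul_of_nonneg_right (comb_geom (inv_pos.2 hz0).le hz2 _) hcp.le
      _ = cth θ * (z / (z - 1)) := by rw [hz1, mul_comm]
  have s2 : ∑ c ∈ range (n + 1) ×ˢ range (m + 1), (if c.1 = 0 then lm * E 0 c.2 else 0) ≤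
      lm * cth θ := by
    rw [Finset.sum_product, Finset.sum_comm]
    have : ∀ j ∈ range (m + 1), (∑ i ∈ range (n + 1), if i = 0 then lm * E 0 j else 0) =
        lm * E 0 j := by
      intro j _
      rw [Finset.sum_ite_eq' (range (n + 1)) 0 (fun _ => lm * E 0 j), if_pos (mem_range.2 (by omega))]
    rw [Finset.sum_congr rfl this, ← Finset.mul_sum]
    exact mul_le_mul_of_nonneg_left (sum_exp_le hθ 0 m) hl
  have s3 : ∑ c ∈ range (n + 1) ×ˢ range (m + 1), (if c.2 = 0 then lm * E c.1 0 else 0) ≤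
      lm * cth θ := by
    rw [Finset.sum_product]
    have : ∀ i ∈ range (n + 1), (∑ j ∈ range (m + 1), if j = 0 then lm * E i 0 else 0) =
        lm * E 0 i := by
      intro i _
      rw [Finset.sum_ite_eq' (range (m + 1)) 0 (fun _ => lm * E i 0), if_pos (mem_range.2 (by omega))]
      have : E i 0 = E 0 i := by
        simp only [hE]
        congr 4
        omega
      rw [this]
    rw [Finset.sum_congr rfl this, ← Finset.mul_sum]
    exact mul_le_mul_of_nonneg_left (sum_exp_le hθ 0 n) hl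
  have hzn : 0 < z ^ n := pow_pos hz0 _
  calc P * z ^ n * (∑ c ∈ range (n + 1) ×ˢ range (m + 1), (z⁻¹) ^ c.1 * E c.1 c.2 +
        ∑ c ∈ range (n + 1) ×ˢ range (m + 1), (if c.1 = 0 then lm * E 0 c.2 else 0) +
        ∑ c ∈ range (n + 1) ×ˢ range (m + 1), (if c.2 = 0 then lm * E c.1 0 else 0))
      ≤ P * z ^ n * (cth θ * (z / (z - 1)) + lm * cth θ + lm * cth θ) :=
        mul_le_mul_of_nonneg_left (add_le_add (add_le_add s1 s2) s3) (mul_nonneg hP hzn.le)
    _ = (P * (cth θ * (z / (z - 1)) + 2 * lm * cth θ)) * z ^ n := by ring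
    _ ≤ q * z ^ n := mul_le_mul_of_nonneg_right h hzn.le

open Classical in
/-- the weight of a chain -/
private noncomputable def combW (P θ lm : ℝ) (n m : ℕ) (C : List (ℕ × ℕ)) : ℝ≥0∞ :=
  if adm n m C then
    ENNReal.ofReal (P ^ C.length * Real.exp (-(θ * (tvI n m C : ℝ))) * (1 + lm) ^ nsc C) else 0

private theorem nsc_cons (c : ℕ × ℕ) (C : List (ℕ × ℕ)) :
    nsc (c :: C) = (if c.1 = 0 ∨ c.2 = 0 then 1 else 0) + nsc C := by
  unfold nsc
  by_cases h : c.1 = 0 ∨ c.2 = 0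
  · rw [List.filter_cons_of_pos (by simpa using h), List.length_cons, if_pos h]
    omega
  · rw [List.filter_cons_of_neg (by simpa using h), if_neg h]
    omega

private theorem combW_cons {P θ lm : ℝ} (hP : 0 ≤ P) (hl : 0 ≤ lm) (n m : ℕ) (c : ℕ × ℕ)
    (C : List (ℕ × ℕ)) :
    combW P θ lm n m (c :: C) = if c ∈ range (n + 1) ×ˢ range (m + 1) then
      ENNReal.ofReal (combG P θ lm c) * combW P θ lm (n - c.1) (m - c.2) C else 0 := by
  have hiff : adm n m (c :: C) ↔ c ∈ range (n + 1) ×ˢ range (m + 1) ∧ adm (n - c.1) (m - c.2) C := by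
    rw [mem_product, mem_range, mem_range]
    show (c.1 ≤ n ∧ c.2 ≤ m ∧ adm (n - c.1) (m - c.2) C) ↔ _
    constructor
    · rintro ⟨h1, h2, h3⟩
      exact ⟨⟨by omega, by omega⟩, h3⟩
    · rintro ⟨⟨h1, h2⟩, h3⟩
      exact ⟨by omega, by omega, h3⟩
  by_cases h1 : c ∈ range (n + 1) ×ˢ range (m + 1)
  · rw [if_pos h1]
    unfold combW
    by_cases h2 : adm (n - c.1) (m - c.2) C
    · rw [if_pos (hiff.2 ⟨h1, h2⟩), if_pos h2, ← ENNReal.ofReal_mul (combG_nonneg hP hl c)]
      congr 1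
      have ht : (tvI n m (c :: C) : ℝ) =
          (((c.1 : ℤ) - c.2).natAbs : ℝ) + (tvI (n - c.1) (m - c.2) C : ℝ) := by
        show ((((c.1 : ℤ) - c.2).natAbs + tvI (n - c.1) (m - c.2) C : ℕ) : ℝ) = _
        rw [Nat.cast_add]
      rw [ht, nsc_cons, List.length_cons, pow_succ, pow_add, mul_add, neg_add, Real.exp_add]
      unfold combG
      ring
    · rw [if_neg (fun h => h2 (hiff.1 h).2), if_neg h2, mul_zero]
  · rw [if_neg h1]
    unfold combW
    rw [if_neg (fun h => h1 (hiff.1 h).1)]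

private theorem combW_trunc {P θ lm z q : ℝ} (hP : 0 ≤ P) (hθ : 0 < θ) (hl : 0 ≤ lm) (hz : 1 < z)
    (hq0 : 0 ≤ q) (hq : q < 1)
    (h : P * (cth θ * (z / (z - 1)) + 2 * lm * cth θ) ≤ q) (k : ℕ) : ∀ n m : ℕ,
    (∑' C : List (ℕ × ℕ), if C.length ≤ k then combW P θ lm n m C else 0) ≤
      ENNReal.ofReal (z ^ n / (1 - q)) := by
  have hz0 : 0 < z := by linarith
  have hq1 : 0 < 1 - q := by linarith
  have hnil : ∀ n m : ℕ, combW P θ lm n m [] ≤ 1 := by
    intro n m
    unfold combW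
    rw [if_pos (show adm n m [] from trivial), List.length_nil, pow_zero, one_mul]
    have : nsc [] = 0 := rfl
    rw [this, pow_zero, mul_one]
    refine ENNReal.ofReal_le_one.2 ?_
    rw [Real.exp_le_one_iff]
    have : 0 ≤ θ * (tvI n m [] : ℝ) := mul_nonneg hθ.le (Nat.cast_nonneg _)
    linarith
  induction k with
  | zero =>
    intro n m
    rw [comb_tsum_list]
    have h0 : ∑' (a : ℕ × ℕ), ∑' (x : List (ℕ × ℕ)),
        (if (a :: x).length ≤ 0 then combW P θ lm n m (a :: x) else 0) = 0 := by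
      simp
    rw [h0, add_zero, if_pos (by simp)]
    refine (hnil n m).trans ?_
    rw [← ENNReal.ofReal_one]
    refine ENNReal.ofReal_le_ofReal ?_
    rw [le_div_iff₀ hq1]
    have := one_le_pow₀ hz.le (n := n)
    linarith
  | succ k ih =>
    intro n m
    rw [comb_tsum_list, if_pos (by simp)]
    have h1 : ∀ a : ℕ × ℕ, (∑' x : List (ℕ × ℕ),
        (if (a :: x).length ≤ k + 1 then combW P θ lm n m (a :: x) else 0)) ≤
        if a ∈ range (n + 1) ×ˢ range (m + 1) then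
          ENNReal.ofReal (combG P θ lm a * (z ^ (n - a.1) / (1 - q))) else 0 := by
      intro a
      by_cases ha : a ∈ range (n + 1) ×ˢ range (m + 1)
      · rw [if_pos ha]
        have e : ∀ x : List (ℕ × ℕ),
            (if (a :: x).length ≤ k + 1 then combW P θ lm n m (a :: x) else 0) =
            ENNReal.ofReal (combG P θ lm a) *
              (if x.length ≤ k then combW P θ lm (n - a.1) (m - a.2) x else 0) := by
          intro x
          by_cases hx : x.length ≤ k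
          · rw [if_pos (by rw [List.length_cons]; omega), if_pos hx, combW_cons hP hl, if_pos ha]
          · rw [if_neg (by rw [List.length_cons]; omega), if_neg hx, mul_zero]
        rw [tsum_congr e, ENNReal.tsum_mul_left,
          ENNReal.ofReal_mul (combG_nonneg hP hl a)]
        exact mul_le_mul_right (ih (n - a.1) (m - a.2)) _
      · rw [if_neg ha]
        refine le_of_eq ?_
        rw [ENNReal.tsum_eq_zero]
        intro x
        rw [combW_cons hP hl, if_neg ha, ite_self]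
    have h2 : (∑' a : ℕ × ℕ, ∑' x : List (ℕ × ℕ),
        (if (a :: x).length ≤ k + 1 then combW P θ lm n m (a :: x) else 0)) ≤
        ENNReal.ofReal (q * z ^ n / (1 - q)) := by
      refine (ENNReal.tsum_le_tsum h1).trans ?_
      rw [tsum_eq_sum (s := range (n + 1) ×ˢ range (m + 1)) (fun a ha => if_neg ha)]
      rw [Finset.sum_congr rfl (fun a ha => if_pos ha),
        ← ENNReal.ofReal_sum_of_nonneg (fun a _ => mul_nonneg (combG_nonneg hP hl a)
          (div_nonneg (pow_pos hz0 _).le hq1.le))]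
      refine ENNReal.ofReal_le_ofReal ?_
      have e : ∑ a ∈ range (n + 1) ×ˢ range (m + 1), combG P θ lm a * (z ^ (n - a.1) / (1 - q)) =
          (∑ a ∈ range (n + 1) ×ˢ range (m + 1), combG P θ lm a * z ^ (n - a.1)) / (1 - q) := by
        rw [Finset.sum_div]
        exact Finset.sum_congr rfl fun a _ => by ring
      rw [e]
      exact div_le_div_of_nonneg_right (combG_sum hP hθ hl hz h n m) hq1.le
    refine (add_le_add (hnil n m) h2).trans ?_
    have hzn : 1 ≤ z ^ n := one_le_pow₀ hz.le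
    rw [← ENNReal.ofReal_one, ← ENNReal.ofReal_add zero_le_one
      (div_nonneg (mul_nonneg hq0 (by linarith)) hq1.le)]
    refine ENNReal.ofReal_le_ofReal ?_
    rw [le_div_iff₀ hq1, add_mul, div_mul_cancel₀ _ hq1.ne']
    nlinarith

open Classical in
/-- **The sum over chains.** Proof: let `T r n m` be the part of the sum with `C.length = r`. `T 0 n m ≤ 1` and
`T (r+1) n m = ∑_{i ≤ n} ∑_{j ≤ m} ρ Λ exp (- θ |i - j|) (1 + lm)^[i = 0 ∨ j = 0] T r (n-i) (m-j)`; by induction `T r n m ≤ q ^ r z ^ n`, since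
`∑_{i,j} ρ Λ exp (- θ |i - j|) (1 + lm [i = 0 ∨ j = 0]) z^(-i) ≤ ρ Λ (cth θ · z/(z-1) + 2 lm cth θ)` (`∑_i z^(-i) = z / (z - 1)`; the terms
with `i = 0` and with `j = 0` give at most `cth θ` each). Then sum over `r`. The sum over lists of length `r + 1` is
the sum over the first element and the rest. -/
theorem comb {ρ Λ θ lm z q : ℝ} (hρ : 0 ≤ ρ) (hΛ : 0 ≤ Λ) (hθ : 0 < θ) (hl : 0 ≤ lm) (hz : 1 < z)
    (hq0 : 0 ≤ q) (hq : q < 1)
    (h : ρ * Λ * (cth θ * (z / (z - 1)) + 2 * lm * cth θ) ≤ q) (n m : ℕ) :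
    (∑' C : List (ℕ × ℕ), if adm n m C then
      ENNReal.ofReal ((ρ * Λ) ^ C.length * Real.exp (-(θ * (tvI n m C : ℝ))) * (1 + lm) ^ nsc C)
      else 0) ≤ ENNReal.ofReal (z ^ n / (1 - q)) := by
  show (∑' C : List (ℕ × ℕ), combW (ρ * Λ) θ lm n m C) ≤ _
  rw [ENNReal.tsum_eq_iSup_sum]
  refine iSup_le fun s => ?_
  obtain ⟨k, hk⟩ : ∃ k : ℕ, ∀ C ∈ s, C.length ≤ k :=
    ⟨s.sup List.length, fun C hC => Finset.le_sup (f := List.length) hC⟩
  refine le_trans ?_ (combW_trunc (mul_nonneg hρ hΛ) hθ hl hz hq0 hq h k n m)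
  refine le_trans (le_of_eq ?_) (ENNReal.sum_le_tsum s)
  exact Finset.sum_congr rfl fun C hC => (if_pos (hk C hC)).symm

end NV
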