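import Pool.Agent.Lib.MP_ae6bb1_pr.NV.Lc

/-! Cuts at a zero or at a matched letter. -/

open Finset LCSH
open scoped ENNReal

namespace NV

variable {α : Type} [DecidableEq α]

theorem cut_isB_nil (o : α) : isB o ([] : List α) := by
  intro y a h
  simp at h

theorem cut_isB_concat (o : α) (z : List α) : isB o (z ++ [o]) := by
  intro y a h
  have := List.append_inj_right' h rfl
  simpa using this.symm

theorem cut_aux (o : α) (x x' y y₁ : List α) : ∀ y₂ : List α, y = y₁ ++ y₂ →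
    lc (x ++ x') y ≤ lc x y₁ + lc x' y₂ →
    (∃ y₁ y₂ : List α, y = y₁ ++ y₂ ∧ isB o y₁ ∧ lc (x ++ x') y ≤ lc x y₁ + lc x' y₂) ∨
    (∃ (x₁ x₂ y₁ y₂ : List α) (a : α), a ≠ o ∧ x = x₁ ++ a :: x₂ ∧ y = y₁ ++ a :: y₂ ∧
      lc (x ++ x') y ≤ lc x₁ y₁ + 1 + lc x' y₂) := by
  induction y₁ using List.reverseRecOn with
  | nil =>
    intro y₂ h1 h2
    exact Or.inl ⟨[], y₂, h1, cut_isB_nil o, h2⟩
  | append_singleton z b ih =>
    intro y₂ h1 h2
    by_cases hb : b = o
    · subst hb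
      exact Or.inl ⟨z ++ [b], y₂, h1, cut_isB_concat b z, h2⟩
    · rcases lc_last x z b with h3 | ⟨x₁, x₂, hx, h3⟩
      · have h4 := lc_append [] x' [b] y₂
        rw [lc_nil_left, List.nil_append, List.singleton_append] at h4
        refine ih (b :: y₂) ?_ ?_
        · rw [h1, List.append_assoc, List.singleton_append]
        · omega
      · refine Or.inr ⟨x₁, x₂, z, y₂, b, hb, hx, ?_, ?_⟩
        · rw [h1, List.append_assoc, List.singleton_append]
        · omega

/-- **Refined cut.** Proof: take the cut `y = y₁ ++ y₂` of `lc_cut` and use induction on `y₁` from the right (`List.reverseRecOn`,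
statement for all `y₂` with the same sum). If `y₁ = []` or the last letter of `y₁` is `o` we are in the first case. If
`y₁ = z ++ [b]` with `b ≠ o`, use `lc_last`: either `lc x (z ++ [b]) ≤ lc x z` and `b` is moved to the second part
(`lc x' y₂ ≤ lc x' (b :: y₂)`, from `lc_append [] x' [b] y₂`), or `x = x₁ ++ b :: x₂` and `lc x (z ++ [b]) ≤ lc x₁ z + 1`: second case. -/
theorem cut_ref (o : α) (x x' y : List α) :
    (∃ y₁ y₂ : List α, y = y₁ ++ y₂ ∧ isB o y₁ ∧ lc (x ++ x') y ≤ lc x y₁ + lc x' y₂) ∨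
    (∃ (x₁ x₂ y₁ y₂ : List α) (a : α), a ≠ o ∧ x = x₁ ++ a :: x₂ ∧ y = y₁ ++ a :: y₂ ∧
      lc (x ++ x') y ≤ lc x₁ y₁ + 1 + lc x' y₂) := by
  obtain ⟨y₁, y₂, h1, h2⟩ := lc_cut x x' y
  exact cut_aux o x x' y y₁ y₂ h1 h2

end NV
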