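import Pool.Agent.Lib.MP_ae6bb1_pr.AsLimit

/-!
# LCS with one dominating letter: definitions

`o` is the heavy letter (zero), `m = L.p o`, `S = ∑_{a ≠ o} p a ^ 2`, `rr = S / m ^ 2`.

Strings are lists. `lc` = length of a longest common subsequence, `Z o x` = number of zeros of `x`,
`D o x y = lc x y - (Z x + Z y) / 2`. A chain of matches of letters `≠ o` is coded by the list of
the numbers of zeros `(i, j)` passed in `x` and `y` before the next match (`RealI`); the value of a
chain is `length - tvI / 2`, `tvI = ∑ |i - j|` including the last piece.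

`SS L o true n g` = expectation of `g` over the random string with `n` zeros which is empty or ends
with a zero; `SS L o false n g` = sum over all strings with `n` zeros (mass `1 / m`).

Words: the letters `≠ o` after exactly `t` zeros; `ws o x t` = set of these letters. Under
`SS L o true n` the sets `ws o x 0, …, ws o x (n-1)` are independent with the law `lam L o`.

Abstract model `Md`: a finite type `T` with weights and a symmetric relation; `vv` = the value of the
best strict chain of related cells; `Gm` = the limit model (`J` cells of time, each with at most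
one point, on a diagonal `-w, …, w`).
-/

open Finset LCSH
open scoped ENNReal

namespace NV

/-! ### Strings -/

section strings
variable {α : Type} [DecidableEq α]

/-- the length of a longest common subsequence of two strings -/
def lc : List α → List α → ℕ
  | [], _ => 0
  | _ :: _, [] => 0
  | a :: x, b :: y =>
    max (max (lc x (b :: y)) (lc (a :: x) y)) (if a = b then lc x y + 1 else 0)
termination_by x y => x.length + y.length

/-- the number of zeros -/
def Z (o : α) (x : List α) : ℕ := x.count o

/-- the excess of the longest common subsequence over the mean number of zeros -/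
noncomputable def D (o : α) (x y : List α) : ℝ := (lc x y : ℝ) - ((Z o x : ℝ) + (Z o y : ℝ)) / 2

/-- `x` is empty or its last letter is `o` -/
def isB (o : α) (x : List α) : Prop := ∀ (y : List α) (a : α), x = y ++ [a] → a = o

/-- `exp` with values in `[0, ∞]` -/
noncomputable def ex (t : ℝ) : ℝ≥0∞ := ENNReal.ofReal (Real.exp t)

/-- the chain of matches (of letters `≠ o`) with the increments `C` is realised in `x`, `y` -/
def RealI (o : α) : List α → List α → List (ℕ × ℕ) → Prop
  | _, _, [] => True
  | x, y, c :: C => ∃ (x₀ x' y₀ y' : List α) (a : α), a ≠ o ∧ x = x₀ ++ a :: x' ∧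
      y = y₀ ++ a :: y' ∧ Z o x₀ = c.1 ∧ Z o y₀ = c.2 ∧ RealI o x' y' C

/-- the letter `a ≠ o` occurs in `x` after exactly `t` zeros -/
def wmem (o : α) (x : List α) (t : ℕ) (a : α) : Prop :=
  a ≠ o ∧ ∃ x₀ x' : List α, x = x₀ ++ a :: x' ∧ Z o x₀ = t

open Classical in
/-- the set of the letters `≠ o` of `x` after exactly `t` zeros -/
noncomputable def ws [Fintype α] (o : α) (x : List α) (t : ℕ) : Finset α :=
  univ.filter fun a => wmem o x t a

end strings

/-- total variation of a chain with increments `C` in strings with `n`, `m` zeros -/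
def tvI : ℕ → ℕ → List (ℕ × ℕ) → ℕ
  | n, m, [] => ((n : ℤ) - m).natAbs
  | n, m, c :: C => ((c.1 : ℤ) - c.2).natAbs + tvI (n - c.1) (m - c.2) C

/-- the increments fit into strings with `n`, `m` zeros -/
def adm : ℕ → ℕ → List (ℕ × ℕ) → Prop
  | _, _, [] => True
  | n, m, c :: C => c.1 ≤ n ∧ c.2 ≤ m ∧ adm (n - c.1) (m - c.2) C

/-- number of increments with a vanishing component -/
def nsc (C : List (ℕ × ℕ)) : ℕ := (C.filter fun c => c.1 = 0 ∨ c.2 = 0).length

/-- value of a chain -/
noncomputable def vI (n m : ℕ) (C : List (ℕ × ℕ)) : ℝ := (C.length : ℝ) - (tvI n m C : ℝ) / 2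

/-- `∑_{d ∈ ℤ} exp (- θ |d|)` -/
noncomputable def cth (θ : ℝ) : ℝ := (1 + Real.exp (-θ)) / (1 - Real.exp (-θ))

/-! ### Weights -/

section weights
variable {α : Type} [DecidableEq α] [Fintype α] (L : Law α) (o : α)

/-- the probability of a string -/
noncomputable def wt (x : List α) : ℝ≥0∞ := (x.map fun a => ENNReal.ofReal (L.p a)).prod

open Classical in
/-- sum over the strings with `n` zeros (which are empty or end with a zero if `b`) -/
noncomputable def SS (b : Bool) (n : ℕ) (g : List α → ℝ≥0∞) : ℝ≥0∞ :=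
  ∑' x : List α, if Z o x = n ∧ (b = true → isB o x) then wt L x * g x else 0

/-- sum over pairs of strings -/
noncomputable def SS2 (b : Bool) (n m : ℕ) (F : List α → List α → ℝ≥0∞) : ℝ≥0∞ :=
  SS L o b n fun x => SS L o b m fun y => F x y

/-- total mass of `SS L o b n` -/
noncomputable def Ms (b : Bool) : ℝ≥0∞ := if b then 1 else (ENNReal.ofReal (L.p o))⁻¹

/-- `S / m ^ 2` -/
noncomputable def rr : ℝ := (∑ a ∈ univ.erase o, L.p a ^ 2) / L.p o ^ 2

/-- expected `lc` of two independent blocks with `n` and `m` zeros -/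
noncomputable def elc (n m : ℕ) : ℝ := (SS2 L o true n m fun x y => (lc x y : ℝ≥0∞)).toReal

/-- `∑_y E exp (s D (x, y))`, `x` a block with `N` zeros, `y` any block -/
noncomputable def Zs (s : ℝ) (N : ℕ) : ℝ≥0∞ :=
  ∑' M : ℕ, SS2 L o true N M fun x y => ex (s * D o x y)

/-- the same with all strings -/
noncomputable def Zf (s : ℝ) (i : ℕ) : ℝ≥0∞ :=
  ∑' M : ℕ, SS2 L o false i M fun x y => ex (s * D o x y)

/-- the contribution of the cuts at a matched letter -/
noncomputable def T2 (s : ℝ) (N : ℕ) : ℝ≥0∞ :=
  ex s * ENNReal.ofReal (∑ a ∈ univ.erase o, L.p a ^ 2) *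
    ∑ i ∈ range N, ex (-(s * ((N : ℝ) - i) / 2)) * Zf L o s i

open Classical in
/-- the law of the set of the letters of a word -/
noncomputable def lam (A : Finset α) : ℝ :=
  (SS L o true 1 fun x => if ws o x 0 = A then 1 else 0).toReal

/-- two sets of letters have a common element -/
def mt (A B : Finset α) : Prop := ¬ Disjoint A B

end weights

/-! ### The abstract model -/

/-- a finite probability space with a symmetric relation and an element related to nothing -/
structure Md (T : Type) [Fintype T] where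
  lam : T → ℝ
  rel : T → T → Prop
  e : T
  nonneg : ∀ a, 0 ≤ lam a
  sum_one : ∑ a, lam a = 1
  symm : ∀ a b, rel a b → rel b a
  null : ∀ a, ¬ rel e a

/-- expectation over two independent sequences of lengths `N`, `M` -/
noncomputable def E2 {T : Type} [Fintype T] (lam : T → ℝ) (N M : ℕ)
    (F : (Fin N → T) → (Fin M → T) → ℝ) : ℝ :=
  PE (fun _ : Fin N => lam) fun A => PE (fun _ : Fin M => lam) fun B => F A B

namespace Md
variable {T : Type} [Fintype T] (Q : Md T)

/-- probability that two independent elements are related -/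
noncomputable def r : ℝ := ∑ a, ∑ b, Q.lam a * Q.lam b * ind (Q.rel a b)

/-- probability that an element is related to two others -/
noncomputable def k : ℝ :=
  ∑ a, ∑ b, ∑ c, Q.lam a * Q.lam b * Q.lam c * ind (Q.rel a b ∧ Q.rel a c)

end Md

/-- the relation of the cells `(t, u)` -/
def rlr {T : Type} (rel : T → T → Prop) {N M : ℕ} (A : Fin N → T) (B : Fin M → T) :
    ℕ → ℕ → Prop :=
  fun t u => ∃ (ht : t < N) (hu : u < M), rel (A ⟨t, ht⟩) (B ⟨u, hu⟩)

/-- total variation of the sequence `d, l, e` -/
def tvd : ℤ → List ℤ → ℤ → ℕ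
  | d, [], e => (e - d).natAbs
  | d, a :: l, e => (a - d).natAbs + tvd a l e

/-- the diagonals of a chain of cells -/
def dg (C : List (ℕ × ℕ)) : List ℤ := C.map fun c => (c.2 : ℤ) - (c.1 : ℤ)

/-- `C` is a strictly increasing chain of cells of `[0,N) × [0,M)` in the relation `m` -/
def IsCh (m : ℕ → ℕ → Prop) (N M : ℕ) (C : List (ℕ × ℕ)) : Prop :=
  C.Pairwise (fun c c' => c.1 < c'.1 ∧ c.2 < c'.2) ∧ ∀ c ∈ C, c.1 < N ∧ c.2 < M ∧ m c.1 c.2

/-- twice the largest value of a strict chain with the property `Q` -/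
noncomputable def v2 (m : ℕ → ℕ → Prop) (N M : ℕ) (Q : List (ℕ × ℕ) → Prop) : ℤ :=
  sSup {v : ℤ | ∃ C : List (ℕ × ℕ), IsCh m N M C ∧ Q C ∧
    v = 2 * (C.length : ℤ) - (tvd 0 (dg C) ((M : ℤ) - (N : ℤ)) : ℤ)}

/-- the largest value of a strict chain with the property `Q` -/
noncomputable def vv (m : ℕ → ℕ → Prop) (N M : ℕ) (Q : List (ℕ × ℕ) → Prop) : ℝ :=
  (v2 m N M Q : ℝ) / 2

/-- at most `R` cells -/
def Qr (R : ℕ) : List (ℕ × ℕ) → Prop := fun C => C.length ≤ R

/-- all diagonals in the window `[-w, w]` -/
def Qw (w : ℕ) : List (ℕ × ℕ) → Prop := fun C => ∀ c ∈ C, ((c.2 : ℤ) - (c.1 : ℤ)).natAbs ≤ w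

/-! ### The limit model -/

/-- law of a time cell: one point with probability `p` on each of the `2 w + 1` diagonals -/
noncomputable def qw (w : ℕ) (p : ℝ) : Option (Fin (2 * w + 1)) → ℝ
  | none => 1 - (2 * (w : ℝ) + 1) * p
  | some _ => p

/-- the diagonals of the points -/
def pts (w : ℕ) {J : ℕ} (τ : Fin J → Option (Fin (2 * w + 1))) : List ℤ :=
  (List.finRange J).filterMap fun i => (τ i).map fun k => ((k : ℕ) : ℤ) - (w : ℤ)

/-- the largest value of a chain of points -/
noncomputable def gv (w : ℕ) {J : ℕ} (τ : Fin J → Option (Fin (2 * w + 1))) : ℝ :=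
  ((sSup {v : ℤ | ∃ l : List ℤ, l.Sublist (pts w τ) ∧
    v = 2 * (l.length : ℤ) - (tvd 0 l 0 : ℤ)} : ℤ) : ℝ) / 2

/-- its mean -/
noncomputable def Gm (w J : ℕ) (p : ℝ) : ℝ := PE (fun _ : Fin J => qw w p) (gv w)

/-! ### Mini blocks -/

open Classical in
/-- the related cells of the window in a pair of mini blocks -/
noncomputable def win {T : Type} (rel : T → T → Prop) (w : ℕ) {h : ℕ} (a b : Fin h → T) :
    Finset (Fin h × Fin h) :=
  univ.filter fun c => (((c.2 : ℕ) : ℤ) - ((c.1 : ℕ) : ℤ)).natAbs ≤ w ∧ rel (a c.1) (b c.2)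

open Classical in
/-- the type of a pair of mini blocks: the diagonal of the only related cell of the window -/
noncomputable def ty {T : Type} (rel : T → T → Prop) (w : ℕ) {h : ℕ} (a b : Fin h → T) :
    Option (Fin (2 * w + 1)) :=
  if h1 : ∃ c, win rel w a b = {c} then
    some (Fin.ofNat (2 * w + 1) ((((h1.choose.2 : ℕ) : ℤ) - ((h1.choose.1 : ℕ) : ℤ) + w).toNat))
  else none

/-- the mini block number `i` -/
def blk {T : Type} {J h : ℕ} (A : Fin (J * h) → T) (i : Fin J) : Fin h → T :=
  fun t => A (finProdFinEquiv (i, t))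

open Classical in
/-- number of the related cells of the window whose coordinates are in different mini blocks -/
noncomputable def bdc {T : Type} (rel : T → T → Prop) (w : ℕ) {J h : ℕ} (A B : Fin (J * h) → T) :
    ℕ :=
  (univ.filter fun c : Fin (J * h) × Fin (J * h) =>
    (((c.2 : ℕ) : ℤ) - ((c.1 : ℕ) : ℤ)).natAbs ≤ w ∧ (c.1 : ℕ) / h ≠ (c.2 : ℕ) / h ∧
      rel (A c.1) (B c.2)).card

/-- bound for the mean number of ordered pairs of related cells of the window in a mini block -/
noncomputable def pq (w h : ℕ) (r k : ℝ) : ℝ :=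
  ((h : ℝ) * (2 * w + 1)) ^ 2 * r ^ 2 + 2 * h * (2 * w + 1) ^ 2 * k

end NV
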