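import Pool.Agent.Lib.MP_ae6bb1_pr.NV.Defs

/-! Efron - Stein with deletion, for products of arbitrary weights. -/

open Finset LCSH

namespace NV

variable {ι β : Type} [Fintype ι] [DecidableEq ι] [Fintype β] {w : ι → β → ℝ}

/-- the average over the coordinates in `B` -/
private noncomputable def esc (w : ι → β → ℝ) (B : Finset ι) (f : (ι → β) → ℝ) (x : ι → β) : ℝ :=
  PE w fun y : ι → β => f (B.piecewise y x)

private theorem es_piecewise (hw : IsW w) (B : Finset ι) (f : (ι → β) → ℝ) :
    (PE w fun x : ι → β => PE w fun y : ι → β => f (B.piecewise y x)) = PE w f := by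
  have h2 : PE w f = PE w fun x : ι → β => PE w fun _ : ι → β => f x := by
    congr 1
    funext x
    exact (PE_const hw _).symm
  rw [h2]
  unfold PE
  simp only [Finset.mul_sum]
  rw [← Fintype.sum_prod_type', ← Fintype.sum_prod_type']
  let σ : ((ι → β) × (ι → β)) ≃ ((ι → β) × (ι → β)) :=
    { toFun := fun p => (B.piecewise p.2 p.1, B.piecewise p.1 p.2)
      invFun := fun p => (B.piecewise p.2 p.1, B.piecewise p.1 p.2)
      left_inv := by
        rintro ⟨x, u⟩
        ext c <;> by_cases hc : c ∈ B <;> simp [hc]
      right_inv := by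
        rintro ⟨x, u⟩
        ext c <;> by_cases hc : c ∈ B <;> simp [hc] }
  rw [← Equiv.sum_comp σ (fun p : (ι → β) × (ι → β) =>
    (∏ i, w i (p.1 i)) * ((∏ i, w i (p.2 i)) * f p.1))]
  refine Finset.sum_congr rfl fun p _ => ?_
  have h3 : (∏ i, w i (p.1 i)) * (∏ i, w i (p.2 i)) =
      (∏ i, w i ((σ p).1 i)) * ∏ i, w i ((σ p).2 i) := by
    rw [← Finset.prod_mul_distrib, ← Finset.prod_mul_distrib]
    refine Finset.prod_congr rfl fun i _ => ?_
    by_cases hc : i ∈ B
    · simp [σ, hc, mul_comm]
    · simp [σ, hc]
  rw [← mul_assoc, ← mul_assoc, h3]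
  rfl

private theorem esc_PE (hw : IsW w) (B : Finset ι) (f : (ι → β) → ℝ) :
    PE w (esc w B f) = PE w f := es_piecewise hw B f

private theorem esc_piecewise (B : Finset ι) (f : (ι → β) → ℝ) (x y : ι → β) :
    esc w B f (B.piecewise y x) = esc w B f x := by
  unfold esc
  congr 1
  funext z
  congr 1
  funext c
  by_cases hc : c ∈ B <;> simp [hc]

private theorem esc_orth (hw : IsW w) (B : Finset ι) (f v : (ι → β) → ℝ)
    (hv : ∀ x y, v (B.piecewise y x) = v x) : PE w (fun x => (f x - esc w B f x) * v x) = 0 := by
  have h1 : PE w (fun x => f x * v x) = PE w (fun x => esc w B f x * v x) := by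
    rw [← es_piecewise hw B (fun x => f x * v x)]
    congr 1
    funext x
    have h2 : (fun k' : ι → β => f (B.piecewise k' x) * v (B.piecewise k' x)) =
        fun k' => f (B.piecewise k' x) * v x := by
      funext k'
      rw [hv]
    rw [h2, PE_mul_const]
    rfl
  have h3 : (fun x => (f x - esc w B f x) * v x) = fun x => f x * v x - esc w B f x * v x := by
    funext x; ring
  rw [h3, PE_sub, h1, sub_self]

private theorem esc_pyth (hw : IsW w) (B : Finset ι) (f v : (ι → β) → ℝ)
    (hv : ∀ x y, v (B.piecewise y x) = v x) :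
    PE w (fun x => (f x - esc w B f x + v x) ^ 2) =
      PE w (fun x => (f x - esc w B f x) ^ 2) + PE w fun x => v x ^ 2 := by
  have h1 := esc_orth hw B f v hv
  have h2 : (fun x => (f x - esc w B f x + v x) ^ 2) =
      fun x => ((f x - esc w B f x) ^ 2 + 2 * ((f x - esc w B f x) * v x)) + v x ^ 2 := by
    funext x; ring
  rw [h2, PE_add, PE_add, PE_const_mul, h1]
  ring

private theorem es_sq (hw : IsW w) (f : (ι → β) → ℝ) : PE w f ^ 2 ≤ PE w fun x => f x ^ 2 := by
  have h := PE_mul_sq_le hw f (fun _ => 1)
  simp only [mul_one, one_pow, PE_const hw] at h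
  exact h

private theorem esc_sub (B : Finset ι) (f g : (ι → β) → ℝ) (x : ι → β) :
    esc w B (fun y => f y - g y) x = esc w B f x - esc w B g x := PE_sub _ _ _

private theorem esc_insert (hw : IsW w) {i : ι} {B : Finset ι} (hi : i ∉ B) (f : (ι → β) → ℝ)
    (x : ι → β) : esc w (insert i B) f x = esc w {i} (esc w B f) x := by
  unfold esc
  rw [← es_piecewise hw B]
  congr 1
  funext y
  congr 1
  funext z
  congr 1
  funext c
  by_cases hc : c ∈ B
  · simp [hc]
  · by_cases hci : c = i
    · subst hci
      simp [hi]
    · simp [hc, hci]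

private theorem es_efron (hw : IsW w) (B : Finset ι) (f : (ι → β) → ℝ) :
    PE w (fun x => (f x - esc w B f x) ^ 2) ≤
      ∑ i ∈ B, PE w fun x => (f x - esc w {i} f x) ^ 2 := by
  induction B using Finset.induction_on with
  | empty =>
    have h1 : ∀ x, esc w (∅ : Finset ι) f x = f x := by
      intro x
      unfold esc
      simp only [Finset.piecewise_empty]
      exact PE_const hw _
    simp only [h1, sub_self, Finset.sum_empty]
    have h2 := PE_const hw (0 ^ 2 : ℝ)
    rw [h2]
    norm_num
  | insert i B hi ih =>
    rw [Finset.sum_insert hi]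
    have h1 : (fun x => (f x - esc w (insert i B) f x) ^ 2) =
        fun x => (f x - esc w {i} f x + esc w {i} (fun y => f y - esc w B f y) x) ^ 2 := by
      funext x
      rw [esc_insert hw hi, esc_sub]
      ring
    rw [h1, esc_pyth hw {i} f _ (fun x y => esc_piecewise {i} _ x y)]
    have h2 : PE w (fun x => esc w {i} (fun y => f y - esc w B f y) x ^ 2) ≤
        PE w fun x => (f x - esc w B f x) ^ 2 := by
      rw [← esc_PE hw {i} (fun x => (f x - esc w B f x) ^ 2)]
      exact PE_mono hw fun x => es_sq hw _
    linarith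

/-- **Efron - Stein**: the variance is at most the sum over `i` of the mean squares of the change under replacing the coordinate
`i` by the fixed value `e`. Proof: as `efron_fix` in `Lib/MP_3e612f_nt/RD/Es.lean` (there for uniform averages): let `c B f` be the average
over the coordinates in `B`; `f - c (insert i B) f = (f - c {i} f) + c {i} (f - c B f)` is an orthogonal sum, `c {i}` is a contraction, so
`E (f - c B f)^2 ≤ ∑_{i ∈ B} E (f - c {i} f)^2`, and `E (f - c {i} f)^2 ≤ E (f - g)^2` for every `g` which does not depend on `i`.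
(Alternatively: induction on `ι = Fin n` with `PE_cons` and transfer.) -/
theorem es_tens (hw : IsW w) (f : (ι → β) → ℝ) (e : β) :
    PE w (fun ω => f ω ^ 2) - PE w f ^ 2 ≤
      ∑ i, PE w fun ω => (f ω - f (Function.update ω i e)) ^ 2 := by
  have h0 : PE w (fun ω => f ω ^ 2) - PE w f ^ 2 =
      PE w (fun x => (f x - esc w univ f x) ^ 2) := by
    have h2 : ∀ u, esc w univ f u = PE w f := by
      intro u
      unfold esc
      simp only [Finset.piecewise_univ]
    simp only [h2]
    have h3 : (fun x => (f x - PE w f) ^ 2) =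
        fun x => (f x ^ 2 - 2 * PE w f * f x) + PE w f ^ 2 := by
      funext x; ring
    rw [h3, PE_add, PE_sub, PE_const_mul, PE_const hw]
    ring
  rw [h0]
  refine (es_efron hw univ f).trans (Finset.sum_le_sum fun i _ => ?_)
  have h1 : (fun x => (f x - f (Function.update x i e)) ^ 2) =
      fun x => (f x - esc w {i} f x + (esc w {i} f x - f (Function.update x i e))) ^ 2 := by
    funext x; ring
  rw [h1, esc_pyth hw {i} f (fun x => esc w {i} f x - f (Function.update x i e))]
  · have := PE_nonneg hw (f := fun x => (esc w {i} f x - f (Function.update x i e)) ^ 2)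
      fun x => sq_nonneg _
    linarith
  · intro x y
    rw [esc_piecewise]
    congr 2
    funext c
    by_cases hc : c = i
    · subst hc; simp
    · simp [hc]

end NV
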