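import Pool.Agent.Lib.MP_ae6bb1_pr.NV.Es

/-! Exponential moments from Efron - Stein. -/

open Finset LCSH

namespace NV

variable {ι β : Type} [Fintype ι] [DecidableEq ι] [Fintype β] {w : ι → β → ℝ}

/-- One step. Proof: `es_tens` for `exp (s f / 2)`; `exp (s f / 2) - exp (s f_i / 2) ≤ s / 2 (f - f_i) exp (s f / 2)`, `(f - f_i)^2 ≤ f - f_i`,
so `E e^{s f} (1 - s^2 R / 4) ≤ (E e^{s f / 2})^2`, and `1 / (1 - u) ≤ e^{2 u}` for `0 ≤ u ≤ 1/4`. -/
theorem es_step (hw : IsW w) (f : (ι → β) → ℝ) (e : β) {R s : ℝ}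
    (h0 : ∀ ω i, f (Function.update ω i e) ≤ f ω)
    (h1 : ∀ ω i, f ω ≤ f (Function.update ω i e) + 1)
    (hR : ∀ ω, ∑ i, (f ω - f (Function.update ω i e)) ≤ R) (hs : 0 ≤ s) (hsR : s ^ 2 * R ≤ 1) :
    PE w (fun ω => Real.exp (s * f ω)) ≤
      Real.exp (s ^ 2 * R / 2) * PE w (fun ω => Real.exp (s / 2 * f ω)) ^ 2 := by
  have hR0 : 0 ≤ R :=
    (Finset.sum_nonneg fun i _ => sub_nonneg.2 (h0 (fun _ => e) i)).trans (hR fun _ => e)
  have hsq : ∀ ω, Real.exp (s / 2 * f ω) ^ 2 = Real.exp (s * f ω) := by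
    intro ω
    rw [sq, ← Real.exp_add]
    congr 1
    ring
  have h2 := es_tens hw (fun ω => Real.exp (s / 2 * f ω)) e
  simp only [hsq] at h2
  have h3 : ∑ i, PE w (fun ω =>
      (Real.exp (s / 2 * f ω) - Real.exp (s / 2 * f (Function.update ω i e))) ^ 2) ≤
      s ^ 2 * R / 4 * PE w (fun ω => Real.exp (s * f ω)) := by
    rw [← PE_sum, ← PE_const_mul]
    refine PE_mono hw fun ω => ?_
    have h4 : ∀ i, (Real.exp (s / 2 * f ω) - Real.exp (s / 2 * f (Function.update ω i e))) ^ 2 ≤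
        s ^ 2 / 4 * Real.exp (s * f ω) * (f ω - f (Function.update ω i e)) := by
      intro i
      set d := f ω - f (Function.update ω i e) with hd
      have hd0 : 0 ≤ d := sub_nonneg.2 (h0 ω i)
      have hd1 : d ≤ 1 := by linarith [h1 ω i]
      have h5 : Real.exp (s / 2 * f (Function.update ω i e)) =
          Real.exp (s / 2 * f ω) * Real.exp (-(s / 2 * d)) := by
        rw [← Real.exp_add]
        congr 1
        rw [hd]
        ring
      have h6 : Real.exp (s / 2 * f ω) - Real.exp (s / 2 * f (Function.update ω i e)) =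
          Real.exp (s / 2 * f ω) * (1 - Real.exp (-(s / 2 * d))) := by
        rw [h5]
        ring
      have h7 : 0 ≤ 1 - Real.exp (-(s / 2 * d)) := by
        have : Real.exp (-(s / 2 * d)) ≤ 1 := Real.exp_le_one_iff.2 (by
          have : 0 ≤ s / 2 * d := by positivity
          linarith)
        linarith
      have h8 : 1 - Real.exp (-(s / 2 * d)) ≤ s / 2 * d := by
        have := Real.add_one_le_exp (-(s / 2 * d))
        linarith
      rw [h6, mul_pow, hsq]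
      have h9 : (1 - Real.exp (-(s / 2 * d))) ^ 2 ≤ (s / 2 * d) ^ 2 :=
        pow_le_pow_left₀ h7 h8 2
      have h10 : (s / 2 * d) ^ 2 ≤ s ^ 2 / 4 * d := by
        have : d ^ 2 ≤ d := by nlinarith
        have h11 := mul_le_mul_of_nonneg_left this (by positivity : (0 : ℝ) ≤ s ^ 2 / 4)
        calc (s / 2 * d) ^ 2 = s ^ 2 / 4 * d ^ 2 := by ring
          _ ≤ _ := h11
      have h12 := mul_le_mul_of_nonneg_left (h9.trans h10) (Real.exp_pos (s * f ω)).le
      linarith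
    calc _ ≤ ∑ i, s ^ 2 / 4 * Real.exp (s * f ω) * (f ω - f (Function.update ω i e)) :=
          Finset.sum_le_sum fun i _ => h4 i
      _ = s ^ 2 / 4 * Real.exp (s * f ω) * ∑ i, (f ω - f (Function.update ω i e)) := by
          rw [Finset.mul_sum]
      _ ≤ s ^ 2 / 4 * Real.exp (s * f ω) * R :=
          mul_le_mul_of_nonneg_left (hR ω) (by positivity)
      _ = _ := by ring
  set A := PE w (fun ω => Real.exp (s * f ω)) with hA
  set B := PE w (fun ω => Real.exp (s / 2 * f ω)) with hB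
  have hA0 : 0 ≤ A := PE_nonneg hw fun ω => (Real.exp_pos _).le
  have h4 : A * (1 - s ^ 2 * R / 4) ≤ B ^ 2 := by linarith
  set u := s ^ 2 * R / 4 with hu
  have hu0 : 0 ≤ u := by positivity
  have hu1 : u ≤ 1 / 4 := by rw [hu]; linarith
  have h5 : 1 ≤ Real.exp (s ^ 2 * R / 2) * (1 - u) := by
    have h6 : 1 + 2 * u ≤ Real.exp (s ^ 2 * R / 2) := by
      have := Real.add_one_le_exp (s ^ 2 * R / 2)
      have h7 : s ^ 2 * R / 2 = 2 * u := by rw [hu]; ring
      linarith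
    have h8 := mul_le_mul_of_nonneg_right h6 (by linarith : (0 : ℝ) ≤ 1 - u)
    nlinarith
  calc A = A * 1 := (mul_one A).symm
    _ ≤ A * (Real.exp (s ^ 2 * R / 2) * (1 - u)) := mul_le_mul_of_nonneg_left h5 hA0
    _ = Real.exp (s ^ 2 * R / 2) * (A * (1 - u)) := by ring
    _ ≤ Real.exp (s ^ 2 * R / 2) * B ^ 2 := mul_le_mul_of_nonneg_left h4 (Real.exp_pos _).le

/-- iteration of `es_step` -/
theorem es_iter (hw : IsW w) (f : (ι → β) → ℝ) (e : β) {R s : ℝ}
    (h0 : ∀ ω i, f (Function.update ω i e) ≤ f ω)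
    (h1 : ∀ ω i, f ω ≤ f (Function.update ω i e) + 1)
    (hR : ∀ ω, ∑ i, (f ω - f (Function.update ω i e)) ≤ R) (hs : 0 ≤ s) (hsR : s ^ 2 * R ≤ 1)
    (k : ℕ) :
    PE w (fun ω => Real.exp (s * f ω)) ≤
      Real.exp (s ^ 2 * R * (1 - (1 / 2) ^ k)) *
        PE w (fun ω => Real.exp (s * (1 / 2) ^ k * f ω)) ^ (2 ^ k) := by
  have hR0 : 0 ≤ R :=
    (Finset.sum_nonneg fun i _ => sub_nonneg.2 (h0 (fun _ => e) i)).trans (hR fun _ => e)
  induction k with
  | zero => simp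
  | succ k ih =>
    set t := s * (1 / 2) ^ k with ht
    have hk1 : ((1 : ℝ) / 2) ^ k ≤ 1 := pow_le_one₀ (by norm_num) (by norm_num)
    have hk0 : 0 ≤ ((1 : ℝ) / 2) ^ k := by positivity
    have ht0 : 0 ≤ t := by positivity
    have hts : t ≤ s := by
      rw [ht]
      exact mul_le_of_le_one_right hs hk1
    have htR : t ^ 2 * R ≤ 1 := by
      refine le_trans ?_ hsR
      exact mul_le_mul_of_nonneg_right (pow_le_pow_left₀ ht0 hts 2) hR0
    have h2 := es_step hw f e h0 h1 hR ht0 htR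
    have h3 : 0 ≤ PE w (fun ω => Real.exp (t * f ω)) := PE_nonneg hw fun ω => (Real.exp_pos _).le
    have h4 := pow_le_pow_left₀ h3 h2 (2 ^ k)
    have h5 : s * (1 / 2) ^ (k + 1) = t / 2 := by
      rw [ht, pow_succ]
      ring
    rw [h5]
    refine ih.trans ?_
    refine (mul_le_mul_of_nonneg_left h4 (Real.exp_pos _).le).trans (le_of_eq ?_)
    rw [mul_pow, ← pow_mul, ← Real.exp_nat_mul, ← mul_assoc, ← Real.exp_add]
    congr 1
    · congr 1
      rw [ht]
      push_cast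
      have h6 : (2 : ℝ) ^ k * (1 / 2) ^ k = 1 := by
        rw [← mul_pow]
        norm_num
      rw [pow_succ (1 / 2 : ℝ) k]
      calc s ^ 2 * R * (1 - (1 / 2) ^ k) + 2 ^ k * ((s * (1 / 2) ^ k) ^ 2 * R / 2)
          = s ^ 2 * R * (1 - (1 / 2) ^ k) + (2 ^ k * (1 / 2) ^ k) * (s ^ 2 * R * (1 / 2) ^ k / 2) := by
            ring
        _ = _ := by rw [h6]; ring
    · rw [pow_succ, mul_comm 2]

/-- **Exponential moments.** Proof: iterate `es_step`: `E e^{s f} ≤ exp (s^2 R ∑_{j < k} 2^(-j-1)) (E e^{s 2^(-k) f})^(2^k)` and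
`(E e^{t f})^(1/t) → e^{E f}` as `t → 0` (`e^{t f} ≤ 1 + t f + C t^2` with `C = C(f)`, for `t ≤ 1`). -/
theorem es_exp (hw : IsW w) (f : (ι → β) → ℝ) (e : β) {R s : ℝ}
    (h0 : ∀ ω i, f (Function.update ω i e) ≤ f ω)
    (h1 : ∀ ω i, f ω ≤ f (Function.update ω i e) + 1)
    (hR : ∀ ω, ∑ i, (f ω - f (Function.update ω i e)) ≤ R) (hs : 0 ≤ s) (hsR : s ^ 2 * R ≤ 1) :
    PE w (fun ω => Real.exp (s * f ω)) ≤ Real.exp (s * PE w f + s ^ 2 * R) := by
  have hR0 : 0 ≤ R :=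
    (Finset.sum_nonneg fun i _ => sub_nonneg.2 (h0 (fun _ => e) i)).trans (hR fun _ => e)
  obtain ⟨M, hM0, hM⟩ : ∃ M : ℝ, 0 ≤ M ∧ ∀ ω, |f ω| ≤ M :=
    ⟨∑ ω, |f ω|, Finset.sum_nonneg fun _ _ => abs_nonneg _, fun ω =>
      Finset.single_le_sum (f := fun ω => |f ω|) (fun _ _ => abs_nonneg _) (Finset.mem_univ ω)⟩
  have hlim0 : Filter.Tendsto (fun k : ℕ => ((1 : ℝ) / 2) ^ k) Filter.atTop (nhds 0) :=
    tendsto_pow_atTop_nhds_zero_of_lt_one (by norm_num) (by norm_num)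
  have hlim : Filter.Tendsto
      (fun k : ℕ => Real.exp (s * PE w f + s ^ 2 * R + s ^ 2 * M ^ 2 * (1 / 2) ^ k))
      Filter.atTop (nhds (Real.exp (s * PE w f + s ^ 2 * R))) := by
    have h2 := (hlim0.const_mul (s ^ 2 * M ^ 2)).const_add (s * PE w f + s ^ 2 * R)
    rw [mul_zero, add_zero] at h2
    exact (Real.continuous_exp.tendsto _).comp h2
  have hsmall : ∀ᶠ k : ℕ in Filter.atTop, s * (1 / 2) ^ k * M ≤ 1 := by
    have h2 := (hlim0.const_mul s).mul_const M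
    rw [mul_zero, zero_mul] at h2
    exact (h2.eventually (gt_mem_nhds (by norm_num : (0 : ℝ) < 1))).mono fun k hk => le_of_lt hk
  refine ge_of_tendsto hlim (hsmall.mono fun k hk => ?_)
  refine (es_iter hw f e h0 h1 hR hs hsR k).trans ?_
  set t := s * (1 / 2) ^ k with ht
  have ht0 : 0 ≤ t := by positivity
  have h2 : ∀ ω, Real.exp (t * f ω) ≤ 1 + (t * f ω + t ^ 2 * M ^ 2) := by
    intro ω
    have h3 : |t * f ω| ≤ 1 := by
      rw [abs_mul, abs_of_nonneg ht0]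
      exact (mul_le_mul_of_nonneg_left (hM ω) ht0).trans hk
    have h4 := (abs_le.1 (Real.abs_exp_sub_one_sub_id_le h3)).2
    have h5 : (t * f ω) ^ 2 ≤ t ^ 2 * M ^ 2 := by
      rw [mul_pow]
      refine mul_le_mul_of_nonneg_left ?_ (sq_nonneg t)
      rw [← sq_abs]
      exact pow_le_pow_left₀ (abs_nonneg _) (hM ω) 2
    linarith
  have h3 : PE w (fun ω => Real.exp (t * f ω)) ≤ Real.exp (t * PE w f + t ^ 2 * M ^ 2) := by
    have h4 := PE_mono hw h2
    rw [PE_add, PE_add, PE_const hw, PE_const hw, PE_const_mul] at h4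
    refine h4.trans ?_
    have := Real.add_one_le_exp (t * PE w f + t ^ 2 * M ^ 2)
    linarith
  have h4 : 0 ≤ PE w (fun ω => Real.exp (t * f ω)) := PE_nonneg hw fun ω => (Real.exp_pos _).le
  have h5 := pow_le_pow_left₀ h4 h3 (2 ^ k)
  have h6 : (2 : ℝ) ^ k * (1 / 2) ^ k = 1 := by
    rw [← mul_pow]
    norm_num
  have h7 : Real.exp (s ^ 2 * R * (1 - (1 / 2) ^ k)) ≤ Real.exp (s ^ 2 * R) := by
    apply Real.exp_le_exp.2
    have : 0 ≤ s ^ 2 * R * (1 / 2) ^ k := by positivity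
    linarith
  calc _ ≤ Real.exp (s ^ 2 * R) * Real.exp (t * PE w f + t ^ 2 * M ^ 2) ^ (2 ^ k) :=
        mul_le_mul h7 h5 (pow_nonneg h4 _) (Real.exp_pos _).le
    _ = _ := by
        rw [← Real.exp_nat_mul, ← Real.exp_add]
        congr 1
        push_cast
        rw [ht]
        calc s ^ 2 * R + 2 ^ k * (s * (1 / 2) ^ k * PE w f + (s * (1 / 2) ^ k) ^ 2 * M ^ 2)
            = s ^ 2 * R + (2 ^ k * (1 / 2) ^ k) *
                (s * PE w f + s ^ 2 * M ^ 2 * (1 / 2) ^ k) := by ring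
          _ = _ := by rw [h6]; ring

end NV
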