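import Pool.Agent.Lib.MP_ae6bb1_pr.NV.RatLe

/-! The limit of the ratios. -/

open Finset LCSH Filter Topology
open scoped ENNReal

namespace NV

theorem rat_ge {α : Type} [DecidableEq α] [Fintype α] {L : Law α} {o : α} (hm : 0 < L.p o)
    (h0 : 0 < rr L o) (h1 : rr L o ≤ 1) : 1 - 4 * Real.sqrt (rr L o) ≤ rat L o := by
  have h2 := le_gam hm
  have h3 := le_r hm h1
  unfold rat
  rw [le_div_iff₀ h0]
  have h4 : 1 + (wmd hm : Md (Finset α)).r ≤ gam L / L.p o := by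
    rw [le_div_iff₀ hm, mul_comm]
    exact h2
  have h5 : (1 - 4 * Real.sqrt (rr L o)) * rr L o = rr L o - 4 * (rr L o * Real.sqrt (rr L o)) := by
    ring
  rw [h5]
  linarith

/-- the law on `Bool` with the masses `1 - 1 / (j + 2)`, `1 / (j + 2)` -/
noncomputable def bl (j : ℕ) : Law Bool where
  p := fun b => if b then 1 - 1 / ((j : ℝ) + 2) else 1 / ((j : ℝ) + 2)
  nonneg := by
    intro b
    have h1 : (1 : ℝ) / ((j : ℝ) + 2) ≤ 1 := by
      rw [div_le_one (by positivity)]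
      linarith [(Nat.cast_nonneg j : (0 : ℝ) ≤ j)]
    cases b
    · simp only [Bool.false_eq_true, if_false]
      positivity
    · simp only [if_true]
      linarith
  sum_one := by
    rw [Fintype.sum_bool]
    simp

theorem bl_true (j : ℕ) : (bl j).p true = ((j : ℝ) + 1) / ((j : ℝ) + 2) := by
  have h : (bl j).p true = 1 - 1 / ((j : ℝ) + 2) := by simp [bl]
  rw [h]
  field_simp
  ring

theorem bl_pos (j : ℕ) : 0 < (bl j).p true := by
  rw [bl_true]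
  positivity

theorem rr_bl (j : ℕ) : rr (bl j) true = 1 / ((j : ℝ) + 1) ^ 2 := by
  have h1 : (univ.erase true : Finset Bool) = {false} := by decide
  have h2 : (bl j).p false = 1 / ((j : ℝ) + 2) := by simp [bl]
  unfold rr
  rw [h1, Finset.sum_singleton, bl_true, h2]
  have h3 : ((j : ℝ) + 1) ≠ 0 := by positivity
  have h4 : ((j : ℝ) + 2) ≠ 0 := by positivity
  field_simp

theorem rr_bl_pos (j : ℕ) : 0 < rr (bl j) true := by
  rw [rr_bl]
  positivity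

theorem rr_bl_tendsto : Tendsto (fun j : ℕ => rr (bl j) true) atTop (𝓝 0) := by
  have h1 : Tendsto (fun j : ℕ => (1 : ℝ) / ((j : ℝ) + 1)) atTop (𝓝 0) :=
    tendsto_one_div_add_atTop_nhds_zero_nat
  have h2 := h1.mul h1
  rw [mul_zero] at h2
  refine h2.congr fun j => ?_
  rw [rr_bl, one_div_mul_one_div, sq]

theorem rr_bl_ev {η : ℝ} (hη : 0 < η) : ∃ j₀ : ℕ, ∀ j : ℕ, j₀ ≤ j → rr (bl j) true ≤ η := by
  have h1 := (rr_bl_tendsto.eventually (gt_mem_nhds hη))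
  obtain ⟨j₀, h2⟩ := eventually_atTop.1 h1
  exact ⟨j₀, fun j hj => (h2 j hj).le⟩

/-- Proof: the ratios of the laws on `Bool` with masses `1 - 1/j`, `1/j` form a Cauchy sequence by `rat_le`; bounds from `gam_le8`, `le_gam`,
`le_r`. -/
theorem exists_c : ∃ c : ℝ, 1 ≤ c ∧ c ≤ 8 ∧ ∀ ε : ℝ, 0 < ε → ∃ η : ℝ, 0 < η ∧
    ∀ (α : Type) [DecidableEq α] [Fintype α] (L : Law α) (o : α),
      0 < L.p o → 0 < rr L o → rr L o ≤ η → |rat L o - c| ≤ ε := by
  have hpair : ∀ ε : ℝ, 0 < ε → ∃ η : ℝ, 0 < η ∧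
      ∀ (α₁ : Type) [DecidableEq α₁] [Fintype α₁] (L₁ : Law α₁) (o₁ : α₁)
        (α₂ : Type) [DecidableEq α₂] [Fintype α₂] (L₂ : Law α₂) (o₂ : α₂),
        0 < L₁.p o₁ → 0 < rr L₁ o₁ → rr L₁ o₁ ≤ η → 0 < L₂.p o₂ → 0 < rr L₂ o₂ → rr L₂ o₂ ≤ η →
        |rat L₂ o₂ - rat L₁ o₁| ≤ ε := by
    intro ε hε
    obtain ⟨η, hη, h⟩ := rat_le (ε := min ε 1) (lt_min hε one_pos) (min_le_right _ _)
    refine ⟨η, hη, ?_⟩
    intro α₁ _ _ L₁ o₁ α₂ _ _ L₂ o₂ a1 a2 a3 b1 b2 b3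
    have h1 := h α₁ L₁ o₁ α₂ L₂ o₂ a1 a2 a3 b1 b2 b3
    have h2 := h α₂ L₂ o₂ α₁ L₁ o₁ b1 b2 b3 a1 a2 a3
    have h3 := min_le_left ε 1
    rw [abs_le]
    constructor <;> linarith
  have hcau : CauchySeq fun j : ℕ => rat (bl j) true := by
    rw [Metric.cauchySeq_iff']
    intro ε hε
    obtain ⟨η, hη, h⟩ := hpair (ε / 2) (half_pos hε)
    obtain ⟨j₀, hj₀⟩ := rr_bl_ev hη
    refine ⟨j₀, fun j hj => ?_⟩
    rw [Real.dist_eq]
    refine lt_of_le_of_lt (h Bool (bl j₀) true Bool (bl j) true (bl_pos _) (rr_bl_pos _)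
      (hj₀ _ le_rfl) (bl_pos _) (rr_bl_pos _) (hj₀ _ hj)) ?_
    linarith
  obtain ⟨c, hc⟩ := cauchySeq_tendsto_of_complete hcau
  refine ⟨c, ?_, ?_, ?_⟩
  · have h1 : Tendsto (fun j : ℕ => 1 - 4 * Real.sqrt (rr (bl j) true)) atTop (𝓝 1) := by
      have h2 : Tendsto (fun j : ℕ => Real.sqrt (rr (bl j) true)) atTop (𝓝 0) := by
        have h3 := (Real.continuous_sqrt.tendsto 0).comp rr_bl_tendsto
        rw [Real.sqrt_zero] at h3
        exact h3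
      have h4 := (h2.const_mul 4).const_sub 1
      rwa [mul_zero, sub_zero] at h4
    refine le_of_tendsto_of_tendsto h1 hc ?_
    obtain ⟨j₀, hj₀⟩ := rr_bl_ev one_pos
    exact eventually_atTop.2 ⟨j₀, fun j hj => rat_ge (bl_pos j) (rr_bl_pos j) (hj₀ j hj)⟩
  · obtain ⟨η, hη, h⟩ := gam_le8
    refine le_of_tendsto hc ?_
    obtain ⟨j₀, hj₀⟩ := rr_bl_ev hη
    refine eventually_atTop.2 ⟨j₀, fun j hj => ?_⟩
    have h1 := h Bool (bl j) true (bl_pos j) (rr_bl_pos j) (hj₀ j hj)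
    unfold rat
    rw [div_le_iff₀ (rr_bl_pos j), sub_le_iff_le_add, div_le_iff₀ (bl_pos j)]
    calc gam (bl j) ≤ (bl j).p true * (1 + 8 * rr (bl j) true) := h1
      _ = (8 * rr (bl j) true + 1) * (bl j).p true := by ring
  · intro ε hε
    obtain ⟨η, hη, h⟩ := hpair ε hε
    refine ⟨η, hη, ?_⟩
    intro α _ _ L o hm h0 h1
    obtain ⟨j₀, hj₀⟩ := rr_bl_ev hη
    have h2 : Tendsto (fun j : ℕ => |rat L o - rat (bl j) true|) atTop (𝓝 |rat L o - c|) :=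
      (hc.const_sub _).abs
    refine le_of_tendsto h2 ?_
    exact eventually_atTop.2 ⟨j₀, fun j hj => h Bool (bl j) true α L o (bl_pos j) (rr_bl_pos j)
      (hj₀ j hj) hm h0 h1⟩

end NV
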