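import Pool.Agent.Lib.MP_ae6bb1_pr.NV.Defs

/-! Basic facts on longest common subsequences of lists. -/

open Finset LCSH
open scoped ENNReal

namespace NV

variable {α : Type} [DecidableEq α]

theorem lc_nil_left (y : List α) : lc [] y = 0 := by
  rw [lc]

theorem lc_nil_right (x : List α) : lc x [] = 0 := by
  cases x <;> rw [lc]

theorem lc_cons (a : α) (x : List α) (b : α) (y : List α) : lc (a :: x) (b :: y) =
    max (max (lc x (b :: y)) (lc (a :: x) y)) (if a = b then lc x y + 1 else 0) := by
  rw [lc]

/-- Proof: induction on `x.length + y.length` with `lc_cons`. -/
theorem lc_comm (x y : List α) : lc x y = lc y x := by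
  suffices H : ∀ n : ℕ, ∀ x y : List α, x.length + y.length ≤ n → lc x y = lc y x from
    H _ x y le_rfl
  intro n
  induction n with
  | zero =>
    intro x y h
    have hx : x = [] := List.length_eq_zero_iff.mp (by omega)
    have hy : y = [] := List.length_eq_zero_iff.mp (by omega)
    subst hx hy
    rfl
  | succ n ih =>
    intro x y h
    cases x with
    | nil => rw [lc_nil_left, lc_nil_right]
    | cons a x =>
      cases y with
      | nil => rw [lc_nil_left, lc_nil_right]
      | cons b y =>
        simp only [List.length_cons] at h
        rw [lc_cons, lc_cons, ih x (b :: y) (by simp only [List.length_cons]; omega),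
          ih (a :: x) y (by simp only [List.length_cons]; omega), ih x y (by omega)]
        rw [max_comm (lc (b :: y) x)]
        by_cases hab : a = b
        · rw [if_pos hab, if_pos hab.symm]
        · rw [if_neg hab, if_neg (fun h => hab h.symm)]

theorem lc_le_left (x y : List α) : lc x y ≤ x.length := by
  suffices H : ∀ n : ℕ, ∀ x y : List α, x.length + y.length ≤ n → lc x y ≤ x.length from
    H _ x y le_rfl
  intro n
  induction n with
  | zero =>
    intro x y h
    have hx : x = [] := List.length_eq_zero_iff.mp (by omega)
    subst hx
    rw [lc_nil_left]
    exact Nat.zero_le _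
  | succ n ih =>
    intro x y h
    cases x with
    | nil => rw [lc_nil_left]; exact Nat.zero_le _
    | cons a x =>
      cases y with
      | nil => rw [lc_nil_right]; exact Nat.zero_le _
      | cons b y =>
        simp only [List.length_cons] at h
        have h1 := ih x (b :: y) (by simp only [List.length_cons]; omega)
        have h2 := ih (a :: x) y (by simp only [List.length_cons]; omega)
        have h3 := ih x y (by omega)
        rw [lc_cons]
        simp only [List.length_cons] at h2 ⊢
        refine max_le (max_le (by omega) h2) ?_
        split_ifs
        · omega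
        · omega

theorem lc_le_right (x y : List α) : lc x y ≤ y.length := by
  rw [lc_comm]
  exact lc_le_left y x

theorem lc_le_cons_left (a : α) (x y : List α) : lc x y ≤ lc (a :: x) y := by
  cases y with
  | nil => rw [lc_nil_right]; exact Nat.zero_le _
  | cons b y =>
    rw [lc_cons]
    exact le_trans (le_max_left _ _) (le_max_left _ _)

theorem lc_le_cons_right (b : α) (x y : List α) : lc x y ≤ lc x (b :: y) := by
  rw [lc_comm x y, lc_comm x (b :: y)]
  exact lc_le_cons_left b y x

theorem lc_le_append_left (z x y : List α) : lc x y ≤ lc (z ++ x) y := by
  induction z with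
  | nil => exact le_rfl
  | cons a z ih => exact ih.trans (lc_le_cons_left a (z ++ x) y)

theorem lc_le_append_right (z x y : List α) : lc x y ≤ lc x (z ++ y) := by
  induction z with
  | nil => exact le_rfl
  | cons a z ih => exact ih.trans (lc_le_cons_right a x (z ++ y))

/-- Superadditivity. Proof: induction on the lengths of `x`, `y` with `lc_cons`. -/
theorem lc_append (x x' y y' : List α) : lc x y + lc x' y' ≤ lc (x ++ x') (y ++ y') := by
  suffices H : ∀ n : ℕ, ∀ x y : List α, x.length + y.length ≤ n →
      lc x y + lc x' y' ≤ lc (x ++ x') (y ++ y') from H _ x y le_rfl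
  intro n
  induction n with
  | zero =>
    intro x y h
    have hx : x = [] := List.length_eq_zero_iff.mp (by omega)
    have hy : y = [] := List.length_eq_zero_iff.mp (by omega)
    subst hx hy
    rw [lc_nil_left, zero_add]
    exact le_rfl
  | succ n ih =>
    intro x y h
    cases x with
    | nil =>
      rw [lc_nil_left, zero_add]
      exact lc_le_append_right y x' y'
    | cons a x =>
      cases y with
      | nil =>
        rw [lc_nil_right, zero_add]
        exact lc_le_append_left (a :: x) x' y'
      | cons b y =>
        simp only [List.length_cons] at h
        have h1 := ih x (b :: y) (by simp only [List.length_cons]; omega)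
        have h2 := ih (a :: x) y (by simp only [List.length_cons]; omega)
        have h3 := ih x y (by omega)
        simp only [List.cons_append] at h1 h2 h3 ⊢
        have e1 := lc_le_cons_left a (x ++ x') (b :: (y ++ y'))
        have e2 := lc_le_cons_right b (a :: (x ++ x')) (y ++ y')
        have e3 : lc (a :: x) (b :: y) = lc x (b :: y) ∨ lc (a :: x) (b :: y) = lc (a :: x) y ∨
            (a = b ∧ lc (a :: x) (b :: y) = lc x y + 1) ∨ lc (a :: x) (b :: y) = 0 := by
          rw [lc_cons]
          by_cases hab : a = b
          · rw [if_pos hab]
            rcases max_choice (max (lc x (b :: y)) (lc (a :: x) y)) (lc x y + 1) with h | h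
            · rw [h]
              rcases max_choice (lc x (b :: y)) (lc (a :: x) y) with h | h
              · left; exact h
              · right; left; exact h
            · right; right; left; exact ⟨hab, h⟩
          · rw [if_neg hab, max_eq_left (Nat.zero_le _)]
            rcases max_choice (lc x (b :: y)) (lc (a :: x) y) with h | h
            · left; exact h
            · right; left; exact h
        rcases e3 with h | h | ⟨hab, h⟩ | h
        · rw [h]; exact h1.trans e1
        · rw [h]; exact h2.trans e2
        · rw [h]
          subst hab
          have e4 : lc (x ++ x') (y ++ y') + 1 ≤ lc (a :: (x ++ x')) (a :: (y ++ y')) := by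
            rw [lc_cons, if_pos rfl]
            exact le_max_right _ _
          omega
        · rw [h]
          omega

theorem lc_mono (x x' y y' : List α) : lc x y ≤ lc (x ++ x') (y ++ y') :=
  le_trans (Nat.le_add_right _ _) (lc_append x x' y y')

theorem lc_cons_cons (a : α) (x y : List α) : lc x y + 1 ≤ lc (a :: x) (a :: y) := by
  rw [lc_cons, if_pos rfl]
  exact le_max_right _ _

/-- The three cases of the recursion. -/
theorem lc_cases (a b : α) (x y : List α) : lc (a :: x) (b :: y) = lc x (b :: y) ∨
    lc (a :: x) (b :: y) = lc (a :: x) y ∨ (a = b ∧ lc (a :: x) (b :: y) = lc x y + 1) := by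
  rw [lc_cons]
  by_cases hab : a = b
  · rw [if_pos hab]
    rcases max_choice (max (lc x (b :: y)) (lc (a :: x) y)) (lc x y + 1) with h | h
    · rw [h]
      rcases max_choice (lc x (b :: y)) (lc (a :: x) y) with h | h
      · left; exact h
      · right; left; exact h
    · right; right; exact ⟨hab, h⟩
  · rw [if_neg hab, max_eq_left (Nat.zero_le _)]
    rcases max_choice (lc x (b :: y)) (lc (a :: x) y) with h | h
    · left; exact h
    · right; left; exact h

/-- The common subsequence of zeros. -/
theorem min_le_lc (o : α) (x y : List α) : min (Z o x) (Z o y) ≤ lc x y := by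
  suffices H : ∀ n : ℕ, ∀ x y : List α, x.length + y.length ≤ n →
      min (Z o x) (Z o y) ≤ lc x y from H _ x y le_rfl
  intro n
  induction n with
  | zero =>
    intro x y h
    have hx : x = [] := List.length_eq_zero_iff.mp (by omega)
    subst hx
    simp [Z]
  | succ n ih =>
    intro x y h
    cases x with
    | nil => simp [Z]
    | cons a x =>
      cases y with
      | nil => simp [Z]
      | cons b y =>
        simp only [List.length_cons] at h
        by_cases ha : a = o
        · by_cases hb : b = o
          · subst ha
            subst hb
            have h3 := ih x y (by omega)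
            have h4 := lc_cons_cons b x y
            simp only [Z, List.count_cons_self] at h3 ⊢
            omega
          · have h2 := ih (a :: x) y (by simp only [List.length_cons]; omega)
            have h4 := lc_le_cons_right b (a :: x) y
            have h5 : Z o (b :: y) = Z o y := List.count_cons_of_ne hb
            rw [h5]
            exact h2.trans h4
        · have h1 := ih x (b :: y) (by simp only [List.length_cons]; omega)
          have h4 := lc_le_cons_left a x (b :: y)
          have h5 : Z o (a :: x) = Z o x := List.count_cons_of_ne ha
          rw [h5]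
          exact h1.trans h4

/-- Cutting the first string. Proof: induction on `x.length + y.length`, `lc_cons` for `x = a :: x₁`, `y = b :: y₁`
(in the case `lc = lc x₁ … + 1` the cut of `y₁` is extended by `b`). -/
theorem lc_cut (x x' y : List α) :
    ∃ y₁ y₂ : List α, y = y₁ ++ y₂ ∧ lc (x ++ x') y ≤ lc x y₁ + lc x' y₂ := by
  suffices H : ∀ n : ℕ, ∀ x y : List α, x.length + y.length ≤ n →
      ∃ y₁ y₂ : List α, y = y₁ ++ y₂ ∧ lc (x ++ x') y ≤ lc x y₁ + lc x' y₂ from H _ x y le_rfl
  intro n
  induction n with
  | zero =>
    intro x y h
    have hx : x = [] := List.length_eq_zero_iff.mp (by omega)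
    subst hx
    exact ⟨[], y, rfl, by rw [lc_nil_left, zero_add]; exact le_rfl⟩
  | succ n ih =>
    intro x y h
    cases x with
    | nil => exact ⟨[], y, rfl, by rw [lc_nil_left, zero_add]; exact le_rfl⟩
    | cons a x =>
      cases y with
      | nil => exact ⟨[], [], rfl, by rw [lc_nil_right]; exact Nat.zero_le _⟩
      | cons b y =>
        simp only [List.length_cons] at h
        rw [List.cons_append]
        rcases lc_cases a b (x ++ x') y with e | e | ⟨hab, e⟩
        · obtain ⟨y₁, y₂, h1, h2⟩ := ih x (b :: y) (by simp only [List.length_cons]; omega)
          refine ⟨y₁, y₂, h1, ?_⟩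
          rw [e]
          exact h2.trans (Nat.add_le_add_right (lc_le_cons_left a x y₁) _)
        · obtain ⟨y₁, y₂, h1, h2⟩ := ih (a :: x) y (by simp only [List.length_cons]; omega)
          refine ⟨b :: y₁, y₂, by rw [h1, List.cons_append], ?_⟩
          rw [e]
          rw [List.cons_append] at h2
          exact h2.trans (Nat.add_le_add_right (lc_le_cons_right b (a :: x) y₁) _)
        · obtain ⟨y₁, y₂, h1, h2⟩ := ih x y (by omega)
          refine ⟨b :: y₁, y₂, by rw [h1, List.cons_append], ?_⟩
          rw [e]
          subst hab
          have h3 := lc_cons_cons a x y₁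
          omega

/-- The last letter of `y`. Proof: induction on `x.length + y.length`. -/
theorem lc_last (x y : List α) (b : α) :
    lc x (y ++ [b]) ≤ lc x y ∨
      ∃ x₁ x₂ : List α, x = x₁ ++ b :: x₂ ∧ lc x (y ++ [b]) ≤ lc x₁ y + 1 := by
  suffices H : ∀ n : ℕ, ∀ x y : List α, x.length + y.length ≤ n →
      (lc x (y ++ [b]) ≤ lc x y ∨
        ∃ x₁ x₂ : List α, x = x₁ ++ b :: x₂ ∧ lc x (y ++ [b]) ≤ lc x₁ y + 1) from H _ x y le_rfl
  intro n
  induction n with
  | zero =>
    intro x y h
    have hx : x = [] := List.length_eq_zero_iff.mp (by omega)
    subst hx
    left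
    rw [lc_nil_left]
    exact Nat.zero_le _
  | succ n ih =>
    intro x y h
    cases x with
    | nil =>
      left
      rw [lc_nil_left]
      exact Nat.zero_le _
    | cons a x =>
      cases y with
      | nil =>
        have h0 : lc (a :: x) ([] ++ [b]) ≤ 1 := by
          have := lc_le_right (a :: x) ([] ++ [b])
          simpa using this
        by_cases hab : a = b
        · right
          subst hab
          exact ⟨[], x, rfl, h0.trans (Nat.le_add_left _ _)⟩
        · have h1 := ih x [] (by simp only [List.length_cons, List.length_nil] at h ⊢; omega)
          rcases h1 with h1 | ⟨x₁, x₂, h1, h2⟩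
          · left
            rw [lc_nil_right] at h1 ⊢
            rw [List.nil_append] at h1 ⊢
            rw [lc_cons, if_neg hab, lc_nil_right]
            simpa using h1
          · right
            exact ⟨a :: x₁, x₂, by rw [h1, List.cons_append], h0.trans (Nat.le_add_left _ _)⟩
      | cons c y =>
        simp only [List.length_cons] at h
        rw [List.cons_append]
        rcases lc_cases a c x (y ++ [b]) with e | e | ⟨hac, e⟩
        · rw [e]
          have h1 := ih x (c :: y) (by simp only [List.length_cons]; omega)
          rw [List.cons_append] at h1
          rcases h1 with h1 | ⟨x₁, x₂, h1, h2⟩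
          · left
            exact h1.trans (lc_le_cons_left a x (c :: y))
          · right
            refine ⟨a :: x₁, x₂, by rw [h1, List.cons_append], ?_⟩
            exact h2.trans (Nat.add_le_add_right (lc_le_cons_left a x₁ (c :: y)) _)
        · rw [e]
          have h1 := ih (a :: x) y (by simp only [List.length_cons]; omega)
          rcases h1 with h1 | ⟨x₁, x₂, h1, h2⟩
          · left
            exact h1.trans (lc_le_cons_right c (a :: x) y)
          · right
            refine ⟨x₁, x₂, h1, ?_⟩
            exact h2.trans (Nat.add_le_add_right (lc_le_cons_right c x₁ y) _)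
        · rw [e]
          subst hac
          have h1 := ih x y (by omega)
          rcases h1 with h1 | ⟨x₁, x₂, h1, h2⟩
          · left
            have h3 := lc_cons_cons a x y
            omega
          · right
            refine ⟨a :: x₁, x₂, by rw [h1, List.cons_append], ?_⟩
            have h3 := lc_cons_cons a x₁ y
            omega

theorem Z_append (o : α) (x y : List α) : Z o (x ++ y) = Z o x + Z o y :=
  List.count_append

theorem Z_cons_self (o : α) (x : List α) : Z o (o :: x) = Z o x + 1 := List.count_cons_self

theorem Z_cons_ne {o a : α} (h : a ≠ o) (x : List α) : Z o (a :: x) = Z o x :=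
  List.count_cons_of_ne h

end NV
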