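import Pool.Agent.Lib.MP_ae6bb1_pr.NV.LbA
import Pool.Agent.Lib.MP_ae6bb1_pr.NV.Lc

/-! Expected `lc` of blocks. -/

open Finset LCSH
open scoped ENNReal

namespace NV

variable {α : Type} [DecidableEq α] [Fintype α] {L : Law α} {o : α}

theorem LbB_const (hm : 0 < L.p o) (n : ℕ) (c : ℝ≥0∞) : SS L o true n (fun _ => c) = c := by
  have h1 : (fun _ : List α => c) = fun _ => c * 1 := by
    funext _
    rw [mul_one]
  rw [h1, SS_const_mul, SS_one L o hm, Ms, if_pos rfl, mul_one]

theorem LbB_zero (b : Bool) (n : ℕ) : SS L o b n (fun _ => 0) = 0 := by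
  have h1 : (fun _ : List α => (0 : ℝ≥0∞)) = fun _ => 0 * 0 := by
    funext _
    rw [mul_zero]
  rw [h1, SS_const_mul, zero_mul]

theorem elc_ne_top (hm : 0 < L.p o) (n m : ℕ) :
    (SS2 L o true n m fun x y => (lc x y : ℝ≥0∞)) ≠ ⊤ := by
  have h1 : (SS2 L o true n m fun x y => (lc x y : ℝ≥0∞)) ≤ ENNReal.ofReal (n / L.p o) := by
    rw [← SS_len hm]
    refine SS_mono L o fun x _ _ => ?_
    calc (SS L o true m fun y => (lc x y : ℝ≥0∞)) ≤ SS L o true m fun _ => (x.length : ℝ≥0∞) :=
          SS_mono L o fun y _ _ => by exact_mod_cast lc_le_left x y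
      _ = (x.length : ℝ≥0∞) := LbB_const hm m _
  exact ne_top_of_le_ne_top ENNReal.ofReal_ne_top h1

theorem elc_nonneg (n m : ℕ) : 0 ≤ elc L o n m := ENNReal.toReal_nonneg

theorem LbB_SS2_comm (b : Bool) (n m : ℕ) (F : List α → List α → ℝ≥0∞) :
    SS2 L o b n m F = SS2 L o b m n fun y x => F x y := by
  classical
  have h1 : SS2 L o b n m F = SS L o b n fun x => ∑' y : List α,
      if Z o y = m ∧ (b = true → isB o y) then wt L y * F x y else 0 := by
    unfold SS2
    congr 1
  have h2 : (SS2 L o b m n fun y x => F x y) = ∑' y : List α,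
      if Z o y = m ∧ (b = true → isB o y) then wt L y * (SS L o b n fun x => F x y) else 0 := by
    unfold SS2
    rw [SS]
  rw [h1, h2, SS_tsum]
  refine tsum_congr fun y => ?_
  by_cases h : Z o y = m ∧ (b = true → isB o y)
  · simp only [if_pos h]
    rw [SS_const_mul]
  · simp only [if_neg h]
    rw [LbB_zero]

theorem elc_comm (hm : 0 < L.p o) (n m : ℕ) : elc L o n m = elc L o m n := by
  have _ := hm
  unfold elc
  rw [LbB_SS2_comm]
  simp only [lc_comm]

theorem elc_super (hm : 0 < L.p o) (n m n' m' : ℕ) :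
    elc L o n m + elc L o n' m' ≤ elc L o (n + n') (m + m') := by
  unfold elc
  rw [← ENNReal.toReal_add (elc_ne_top hm n m) (elc_ne_top hm n' m')]
  refine ENNReal.toReal_mono (elc_ne_top hm _ _) ?_
  have h1 : (SS2 L o true (n + n') (m + m') fun x y => (lc x y : ℝ≥0∞)) =
      SS L o true n fun x => SS L o true n' fun x' => SS L o true m fun y => SS L o true m' fun y' =>
        (lc (x ++ x') (y ++ y') : ℝ≥0∞) := by
    unfold SS2
    rw [SS_append]
    simp only [SS_append]
  have h2 : (SS2 L o true n m fun x y => (lc x y : ℝ≥0∞)) + (SS2 L o true n' m' fun x y => (lc x y : ℝ≥0∞)) =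
      SS L o true n fun x => SS L o true n' fun x' => SS L o true m fun y => SS L o true m' fun y' =>
        ((lc x y : ℝ≥0∞) + (lc x' y' : ℝ≥0∞)) := by
    simp only [SS_add, LbB_const hm]
    rfl
  rw [h1, h2]
  refine SS_mono L o fun x _ _ => SS_mono L o fun x' _ _ => SS_mono L o fun y _ _ => SS_mono L o fun y' _ _ => ?_
  exact_mod_cast lc_append x x' y y'

theorem le_elc (hm : 0 < L.p o) (n : ℕ) : (n : ℝ) ≤ elc L o n n := by
  unfold elc
  rw [← ENNReal.toReal_natCast n]
  refine ENNReal.toReal_mono (elc_ne_top hm n n) ?_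
  have h1 : (n : ℝ≥0∞) = SS L o true n fun _ => SS L o true n fun _ => (n : ℝ≥0∞) := by
    rw [LbB_const hm, LbB_const hm]
  calc (n : ℝ≥0∞) = SS L o true n fun _ => SS L o true n fun _ => (n : ℝ≥0∞) := h1
    _ ≤ SS2 L o true n n fun x y => (lc x y : ℝ≥0∞) := by
      refine SS_mono L o fun x hx _ => SS_mono L o fun y hy _ => ?_
      have h2 := min_le_lc o x y
      rw [hx, hy, min_self] at h2
      show (n : ℝ≥0∞) ≤ (lc x y : ℝ≥0∞)
      exact_mod_cast h2

/-- The excess is nondecreasing. Proof: `elc_super`, `le_elc`. -/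
theorem elc_mono (hm : 0 < L.p o) {n n' : ℕ} (h : n ≤ n') :
    elc L o n n - n ≤ elc L o n' n' - n' := by
  obtain ⟨d, rfl⟩ := Nat.exists_eq_add_of_le h
  have h1 := elc_super hm n n d d
  have h2 := le_elc hm d
  push_cast
  linarith

/-- Proof: `elc_super` with `(n, m)` and `(m, n)`, `elc_comm`. -/
theorem elc_rect (hm : 0 < L.p o) (n m : ℕ) : 2 * elc L o n m ≤ elc L o (n + m) (n + m) := by
  have h1 := elc_super hm n m m n
  rw [elc_comm hm m n, add_comm m n] at h1
  linarith

end NV
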