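import Pool.Agent.Lib.MP_ae6bb1_pr.NV.Link
import Pool.Agent.Lib.MP_ae6bb1_pr.NV.LbB

/-! Expectations: lower bound. -/

open Finset LCSH
open scoped ENNReal

namespace NV

variable {α : Type} [DecidableEq α] [Fintype α] {L : Law α} {o : α}

/-- Proof: `vv_le_D` and `words_E2` for `vv + (N + M) / 2`, which is nonnegative (`vv ≥ - |M - N| / 2`, the empty chain). -/
theorem E2_vv_le (hm : 0 < L.p o) (N M : ℕ) {Q : List (ℕ × ℕ) → Prop} (hQ : Q []) :
    E2 (lam L o) N M (fun A B => vv (rlr mt A B) N M Q) ≤ elc L o N M - ((N : ℝ) + M) / 2 := by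
  have hw : ∀ n : ℕ, IsW (fun _ : Fin n => lam L o) := fun n =>
    ⟨fun _ A => lam_nonneg A, fun _ => lam_sum hm⟩
  have hc : E2 (lam L o) N M (fun A B => vv (rlr mt A B) N M Q + ((N : ℝ) + M) / 2) =
      E2 (lam L o) N M (fun A B => vv (rlr mt A B) N M Q) + ((N : ℝ) + M) / 2 := by
    unfold E2
    simp only [PE_add, PE_const (hw N), PE_const (hw M)]
  have hnn : ∀ (A : Fin N → Finset α) (B : Fin M → Finset α),
      0 ≤ vv (rlr mt A B) N M Q + ((N : ℝ) + M) / 2 := by
    intro A B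
    have h1 : IsCh (rlr mt A B) N M [] := ⟨List.Pairwise.nil, fun c hc => absurd hc List.not_mem_nil⟩
    have h2 := le_vv h1 hQ
    have h3 : ((tvd 0 (dg ([] : List (ℕ × ℕ))) ((M : ℤ) - (N : ℤ)) : ℕ) : ℝ) ≤ (N : ℝ) + M := by
      have h4 : tvd 0 (dg ([] : List (ℕ × ℕ))) ((M : ℤ) - (N : ℤ)) ≤ N + M := by
        simp only [dg, List.map_nil, tvd]
        omega
      exact_mod_cast h4
    simp only [List.length_nil, Nat.cast_zero] at h2
    linarith
  have h1 := words_E2 (L := L) (o := o) hm N M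
    (fun A B => vv (rlr mt A B) N M Q + ((N : ℝ) + M) / 2) hnn
  have h2 : (SS2 L o true N M fun x y => ENNReal.ofReal
      (vv (rlr mt (fun t : Fin N => ws o x t) fun u : Fin M => ws o y u) N M Q +
        ((N : ℝ) + M) / 2)) ≤ SS2 L o true N M fun x y => (lc x y : ℝ≥0∞) := by
    unfold SS2
    refine SS_mono L o fun x hx _ => SS_mono L o fun y hy _ => ?_
    have h3 := vv_le_D (o := o) hx hy hQ
    unfold wr at h3
    unfold D at h3
    rw [hx, hy] at h3
    have h4 : vv (rlr mt (fun t : Fin N => ws o x t) fun u : Fin M => ws o y u) N M Q +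
        ((N : ℝ) + M) / 2 ≤ (lc x y : ℝ) := by linarith
    calc _ ≤ ENNReal.ofReal (lc x y : ℝ) := ENNReal.ofReal_le_ofReal h4
      _ = (lc x y : ℝ≥0∞) := ENNReal.ofReal_natCast _
  have h5 : ENNReal.ofReal (E2 (lam L o) N M
      (fun A B => vv (rlr mt A B) N M Q + ((N : ℝ) + M) / 2)) ≤ ENNReal.ofReal (elc L o N M) := by
    rw [← h1]
    refine h2.trans (le_of_eq ?_)
    unfold elc
    rw [ENNReal.ofReal_toReal (elc_ne_top hm N M)]
  have h6 := (ENNReal.ofReal_le_ofReal_iff (elc_nonneg (L := L) (o := o) N M)).1 h5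
  rw [hc] at h6
  linarith

end NV
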