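import Pool.Agent.Lib.MP_ae6bb1_pr.NV.Link
import Pool.Agent.Lib.MP_ae6bb1_pr.NV.LbB
import Pool.Agent.Lib.MP_ae6bb1_pr.NV.FMb

/-! Expectations: upper bound. -/

open Finset LCSH
open scoped ENNReal

namespace NV

variable {α : Type} [DecidableEq α] [Fintype α] {L : Law α} {o : α}

open Classical in
/-- the contribution of the bad chains to the bound of the excess -/
noncomputable def ExpB_b1 (o : α) (N : ℕ) (x y : List α) : ℝ≥0∞ :=
  ∑' C, if RealI o x y C ∧ 1 ≤ nsc C.tail then ex (vI N N C) else 0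

open Classical in
/-- the contribution of the bad chains to the bound of the excess -/
noncomputable def ExpB_b2 (o : α) (N w : ℕ) (x y : List α) : ℝ≥0∞ :=
  ∑' C, if RealI o x y C ∧ 2 * w ≤ tvI N N C then ex (vI N N C) else 0

theorem ExpB_pt (N w : ℕ) {x y : List α} (hx : Z o x = N) (hy : Z o y = N) (hbx : isB o x)
    (hby : isB o y) :
    (lc x y : ℝ≥0∞) ≤
      ENNReal.ofReal (vv (rlr mt (fun t : Fin N => ws o x t) fun u : Fin N => ws o y u) N N (Qw w)) +
        (ExpB_b1 o N x y + (ExpB_b2 o N w x y + (N : ℝ≥0∞) * 1)) := by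
  classical
  have hQ : Qw w [] := fun c hc => absurd hc List.not_mem_nil
  have hD : (lc x y : ℝ) = D o x y + N := by
    unfold D
    rw [hx, hy]
    ring
  have h0 : (lc x y : ℝ≥0∞) = ENNReal.ofReal (D o x y + N) := by
    rw [← hD, ENNReal.ofReal_natCast]
  have hN : (N : ℝ≥0∞) * 1 = ENNReal.ofReal (N : ℝ) := by
    rw [mul_one, ENNReal.ofReal_natCast]
  rw [h0, hN]
  rcases D_le_or_w hx hy hbx hby w with h | ⟨C, hC, h1, h2⟩
  · have hv : 0 ≤ vv (wr o N N x y) N N (Qw w) := vv_nonneg _ N hQ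
    have h3 : ENNReal.ofReal (D o x y + N) ≤ ENNReal.ofReal (vv (wr o N N x y) N N (Qw w)) +
        ENNReal.ofReal (N : ℝ) := by
      rw [← ENNReal.ofReal_add hv (Nat.cast_nonneg _)]
      exact ENNReal.ofReal_le_ofReal (by linarith)
    refine h3.trans ?_
    have h4 : ENNReal.ofReal (N : ℝ) ≤ ExpB_b1 o N x y + (ExpB_b2 o N w x y + ENNReal.ofReal (N : ℝ)) :=
      le_add_left (le_add_left le_rfl)
    exact add_le_add (le_of_eq rfl) h4
  · have h5 : D o x y + N ≤ Real.exp (vI N N C) + N := by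
      have := Real.add_one_le_exp (vI N N C)
      linarith
    have h6 : ENNReal.ofReal (D o x y + N) ≤ ex (vI N N C) + ENNReal.ofReal (N : ℝ) := by
      unfold ex
      rw [← ENNReal.ofReal_add (Real.exp_pos _).le (Nat.cast_nonneg _)]
      exact ENNReal.ofReal_le_ofReal h5
    refine h6.trans ?_
    have h7 : ex (vI N N C) ≤ ExpB_b1 o N x y + ExpB_b2 o N w x y := by
      rcases h2 with h2 | h2
      · refine le_trans ?_ (le_add_right (le_refl (ExpB_b1 o N x y)))
        unfold ExpB_b1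
        refine le_trans (le_of_eq ?_) (ENNReal.le_tsum C)
        rw [if_pos ⟨hC, h2⟩]
      · refine le_trans ?_ (le_add_left (le_refl (ExpB_b2 o N w x y)))
        unfold ExpB_b2
        refine le_trans (le_of_eq ?_) (ENNReal.le_tsum C)
        rw [if_pos ⟨hC, h2⟩]
    refine le_add_left ?_
    rw [← add_assoc]
    exact add_le_add h7 le_rfl

/-- Proof: `D_le_or_w`: `D ≤ vv + ∑'_C [RealI, 1 ≤ nsc tail or 2 w ≤ tvI] exp vI` (`vv ≥ 0`, `t ≤ e^t`), `FMns`, `FMw`, `words_E2`. -/
theorem elc_le_E2 (hm : 0 < L.p o) (hr0 : 0 < rr L o) (hr : rr L o ≤ 1 / 1000) (N w : ℕ) :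
    elc L o N N - N ≤ E2 (lam L o) N N (fun A B => vv (rlr mt A B) N N (Qw w)) +
      (4000 * rr L o + 2 * Real.exp (-(3 / 4 * (w : ℝ)))) * Real.exp (1000 * rr L o * N) := by
  classical
  have hQ : Qw w [] := fun c hc => absurd hc List.not_mem_nil
  have hE0 : 0 ≤ E2 (lam L o) N N (fun A B => vv (rlr mt A B) N N (Qw w)) := by
    have hW : IsW (fun _ : Fin N => lam L o) := ⟨fun _ => lam_nonneg, fun _ => lam_sum hm⟩
    unfold E2
    exact PE_nonneg hW fun A => PE_nonneg hW fun B => vv_nonneg _ N hQ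
  have h1 : (SS2 L o true N N fun x y => (lc x y : ℝ≥0∞)) ≤
      ENNReal.ofReal (E2 (lam L o) N N (fun A B => vv (rlr mt A B) N N (Qw w))) +
        (ENNReal.ofReal (4000 * rr L o * Real.exp (1000 * rr L o * N)) +
          (ENNReal.ofReal (2 * Real.exp (-(3 / 4 * (w : ℝ))) * Real.exp (1000 * rr L o * N)) +
            (N : ℝ≥0∞))) := by
    have h2 : (SS2 L o true N N fun x y => (lc x y : ℝ≥0∞)) ≤
        SS2 L o true N N fun x y =>
          ENNReal.ofReal (vv (rlr mt (fun t : Fin N => ws o x t) fun u : Fin N => ws o y u) N N (Qw w)) +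
        (ExpB_b1 o N x y + (ExpB_b2 o N w x y + (N : ℝ≥0∞) * 1)) := by
      unfold SS2
      exact SS_mono L o fun x hx hbx => SS_mono L o fun y hy hby =>
        ExpB_pt N w hx hy (hbx rfl) (hby rfl)
    refine h2.trans ?_
    have h3 : (SS2 L o true N N fun x y =>
          ENNReal.ofReal (vv (rlr mt (fun t : Fin N => ws o x t) fun u : Fin N => ws o y u) N N (Qw w)) +
        (ExpB_b1 o N x y + (ExpB_b2 o N w x y + (N : ℝ≥0∞) * 1))) =
        (SS2 L o true N N fun x y =>
          ENNReal.ofReal (vv (rlr mt (fun t : Fin N => ws o x t) fun u : Fin N => ws o y u) N N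
            (Qw w))) +
        ((SS2 L o true N N fun x y => ExpB_b1 o N x y) +
          ((SS2 L o true N N fun x y => ExpB_b2 o N w x y) + (N : ℝ≥0∞))) := by
      unfold SS2
      simp only [SS_add, SS_const_mul, SS_one L o hm]
      have h4 : Ms L o true = 1 := rfl
      rw [h4, SS_one L o hm, h4, mul_one]
    rw [h3, words_E2 hm N N (fun A B => vv (rlr mt A B) N N (Qw w)) fun A B => vv_nonneg _ N hQ]
    refine add_le_add le_rfl (add_le_add ?_ (add_le_add ?_ le_rfl))
    · have := FMns (L := L) (o := o) hm hr0 hr N N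
      unfold ExpB_b1
      exact this
    · have := FMw (L := L) (o := o) hm hr0 hr N N w
      unfold ExpB_b2
      exact this
  have hr1 : (0 : ℝ) ≤ 4000 * rr L o * Real.exp (1000 * rr L o * N) := by positivity
  have hr2 : (0 : ℝ) ≤ 2 * Real.exp (-(3 / 4 * (w : ℝ))) * Real.exp (1000 * rr L o * N) := by
    positivity
  have h5 : (SS2 L o true N N fun x y => (lc x y : ℝ≥0∞)) ≤ ENNReal.ofReal
      (E2 (lam L o) N N (fun A B => vv (rlr mt A B) N N (Qw w)) +
        (4000 * rr L o * Real.exp (1000 * rr L o * N) +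
          (2 * Real.exp (-(3 / 4 * (w : ℝ))) * Real.exp (1000 * rr L o * N) + N))) := by
    rw [ENNReal.ofReal_add hE0 (by positivity), ENNReal.ofReal_add hr1 (by positivity),
      ENNReal.ofReal_add hr2 (Nat.cast_nonneg _), ENNReal.ofReal_natCast]
    exact h1
  have h6 := ENNReal.toReal_le_of_le_ofReal (by positivity) h5
  unfold elc
  linarith

end NV
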