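import Pool.Agent.Lib.MP_ae6bb1_pr.NV.RealP
import Pool.Agent.Lib.MP_ae6bb1_pr.NV.Comb

/-! First moment bounds. -/

open Finset LCSH
open scoped ENNReal

namespace NV

variable {α : Type} [DecidableEq α] [Fintype α] (L : Law α) (o : α)

/-- `cth (1/8) ≤ 17`, `e * cth (1/8) ≤ 47`, `e^2 * cth (1/8) ≤ 126`. Proof: `u = exp (- 1/8) ≤ 1 - 1/8 + 1/128`,
`(1 + u) / (1 - u)` is increasing in `u`, so `cth (1/8) ≤ 16.1`; `e ≤ 2.7183`. -/
theorem cth_bounds : cth (1 / 8) ≤ 17 ∧ Real.exp 1 * cth (1 / 8) ≤ 47 ∧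
    Real.exp 2 * cth (1 / 8) ≤ 126 := by
  have h0 := Real.quadratic_le_exp_of_nonneg (show (0 : ℝ) ≤ 1 / 8 by norm_num)
  have hu : Real.exp (-(1 / 8)) ≤ 128 / 145 := by
    rw [Real.exp_neg]
    have h2 : (145 / 128 : ℝ) ≤ Real.exp (1 / 8) := by
      refine le_trans ?_ h0
      norm_num
    calc (Real.exp (1 / 8))⁻¹ ≤ (145 / 128 : ℝ)⁻¹ := inv_anti₀ (by norm_num) h2
      _ = 128 / 145 := by norm_num
  have hc : cth (1 / 8) ≤ 273 / 17 := by
    unfold cth
    have h3 : 0 < 1 - Real.exp (-(1 / 8)) := by linarith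
    rw [div_le_div_iff₀ h3 (by norm_num)]
    linarith
  have he := Real.exp_one_lt_d9
  have he0 := Real.exp_pos 1
  have he2 : Real.exp 2 = Real.exp 1 * Real.exp 1 := by
    rw [← Real.exp_add]
    norm_num
  refine ⟨by linarith, ?_, ?_⟩
  · calc Real.exp 1 * cth (1 / 8) ≤ Real.exp 1 * (273 / 17) :=
          mul_le_mul_of_nonneg_left hc he0.le
      _ ≤ 47 := by linarith
  · calc Real.exp 2 * cth (1 / 8) ≤ Real.exp 2 * (273 / 17) :=
          mul_le_mul_of_nonneg_left hc (Real.exp_pos 2).le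
      _ ≤ 126 := by
        rw [he2]
        nlinarith

/-- General exponents. Proof: `D ≤ vI` for one realised chain (`exists_D`), so `ex (s D) ≤ ∑'_C [RealI] ex (s vI)`,
`SS2_chains`, and `exp (- s tvI / 2) ≤ exp (- (s/2 - θ) |n - m|) exp (- θ tvI)` (`le_tvI`), `comb` with `lm = 0`, `Λ = exp s`. -/
theorem FMs (hm : 0 < L.p o) {s θ z q : ℝ} (hs : 0 ≤ s) (hθ : 0 < θ) (hθs : θ ≤ s / 2) (hz : 1 < z)
    (hq0 : 0 ≤ q) (hq : q < 1) (h : rr L o * Real.exp s * (cth θ * (z / (z - 1))) ≤ q)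
    (b : Bool) (n m : ℕ) :
    (SS2 L o b n m fun x y => ex (s * D o x y)) ≤ Ms L o b ^ 2 *
      ENNReal.ofReal (z ^ n / (1 - q) *
        Real.exp (-((s / 2 - θ) * (((n : ℤ) - m).natAbs : ℝ)))) := by
  classical
  have h1 : ∀ x y, Z o x = n → Z o y = m →
      ex (s * D o x y) ≤ ∑' C, if RealI o x y C then ex (s * vI n m C) else 0 := by
    intro x y hx hy
    obtain ⟨C, hC, hD⟩ := exists_D o x y
    rw [hx, hy] at hD
    refine le_trans ?_ (ENNReal.le_tsum C)
    rw [if_pos hC]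
    exact ENNReal.ofReal_le_ofReal (Real.exp_le_exp.2 (mul_le_mul_of_nonneg_left hD hs))
  have h2 : (SS2 L o b n m fun x y => ex (s * D o x y)) ≤
      SS2 L o b n m fun x y => ∑' C, if RealI o x y C then ex (s * vI n m C) else 0 :=
    SS_mono L o fun x hx _ => SS_mono L o fun y hy _ => h1 x y hx hy
  refine h2.trans ((SS2_chains L o hm b n m _).trans ?_)
  refine mul_le_mul_of_nonneg_left ?_ (zero_le)
  set E : ℝ := Real.exp (-((s / 2 - θ) * (((n : ℤ) - m).natAbs : ℝ))) with hE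
  have hr := rr_nonneg L o
  have h3 : ∀ C : List (ℕ × ℕ), (if adm n m C then
      ENNReal.ofReal (rr L o ^ C.length) * ex (s * vI n m C) else 0) ≤
      ENNReal.ofReal E * (if adm n m C then
        ENNReal.ofReal ((rr L o * Real.exp s) ^ C.length *
          Real.exp (-(θ * (tvI n m C : ℝ))) * (1 + (0 : ℝ)) ^ nsc C) else 0) := by
    intro C
    by_cases hC : adm n m C
    · rw [if_pos hC, if_pos hC, ex, ← ENNReal.ofReal_mul (pow_nonneg hr _),
        ← ENNReal.ofReal_mul (Real.exp_pos _).le]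
      apply ENNReal.ofReal_le_ofReal
      have h4 : (((n : ℤ) - m).natAbs : ℝ) ≤ (tvI n m C : ℝ) := by exact_mod_cast le_tvI hC
      have h5 : Real.exp (s * vI n m C) ≤ E * (Real.exp s ^ C.length *
          Real.exp (-(θ * (tvI n m C : ℝ)))) := by
        rw [hE, ← Real.exp_nat_mul, ← Real.exp_add, ← Real.exp_add]
        apply Real.exp_le_exp.2
        have h6 : (s / 2 - θ) * (((n : ℤ) - m).natAbs : ℝ) ≤
            (s / 2 - θ) * (tvI n m C : ℝ) :=
          mul_le_mul_of_nonneg_left h4 (by linarith)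
        unfold vI
        nlinarith
      calc rr L o ^ C.length * Real.exp (s * vI n m C)
          ≤ rr L o ^ C.length * (E * (Real.exp s ^ C.length *
            Real.exp (-(θ * (tvI n m C : ℝ))))) :=
            mul_le_mul_of_nonneg_left h5 (pow_nonneg hr _)
        _ = _ := by
            rw [add_zero, one_pow, mul_pow]
            ring
    · rw [if_neg hC, if_neg hC, mul_zero]
  calc _ ≤ ∑' C : List (ℕ × ℕ), ENNReal.ofReal E * (if adm n m C then
        ENNReal.ofReal ((rr L o * Real.exp s) ^ C.length *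
          Real.exp (-(θ * (tvI n m C : ℝ))) * (1 + (0 : ℝ)) ^ nsc C) else 0) :=
        ENNReal.tsum_le_tsum h3
    _ = ENNReal.ofReal E * ∑' C : List (ℕ × ℕ), (if adm n m C then
        ENNReal.ofReal ((rr L o * Real.exp s) ^ C.length *
          Real.exp (-(θ * (tvI n m C : ℝ))) * (1 + (0 : ℝ)) ^ nsc C) else 0) :=
        ENNReal.tsum_mul_left
    _ ≤ ENNReal.ofReal E * ENNReal.ofReal (z ^ n / (1 - q)) := by
        refine mul_le_mul_of_nonneg_left ?_ (zero_le)
        exact comb hr (Real.exp_pos s).le hθ (le_refl 0) hz hq0 hq (by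
          rw [mul_zero, zero_mul, add_zero]
          exact h) n m
    _ = _ := by
        rw [← ENNReal.ofReal_mul (Real.exp_pos _).le, mul_comm]

variable {L o}

/-- Proof: `FMs` with `s = 1`, `θ = 1/8`, `z = 1 + 1000 rr`, `q = 1/2`. -/
theorem FM1 (hm : 0 < L.p o) (hr0 : 0 < rr L o) (hr : rr L o ≤ 1 / 1000) (b : Bool) (n m : ℕ) :
    (SS2 L o b n m fun x y => ex (D o x y)) ≤ Ms L o b ^ 2 *
      ENNReal.ofReal (2 * Real.exp (1000 * rr L o * n) *
        Real.exp (-(3 / 8 * (((n : ℤ) - m).natAbs : ℝ)))) := by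
  obtain ⟨-, hc, -⟩ := cth_bounds
  have hc0 : 0 < cth (1 / 8) := cth_pos (by norm_num)
  have h1 : rr L o * Real.exp 1 * (cth (1 / 8) * ((1 + 1000 * rr L o) / (1 + 1000 * rr L o - 1))) ≤
      1 / 2 := by
    have h2 : rr L o * Real.exp 1 * (cth (1 / 8) * ((1 + 1000 * rr L o) / (1 + 1000 * rr L o - 1))) =
        Real.exp 1 * cth (1 / 8) * ((1 + 1000 * rr L o) / 1000) := by
      have h3 : rr L o ≠ 0 := hr0.ne'
      have h4 : (1 + 1000 * rr L o - 1) = 1000 * rr L o := by ring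
      rw [h4]
      field_simp
    rw [h2]
    have h5 : (1 + 1000 * rr L o) / 1000 ≤ 2 / 1000 := by
      rw [div_le_div_iff_of_pos_right (by norm_num)]
      linarith
    calc Real.exp 1 * cth (1 / 8) * ((1 + 1000 * rr L o) / 1000)
        ≤ 47 * (2 / 1000) := mul_le_mul hc h5 (by positivity) (by norm_num)
      _ ≤ 1 / 2 := by norm_num
  have h6 := FMs L o hm (s := 1) (θ := 1 / 8) (z := 1 + 1000 * rr L o) (q := 1 / 2) (by norm_num)
    (by norm_num) (by norm_num) (by linarith) (by norm_num) (by norm_num) h1 b n m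
  simp only [one_mul] at h6
  refine h6.trans ?_
  refine mul_le_mul_of_nonneg_left ?_ (zero_le)
  apply ENNReal.ofReal_le_ofReal
  have h7 : (1 + 1000 * rr L o) ^ n ≤ Real.exp (1000 * rr L o * n) := by
    have h8 : 1 + 1000 * rr L o ≤ Real.exp (1000 * rr L o) := by
      have := Real.add_one_le_exp (1000 * rr L o)
      linarith
    calc (1 + 1000 * rr L o) ^ n ≤ Real.exp (1000 * rr L o) ^ n :=
          pow_le_pow_left₀ (by linarith) h8 n
      _ = Real.exp (1000 * rr L o * n) := by rw [← Real.exp_nat_mul]; ring_nf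
  have h9 : (1 + 1000 * rr L o) ^ n / (1 - 1 / 2) ≤ 2 * Real.exp (1000 * rr L o * n) := by
    rw [div_le_iff₀ (by norm_num)]
    linarith
  have h10 : (-((1 / 2 - 1 / 8) * (((n : ℤ) - m).natAbs : ℝ)) : ℝ) =
      -(3 / 8 * (((n : ℤ) - m).natAbs : ℝ)) := by ring
  rw [h10]
  exact mul_le_mul_of_nonneg_right h9 (Real.exp_pos _).le

/-- Small exponents (Jensen). Proof: for `B > 0` and `0 ≤ s ≤ 1`: `t ^ s ≤ B ^ s (1 - s + s t / B)`; here `t = exp D`,
`B` = the bound of `FM1`; sum and use `SS_one` for the constant. -/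
theorem FMsmall (hm : 0 < L.p o) (hr0 : 0 < rr L o) (hr : rr L o ≤ 1 / 1000) {s : ℝ} (hs0 : 0 ≤ s)
    (hs1 : s ≤ 1) (b : Bool) (n m : ℕ) :
    (SS2 L o b n m fun x y => ex (s * D o x y)) ≤ Ms L o b ^ 2 *
      ENNReal.ofReal ((2 * Real.exp (1000 * rr L o * n) *
        Real.exp (-(3 / 8 * (((n : ℤ) - m).natAbs : ℝ)))) ^ s) := by
  set B : ℝ := 2 * Real.exp (1000 * rr L o * n) *
    Real.exp (-(3 / 8 * (((n : ℤ) - m).natAbs : ℝ))) with hB
  have hB0 : 0 < B := by positivity
  have hBs : 0 < B ^ s := Real.rpow_pos_of_pos hB0 s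
  have key : ∀ t : ℝ, ex (s * t) ≤ ENNReal.ofReal (B ^ s * (1 - s)) * 1 +
      ENNReal.ofReal (B ^ s * s / B) * ex t := by
    intro t
    rw [mul_one, ex, ex, ← ENNReal.ofReal_mul (by positivity),
      ← ENNReal.ofReal_add (mul_nonneg hBs.le (by linarith)) (by positivity)]
    apply ENNReal.ofReal_le_ofReal
    have h1 := Real.geom_mean_le_arith_mean2_weighted (w₁ := 1 - s) (w₂ := s) (p₁ := 1)
      (p₂ := Real.exp t / B) (by linarith) hs0 zero_le_one (by positivity) (by ring)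
    rw [Real.one_rpow, one_mul, mul_one, Real.div_rpow (Real.exp_pos t).le hB0.le,
      ← Real.exp_mul, mul_comm t s] at h1
    rw [div_le_iff₀ hBs] at h1
    calc Real.exp (s * t) ≤ (1 - s + s * (Real.exp t / B)) * B ^ s := h1
      _ = _ := by ring
  have h2 : (SS2 L o b n m fun x y => ex (s * D o x y)) ≤
      ENNReal.ofReal (B ^ s * (1 - s)) * (Ms L o b ^ 2) +
      ENNReal.ofReal (B ^ s * s / B) * (SS2 L o b n m fun x y => ex (D o x y)) := by
    calc (SS2 L o b n m fun x y => ex (s * D o x y))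
        ≤ SS2 L o b n m fun x y => ENNReal.ofReal (B ^ s * (1 - s)) * 1 +
            ENNReal.ofReal (B ^ s * s / B) * ex (D o x y) :=
          SS_mono L o fun x _ _ => SS_mono L o fun y _ _ => key _
      _ = _ := by
          unfold SS2
          simp only [SS_add, SS_const_mul, SS_one L o hm]
          congr 1
          congr 1
          have h3 := SS_const_mul L o b n (Ms L o b) fun _ => 1
          rw [SS_one L o hm] at h3
          simp only [mul_one] at h3
          rw [h3, sq]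
  refine h2.trans ?_
  have h4 := FM1 hm hr0 hr b n m
  rw [← hB] at h4
  calc _ ≤ ENNReal.ofReal (B ^ s * (1 - s)) * (Ms L o b ^ 2) +
      ENNReal.ofReal (B ^ s * s / B) * (Ms L o b ^ 2 * ENNReal.ofReal B) := by
        gcongr
    _ = Ms L o b ^ 2 * (ENNReal.ofReal (B ^ s * (1 - s)) +
        ENNReal.ofReal (B ^ s * s / B) * ENNReal.ofReal B) := by ring
    _ = _ := by
        rw [← ENNReal.ofReal_mul (by positivity),
          ← ENNReal.ofReal_add (mul_nonneg hBs.le (by linarith)) (by positivity)]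
        congr 2
        field_simp
        ring

end NV
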