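import Pool.Agent.Lib.MP_ae6bb1_pr.NV.FM
import Pool.Agent.Lib.MP_ae6bb1_pr.NV.Ub

/-! The bound `8`. -/

open Finset LCSH
open scoped ENNReal

namespace NV

/-- `exp 1.9 * cth 0.949 ≤ 15.15`. -/
theorem num8 : Real.exp (19 / 10) * cth (949 / 1000) ≤ 1515 / 100 := by
  have h1 : Real.exp (19 / 10) ≤ 66861 / 10000 := by
    have e1 : Real.exp (19 / 10) = Real.exp 1 * Real.exp 1 / Real.exp (1 / 10) := by
      rw [← Real.exp_add, ← Real.exp_sub]
      norm_num
    have e2 := Real.sum_le_exp_of_nonneg (x := 1 / 10) (by norm_num) 4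
    have e3 : (1105166 / 1000000 : ℝ) ≤ Real.exp (1 / 10) := by
      refine le_trans ?_ e2
      simp only [Finset.sum_range_succ, Finset.sum_range_zero, Nat.factorial]
      norm_num
    have e4 := Real.exp_one_lt_d9
    have e5 := Real.exp_pos 1
    rw [e1, div_le_iff₀ (Real.exp_pos _)]
    have e6 : Real.exp 1 * Real.exp 1 ≤ 2.7182818286 * 2.7182818286 :=
      mul_le_mul e4.le e4.le e5.le (by norm_num)
    calc Real.exp 1 * Real.exp 1 ≤ 2.7182818286 * 2.7182818286 := e6
      _ ≤ 66861 / 10000 * (1105166 / 1000000 : ℝ) := by norm_num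
      _ ≤ 66861 / 10000 * Real.exp (1 / 10) := by
        exact mul_le_mul_of_nonneg_left e3 (by norm_num)
  have h2 : Real.exp (-(949 / 1000)) ≤ 3872 / 10000 := by
    have e2 := Real.sum_le_exp_of_nonneg (x := 949 / 1000) (by norm_num) 8
    have e3 : (2583 / 1000 : ℝ) ≤ Real.exp (949 / 1000) := by
      refine le_trans ?_ e2
      simp only [Finset.sum_range_succ, Finset.sum_range_zero, Nat.factorial]
      norm_num
    rw [Real.exp_neg]
    calc (Real.exp (949 / 1000))⁻¹ ≤ (2583 / 1000 : ℝ)⁻¹ := inv_anti₀ (by norm_num) e3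
      _ ≤ 3872 / 10000 := by norm_num
  have h3 : cth (949 / 1000) ≤ 13872 / 6128 := by
    unfold cth
    have h3 : 0 < 1 - Real.exp (-(949 / 1000)) := by linarith
    rw [div_le_div_iff₀ h3 (by norm_num)]
    linarith
  calc Real.exp (19 / 10) * cth (949 / 1000) ≤ 66861 / 10000 * (13872 / 6128) :=
        mul_le_mul h1 h3 (cth_pos (by norm_num)).le (by norm_num)
    _ ≤ 1515 / 100 := by norm_num

private theorem gam8_tsum {c : ℝ} (hc : 0 < c) (N : ℕ) :
    ∑' M : ℕ, ENNReal.ofReal (Real.exp (-(c * (((N : ℤ) - M).natAbs : ℝ)))) ≤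
      ENNReal.ofReal (cth c) := by
  refine ENNReal.tsum_le_of_sum_range_le fun n => ?_
  rw [← ENNReal.ofReal_sum_of_nonneg fun _ _ => (Real.exp_pos _).le]
  apply ENNReal.ofReal_le_ofReal
  rcases n with - | n
  · simp only [Finset.range_zero, Finset.sum_empty]
    exact (cth_pos hc).le
  · exact sum_exp_le hc N n

private theorem gam8_bound {α : Type} [DecidableEq α] [Fintype α] (L : Law α) (o : α)
    (hm : 0 < L.p o) (hr0 : 0 < rr L o) (hr : rr L o ≤ 1 / 10 ^ 5) (b : Bool) (N : ℕ) :
    (∑' M : ℕ, SS2 L o b N M fun x y => ex (19 / 10 * D o x y)) ≤ Ms L o b ^ 2 *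
      ENNReal.ofReal (2000 * (1 + 1517 / 100 * rr L o) ^ N * cth (1 / 1000)) := by
  have hz : 1 < 1 + 1517 / 100 * rr L o := by linarith
  have hc0 : 0 < cth (949 / 1000) := cth_pos (by norm_num)
  have h1 : rr L o * Real.exp (19 / 10) * (cth (949 / 1000) *
      ((1 + 1517 / 100 * rr L o) / (1 + 1517 / 100 * rr L o - 1))) ≤ 9995 / 10000 := by
    have h2 : rr L o * Real.exp (19 / 10) * (cth (949 / 1000) *
        ((1 + 1517 / 100 * rr L o) / (1 + 1517 / 100 * rr L o - 1))) =
        Real.exp (19 / 10) * cth (949 / 1000) * ((1 + 1517 / 100 * rr L o) / (1517 / 100)) := by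
      have h3 : rr L o ≠ 0 := hr0.ne'
      have h4 : (1 + 1517 / 100 * rr L o - 1) = 1517 / 100 * rr L o := by ring
      rw [h4]
      field_simp
    rw [h2]
    have h5 : (1 + 1517 / 100 * rr L o) / (1517 / 100) ≤ (1 + 1517 / 100 * (1 / 10 ^ 5)) /
        (1517 / 100) := by
      rw [div_le_div_iff_of_pos_right (by norm_num)]
      linarith
    calc Real.exp (19 / 10) * cth (949 / 1000) * ((1 + 1517 / 100 * rr L o) / (1517 / 100))
        ≤ 1515 / 100 * ((1 + 1517 / 100 * (1 / 10 ^ 5)) / (1517 / 100)) :=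
          mul_le_mul num8 h5 (by positivity) (by norm_num)
      _ ≤ 9995 / 10000 := by norm_num
  have key : ∀ M : ℕ, (SS2 L o b N M fun x y => ex (19 / 10 * D o x y)) ≤ Ms L o b ^ 2 *
      (ENNReal.ofReal (2000 * (1 + 1517 / 100 * rr L o) ^ N) *
        ENNReal.ofReal (Real.exp (-(1 / 1000 * (((N : ℤ) - M).natAbs : ℝ))))) := by
    intro M
    have h6 := FMs L o hm (s := 19 / 10) (θ := 949 / 1000) (z := 1 + 1517 / 100 * rr L o)
      (q := 9995 / 10000) (by norm_num) (by norm_num) (by norm_num) hz (by norm_num)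
      (by norm_num) h1 b N M
    refine h6.trans ?_
    refine mul_le_mul_of_nonneg_left ?_ zero_le
    rw [← ENNReal.ofReal_mul (by positivity)]
    apply ENNReal.ofReal_le_ofReal
    have h7 : (-((19 / 10 / 2 - 949 / 1000) * (((N : ℤ) - M).natAbs : ℝ)) : ℝ) =
        -(1 / 1000 * (((N : ℤ) - M).natAbs : ℝ)) := by ring
    rw [h7]
    refine mul_le_mul_of_nonneg_right ?_ (Real.exp_pos _).le
    have h8 : (1 + 1517 / 100 * rr L o) ^ N / (1 - 9995 / 10000) =
        2000 * (1 + 1517 / 100 * rr L o) ^ N := by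
      rw [div_eq_iff (by norm_num)]
      ring
    exact h8.le
  calc _ ≤ ∑' M : ℕ, Ms L o b ^ 2 * (ENNReal.ofReal (2000 * (1 + 1517 / 100 * rr L o) ^ N) *
        ENNReal.ofReal (Real.exp (-(1 / 1000 * (((N : ℤ) - M).natAbs : ℝ))))) :=
        ENNReal.tsum_le_tsum key
    _ = Ms L o b ^ 2 * (ENNReal.ofReal (2000 * (1 + 1517 / 100 * rr L o) ^ N) *
        ∑' M : ℕ, ENNReal.ofReal (Real.exp (-(1 / 1000 * (((N : ℤ) - M).natAbs : ℝ))))) := by
        rw [ENNReal.tsum_mul_left, ENNReal.tsum_mul_left]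
    _ ≤ _ := by
        refine mul_le_mul_of_nonneg_left ?_ zero_le
        rw [ENNReal.ofReal_mul (p := 2000 * (1 + 1517 / 100 * rr L o) ^ N) (by positivity)]
        exact mul_le_mul_of_nonneg_left (gam8_tsum (by norm_num) N) zero_le

/-- Upper bound. Proof: `gam_le_of_Z` with `s = 19/10`, `κ = 8 rr` and `N` large (depending on the law): `FMs` with
`θ = 949/1000`, `z = 1 + 15.17 rr`, `q = 0.9995` (for `rr ≤ 1 / 10^5`) gives `Zs + T2 ≤ C z^N ≤ C exp (15.17 rr N)`, while
`s κ N = 15.2 rr N`. -/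
theorem gam_le8 : ∃ η : ℝ, 0 < η ∧ ∀ (α : Type) [DecidableEq α] [Fintype α] (L : Law α) (o : α),
    0 < L.p o → 0 < rr L o → rr L o ≤ η → gam L ≤ L.p o * (1 + 8 * rr L o) := by
  refine ⟨1 / 10 ^ 5, by norm_num, ?_⟩
  intro α _ _ L o hm hr0 hr
  set r : ℝ := rr L o with hrdef
  set K : ℝ := cth (1 / 1000) with hK
  have hK0 : 0 < K := cth_pos (by norm_num)
  set m : ℝ := L.p o with hmdef
  set S : ℝ := ∑ a ∈ univ.erase o, L.p a ^ 2 with hS
  have hS0 : 0 ≤ S := Finset.sum_nonneg fun a _ => sq_nonneg _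
  have hz1 : 1 ≤ 1 + 1517 / 100 * r := by linarith
  -- the two bounds
  have hZs : ∀ N : ℕ, Zs L o (19 / 10) N ≤
      ENNReal.ofReal (2000 * (1 + 1517 / 100 * r) ^ N * K) := by
    intro N
    have := gam8_bound L o hm hr0 hr true N
    unfold Zs
    refine this.trans ?_
    have h1 : Ms L o true = 1 := by
      unfold Ms
      simp only [if_true]
    rw [h1, one_pow, one_mul]
  have hZf : ∀ i : ℕ, Zf L o (19 / 10) i ≤
      ENNReal.ofReal ((m⁻¹) ^ 2 * (2000 * (1 + 1517 / 100 * r) ^ i * K)) := by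
    intro i
    have := gam8_bound L o hm hr0 hr false i
    unfold Zf
    refine this.trans ?_
    have h1 : Ms L o false = ENNReal.ofReal (m⁻¹) := by
      unfold Ms
      simp only [Bool.false_eq_true, if_false]
      rw [ENNReal.ofReal_inv_of_pos hm]
    rw [h1, ← ENNReal.ofReal_pow (by positivity), ← ENNReal.ofReal_mul (by positivity)]
  set C : ℝ := 2000 * K + Real.exp (19 / 10) * S * ((m⁻¹) ^ 2 * (2000 * K) *
    (1 / (1 - Real.exp (-(19 / 20))))) with hC
  have hu1 : Real.exp (-(19 / 20)) < 1 := by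
    rw [Real.exp_lt_one_iff]
    norm_num
  have hu0 : 0 < 1 - Real.exp (-(19 / 20)) := by linarith
  have hC0 : 0 < C := by positivity
  have hT2 : ∀ N : ℕ, T2 L o (19 / 10) N ≤ ENNReal.ofReal ((Real.exp (19 / 10) * S *
      ((m⁻¹) ^ 2 * (2000 * K) * (1 / (1 - Real.exp (-(19 / 20)))))) *
        (1 + 1517 / 100 * r) ^ N) := by
    intro N
    unfold T2
    have h1 : ∑ i ∈ range N, ex (-(19 / 10 * ((N : ℝ) - i) / 2)) * Zf L o (19 / 10) i ≤
        ENNReal.ofReal ((m⁻¹) ^ 2 * (2000 * K) * (1 / (1 - Real.exp (-(19 / 20)))) *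
          (1 + 1517 / 100 * r) ^ N) := by
      calc _ ≤ ∑ i ∈ range N, ENNReal.ofReal (Real.exp (-(19 / 20)) ^ (N - 1 - i) *
              ((m⁻¹) ^ 2 * (2000 * K) * (1 + 1517 / 100 * r) ^ N)) := by
            refine Finset.sum_le_sum fun i hi => ?_
            rw [Finset.mem_range] at hi
            have e1 : ex (-(19 / 10 * ((N : ℝ) - i) / 2)) ≤
                ENNReal.ofReal (Real.exp (-(19 / 20)) ^ (N - 1 - i)) := by
              unfold ex
              apply ENNReal.ofReal_le_ofReal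
              rw [← Real.exp_nat_mul]
              apply Real.exp_le_exp.2
              have e2 : ((N - 1 - i : ℕ) : ℝ) ≤ (N : ℝ) - i := by
                have e3 : (N - 1 - i : ℕ) + 1 + i = N := by omega
                have e4 : ((N - 1 - i : ℕ) : ℝ) + 1 + i = N := by exact_mod_cast e3
                linarith
              linarith
            refine (mul_le_mul' e1 (hZf i)).trans ?_
            rw [← ENNReal.ofReal_mul (by positivity)]
            apply ENNReal.ofReal_le_ofReal
            refine mul_le_mul_of_nonneg_left ?_ (by positivity)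
            have e5 : (1 + 1517 / 100 * r) ^ i ≤ (1 + 1517 / 100 * r) ^ N :=
              pow_le_pow_right₀ hz1 hi.le
            calc (m⁻¹) ^ 2 * (2000 * (1 + 1517 / 100 * r) ^ i * K)
                = (m⁻¹) ^ 2 * (2000 * K) * (1 + 1517 / 100 * r) ^ i := by ring
              _ ≤ _ := mul_le_mul_of_nonneg_left e5 (by positivity)
        _ = ENNReal.ofReal ((∑ i ∈ range N, Real.exp (-(19 / 20)) ^ (N - 1 - i)) *
              ((m⁻¹) ^ 2 * (2000 * K) * (1 + 1517 / 100 * r) ^ N)) := by
            rw [Finset.sum_mul, ENNReal.ofReal_sum_of_nonneg]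
            intro i _
            positivity
        _ ≤ _ := by
            apply ENNReal.ofReal_le_ofReal
            have e6 : ∑ i ∈ range N, Real.exp (-(19 / 20)) ^ (N - 1 - i) ≤
                1 / (1 - Real.exp (-(19 / 20))) := by
              rw [Finset.sum_range_reflect (fun i => Real.exp (-(19 / 20)) ^ i) N,
                le_div_iff₀ hu0, geom_sum_mul_neg]
              linarith [pow_pos (Real.exp_pos (-(19 / 20))) N]
            calc _ ≤ (1 / (1 - Real.exp (-(19 / 20)))) *
                  ((m⁻¹) ^ 2 * (2000 * K) * (1 + 1517 / 100 * r) ^ N) :=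
                  mul_le_mul_of_nonneg_right e6 (by positivity)
              _ = _ := by ring
    calc ex (19 / 10) * ENNReal.ofReal S *
          ∑ i ∈ range N, ex (-(19 / 10 * ((N : ℝ) - i) / 2)) * Zf L o (19 / 10) i
        ≤ ex (19 / 10) * ENNReal.ofReal S * ENNReal.ofReal ((m⁻¹) ^ 2 * (2000 * K) *
          (1 / (1 - Real.exp (-(19 / 20)))) * (1 + 1517 / 100 * r) ^ N) :=
          mul_le_mul_of_nonneg_left h1 zero_le
      _ = _ := by
          unfold ex
          rw [← ENNReal.ofReal_mul (Real.exp_pos _).le, ← ENNReal.ofReal_mul (by positivity)]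
          congr 1
          ring
  obtain ⟨N, hN1, hN2⟩ : ∃ N : ℕ, 1 ≤ N ∧ Real.log C ≤ 3 / 100 * r * N := by
    obtain ⟨N, hN⟩ := exists_nat_gt (Real.log C / (3 / 100 * r))
    refine ⟨N + 1, by omega, ?_⟩
    rw [div_lt_iff₀ (by positivity)] at hN
    push_cast
    nlinarith
  refine gam_le_of_Z (s := 19 / 10) (κ := 8 * r) hm (by norm_num) (by positivity) hN1 ?_ ?_
  · refine (add_le_add (hZs N) (hT2 N)).trans ?_
    rw [← ENNReal.ofReal_add (by positivity) (by positivity)]
    unfold ex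
    apply ENNReal.ofReal_le_ofReal
    have e1 : (1 + 1517 / 100 * r) ^ N ≤ Real.exp (1517 / 100 * r * N) := by
      have e2 : 1 + 1517 / 100 * r ≤ Real.exp (1517 / 100 * r) := by
        have := Real.add_one_le_exp (1517 / 100 * r)
        linarith
      calc (1 + 1517 / 100 * r) ^ N ≤ Real.exp (1517 / 100 * r) ^ N :=
            pow_le_pow_left₀ (by linarith) e2 N
        _ = _ := by
            rw [← Real.exp_nat_mul]
            ring_nf
    have e3 : C ≤ Real.exp (3 / 100 * r * N) := by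
      rw [← Real.exp_log hC0]
      exact Real.exp_le_exp.2 hN2
    calc _ = C * (1 + 1517 / 100 * r) ^ N := by
          rw [hC]
          ring
      _ ≤ Real.exp (3 / 100 * r * N) * Real.exp (1517 / 100 * r * N) :=
          mul_le_mul e3 e1 (by positivity) (Real.exp_pos _).le
      _ = Real.exp (19 / 10 * (8 * r) * N) := by
          rw [← Real.exp_add]
          congr 1
          ring
  · intro i _
    exact ne_top_of_le_ne_top ENNReal.ofReal_ne_top (hZf i)

end NV
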