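import Pool.Agent.Lib.MP_ae6bb1_pr.NV.Val

/-! The limit model. -/

open Finset LCSH

namespace NV

theorem gv_bdd (w : ℕ) {J : ℕ} (τ : Fin J → Option (Fin (2 * w + 1))) :
    BddAbove {v : ℤ | ∃ l : List ℤ, l.Sublist (pts w τ) ∧
      v = 2 * (l.length : ℤ) - (tvd 0 l 0 : ℤ)} := by
  refine ⟨2 * ((pts w τ).length : ℤ), ?_⟩
  rintro v ⟨l, hl, rfl⟩
  have h := hl.length_le
  omega

/-- The maximum is attained. -/
theorem exists_gv (w : ℕ) {J : ℕ} (τ : Fin J → Option (Fin (2 * w + 1))) :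
    ∃ l : List ℤ, l.Sublist (pts w τ) ∧ gv w τ = (l.length : ℝ) - (tvd 0 l 0 : ℝ) / 2 := by
  have h2 : {v : ℤ | ∃ l : List ℤ, l.Sublist (pts w τ) ∧
      v = 2 * (l.length : ℤ) - (tvd 0 l 0 : ℤ)}.Nonempty :=
    ⟨_, [], List.nil_sublist _, rfl⟩
  obtain ⟨l, hl, h⟩ := Int.csSup_mem h2 (gv_bdd w τ)
  refine ⟨l, hl, ?_⟩
  unfold gv
  rw [h]
  push_cast
  ring

theorem le_gv (w : ℕ) {J : ℕ} (τ : Fin J → Option (Fin (2 * w + 1))) {l : List ℤ}
    (hl : l.Sublist (pts w τ)) : (l.length : ℝ) - (tvd 0 l 0 : ℝ) / 2 ≤ gv w τ := by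
  have h1 : 2 * (l.length : ℤ) - (tvd 0 l 0 : ℤ) ≤ sSup {v : ℤ | ∃ l : List ℤ,
      l.Sublist (pts w τ) ∧ v = 2 * (l.length : ℤ) - (tvd 0 l 0 : ℤ)} :=
    le_csSup (gv_bdd w τ) ⟨l, hl, rfl⟩
  have h2 : ((2 * (l.length : ℤ) - (tvd 0 l 0 : ℤ) : ℤ) : ℝ) ≤ ((sSup {v : ℤ | ∃ l : List ℤ,
      l.Sublist (pts w τ) ∧ v = 2 * (l.length : ℤ) - (tvd 0 l 0 : ℤ)} : ℤ) : ℝ) := by
    exact_mod_cast h1
  unfold gv
  push_cast at h2
  linarith

theorem gv_nonneg (w : ℕ) {J : ℕ} (τ : Fin J → Option (Fin (2 * w + 1))) : 0 ≤ gv w τ := by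
  have h := le_gv w τ (List.nil_sublist _)
  simpa [tvd] using h

theorem gv_le_update (w : ℕ) {J : ℕ} (τ : Fin J → Option (Fin (2 * w + 1))) (i : Fin J)
    (b : Option (Fin (2 * w + 1))) : gv w τ ≤ gv w (Function.update τ i b) + 1 := by
  obtain ⟨l, hl, hv⟩ := exists_gv w τ
  obtain ⟨A, B, hAB⟩ := List.append_of_mem (List.mem_finRange i)
  have hnd : (A ++ i :: B).Nodup := hAB ▸ List.nodup_finRange J
  have hA : i ∉ A := by
    intro h
    exact (List.disjoint_of_nodup_append hnd) h List.mem_cons_self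
  have hB : i ∉ B := (List.nodup_cons.1 hnd.of_append_right).1
  obtain ⟨φ, hφ⟩ : ∃ φ : Option (Fin (2 * w + 1)) → Option ℤ,
      ∀ σ : Fin J → Option (Fin (2 * w + 1)),
        pts w σ = (List.finRange J).filterMap fun j => φ (σ j) :=
    ⟨fun o => o.map fun k => ((k : ℕ) : ℤ) - (w : ℤ), fun σ => rfl⟩
  have hpts : ∀ σ : Fin J → Option (Fin (2 * w + 1)), pts w σ =
      A.filterMap (fun j => φ (σ j)) ++
      ((φ (σ i)).toList ++ B.filterMap (fun j => φ (σ j))) := by
    intro σ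
    rw [hφ, hAB, List.filterMap_append]
    congr 1
    cases h : φ (σ i) with
    | none =>
      rw [List.filterMap_cons_none (f := fun j => φ (σ j)) h]
      rfl
    | some c =>
      rw [List.filterMap_cons_some (f := fun j => φ (σ j)) h]
      rfl
  have hcA : A.filterMap (fun j => φ ((Function.update τ i b) j)) =
      A.filterMap (fun j => φ (τ j)) := by
    apply List.filterMap_congr
    intro j hj
    have hji : j ≠ i := fun h => hA (h ▸ hj)
    rw [Function.update_of_ne hji]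
  have hcB : B.filterMap (fun j => φ ((Function.update τ i b) j)) =
      B.filterMap (fun j => φ (τ j)) := by
    apply List.filterMap_congr
    intro j hj
    have hji : j ≠ i := fun h => hB (h ▸ hj)
    rw [Function.update_of_ne hji]
  rw [hpts τ] at hl
  obtain ⟨l₁, l₂, rfl, h1, h2⟩ := List.sublist_append_iff.1 hl
  obtain ⟨l₃, l₄, rfl, h3, h4⟩ := List.sublist_append_iff.1 h2
  have hlen : l₃.length ≤ 1 := by
    refine h3.length_le.trans ?_
    cases φ (τ i) with
    | none => exact Nat.zero_le _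
    | some c => exact le_refl _
  have hsub : (l₁ ++ l₄).Sublist (pts w (Function.update τ i b)) := by
    rw [hpts, hcA, hcB]
    exact h1.append (h4.trans (List.sublist_append_right _ _))
  have hsub2 : (l₁ ++ l₄).Sublist (l₁ ++ (l₃ ++ l₄)) :=
    (List.Sublist.refl l₁).append (List.sublist_append_right _ _)
  have h5 := le_gv w _ hsub
  have h6 : (tvd 0 (l₁ ++ l₄) 0 : ℝ) ≤ (tvd 0 (l₁ ++ (l₃ ++ l₄)) 0 : ℝ) := by
    exact_mod_cast tvd_sublist hsub2 0 0
  have h7 : ((l₁ ++ (l₃ ++ l₄)).length : ℝ) ≤ ((l₁ ++ l₄).length : ℝ) + 1 := by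
    have h8 : (l₁ ++ (l₃ ++ l₄)).length ≤ (l₁ ++ l₄).length + 1 := by
      simp only [List.length_append]
      omega
    exact_mod_cast h8
  rw [hv]
  linarith

/-- Changing one time cell changes the value by at most one. Proof: delete the point of this time cell from the optimal
sublist. -/
theorem gv_lip (w : ℕ) {J : ℕ} (τ : Fin J → Option (Fin (2 * w + 1))) (i : Fin J)
    (b : Option (Fin (2 * w + 1))) : |gv w τ - gv w (Function.update τ i b)| ≤ 1 := by
  have h1 := gv_le_update w τ i b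
  have h2 := gv_le_update w (Function.update τ i b) i (τ i)
  rw [Function.update_idem, Function.update_eq_self] at h2
  rw [abs_le]
  constructor <;> linarith

theorem isW_qw {w : ℕ} {p : ℝ} (h0 : 0 ≤ p) (h1 : (2 * (w : ℝ) + 1) * p ≤ 1) (J : ℕ) :
    IsW (fun _ : Fin J => qw w p) := by
  refine ⟨fun _ c => ?_, fun _ => ?_⟩
  · cases c with
    | none =>
      show 0 ≤ 1 - (2 * (w : ℝ) + 1) * p
      linarith
    | some k => exact h0
  · rw [Fintype.sum_option]
    have h2 : ∑ k : Fin (2 * w + 1), qw w p (some k) = (2 * (w : ℝ) + 1) * p := by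
      have h3 : ∀ k : Fin (2 * w + 1), qw w p (some k) = p := fun k => rfl
      rw [Finset.sum_congr rfl fun k _ => h3 k, Finset.sum_const, Finset.card_univ,
        Fintype.card_fin, nsmul_eq_mul]
      push_cast
      ring
    have h4 : qw w p none = 1 - (2 * (w : ℝ) + 1) * p := rfl
    rw [h2, h4]
    ring

end NV
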