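import Pool.Agent.Lib.MP_ae6bb1_pr.NV.MassC
import Pool.Agent.Lib.MP_ae6bb1_pr.NV.Chain

/-! First moments of chains. -/

open Finset LCSH
open scoped ENNReal

namespace NV

variable {α : Type} [DecidableEq α] [Fintype α] (L : Law α) (o : α)

theorem rr_nonneg : 0 ≤ rr L o := by
  unfold rr
  exact div_nonneg (Finset.sum_nonneg fun a _ => sq_nonneg _) (sq_nonneg _)

private theorem RP_Ms (hm : 0 < L.p o) :
    Ms L o false ^ 2 * ∑ a ∈ univ.erase o, (ENNReal.ofReal (L.p a) * ENNReal.ofReal (L.p a)) =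
      ENNReal.ofReal (rr L o) := by
  have h1 : ∑ a ∈ univ.erase o, (ENNReal.ofReal (L.p a) * ENNReal.ofReal (L.p a)) =
      ENNReal.ofReal (∑ a ∈ univ.erase o, L.p a ^ 2) := by
    rw [ENNReal.ofReal_sum_of_nonneg fun a _ => sq_nonneg _]
    refine Finset.sum_congr rfl fun a _ => ?_
    rw [← ENNReal.ofReal_mul (L.nonneg a), sq]
  rw [h1]
  unfold Ms rr
  rw [if_neg (by decide), ENNReal.ofReal_div_of_pos (pow_pos hm 2),
    ENNReal.ofReal_pow hm.le, ENNReal.div_eq_inv_mul, ENNReal.inv_pow]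

private theorem RP_zero (b : Bool) (k : ℕ) : (SS L o b k fun _ => 0) = 0 := by
  have h := SS_const_mul L o b k 0 fun _ => 0
  simpa using h

private theorem RP_step (hm : 0 < L.p o) (b : Bool) (n m : ℕ) (c : ℕ × ℕ)
    (R : List α → List α → Prop) : open Classical in
    (SS2 L o b n m fun x y => if ∃ (x₀ x' y₀ y' : List α) (a : α), a ≠ o ∧ x = x₀ ++ a :: x' ∧
      y = y₀ ++ a :: y' ∧ Z o x₀ = c.1 ∧ Z o y₀ = c.2 ∧ R x' y' then 1 else 0) ≤
      ENNReal.ofReal (rr L o) *
        SS2 L o b (n - c.1) (m - c.2) fun x' y' => if R x' y' then 1 else 0 := by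
  classical
  set I : List α → α → List α → List α → α → List α → ℝ≥0∞ := fun _ a x' _ a' y' =>
    if a = a' ∧ R x' y' then 1 else 0 with hI
  set H : List α → α → List α → ℝ≥0∞ := fun x₀ a x' =>
    SS L o false c.2 fun y₀ => ∑ a' ∈ univ.erase o, ENNReal.ofReal (L.p a') *
      SS L o b (m - c.2) fun y' => I x₀ a x' y₀ a' y' with hH
  have h1 : (SS2 L o b n m fun x y => if ∃ (x₀ x' y₀ y' : List α) (a : α), a ≠ o ∧
      x = x₀ ++ a :: x' ∧ y = y₀ ++ a :: y' ∧ Z o x₀ = c.1 ∧ Z o y₀ = c.2 ∧ R x' y'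
        then 1 else 0) ≤
      SS L o b n fun x => ∑' q : List α × α × List α,
        if q.2.1 ≠ o ∧ Z o q.1 = c.1 ∧ x = q.1 ++ q.2.1 :: q.2.2 then H q.1 q.2.1 q.2.2
        else 0 := by
    unfold SS2
    refine SS_mono L o fun x _ _ => ?_
    have h2 : (SS L o b m fun y => if ∃ (x₀ x' y₀ y' : List α) (a : α), a ≠ o ∧
        x = x₀ ++ a :: x' ∧ y = y₀ ++ a :: y' ∧ Z o x₀ = c.1 ∧ Z o y₀ = c.2 ∧ R x' y'
        then 1 else 0) ≤ SS L o b m fun y => ∑' q : List α × α × List α,
          if q.2.1 ≠ o ∧ Z o q.1 = c.1 ∧ x = q.1 ++ q.2.1 :: q.2.2 then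
            ∑' r : List α × α × List α,
              if r.2.1 ≠ o ∧ Z o r.1 = c.2 ∧ y = r.1 ++ r.2.1 :: r.2.2 then
                I q.1 q.2.1 q.2.2 r.1 r.2.1 r.2.2 else 0 else 0 := by
      refine SS_mono L o fun y _ _ => ?_
      by_cases h : ∃ (x₀ x' y₀ y' : List α) (a : α), a ≠ o ∧
        x = x₀ ++ a :: x' ∧ y = y₀ ++ a :: y' ∧ Z o x₀ = c.1 ∧ Z o y₀ = c.2 ∧ R x' y'
      · rw [if_pos h]
        obtain ⟨x₀, x', y₀, y', a, ha, hx, hy, hx0, hy0, hR⟩ := h
        refine le_trans ?_ (ENNReal.le_tsum (x₀, a, x'))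
        rw [if_pos ⟨ha, hx0, hx⟩]
        refine le_trans ?_ (ENNReal.le_tsum (y₀, a, y'))
        rw [if_pos ⟨ha, hy0, hy⟩, hI]
        simp [hR]
      · rw [if_neg h]
        exact bot_le
    refine h2.trans ?_
    rw [SS_tsum]
    refine ENNReal.tsum_le_tsum fun q => ?_
    by_cases hq : q.2.1 ≠ o ∧ Z o q.1 = c.1 ∧ x = q.1 ++ q.2.1 :: q.2.2
    · simp only [if_pos hq]
      exact SS_split_at L o b m c.2 fun y₀ a' y' => I q.1 q.2.1 q.2.2 y₀ a' y'
    · simp only [if_neg hq]
      exact (RP_zero L o b m).le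
  refine h1.trans ((SS_split_at L o b n c.1 H).trans ?_)
  have hH2 : ∀ x₀ : List α, ∀ a ∈ univ.erase o, ∀ x' : List α, H x₀ a x' =
      Ms L o false * (ENNReal.ofReal (L.p a) *
        SS L o b (m - c.2) fun y' => if R x' y' then 1 else 0) := by
    intro x₀ a ha x'
    have e1 : ∀ y₀ : List α, (∑ a' ∈ univ.erase o, ENNReal.ofReal (L.p a') *
        SS L o b (m - c.2) fun y' => I x₀ a x' y₀ a' y') =
        ENNReal.ofReal (L.p a) * SS L o b (m - c.2) fun y' => if R x' y' then 1 else 0 := by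
      intro y₀
      rw [Finset.sum_eq_single a]
      · rw [hI]
        simp
      · intro a' _ hne
        have h3 : (SS L o b (m - c.2) fun y' => I x₀ a x' y₀ a' y') = 0 := by
          rw [← RP_zero L o b (m - c.2)]
          congr 1
          funext y'
          rw [hI]
          simp [Ne.symm hne]
        rw [h3, mul_zero]
      · intro h
        exact absurd ha h
    rw [hH]
    simp only [e1]
    set Q := ENNReal.ofReal (L.p a) * SS L o b (m - c.2) fun y' => if R x' y' then 1 else 0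
    have h3 := SS_const_mul L o false c.2 Q fun _ => 1
    rw [SS_one L o hm] at h3
    simp only [mul_one] at h3
    rw [h3, mul_comm]
  have e2 : (SS L o false c.1 fun x₀ => ∑ a ∈ univ.erase o,
      ENNReal.ofReal (L.p a) * SS L o b (n - c.1) fun x' => H x₀ a x') =
      SS L o false c.1 fun _ => (Ms L o false * ∑ a ∈ univ.erase o,
        (ENNReal.ofReal (L.p a) * ENNReal.ofReal (L.p a))) *
        (SS2 L o b (n - c.1) (m - c.2) fun x' y' => if R x' y' then 1 else 0) * 1 := by
    congr 1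
    funext x₀
    rw [mul_one, Finset.mul_sum, Finset.sum_mul]
    refine Finset.sum_congr rfl fun a ha => ?_
    have h3 : (SS L o b (n - c.1) fun x' => H x₀ a x') =
        SS L o b (n - c.1) fun x' => (Ms L o false * ENNReal.ofReal (L.p a)) *
          SS L o b (m - c.2) fun y' => if R x' y' then 1 else 0 := by
      congr 1
      funext x'
      rw [hH2 x₀ a ha x', mul_assoc]
    rw [h3, SS_const_mul]
    unfold SS2
    ring
  rw [e2, SS_const_mul, SS_one L o hm, ← RP_Ms L o hm]
  apply le_of_eq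
  ring

open Classical in
/-- The probability of a chain. Proof: induction on `C`. For `c :: C` bound the indicator by the sum over all
`(x₀, a, x')`, `(y₀, a', y')` with `a' = a`, `Z x₀ = c.1`, `Z y₀ = c.2` of the indicator of `RealI o x' y' C` and use `SS_split_at` for `x`
and for `y`, `SS_one` for `x₀`, `y₀`: the total is at most `Ms false ^ 2 * (∑_{a ≠ o} p a ^ 2) * (SS2 b (n - c.1) (m - c.2) of C)` and
`Ms false ^ 2 * ∑ p a ^ 2 = rr`. -/
theorem SS2_real (hm : 0 < L.p o) (b : Bool) (n m : ℕ) (C : List (ℕ × ℕ)) :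
    (SS2 L o b n m fun x y => if RealI o x y C then 1 else 0) ≤
      Ms L o b ^ 2 * ENNReal.ofReal (rr L o ^ C.length) := by
  induction C generalizing n m with
  | nil =>
    have h1 : (SS2 L o b n m fun x y => if RealI o x y [] then 1 else 0) =
        SS2 L o b n m fun _ _ => 1 := by
      congr 1
      funext x y
      rw [if_pos (by unfold RealI; trivial)]
    rw [h1]
    unfold SS2
    beta_reduce
    rw [SS_one L o hm]
    have h2 := SS_const_mul L o b n (Ms L o b) fun _ => 1
    rw [SS_one L o hm] at h2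
    simp only [mul_one] at h2
    rw [h2]
    simp [sq]
  | cons c C ih =>
    have h1 : (SS2 L o b n m fun x y => if RealI o x y (c :: C) then 1 else 0) =
        SS2 L o b n m fun x y => if ∃ (x₀ x' y₀ y' : List α) (a : α), a ≠ o ∧
          x = x₀ ++ a :: x' ∧ y = y₀ ++ a :: y' ∧ Z o x₀ = c.1 ∧ Z o y₀ = c.2 ∧
          RealI o x' y' C then 1 else 0 := by
      rfl
    rw [h1]
    refine (RP_step L o hm b n m c fun x' y' => RealI o x' y' C).trans ?_
    refine (mul_le_mul' le_rfl (ih (n - c.1) (m - c.2))).trans (le_of_eq ?_)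
    rw [List.length_cons, pow_succ (rr L o), ENNReal.ofReal_mul (pow_nonneg (rr_nonneg L o) _)]
    ring

open Classical in
/-- Proof: `SS_tsum` twice, `SS2_real`; `RealI o x y C` implies `adm (Z o x) (Z o y) C` (`RealI.adm`). -/
theorem SS2_chains (hm : 0 < L.p o) (b : Bool) (n m : ℕ) (F : List (ℕ × ℕ) → ℝ≥0∞) :
    (SS2 L o b n m fun x y => ∑' C, if RealI o x y C then F C else 0) ≤
      Ms L o b ^ 2 * ∑' C, if adm n m C then ENNReal.ofReal (rr L o ^ C.length) * F C else 0 := by
  have h1 : (SS2 L o b n m fun x y => ∑' C, if RealI o x y C then F C else 0) =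
      ∑' C, SS2 L o b n m fun x y => if RealI o x y C then F C else 0 := by
    unfold SS2
    simp only [SS_tsum]
  rw [h1, ← ENNReal.tsum_mul_left]
  refine ENNReal.tsum_le_tsum fun C => ?_
  have h2 : (SS2 L o b n m fun x y => if RealI o x y C then F C else 0) =
      F C * SS2 L o b n m fun x y => if RealI o x y C then 1 else 0 := by
    unfold SS2
    rw [← SS_const_mul]
    congr 1
    funext x
    rw [← SS_const_mul]
    congr 1
    funext y
    beta_reduce
    split_ifs
    · rw [mul_one]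
    · rw [mul_zero]
  by_cases hC : adm n m C
  · rw [if_pos hC, h2]
    refine (mul_le_mul' le_rfl (SS2_real L o hm b n m C)).trans (le_of_eq ?_)
    ring
  · rw [if_neg hC, mul_zero]
    have h3 : (SS2 L o b n m fun x y => if RealI o x y C then F C else 0) ≤
        SS2 L o b n m fun _ _ => 0 := by
      unfold SS2
      refine SS_mono L o fun x hx _ => SS_mono L o fun y hy _ => ?_
      beta_reduce
      rw [if_neg]
      intro h
      apply hC
      rw [← hx, ← hy]
      exact RealI.adm h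
    refine h3.trans (le_of_eq ?_)
    unfold SS2
    beta_reduce
    rw [RP_zero, RP_zero]

end NV
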