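import Pool.Agent.Lib.MP_ae6bb1_pr.NV.HitA
import Pool.Agent.Lib.MP_ae6bb1_pr.NV.RealP

/-! The probabilities that two or three words are related. -/

open Finset LCSH
open scoped ENNReal

namespace NV

variable {α : Type} [DecidableEq α] [Fintype α] {L : Law α} {o : α}

private theorem hit_lam_o {A : Finset α} (h : o ∈ A) : lam L o A = 0 := by
  classical
  unfold lam SS
  have h0 : (fun x : List α => if Z o x = 1 ∧ (true = true → isB o x) then
      wt L x * (if ws o x 0 = A then (1 : ℝ≥0∞) else 0) else 0) = fun _ => 0 := by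
    funext x
    have hx : ws o x 0 ≠ A := fun he => notMem_ws x 0 (he ▸ h)
    simp [hx]
  rw [h0]
  simp

private theorem hit_dsum {ι β : Type} [Fintype β] (s : Finset ι) (f g : β → ℝ) (u v : ι → β → ℝ) :
    ∑ A, ∑ B, f A * g B * ∑ a ∈ s, u a A * v a B =
      ∑ a ∈ s, (∑ A, f A * u a A) * (∑ B, g B * v a B) := by
  have h1 : ∀ A : β, ∑ B, f A * g B * ∑ a ∈ s, u a A * v a B =
      ∑ a ∈ s, ∑ B, f A * g B * (u a A * v a B) := by
    intro A
    simp_rw [Finset.mul_sum]
    exact Finset.sum_comm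
  simp_rw [h1, Finset.sum_mul_sum]
  rw [Finset.sum_comm]
  refine Finset.sum_congr rfl fun a _ => Finset.sum_congr rfl fun A _ =>
    Finset.sum_congr rfl fun B _ => ?_
  ring

private theorem hit_ind01 (E : Prop) : ind E = 0 ∨ ind E = 1 := by
  by_cases h : E
  · exact Or.inr (ind_of h)
  · exact Or.inl (ind_of_not h)

private theorem hit_ind_and (E F : Prop) : ind (E ∧ F) = ind E * ind F := by
  by_cases h : E <;> by_cases h' : F
  · rw [ind_of h, ind_of h', ind_of ⟨h, h'⟩]; norm_num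
  · rw [ind_of h, ind_of_not h', ind_of_not (fun x => h' x.2)]; norm_num
  · rw [ind_of_not h, ind_of h', ind_of_not (fun x => h x.1)]; norm_num
  · rw [ind_of_not h, ind_of_not h', ind_of_not (fun x => h' x.2)]; norm_num

/-- union bound -/
private theorem hit_union {A B : Finset α} (hA : o ∉ A) :
    ind (mt A B) ≤ ∑ a ∈ univ.erase o, ind (a ∈ A) * ind (a ∈ B) := by
  by_cases h : mt A B
  · rw [ind_of h]
    obtain ⟨a, haA, haB⟩ := Finset.not_disjoint_iff.1 h
    have hao : a ≠ o := fun he => hA (he ▸ haA)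
    have h1 : ind (a ∈ A) * ind (a ∈ B) ≤ ∑ a ∈ univ.erase o, ind (a ∈ A) * ind (a ∈ B) :=
      Finset.single_le_sum (f := fun a => ind (a ∈ A) * ind (a ∈ B))
        (fun b _ => mul_nonneg (ind_nonneg _) (ind_nonneg _))
        (Finset.mem_erase.2 ⟨hao, Finset.mem_univ a⟩)
    rw [ind_of haA, ind_of haB] at h1
    linarith
  · rw [ind_of_not h]
    exact Finset.sum_nonneg fun b _ => mul_nonneg (ind_nonneg _) (ind_nonneg _)

private theorem hit_xnn (hm : 0 < L.p o) (a : α) : 0 ≤ L.p a / L.p o := div_nonneg (L.nonneg _) hm.le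

private theorem hit_rr (L : Law α) (o : α) : rr L o = ∑ a ∈ univ.erase o, (L.p a / L.p o) ^ 2 := by
  unfold rr
  rw [Finset.sum_div]
  refine Finset.sum_congr rfl fun a _ => ?_
  rw [div_pow]

private theorem hit_h (hm : 0 < L.p o) {a : α} (ha : a ≠ o) :
    ∑ A, lam L o A * ind (a ∈ A) = (L.p a / L.p o) / (1 + L.p a / L.p o) := by
  rw [lam_hit hm ha]
  have := L.nonneg a
  field_simp

private theorem hit_h_le (hm : 0 < L.p o) {a : α} (ha : a ≠ o) :
    ∑ A, lam L o A * ind (a ∈ A) ≤ L.p a / L.p o := by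
  rw [hit_h hm ha]
  have h := hit_xnn hm a
  exact div_le_self h (by linarith)

private theorem hit_h_nn (a : α) : 0 ≤ ∑ A, lam L o A * ind (a ∈ A) :=
  Finset.sum_nonneg fun A _ => mul_nonneg (lam_nonneg A) (ind_nonneg _)

private theorem hit_r_eq (hm : 0 < L.p o) : (wmd hm : Md (Finset α)).r =
    ∑ A : Finset α, ∑ B : Finset α, lam L o A * lam L o B * ind (mt A B) := rfl

/-- Proof: union bound over the common letter, `lam_hit`, `p a / (m + p a) ≤ p a / m`. -/
theorem r_le (hm : 0 < L.p o) : (wmd hm : Md (Finset α)).r ≤ rr L o := by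
  rw [hit_r_eq]
  have h1 : ∑ A : Finset α, ∑ B : Finset α, lam L o A * lam L o B * ind (mt A B) ≤
      ∑ A : Finset α, ∑ B : Finset α, lam L o A * lam L o B *
        ∑ a ∈ univ.erase o, ind (a ∈ A) * ind (a ∈ B) := by
    refine Finset.sum_le_sum fun A _ => Finset.sum_le_sum fun B _ => ?_
    by_cases hA : o ∈ A
    · rw [hit_lam_o hA]; simp
    · exact mul_le_mul_of_nonneg_left (hit_union hA) (mul_nonneg (lam_nonneg A) (lam_nonneg B))
  refine h1.trans ?_
  rw [hit_dsum, hit_rr]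
  refine Finset.sum_le_sum fun a ha => ?_
  have hao := (Finset.mem_erase.1 ha).1
  have h2 := hit_h_le hm hao
  have h3 := hit_h_nn (L := L) (o := o) a
  rw [pow_two]
  exact mul_le_mul h2 h2 h3 (hit_xnn hm a)

private theorem hit_cube (hm : 0 < L.p o) :
    ∑ a ∈ univ.erase o, (L.p a / L.p o) ^ 3 ≤ rr L o * Real.sqrt (rr L o) := by
  rw [hit_rr, Finset.sum_mul]
  refine Finset.sum_le_sum fun a ha => ?_
  have h1 : L.p a / L.p o ≤ Real.sqrt (∑ a ∈ univ.erase o, (L.p a / L.p o) ^ 2) := by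
    apply Real.le_sqrt_of_sq_le
    exact Finset.single_le_sum (f := fun a => (L.p a / L.p o) ^ 2) (fun b _ => sq_nonneg _) ha
  have h2 : 0 ≤ (L.p a / L.p o) ^ 2 := sq_nonneg _
  nlinarith [mul_le_mul_of_nonneg_left h1 h2]

private theorem hit_rr_nn (hm : 0 < L.p o) : 0 ≤ rr L o := by
  rw [hit_rr]
  exact Finset.sum_nonneg fun a _ => sq_nonneg _

private theorem hit_rr_sq (hm : 0 < L.p o) (h1 : rr L o ≤ 1) :
    rr L o ^ 2 ≤ rr L o * Real.sqrt (rr L o) := by
  have h0 := hit_rr_nn hm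
  have h2 : rr L o ≤ Real.sqrt (rr L o) := by
    apply Real.le_sqrt_of_sq_le
    nlinarith
  nlinarith [mul_le_mul_of_nonneg_left h2 h0]

/-- Bonferroni -/
private theorem hit_bonf (A B : Finset α) :
    (∑ a ∈ univ.erase o, ind (a ∈ A) * ind (a ∈ B)) -
      1 / 2 * ∑ a ∈ univ.erase o, ∑ b ∈ (univ.erase o).erase a,
        ind (a ∈ A ∧ b ∈ A) * ind (a ∈ B ∧ b ∈ B) ≤ ind (mt A B) := by
  set c : α → ℝ := fun a => ind (a ∈ A) * ind (a ∈ B) with hc
  have hc01 : ∀ a, c a = 0 ∨ c a = 1 := by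
    intro a
    simp only [hc]
    rcases hit_ind01 (a ∈ A) with h | h <;> rcases hit_ind01 (a ∈ B) with h' | h' <;>
      rw [h, h'] <;> norm_num
  have h2 : ∑ a ∈ univ.erase o, ∑ b ∈ (univ.erase o).erase a,
      ind (a ∈ A ∧ b ∈ A) * ind (a ∈ B ∧ b ∈ B) =
      (∑ a ∈ univ.erase o, c a) ^ 2 - ∑ a ∈ univ.erase o, c a := by
    have h3 : ∀ a ∈ univ.erase o, ∑ b ∈ (univ.erase o).erase a,
        ind (a ∈ A ∧ b ∈ A) * ind (a ∈ B ∧ b ∈ B) =
        c a * (∑ b ∈ univ.erase o, c b) - c a := by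
      intro a ha
      have h4 : ∑ b ∈ (univ.erase o).erase a, ind (a ∈ A ∧ b ∈ A) * ind (a ∈ B ∧ b ∈ B) =
          ∑ b ∈ (univ.erase o).erase a, c a * c b := by
        refine Finset.sum_congr rfl fun b _ => ?_
        rw [hit_ind_and, hit_ind_and]
        simp only [hc]
        ring
      rw [h4, ← Finset.mul_sum, ← Finset.add_sum_erase _ _ ha]
      rcases hc01 a with h | h <;> rw [h] <;> ring
    rw [Finset.sum_congr rfl h3, Finset.sum_sub_distrib, ← Finset.sum_mul, pow_two]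
  rw [h2]
  by_cases h : mt A B
  · rw [ind_of h]
    have hN : ∃ N : ℕ, ∑ a ∈ univ.erase o, c a = N := by
      have : ∀ s : Finset α, ∃ N : ℕ, ∑ a ∈ s, c a = N := by
        intro s
        induction s using Finset.induction_on with
        | empty => exact ⟨0, by simp⟩
        | insert a s ha ih =>
          obtain ⟨N, hN⟩ := ih
          rw [Finset.sum_insert ha, hN]
          rcases hc01 a with h | h
          · exact ⟨N, by rw [h]; ring⟩
          · exact ⟨N + 1, by rw [h]; push_cast; ring⟩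
      exact this _
    obtain ⟨N, hN⟩ := hN
    rw [hN]
    have h5 : 0 ≤ ((N : ℝ) - 1) * ((N : ℝ) - 2) := by
      rcases Nat.lt_or_ge N 2 with h | h
      · interval_cases N <;> norm_num
      · have : (2 : ℝ) ≤ N := by exact_mod_cast h
        exact mul_nonneg (by linarith) (by linarith)
    nlinarith
  · rw [ind_of_not h]
    have h6 : ∀ a, c a = 0 := by
      intro a
      rcases hc01 a with h' | h'
      · exact h'
      · exfalso
        apply h
        simp only [hc] at h'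
        refine Finset.not_disjoint_iff.2 ⟨a, ?_, ?_⟩
        · by_contra hn
          rw [ind_of_not hn] at h'
          norm_num at h'
        · by_contra hn
          rw [ind_of_not hn] at h'
          norm_num at h'
    simp [h6]

/-- Proof: Bonferroni over the letters, `lam_hit`, `lam_hit2`: `r ≥ ∑ (p a / (m + p a))^2 - 1/2 ∑_{a ≠ b} (2 (p a / m) (p b / m))^2`,
`(x / (1 + x))^2 ≥ x^2 - 2 x^3`, `∑ x_a^3 ≤ (∑ x_a^2)^(3/2)`, so `r ≥ rr - 2 rr^(3/2) - 2 rr^2`. -/
theorem le_r (hm : 0 < L.p o) (h1 : rr L o ≤ 1) :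
    rr L o - 4 * (rr L o * Real.sqrt (rr L o)) ≤ (wmd hm : Md (Finset α)).r := by
  rw [hit_r_eq]
  have hb : ∑ A : Finset α, ∑ B : Finset α, lam L o A * lam L o B *
      ((∑ a ∈ univ.erase o, ind (a ∈ A) * ind (a ∈ B)) -
      1 / 2 * ∑ a ∈ univ.erase o, ∑ b ∈ (univ.erase o).erase a,
        ind (a ∈ A ∧ b ∈ A) * ind (a ∈ B ∧ b ∈ B)) ≤
      ∑ A : Finset α, ∑ B : Finset α, lam L o A * lam L o B * ind (mt A B) :=
    Finset.sum_le_sum fun A _ => Finset.sum_le_sum fun B _ =>
      mul_le_mul_of_nonneg_left (hit_bonf A B) (mul_nonneg (lam_nonneg A) (lam_nonneg B))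
  refine le_trans ?_ hb
  have hs : ∑ A : Finset α, ∑ B : Finset α, lam L o A * lam L o B *
      ((∑ a ∈ univ.erase o, ind (a ∈ A) * ind (a ∈ B)) -
      1 / 2 * ∑ a ∈ univ.erase o, ∑ b ∈ (univ.erase o).erase a,
        ind (a ∈ A ∧ b ∈ A) * ind (a ∈ B ∧ b ∈ B)) =
      (∑ A : Finset α, ∑ B : Finset α, lam L o A * lam L o B *
        ∑ a ∈ univ.erase o, ind (a ∈ A) * ind (a ∈ B)) -
      1 / 2 * ∑ A : Finset α, ∑ B : Finset α, lam L o A * lam L o B *
        ∑ x ∈ (univ.erase o).sigma (fun a => (univ.erase o).erase a),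
          ind (x.1 ∈ A ∧ x.2 ∈ A) * ind (x.1 ∈ B ∧ x.2 ∈ B) := by
    rw [Finset.mul_sum, ← Finset.sum_sub_distrib]
    refine Finset.sum_congr rfl fun A _ => ?_
    rw [Finset.mul_sum, ← Finset.sum_sub_distrib]
    refine Finset.sum_congr rfl fun B _ => ?_
    rw [Finset.sum_sigma]
    ring
  rw [hs, hit_dsum, hit_dsum]
  have hA : rr L o - 2 * (rr L o * Real.sqrt (rr L o)) ≤
      ∑ a ∈ univ.erase o, (∑ A, lam L o A * ind (a ∈ A)) * (∑ B, lam L o B * ind (a ∈ B)) := by
    have h3 : ∑ a ∈ univ.erase o, ((L.p a / L.p o) ^ 2 - 2 * (L.p a / L.p o) ^ 3) ≤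
        ∑ a ∈ univ.erase o, (∑ A, lam L o A * ind (a ∈ A)) * (∑ B, lam L o B * ind (a ∈ B)) := by
      refine Finset.sum_le_sum fun a ha => ?_
      rw [hit_h hm (Finset.mem_erase.1 ha).1]
      set x := L.p a / L.p o with hx
      have hx0 : 0 ≤ x := hit_xnn hm a
      rw [div_mul_div_comm, le_div_iff₀ (by positivity)]
      have : 0 ≤ x ^ 4 * (3 + 2 * x) := by positivity
      nlinarith
    rw [Finset.sum_sub_distrib, ← Finset.mul_sum, ← hit_rr] at h3
    have h4 := hit_cube hm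
    linarith
  have hB : ∑ x ∈ (univ.erase o).sigma (fun a => (univ.erase o).erase a),
      (∑ A, lam L o A * ind (x.1 ∈ A ∧ x.2 ∈ A)) * (∑ B, lam L o B * ind (x.1 ∈ B ∧ x.2 ∈ B)) ≤
      4 * rr L o ^ 2 := by
    have h3 : ∀ x ∈ (univ.erase o).sigma (fun a => (univ.erase o).erase a),
        (∑ A, lam L o A * ind (x.1 ∈ A ∧ x.2 ∈ A)) * (∑ B, lam L o B * ind (x.1 ∈ B ∧ x.2 ∈ B)) ≤
        4 * ((L.p x.1 / L.p o) ^ 2 * (L.p x.2 / L.p o) ^ 2) := by
      intro x hx
      obtain ⟨hx1, hx2⟩ := Finset.mem_sigma.1 hx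
      have h5 := lam_hit2 (L := L) hm (Finset.mem_erase.1 hx1).1
        (Finset.mem_erase.1 (Finset.mem_erase.1 hx2).2).1 (Finset.mem_erase.1 hx2).1.symm
      have h6 : 0 ≤ ∑ A, lam L o A * ind (x.1 ∈ A ∧ x.2 ∈ A) :=
        Finset.sum_nonneg fun A _ => mul_nonneg (lam_nonneg A) (ind_nonneg _)
      calc _ ≤ (2 * (L.p x.1 / L.p o) * (L.p x.2 / L.p o)) *
            (2 * (L.p x.1 / L.p o) * (L.p x.2 / L.p o)) :=
            mul_le_mul h5 h5 h6 (h6.trans h5)
        _ = _ := by ring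
    refine (Finset.sum_le_sum h3).trans ?_
    rw [Finset.sum_sigma, hit_rr, pow_two, Finset.sum_mul_sum, Finset.mul_sum]
    refine Finset.sum_le_sum fun a _ => ?_
    rw [Finset.mul_sum]
    exact Finset.sum_le_sum_of_subset_of_nonneg (Finset.erase_subset _ _)
      (fun b _ _ => by positivity)
  have h7 := hit_rr_sq hm h1
  linarith

private theorem hit_tsum3 {ι β : Type} [Fintype β] (s : Finset ι) (f g k : β → ℝ)
    (u v w : ι → β → ℝ) :
    ∑ A, ∑ B, ∑ C, f A * g B * k C * ∑ a ∈ s, u a A * v a B * w a C =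
      ∑ a ∈ s, (∑ A, f A * u a A) * (∑ B, g B * v a B) * (∑ C, k C * w a C) := by
  have h1 : ∀ A B : β, ∑ C, f A * g B * k C * ∑ a ∈ s, u a A * v a B * w a C =
      f A * g B * ∑ a ∈ s, u a A * (v a B * ∑ C, k C * w a C) := by
    intro A B
    simp_rw [Finset.mul_sum]
    rw [Finset.sum_comm]
    refine Finset.sum_congr rfl fun a _ => Finset.sum_congr rfl fun C _ => ?_
    ring
  simp_rw [h1]
  rw [hit_dsum]
  refine Finset.sum_congr rfl fun a _ => ?_
  rw [mul_assoc]
  congr 1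
  rw [Finset.sum_mul]
  refine Finset.sum_congr rfl fun B _ => ?_
  ring

private theorem hit_k_eq (hm : 0 < L.p o) : (wmd hm : Md (Finset α)).k =
    ∑ A : Finset α, ∑ B : Finset α, ∑ C : Finset α,
      lam L o A * lam L o B * lam L o C * ind (mt A B ∧ mt A C) := rfl

/-- Proof: union bound over the two letters `a`, `b` (common letters of the first set with the second and third one): for
`a = b` at most `∑ (p a / m)^3`, for `a ≠ b` at most `∑ 2 (p a / m)^2 (p b / m)^2`. -/
theorem k_le (hm : 0 < L.p o) (h1 : rr L o ≤ 1) :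
    (wmd hm : Md (Finset α)).k ≤ 3 * (rr L o * Real.sqrt (rr L o)) := by
  rw [hit_k_eq]
  have hb : ∑ A : Finset α, ∑ B : Finset α, ∑ C : Finset α,
      lam L o A * lam L o B * lam L o C * ind (mt A B ∧ mt A C) ≤
      ∑ A : Finset α, ∑ B : Finset α, ∑ C : Finset α,
      lam L o A * lam L o B * lam L o C * ∑ x ∈ (univ.erase o) ×ˢ (univ.erase o),
        ind (x.1 ∈ A ∧ x.2 ∈ A) * ind (x.1 ∈ B) * ind (x.2 ∈ C) := by
    refine Finset.sum_le_sum fun A _ => Finset.sum_le_sum fun B _ =>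
      Finset.sum_le_sum fun C _ => ?_
    by_cases hA : o ∈ A
    · rw [hit_lam_o hA]; simp
    · refine mul_le_mul_of_nonneg_left ?_
        (mul_nonneg (mul_nonneg (lam_nonneg A) (lam_nonneg B)) (lam_nonneg C))
      rw [hit_ind_and]
      have h3 := hit_union (o := o) (B := B) hA
      have h4 := hit_union (o := o) (B := C) hA
      refine (mul_le_mul h3 h4 (ind_nonneg _) ((ind_nonneg _).trans h3)).trans (le_of_eq ?_)
      rw [Finset.sum_mul_sum, Finset.sum_product]
      refine Finset.sum_congr rfl fun a _ => Finset.sum_congr rfl fun b _ => ?_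
      rw [hit_ind_and]
      ring
  refine hb.trans ?_
  rw [hit_tsum3, Finset.sum_product]
  have h3 : ∀ a ∈ univ.erase o, ∑ b ∈ univ.erase o,
      (∑ A, lam L o A * ind (a ∈ A ∧ b ∈ A)) * (∑ B, lam L o B * ind (a ∈ B)) *
        (∑ C, lam L o C * ind (b ∈ C)) ≤
      (L.p a / L.p o) ^ 3 + ∑ b ∈ univ.erase o,
        2 * ((L.p a / L.p o) ^ 2 * (L.p b / L.p o) ^ 2) := by
    intro a ha
    have hao := (Finset.mem_erase.1 ha).1
    have ha1 := hit_h_le hm hao
    have ha0 := hit_h_nn (L := L) (o := o) a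
    have hxa := hit_xnn hm a
    rw [← Finset.add_sum_erase _ _ ha]
    refine add_le_add ?_ ?_
    · have h5 : ∑ A, lam L o A * ind (a ∈ A ∧ a ∈ A) = ∑ A, lam L o A * ind (a ∈ A) := by
        simp only [and_self]
      rw [h5]
      calc _ ≤ (L.p a / L.p o) * (L.p a / L.p o) * (L.p a / L.p o) := by
            gcongr
        _ = _ := by ring
    · refine (Finset.sum_le_sum (g := fun b => 2 * ((L.p a / L.p o) ^ 2 * (L.p b / L.p o) ^ 2))
        fun b hb => ?_).trans (Finset.sum_le_sum_of_subset_of_nonneg (Finset.erase_subset _ _)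
          (fun b _ _ => by positivity))
      have hbo := (Finset.mem_erase.1 (Finset.mem_erase.1 hb).2).1
      have h5 := lam_hit2 (L := L) hm hao hbo (Finset.mem_erase.1 hb).1.symm
      have hb1 := hit_h_le hm hbo
      have hb0 := hit_h_nn (L := L) (o := o) b
      have hxb := hit_xnn hm b
      have h6 : 0 ≤ ∑ A, lam L o A * ind (a ∈ A ∧ b ∈ A) :=
        Finset.sum_nonneg fun A _ => mul_nonneg (lam_nonneg A) (ind_nonneg _)
      calc _ ≤ (2 * (L.p a / L.p o) * (L.p b / L.p o)) * (L.p a / L.p o) * (L.p b / L.p o) := by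
            gcongr
        _ = _ := by ring
  refine (Finset.sum_le_sum h3).trans ?_
  rw [Finset.sum_add_distrib]
  have h4 : ∑ a ∈ univ.erase o, ∑ b ∈ univ.erase o,
      2 * ((L.p a / L.p o) ^ 2 * (L.p b / L.p o) ^ 2) = 2 * rr L o ^ 2 := by
    rw [hit_rr, pow_two, Finset.sum_mul_sum, Finset.mul_sum]
    refine Finset.sum_congr rfl fun a _ => ?_
    rw [Finset.mul_sum]
  rw [h4]
  have h5 := hit_cube hm
  have h7 := hit_rr_sq hm h1
  linarith

end NV
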