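import Pool.Agent.Lib.MP_ae6bb1_pr.NV.Words

/-! The probability that a word avoids a set of letters. -/

open Finset LCSH
open scoped ENNReal

namespace NV

variable {α : Type} [DecidableEq α] [Fintype α] {L : Law α} {o : α}

omit [Fintype α] in
private theorem hita_Z_zero {w : List α} : Z o w = 0 ↔ o ∉ w := by
  unfold Z
  exact List.count_eq_zero

omit [Fintype α] in
/-- strings with exactly one zero which end with a zero -/
private theorem hita_block {x : List α} (h1 : Z o x = 1) (hb : isB o x) :
    ∃ w : List α, o ∉ w ∧ x = w ++ [o] := by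
  rcases List.eq_nil_or_concat x with rfl | ⟨y, a, rfl⟩
  · simp [Z] at h1
  · rw [List.concat_eq_append] at hb h1 ⊢
    have ha : a = o := hb y a rfl
    subst ha
    refine ⟨y, ?_, rfl⟩
    have h2 : Z a (y ++ [a]) = Z a y + 1 := by
      unfold Z
      rw [List.count_append, List.count_singleton_self]
    rw [← hita_Z_zero (o := a)]
    omega

omit [DecidableEq α] [Fintype α] in
private theorem hita_isB (w : List α) : isB o (w ++ [o]) := by
  intro y a h
  have := congrArg List.getLast? h
  simp at this
  exact this.symm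

omit [Fintype α] in
private theorem hita_ZB {w : List α} (hw : o ∉ w) : Z o (w ++ [o]) = 1 := by
  have h2 : Z o (w ++ [o]) = Z o w + 1 := by
    unfold Z
    rw [List.count_append, List.count_singleton_self]
  rw [h2, hita_Z_zero.2 hw]

/-- the sum over the blocks with one zero -/
private theorem hita_SS (g : List α → ℝ≥0∞) :
    SS L o true 1 g = ENNReal.ofReal (L.p o) *
      ∑' w : List α, if o ∉ w then wt L w * g (w ++ [o]) else 0 := by
  classical
  unfold SS
  have hinj : Function.Injective fun w : List α => w ++ [o] := by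
    intro a b h
    exact List.append_cancel_right h
  rw [← hinj.tsum_eq, ← ENNReal.tsum_mul_left]
  · refine tsum_congr fun w => ?_
    by_cases hw : o ∈ w
    · rw [if_neg (not_not.2 hw), mul_zero, if_neg]
      rintro ⟨h1, -⟩
      have h2 : Z o (w ++ [o]) = Z o w + 1 := by
        unfold Z
        rw [List.count_append, List.count_singleton_self]
      have h3 : Z o w = 0 := by omega
      exact (hita_Z_zero.1 h3) hw
    · rw [if_pos hw, if_pos ⟨hita_ZB hw, fun _ => hita_isB w⟩, wt_append]
      have h1 : wt L [o] = ENNReal.ofReal (L.p o) := by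
        unfold wt
        simp
      rw [h1]
      ring
  · intro x hx
    rw [Function.mem_support] at hx
    have h1 : Z o x = 1 ∧ (true = true → isB o x) := by
      by_contra h
      exact hx (if_neg h)
    obtain ⟨w, -, rfl⟩ := hita_block h1.1 (h1.2 rfl)
    exact ⟨w, rfl⟩

/-- the letters of the word of a block with one zero -/
private theorem hita_ws {w : List α} (hw : o ∉ w) (F : Finset α) :
    Disjoint (ws o (w ++ [o]) 0) F ↔ ∀ a ∈ w, a ∉ F := by
  constructor
  · intro h a ha haF
    refine (Finset.disjoint_left.1 h) ?_ haF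
    rw [mem_ws]
    obtain ⟨s, t, rfl⟩ := List.append_of_mem ha
    refine ⟨fun h' => hw (h' ▸ ha), s, t ++ [o], by simp, ?_⟩
    rw [hita_Z_zero]
    intro h'
    exact hw (List.mem_append_left _ h')
  · intro h
    rw [Finset.disjoint_left]
    intro a ha
    rw [mem_ws] at ha
    obtain ⟨hao, x₀, x', hx, -⟩ := ha
    refine h a ?_
    have h1 : a ∈ w ++ [o] := by
      rw [hx]
      simp
    rw [List.mem_append, List.mem_singleton] at h1
    exact h1.resolve_right hao

/-- the law in which the letters of `F` are replaced by `o` -/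
private noncomputable def hita_law (L : Law α) (o : α) (F : Finset α) (hF : o ∉ F) : Law α where
  p := fun a => if a ∈ F then 0 else if a = o then L.p o + ∑ b ∈ F, L.p b else L.p a
  nonneg := by
    intro a
    split_ifs
    · exact le_rfl
    · exact add_nonneg (L.nonneg _) (Finset.sum_nonneg fun b _ => L.nonneg b)
    · exact L.nonneg a
  sum_one := by
    rw [← L.sum_one, ← Finset.sum_erase_add univ _ (mem_univ o),
      ← Finset.sum_erase_add univ (fun a => L.p a) (mem_univ o), if_neg hF, if_pos rfl]
    have h1 : ∑ a ∈ univ.erase o, (if a ∈ F then 0 else if a = o then L.p o + ∑ b ∈ F, L.p b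
        else L.p a) = ∑ a ∈ (univ.erase o) \ F, L.p a := by
      rw [← Finset.sum_filter_add_sum_filter_not (univ.erase o) (fun a => a ∈ F)]
      rw [Finset.sum_eq_zero, zero_add, ← Finset.sdiff_eq_filter]
      · refine Finset.sum_congr rfl fun a ha => ?_
        rw [mem_sdiff, mem_erase] at ha
        rw [if_neg ha.2, if_neg ha.1.1]
      · intro a ha
        rw [if_pos (mem_filter.1 ha).2]
    have h2 : F ⊆ univ.erase o := by
      intro a ha
      rw [mem_erase]
      exact ⟨fun h => hF (h ▸ ha), mem_univ _⟩
    have h3 := Finset.sum_sdiff (f := fun a => L.p a) h2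
    rw [h1, ← h3]
    ring

private theorem hita_wt (F : Finset α) (hF : o ∉ F) (w : List α) (hw : o ∉ w) :
    wt (hita_law L o F hF) w = if ∀ a ∈ w, a ∉ F then wt L w else 0 := by
  induction w with
  | nil => simp [wt]
  | cons b w ih =>
    rw [List.mem_cons, not_or] at hw
    rw [wt_cons, ih hw.2]
    by_cases hb : b ∈ F
    · have : (hita_law L o F hF).p b = 0 := if_pos hb
      rw [if_neg (fun h : ∀ a ∈ b :: w, a ∉ F => h b List.mem_cons_self hb), this,
        ENNReal.ofReal_zero, zero_mul]
    · have hbo : b ≠ o := fun h => hw.1 h.symm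
      have h1 : (hita_law L o F hF).p b = L.p b := by
        unfold hita_law
        simp only
        rw [if_neg hb, if_neg hbo]
      rw [h1, wt_cons]
      by_cases hw2 : ∀ a ∈ w, a ∉ F
      · rw [if_pos hw2, if_pos]
        intro a ha
        rcases List.mem_cons.1 ha with rfl | ha
        · exact hb
        · exact hw2 a ha
      · rw [if_neg hw2, if_neg, mul_zero]
        intro h
        exact hw2 fun a ha => h a (List.mem_cons_of_mem _ ha)

/-- A word avoids the set `F` of letters with probability `m / (m + p(F))`. Proof: the weights of the words without letters of `F ∪ {o}` sum to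
`1 / (m + p(F))`. -/
theorem lam_avoid (hm : 0 < L.p o) (F : Finset α) (hF : o ∉ F) :
    ∑ A, lam L o A * ind (Disjoint A F) = L.p o / (L.p o + ∑ a ∈ F, L.p a) := by
  classical
  have hF0 : 0 ≤ ∑ a ∈ F, L.p a := Finset.sum_nonneg fun b _ => L.nonneg b
  have hpos : 0 < L.p o + ∑ a ∈ F, L.p a := by linarith
  have hl : (hita_law L o F hF).p o = L.p o + ∑ a ∈ F, L.p a := by
    unfold hita_law
    simp only [if_neg hF, if_true]
  have h1 := SS_one (hita_law L o F hF) o (by rw [hl]; exact hpos) false 0
  have h2 : SS (hita_law L o F hF) o false 0 (fun _ => 1) =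
      ∑' w : List α, if o ∉ w then wt L w * (if Disjoint (ws o (w ++ [o]) 0) F then 1 else 0)
        else 0 := by
    unfold SS
    refine tsum_congr fun w => ?_
    by_cases hw : o ∈ w
    · rw [if_neg (not_not.2 hw), if_neg]
      rintro ⟨h, -⟩
      exact (hita_Z_zero.1 h) hw
    · rw [if_pos hw, if_pos ⟨hita_Z_zero.2 hw, fun h => by simp at h⟩, hita_wt F hF w hw]
      by_cases h3 : ∀ a ∈ w, a ∉ F
      · rw [if_pos h3, if_pos ((hita_ws hw F).2 h3)]
      · rw [if_neg h3, if_neg (fun h => h3 ((hita_ws hw F).1 h)), zero_mul, mul_zero]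
  have h3 := hita_SS (L := L) (o := o) (fun x => if Disjoint (ws o x 0) F then 1 else 0)
  rw [← h2, h1] at h3
  have h4 : Ms (hita_law L o F hF) o false = (ENNReal.ofReal (L.p o + ∑ a ∈ F, L.p a))⁻¹ := by
    unfold Ms
    rw [hl]
    simp
  rw [h4] at h3
  have h5 : (SS L o true 1 fun x => if Disjoint (ws o x 0) F then (1 : ℝ≥0∞) else 0) =
      ENNReal.ofReal (∑ A, lam L o A * ind (Disjoint A F)) := by
    rw [ENNReal.ofReal_sum_of_nonneg]
    · have h6 : ∀ A : Finset α, ENNReal.ofReal (lam L o A * ind (Disjoint A F)) =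
          SS L o true 1 fun x => (if Disjoint A F then (1 : ℝ≥0∞) else 0) *
            (if ws o x 0 = A then 1 else 0) := by
        intro A
        rw [SS_const_mul, ← lam_eq hm A]
        by_cases h : Disjoint A F
        · rw [if_pos h, one_mul]
          unfold ind
          rw [if_pos h, mul_one]
        · rw [if_neg h, zero_mul]
          unfold ind
          rw [if_neg h, mul_zero, ENNReal.ofReal_zero]
      have h8 : ∑ A : Finset α, ENNReal.ofReal (lam L o A * ind (Disjoint A F)) =
          SS L o true 1 fun x => ∑' A : Finset α, (if Disjoint A F then (1 : ℝ≥0∞) else 0) *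
            (if ws o x 0 = A then 1 else 0) := by
        rw [SS_tsum, tsum_fintype]
        exact Finset.sum_congr rfl fun A _ => h6 A
      rw [h8]
      unfold SS
      refine tsum_congr fun x => ?_
      by_cases hx : Z o x = 1 ∧ (true = true → isB o x)
      · rw [if_pos hx, if_pos hx]
        congr 1
        symm
        change (∑' i : Finset α, (if Disjoint i F then (1 : ℝ≥0∞) else 0) *
          if ws o x 0 = i then 1 else 0) = if Disjoint (ws o x 0) F then (1 : ℝ≥0∞) else 0
        rw [tsum_fintype, Finset.sum_eq_single (ws o x 0)]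
        · rw [if_pos rfl, mul_one]
        · intro A _ hA
          rw [if_neg (Ne.symm hA), mul_zero]
        · intro h
          exact absurd (mem_univ _) h
      · rw [if_neg hx, if_neg hx]
    · intro A _
      refine mul_nonneg (lam_nonneg A) ?_
      unfold ind
      split_ifs
      · exact zero_le_one
      · exact le_rfl
  rw [h5] at h3
  have h6 : 0 ≤ ∑ A, lam L o A * ind (Disjoint A F) := by
    refine Finset.sum_nonneg fun A _ => mul_nonneg (lam_nonneg A) ?_
    unfold ind
    split_ifs
    · exact zero_le_one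
    · exact le_rfl
  have h7 := congrArg ENNReal.toReal h3
  rw [ENNReal.toReal_ofReal h6, ENNReal.toReal_mul, ENNReal.toReal_ofReal hm.le,
    ENNReal.toReal_inv, ENNReal.toReal_ofReal hpos.le] at h7
  rw [h7]
  rfl

private theorem hita_ind_not (E : Prop) : ind E = 1 - ind (¬ E) := by
  unfold ind
  by_cases h : E
  · rw [if_pos h, if_neg (not_not.2 h)]
    ring
  · rw [if_neg h, if_pos h]
    ring

/-- Proof: `lam_avoid` for `{a}`. -/
theorem lam_hit (hm : 0 < L.p o) {a : α} (ha : a ≠ o) :
    ∑ A, lam L o A * ind (a ∈ A) = L.p a / (L.p o + L.p a) := by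
  have h1 := lam_avoid hm {a} (by rw [mem_singleton]; exact fun h => ha h.symm)
  rw [sum_singleton] at h1
  have h2 : ∑ A, lam L o A * ind (a ∈ A) = ∑ A, lam L o A -
      ∑ A, lam L o A * ind (Disjoint A {a}) := by
    rw [← Finset.sum_sub_distrib]
    refine Finset.sum_congr rfl fun A _ => ?_
    rw [hita_ind_not (a ∈ A)]
    have : (¬ a ∈ A) = Disjoint A {a} := by
      rw [Finset.disjoint_singleton_right]
    rw [this]
    ring
  have h3 : 0 < L.p o + L.p a := by linarith [L.nonneg a]
  rw [h2, lam_sum hm, h1]
  field_simp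
  ring

/-- Proof: inclusion and exclusion, `lam_avoid` for `{a}`, `{b}`, `{a, b}`: with `x = p a / m`, `y = p b / m` the probability is
`1 - 1/(1+x) - 1/(1+y) + 1/(1+x+y) ≤ 2 x y`. -/
theorem lam_hit2 (hm : 0 < L.p o) {a b : α} (ha : a ≠ o) (hb : b ≠ o) (hab : a ≠ b) :
    ∑ A, lam L o A * ind (a ∈ A ∧ b ∈ A) ≤ 2 * (L.p a / L.p o) * (L.p b / L.p o) := by
  have h1 := lam_avoid hm {a} (by rw [mem_singleton]; exact fun h => ha h.symm)
  have h2 := lam_avoid hm {b} (by rw [mem_singleton]; exact fun h => hb h.symm)
  have h3 := lam_avoid hm {a, b} (by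
    rw [mem_insert, mem_singleton, not_or]
    exact ⟨fun h => ha h.symm, fun h => hb h.symm⟩)
  rw [sum_singleton] at h1 h2
  rw [sum_pair hab] at h3
  have h4 : ∑ A, lam L o A * ind (a ∈ A ∧ b ∈ A) = ∑ A, lam L o A -
      ∑ A, lam L o A * ind (Disjoint A {a}) - ∑ A, lam L o A * ind (Disjoint A {b}) +
      ∑ A, lam L o A * ind (Disjoint A {a, b}) := by
    rw [← Finset.sum_sub_distrib, ← Finset.sum_sub_distrib, ← Finset.sum_add_distrib]
    refine Finset.sum_congr rfl fun A _ => ?_
    have e1 : Disjoint A {a} = (a ∉ A) := by rw [Finset.disjoint_singleton_right]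
    have e2 : Disjoint A {b} = (b ∉ A) := by rw [Finset.disjoint_singleton_right]
    have e3 : Disjoint A {a, b} = (a ∉ A ∧ b ∉ A) := by
      rw [Finset.disjoint_insert_right, Finset.disjoint_singleton_right]
    rw [e1, e2, e3]
    unfold ind
    by_cases h5 : a ∈ A <;> by_cases h6 : b ∈ A <;> simp [h5, h6]
  rw [h4, lam_sum hm, h1, h2, h3]
  have hpa := L.nonneg a
  have hpb := L.nonneg b
  set m := L.p o
  set x := L.p a
  set y := L.p b
  have hx : 0 < m + x := by linarith
  have hy : 0 < m + y := by linarith
  have hxy : 0 < m + (x + y) := by linarith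
  have key : 1 - m / (m + x) - m / (m + y) + m / (m + (x + y)) =
      x * y * (2 * m + x + y) / ((m + x) * (m + y) * (m + (x + y))) := by
    field_simp
    ring
  rw [key]
  have e : 2 * (x / m) * (y / m) = 2 * (x * y) / (m * m) := by
    field_simp
  rw [e, div_le_div_iff₀ (by positivity) (by positivity)]
  have h7 : 0 ≤ x * y := mul_nonneg hpa hpb
  have h8 : (2 * m + x + y) * (m * m) ≤ 2 * ((m + x) * (m + y) * (m + (x + y))) := by
    nlinarith [mul_nonneg hpa hpb, mul_nonneg hm.le hpa, mul_nonneg hm.le hpb,
      mul_nonneg (mul_nonneg hm.le hpa) hpa, mul_nonneg (mul_nonneg hm.le hpb) hpb,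
      mul_nonneg (mul_nonneg hm.le hm.le) hpa, mul_nonneg (mul_nonneg hm.le hm.le) hpb,
      mul_nonneg (mul_nonneg hm.le hpa) hpb, mul_nonneg h7 hpa, mul_nonneg h7 hpb]
  calc x * y * (2 * m + x + y) * (m * m) = x * y * ((2 * m + x + y) * (m * m)) := by ring
    _ ≤ x * y * (2 * ((m + x) * (m + y) * (m + (x + y)))) := mul_le_mul_of_nonneg_left h8 h7
    _ = 2 * (x * y) * ((m + x) * (m + y) * (m + (x + y))) := by ring

end NV
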