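import Pool.Agent.Lib.MP_ae6bb1_pr.NV.Defs

/-! Comparison of product laws. -/

open Finset LCSH

namespace NV

/-- change of the law of one coordinate -/
theorem hyb_resample {ι β : Type} [Fintype ι] [DecidableEq ι] [Fintype β] {v : ι → β → ℝ}
    (hv : IsW v) (i : ι) (q : β → ℝ) (f : (ι → β) → ℝ) :
    PE (Function.update v i q) f = PE v (fun ω => ∑ b, q b * f (Function.update ω i b)) := by
  have h1 : PE (Function.update v i q) f =
      ∑ p : (ι → β) × β, (∏ j, v j (Function.update p.1 i p.2 j)) * q (p.1 i) * f p.1 := by
    unfold PE
    rw [Fintype.sum_prod_type]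
    refine sum_congr rfl fun ω _ => ?_
    simp only
    have h2 : ∀ b : β, ∏ j, v j (Function.update ω i b j) =
        v i b * ∏ j ∈ univ.erase i, v j (ω j) := by
      intro b
      rw [← Finset.mul_prod_erase univ (fun j => v j (Function.update ω i b j)) (mem_univ i),
        Function.update_self]
      congr 1
      exact prod_congr rfl fun x hx => by rw [Function.update_of_ne (ne_of_mem_erase hx)]
    have h3 : ∏ j, Function.update v i q j (ω j) = q (ω i) * ∏ j ∈ univ.erase i, v j (ω j) := by
      rw [← Finset.mul_prod_erase univ (fun j => Function.update v i q j (ω j)) (mem_univ i),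
        Function.update_self]
      congr 1
      exact prod_congr rfl fun x hx => by rw [Function.update_of_ne (ne_of_mem_erase hx)]
    rw [h3]
    have h4 : ∀ b : β, (∏ j, v j (Function.update ω i b j)) * q (ω i) * f ω =
        v i b * (q (ω i) * (∏ j ∈ univ.erase i, v j (ω j)) * f ω) := by
      intro b
      rw [h2]
      ring
    rw [sum_congr rfl fun b _ => h4 b, ← Finset.sum_mul, hv.sum_one i, one_mul]
  have h2 : PE v (fun ω => ∑ b, q b * f (Function.update ω i b)) =
      ∑ p : (ι → β) × β, (∏ j, v j (p.1 j)) * q p.2 * f (Function.update p.1 i p.2) := by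
    unfold PE
    rw [Fintype.sum_prod_type]
    refine sum_congr rfl fun ω _ => ?_
    simp only
    rw [Finset.mul_sum]
    refine sum_congr rfl fun b _ => ?_
    ring
  rw [h1, h2]
  have hinv : Function.Involutive
      (fun p : (ι → β) × β => ((Function.update p.1 i p.2, p.1 i) : (ι → β) × β)) := by
    rintro ⟨ω, b⟩
    simp
  rw [← Equiv.sum_comp (hinv.toPerm _)]
  refine sum_congr rfl fun p _ => ?_
  simp only [Function.Involutive.coe_toPerm, Function.update_idem, Function.update_self,
    Function.update_eq_self]

theorem hyb_isW {ι β : Type} [DecidableEq ι] [Fintype β] {v : ι → β → ℝ}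
    (hv : IsW v) (i : ι) (q : β → ℝ) (h0 : ∀ b, 0 ≤ q b) (h1 : ∑ b, q b = 1) :
    IsW (Function.update v i q) := by
  constructor
  · intro j b
    by_cases hj : j = i
    · subst hj
      rw [Function.update_self]
      exact h0 b
    · rw [Function.update_of_ne hj]
      exact hv.nonneg j b
  · intro j
    by_cases hj : j = i
    · subst hj
      rw [Function.update_self]
      exact h1
    · rw [Function.update_of_ne hj]
      exact hv.sum_one j

theorem hyb_step {ι β : Type} [Fintype ι] [DecidableEq ι] [Fintype β] {v : ι → β → ℝ}
    (hv : IsW v) (i : ι) (q : β → ℝ) (h1 : ∑ b, q b = 1)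
    (f : (ι → β) → ℝ) (hf : ∀ ω i b, |f ω - f (Function.update ω i b)| ≤ 1) :
    |PE v f - PE (Function.update v i q) f| ≤ ∑ b, |v i b - q b| := by
  rw [hyb_resample hv i q f, PE_resample hv i f, ← PE_sub]
  refine (abs_PE_le hv _).trans ?_
  refine PE_le_of_le hv fun ω => ?_
  have h2 : ∑ b, v i b * f (Function.update ω i b) - ∑ b, q b * f (Function.update ω i b) =
      ∑ b, (v i b - q b) * (f (Function.update ω i b) - f ω) := by
    have h3 : ∑ b, (v i b - q b) * f ω = 0 := by
      rw [← Finset.sum_mul, Finset.sum_sub_distrib, hv.sum_one i, h1, sub_self, zero_mul]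
    have h4 : ∑ b, (v i b - q b) * (f (Function.update ω i b) - f ω) =
        ∑ b, v i b * f (Function.update ω i b) - ∑ b, q b * f (Function.update ω i b) -
          ∑ b, (v i b - q b) * f ω := by
      rw [← Finset.sum_sub_distrib, ← Finset.sum_sub_distrib]
      exact sum_congr rfl fun b _ => by ring
    rw [h4, h3, sub_zero]
  rw [h2]
  refine (Finset.abs_sum_le_sum_abs _ _).trans (Finset.sum_le_sum fun b _ => ?_)
  rw [abs_mul]
  have h3 : |f (Function.update ω i b) - f ω| ≤ 1 := by
    rw [abs_sub_comm]
    exact hf ω i b
  exact mul_le_of_le_one_right (abs_nonneg _) h3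

/-- Comparison of product laws. Proof: change the laws of the coordinates one after the other (`Finset.induction_on` over
the set of the changed coordinates, `PE_resample`); in each step the difference is
`E ∑_b (w i b - w' i b) (f (update ω i b) - f ω)`. -/
theorem PE_hybrid {ι β : Type} [Fintype ι] [DecidableEq ι] [Fintype β] {w w' : ι → β → ℝ}
    (hw : IsW w) (hw' : IsW w') (f : (ι → β) → ℝ)
    (hf : ∀ ω i b, |f ω - f (Function.update ω i b)| ≤ 1) :
    |PE w f - PE w' f| ≤ ∑ i, ∑ b, |w i b - w' i b| := by
  have key : ∀ s : Finset ι, IsW (fun i => if i ∈ s then w' i else w i) ∧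
      |PE w f - PE (fun i => if i ∈ s then w' i else w i) f| ≤ ∑ i ∈ s, ∑ b, |w i b - w' i b| := by
    intro s
    induction s using Finset.induction_on with
    | empty =>
      simp only [Finset.notMem_empty, if_false, Finset.sum_empty, sub_self, abs_zero, le_refl,
        and_true]
      exact hw
    | insert i s hi ih =>
      obtain ⟨ih1, ih2⟩ := ih
      have he : (fun j => if j ∈ insert i s then w' j else w j) =
          Function.update (fun j => if j ∈ s then w' j else w j) i (w' i) := by
        funext j
        by_cases hj : j = i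
        · subst hj
          rw [Function.update_self, if_pos (Finset.mem_insert_self _ _)]
        · rw [Function.update_of_ne hj]
          have : j ∈ insert i s ↔ j ∈ s := by
            rw [Finset.mem_insert]
            exact ⟨fun h => h.resolve_left hj, Or.inr⟩
          by_cases hs : j ∈ s
          · rw [if_pos (this.2 hs), if_pos hs]
          · rw [if_neg (fun h => hs (this.1 h)), if_neg hs]
      rw [he]
      refine ⟨hyb_isW ih1 i (w' i) (hw'.nonneg i) (hw'.sum_one i), ?_⟩
      have h1 := hyb_step ih1 i (w' i) (hw'.sum_one i) f hf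
      rw [Finset.sum_insert hi]
      have h2 : ∀ b, |(if i ∈ s then w' i else w i) b - w' i b| = |w i b - w' i b| := by
        intro b
        rw [if_neg hi]
      simp only [h2] at h1
      have h3 := abs_sub_le (PE w f) (PE (fun i => if i ∈ s then w' i else w i) f)
        (PE (Function.update (fun j => if j ∈ s then w' j else w j) i (w' i)) f)
      linarith
  have h := (key univ).2
  simpa using h

end NV
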