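import Pool.Agent.Lib.MP_ae6bb1_pr.NV.MassB

/-! The length of a block. -/

open Finset LCSH
open scoped ENNReal

namespace NV

variable {α : Type} [DecidableEq α] [Fintype α] {L : Law α} {o : α}

/-! ### Auxiliary facts -/

omit [DecidableEq α] in
/-- A sum over lists, by the first letter. -/
theorem LbA_tsum_list (F : List α → ℝ≥0∞) :
    ∑' x, F x = F [] + ∑ a, ∑' y : List α, F (a :: y) := by
  classical
  have h1 : ∀ x : List α, F x = (if x = [] then F x else 0) + (if x = [] then 0 else F x) := by
    intro x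
    by_cases hx : x = [] <;> simp [hx]
  rw [tsum_congr h1, ENNReal.tsum_add]
  congr 1
  · rw [tsum_eq_single []]
    · simp
    · intro x hx
      rw [if_neg hx]
  · have hinj : Function.Injective (fun p : α × List α => p.1 :: p.2) := by
      rintro ⟨a, y⟩ ⟨b, z⟩ h
      simp only [List.cons.injEq] at h
      exact Prod.ext h.1 h.2
    rw [← hinj.tsum_eq (f := fun x : List α => if x = [] then 0 else F x)]
    · rw [ENNReal.tsum_prod', tsum_fintype]
      refine Finset.sum_congr rfl fun a _ => tsum_congr fun y => ?_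
      exact if_neg (List.cons_ne_nil a y)
    · intro x hx
      cases x with
      | nil => exact absurd (if_pos rfl) hx
      | cons a y => exact ⟨(a, y), rfl⟩

theorem LbA_isB_nil : isB o ([] : List α) := by
  intro y a h
  simp at h

theorem LbA_isB_cons {a : α} {y : List α} (hy : y ≠ []) : isB o (a :: y) ↔ isB o y := by
  constructor
  · intro h z c hz
    exact h (a :: z) c (by rw [hz, List.cons_append])
  · intro h z c hz
    cases z with
    | nil =>
      rw [List.nil_append, List.cons.injEq] at hz
      exact absurd hz.2 hy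
    | cons b z =>
      rw [List.cons_append, List.cons.injEq] at hz
      exact h z c hz.2

theorem LbA_eq_nil {x : List α} (h0 : Z o x = 0) (h : isB o x) : x = [] := by
  by_contra hx
  obtain ⟨y, a, rfl⟩ : ∃ y a, x = y ++ [a] := ⟨x.dropLast, x.getLast hx, (List.dropLast_concat_getLast hx).symm⟩
  have ha : a = o := h y a rfl
  subst ha
  unfold Z at h0
  rw [List.count_append, List.count_singleton_self] at h0
  omega

theorem LbA_wt_nil : wt L ([] : List α) = 1 := rfl

theorem LbA_SS_zero (g : List α → ℝ≥0∞) : SS L o true 0 g = g [] := by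
  classical
  unfold SS
  rw [tsum_eq_single []]
  · rw [if_pos ⟨rfl, fun _ => LbA_isB_nil⟩, LbA_wt_nil, one_mul]
  · intro x hx
    rw [if_neg]
    rintro ⟨h0, h1⟩
    exact hx (LbA_eq_nil h0 (h1 rfl))

/-- Blocks with one zero, by the first letter. -/
theorem LbA_SS_cons (g : List α → ℝ≥0∞) :
    SS L o true 1 g = ENNReal.ofReal (L.p o) * g [o] +
      ∑ a ∈ univ.erase o, ENNReal.ofReal (L.p a) * SS L o true 1 (fun y => g (a :: y)) := by
  classical
  have h0 : SS L o true 1 g = ∑ a, ∑' y : List α, (if Z o (a :: y) = 1 ∧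
      (true = true → isB o (a :: y)) then wt L (a :: y) * g (a :: y) else 0) := by
    unfold SS
    rw [LbA_tsum_list, if_neg (by rintro ⟨h, -⟩; simp [Z] at h), zero_add]
  rw [h0, ← Finset.add_sum_erase univ _ (Finset.mem_univ o)]
  congr 1
  · rw [tsum_eq_single []]
    · rw [if_pos, wt_cons, LbA_wt_nil, mul_one]
      refine ⟨by simp [Z], fun _ => ?_⟩
      intro z c hz
      cases z with
      | nil =>
        rw [List.nil_append, List.cons.injEq] at hz
        exact hz.1.symm
      | cons b z =>
        rw [List.cons_append, List.cons.injEq] at hz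
        simp at hz
    · intro y hy
      rw [if_neg]
      rintro ⟨h1, h2⟩
      have h3 := (LbA_isB_cons hy).1 (h2 rfl)
      unfold Z at h1
      rw [List.count_cons_self] at h1
      exact hy (LbA_eq_nil (by unfold Z; omega) h3)
  · refine Finset.sum_congr rfl fun a ha => ?_
    have hao : a ≠ o := Finset.ne_of_mem_erase ha
    unfold SS
    rw [← ENNReal.tsum_mul_left]
    refine tsum_congr fun y => ?_
    have hZ : Z o (a :: y) = Z o y := by
      unfold Z
      rw [List.count_cons_of_ne hao]
    by_cases hy : y = []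
    · subst hy
      rw [if_neg, if_neg, mul_zero]
      · rintro ⟨h1, -⟩
        simp [Z] at h1
      · rintro ⟨h1, -⟩
        rw [hZ] at h1
        simp [Z] at h1
    · rw [hZ, LbA_isB_cons hy]
      split_ifs
      · rw [wt_cons, mul_assoc]
      · rw [mul_zero]

/-- The mass of the blocks with one zero and length `j`. -/
theorem LbA_mass_len (j : ℕ) :
    SS L o true 1 (fun x => if x.length = j + 1 then 1 else 0) =
      ENNReal.ofReal (L.p o * (1 - L.p o) ^ j) := by
  classical
  have hq : ∑ a ∈ univ.erase o, ENNReal.ofReal (L.p a) = ENNReal.ofReal (1 - L.p o) := by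
    rw [← ENNReal.ofReal_sum_of_nonneg fun a _ => L.nonneg a]
    congr 1
    have := Finset.add_sum_erase univ L.p (Finset.mem_univ o)
    rw [L.sum_one] at this
    linarith
  have h1m : 0 ≤ 1 - L.p o := by
    have := Finset.single_le_sum (fun a _ => L.nonneg a) (Finset.mem_univ o)
    rw [L.sum_one] at this
    linarith
  induction j with
  | zero =>
    rw [LbA_SS_cons]
    have h2 : ∀ a ∈ univ.erase o, ENNReal.ofReal (L.p a) *
        SS L o true 1 (fun y => if (a :: y).length = 0 + 1 then 1 else 0) = 0 := by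
      intro a _
      have h3 : SS L o true 1 (fun y => if (a :: y).length = 0 + 1 then 1 else 0) = 0 := by
        unfold SS
        rw [ENNReal.tsum_eq_zero]
        intro y
        by_cases hy : y = []
        · subst hy
          rw [if_neg]
          rintro ⟨h, -⟩
          simp [Z] at h
        · have : (a :: y).length ≠ 0 + 1 := by
            rw [List.length_cons]
            have := List.length_pos_iff.2 hy
            omega
          have h4 : (fun y : List α => if (a :: y).length = 0 + 1 then (1 : ℝ≥0∞) else 0) y = 0 :=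
            if_neg this
          rw [h4, mul_zero, ite_self]
      rw [h3, mul_zero]
    rw [Finset.sum_eq_zero h2]
    simp
  | succ j ih =>
    rw [LbA_SS_cons]
    have h2 : ∀ a ∈ univ.erase o, ENNReal.ofReal (L.p a) *
        SS L o true 1 (fun y => if (a :: y).length = j + 1 + 1 then 1 else 0) =
        ENNReal.ofReal (L.p a) * ENNReal.ofReal (L.p o * (1 - L.p o) ^ j) := by
      intro a _
      rw [← ih]
      congr 2
      funext y
      simp only [List.length_cons, Nat.add_right_cancel_iff]
    rw [Finset.sum_congr rfl h2, ← Finset.sum_mul, hq, ← ENNReal.ofReal_mul h1m]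
    have h3 : ([o] : List α).length ≠ j + 1 + 1 := by simp
    rw [if_neg h3, mul_zero, zero_add]
    congr 1
    ring

/-- Sums of functions of the length over the blocks with one zero. -/
theorem LbA_fun_len (g : ℕ → ℝ≥0∞) :
    SS L o true 1 (fun x => g x.length) =
      ∑' j : ℕ, g (j + 1) * ENNReal.ofReal (L.p o * (1 - L.p o) ^ j) := by
  classical
  have h1 : SS L o true 1 (fun x => g x.length) =
      SS L o true 1 (fun x => ∑' j : ℕ, g (j + 1) * (if x.length = j + 1 then 1 else 0)) := by
    have h2 : ∀ x : List α, Z o x = 1 →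
        g x.length = ∑' j : ℕ, g (j + 1) * (if x.length = j + 1 then 1 else 0) := by
      intro x hx
      have hl : 1 ≤ x.length := by
        unfold Z at hx
        have := List.count_le_length (a := o) (l := x)
        omega
      rw [tsum_eq_single (x.length - 1)]
      · rw [if_pos (by omega), mul_one]
        congr 1
        omega
      · intro j hj
        rw [if_neg (by omega), mul_zero]
    unfold SS
    refine tsum_congr fun x => ?_
    split_ifs with h
    · exact congrArg (wt L x * ·) (h2 x h.1)
    · rfl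
  rw [h1, SS_tsum]
  refine tsum_congr fun j => ?_
  rw [SS_const_mul, LbA_mass_len]

theorem LbA_lt (hm : 0 < L.p o) : 0 ≤ 1 - L.p o ∧ ‖1 - L.p o‖ < 1 := by
  have h1m : 0 ≤ 1 - L.p o := by
    have := Finset.single_le_sum (fun a _ => L.nonneg a) (Finset.mem_univ o)
    rw [L.sum_one] at this
    linarith
  refine ⟨h1m, ?_⟩
  rw [Real.norm_of_nonneg h1m]
  linarith

/-- Mean length of a block with one zero. -/
theorem LbA_len1 (hm : 0 < L.p o) :
    SS L o true 1 (fun x => (x.length : ℝ≥0∞)) = ENNReal.ofReal (1 / L.p o) := by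
  obtain ⟨h1m, hlt⟩ := LbA_lt hm
  have hs := hasSum_choose_mul_geometric_of_norm_lt_one 1 hlt
  have hs' : HasSum (fun j : ℕ => ((j : ℝ) + 1) * (L.p o * (1 - L.p o) ^ j)) (1 / L.p o) := by
    have h1 := hs.mul_left (L.p o)
    have e1 : (fun j : ℕ => ((j : ℝ) + 1) * (L.p o * (1 - L.p o) ^ j)) =
        fun j => L.p o * (((j + 1).choose 1 : ℕ) * (1 - L.p o) ^ j) := by
      funext j
      rw [Nat.choose_one_right]
      push_cast
      ring
    have e2 : 1 / L.p o = L.p o * (1 / (1 - (1 - L.p o)) ^ (1 + 1)) := by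
      rw [sub_sub_cancel]
      field_simp
    rw [e1, e2]
    exact h1
  rw [LbA_fun_len (fun n => (n : ℝ≥0∞)), ← hs'.tsum_eq, ENNReal.ofReal_tsum_of_nonneg _ hs'.summable]
  · refine tsum_congr fun j => ?_
    rw [ENNReal.ofReal_mul (p := (j : ℝ) + 1) (by positivity), ← Nat.cast_add_one,
      ENNReal.ofReal_natCast]
  · intro j
    positivity

/-- Second moment of the length of a block with one zero. -/
theorem LbA_len1sq (hm : 0 < L.p o) :
    SS L o true 1 (fun x => (x.length : ℝ≥0∞) ^ 2) =
      ENNReal.ofReal ((2 - L.p o) / L.p o ^ 2) := by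
  obtain ⟨h1m, hlt⟩ := LbA_lt hm
  have hs1 := hasSum_choose_mul_geometric_of_norm_lt_one 1 hlt
  have hs2 := hasSum_choose_mul_geometric_of_norm_lt_one 2 hlt
  have hs' : HasSum (fun j : ℕ => ((j : ℝ) + 1) ^ 2 * (L.p o * (1 - L.p o) ^ j))
      ((2 - L.p o) / L.p o ^ 2) := by
    have h3 := ((hs2.mul_left 2).sub hs1).mul_left (L.p o)
    have e1 : (fun j : ℕ => ((j : ℝ) + 1) ^ 2 * (L.p o * (1 - L.p o) ^ j)) =
        fun j => L.p o * (2 * (((j + 2).choose 2 : ℕ) * (1 - L.p o) ^ j) -
          ((j + 1).choose 1 : ℕ) * (1 - L.p o) ^ j) := by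
      funext j
      rw [Nat.choose_one_right]
      have h4 : (((j + 2).choose 2 : ℕ) : ℝ) = ((j : ℝ) + 2) * (j + 1) / 2 := by
        rw [Nat.cast_choose_two]
        push_cast
        ring
      rw [h4]
      push_cast
      ring
    have e2 : (2 - L.p o) / L.p o ^ 2 = L.p o * (2 * (1 / (1 - (1 - L.p o)) ^ (2 + 1)) -
        1 / (1 - (1 - L.p o)) ^ (1 + 1)) := by
      rw [sub_sub_cancel]
      field_simp
      ring
    rw [e1, e2]
    exact h3
  rw [LbA_fun_len (fun n => (n : ℝ≥0∞) ^ 2), ← hs'.tsum_eq,
    ENNReal.ofReal_tsum_of_nonneg _ hs'.summable]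
  · refine tsum_congr fun j => ?_
    rw [ENNReal.ofReal_mul (p := ((j : ℝ) + 1) ^ 2) (by positivity), ← Nat.cast_add_one,
      ENNReal.ofReal_pow (by positivity), ENNReal.ofReal_natCast]
  · intro j
    positivity

/-- Mean length of a block. Proof: `SS_append` and induction: `E |x| = n E |x₁|`, `x₁ = w ++ [o]`, `E |x₁| = ∑_j m (1 - m)^j (j + 1) = 1 / m`. -/
theorem SS_len (hm : 0 < L.p o) (n : ℕ) :
    SS L o true n (fun x => (x.length : ℝ≥0∞)) = ENNReal.ofReal (n / L.p o) := by
  induction n with
  | zero =>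
    rw [LbA_SS_zero]
    simp
  | succ n ih =>
    rw [SS_append]
    have h1 : ∀ x : List α, SS L o true 1 (fun x' => ((x ++ x').length : ℝ≥0∞)) =
        (x.length : ℝ≥0∞) + ENNReal.ofReal (1 / L.p o) * 1 := by
      intro x
      have h2 : (fun x' : List α => ((x ++ x').length : ℝ≥0∞)) =
          fun x' => (x.length : ℝ≥0∞) * 1 + (x'.length : ℝ≥0∞) := by
        funext x'
        rw [List.length_append, Nat.cast_add, mul_one]
      rw [h2, SS_add, SS_const_mul, SS_one L o hm, LbA_len1 hm]
      simp [Ms]
    simp only [h1]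
    rw [SS_add, ih, SS_const_mul, SS_one L o hm]
    have h3 : Ms L o true = 1 := rfl
    rw [h3, mul_one, ← ENNReal.ofReal_add (by positivity) (by positivity)]
    congr 1
    push_cast
    ring

/-- Second moment of the length. Proof: `E |x₁|^2 = (2 - m) / m^2`, induction with `SS_append`:
`E |x|^2 = n^2 / m^2 + n (1 - m) / m^2`. -/
theorem SS_len2 (hm : 0 < L.p o) (n : ℕ) :
    SS L o true n (fun x => (x.length : ℝ≥0∞) ^ 2) =
      ENNReal.ofReal ((n : ℝ) ^ 2 / L.p o ^ 2 + n * (1 - L.p o) / L.p o ^ 2) := by
  obtain ⟨h1m, -⟩ := LbA_lt hm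
  have h2m : 0 ≤ 2 - L.p o := by linarith
  induction n with
  | zero =>
    rw [LbA_SS_zero]
    simp
  | succ n ih =>
    rw [SS_append]
    have h3 : Ms L o true = 1 := rfl
    have h1 : ∀ x : List α, SS L o true 1 (fun x' => ((x ++ x').length : ℝ≥0∞) ^ 2) =
        (x.length : ℝ≥0∞) ^ 2 + (ENNReal.ofReal (2 / L.p o) * (x.length : ℝ≥0∞) +
          ENNReal.ofReal ((2 - L.p o) / L.p o ^ 2) * 1) := by
      intro x
      have h2 : (fun x' : List α => ((x ++ x').length : ℝ≥0∞) ^ 2) =
          fun x' => (x.length : ℝ≥0∞) ^ 2 * 1 + (2 * (x.length : ℝ≥0∞) * (x'.length : ℝ≥0∞) +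
            (x'.length : ℝ≥0∞) ^ 2) := by
        funext x'
        rw [List.length_append, Nat.cast_add, mul_one]
        ring
      rw [h2, SS_add, SS_const_mul, SS_one L o hm, SS_add, SS_const_mul, LbA_len1 hm,
        LbA_len1sq hm, h3, mul_one, mul_one]
      congr 2
      have h4 : ENNReal.ofReal (2 / L.p o) = 2 * ENNReal.ofReal (1 / L.p o) := by
        rw [← ENNReal.ofReal_ofNat, ← ENNReal.ofReal_mul (by norm_num)]
        congr 1
        ring
      rw [h4]
      ring
    simp only [h1]
    rw [SS_add, ih, SS_add, SS_const_mul, SS_const_mul, SS_one L o hm, SS_len hm, h3, mul_one,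
      ← ENNReal.ofReal_mul (by positivity), ← ENNReal.ofReal_add (by positivity) (by positivity),
      ← ENNReal.ofReal_add (by positivity) (by positivity)]
    congr 1
    push_cast
    field_simp
    ring

end NV
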