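import Pool.Agent.Lib.MP_ae6bb1_pr.NV.Lc

/-! `lc` and `lp`. -/

open Finset LCSH
open scoped ENNReal

namespace NV

variable {α : Type} [DecidableEq α]

/-- The recursion of `lp` at the corner. -/
private theorem LcLp_rec (r : ℕ → ℕ → Prop) (n m : ℕ) (k : ℕ)
    (hk : (r 0 0 → k = lp r 1 (n + 1) 1 (m + 1) + 1) ∧ (¬ r 0 0 → k = 0)) :
    lp r 0 (n + 1) 0 (m + 1) =
      max (max (lp r 1 (n + 1) 0 (m + 1)) (lp r 0 (n + 1) 1 (m + 1))) k := by
  apply le_antisymm
  · obtain ⟨s, hs, h⟩ := exists_chain r 0 (n + 1) 0 (m + 1)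
    rw [← h]
    by_cases h1 : ∀ q ∈ s, q.1 ≠ 0
    · have hc : Chain r 1 (n + 1) 0 (m + 1) s := by
        refine ⟨fun q hq => ?_, hs.2⟩
        obtain ⟨_, a2, a3, a4, a5⟩ := hs.1 q hq
        have := h1 q hq
        exact ⟨by omega, a2, a3, a4, a5⟩
      exact (le_lp hc).trans (le_trans (le_max_left _ _) (le_max_left _ _))
    · by_cases h2 : ∀ q ∈ s, q.2 ≠ 0
      · have hc : Chain r 0 (n + 1) 1 (m + 1) s := by
          refine ⟨fun q hq => ?_, hs.2⟩
          obtain ⟨a1, a2, _, a4, a5⟩ := hs.1 q hq
          have := h2 q hq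
          exact ⟨a1, a2, by omega, a4, a5⟩
        exact (le_lp hc).trans (le_trans (le_max_right _ _) (le_max_left _ _))
      · push Not at h1 h2
        obtain ⟨q, hq, hq1⟩ := h1
        obtain ⟨q', hq', hq2⟩ := h2
        have hqq : q = q' := by
          by_contra hne
          rcases hs.2 q hq q' hq' hne with e | e
          · omega
          · omega
        subst hqq
        have hr : r 0 0 := by
          have := (hs.1 q hq).2.2.2.2
          rwa [hq1, hq2] at this
        rw [hk.1 hr]
        have hc : Chain r 1 (n + 1) 1 (m + 1) (s.erase q) := by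
          refine ⟨fun t ht => ?_, fun t ht t' ht' hne =>
            hs.2 t (Finset.mem_of_mem_erase ht) t' (Finset.mem_of_mem_erase ht') hne⟩
          have ht1 := Finset.ne_of_mem_erase ht
          have ht2 := Finset.mem_of_mem_erase ht
          obtain ⟨_, a2, _, a4, a5⟩ := hs.1 t ht2
          rcases hs.2 t ht2 q hq ht1 with e | e
          · omega
          · exact ⟨by omega, a2, by omega, a4, a5⟩
        have h3 := le_lp hc
        have h4 := Finset.card_erase_add_one hq
        refine le_trans ?_ (le_max_right _ _)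
        omega
  · refine max_le (max_le ?_ ?_) ?_
    · exact lp_mono (Nat.zero_le _) le_rfl le_rfl le_rfl fun _ _ _ _ _ _ h => h
    · exact lp_mono le_rfl le_rfl (Nat.zero_le _) le_rfl fun _ _ _ _ _ _ h => h
    · by_cases hr : r 0 0
      · rw [hk.1 hr]
        have hc : Chain r 0 1 0 1 {((0 : ℕ), (0 : ℕ))} := by
          refine ⟨fun q hq => ?_, fun q hq q' hq' hne => ?_⟩
          · rw [Finset.mem_singleton] at hq
            subst hq
            exact ⟨le_rfl, Nat.one_pos, le_rfl, Nat.one_pos, hr⟩
          · rw [Finset.mem_singleton] at hq hq'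
            exact absurd (hq.trans hq'.symm) hne
        have h1 := le_lp hc
        rw [Finset.card_singleton] at h1
        have h2 := lp_super r (a := 0) (b := 1) (c := 0) (d := 1) (e := n + 1) (f := m + 1)
          (Nat.zero_le _) (Nat.succ_le_succ (Nat.zero_le _)) (Nat.zero_le _)
          (Nat.succ_le_succ (Nat.zero_le _))
        omega
      · rw [hk.2 hr]
        exact Nat.zero_le _

/-- Deleting the first letter of `x`. -/
private theorem LcLp_tail {n m : ℕ} (x : Fin (n + 1) → α) (y : Fin m → α) (c d : ℕ) :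
    lp (rl (fun i : Fin n => x i.succ) y) 0 n c d = lp (rl x y) 1 (n + 1) c d := by
  refine Eq.trans ?_ (lp_shift (rl x y) 1 0 0 n c d)
  refine lp_congr fun i j _ hi _ _ => ?_
  simp only [rl, Nat.add_zero]
  constructor
  · rintro ⟨h1, h2, h3⟩
    exact ⟨by omega, h2, h3⟩
  · rintro ⟨h1, h2, h3⟩
    exact ⟨hi, h2, h3⟩

/-- Deleting the first letter of `y`. -/
private theorem LcLp_tail' {n m : ℕ} (x : Fin n → α) (y : Fin (m + 1) → α) (a b : ℕ) :
    lp (rl x (fun i : Fin m => y i.succ)) a b 0 m = lp (rl x y) a b 1 (m + 1) := by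
  refine Eq.trans ?_ (lp_shift (rl x y) 0 1 a b 0 m)
  refine lp_congr fun i j _ _ _ hj => ?_
  simp only [rl, Nat.add_zero]
  constructor
  · rintro ⟨h1, h2, h3⟩
    exact ⟨h1, by omega, h3⟩
  · rintro ⟨h1, h2, h3⟩
    exact ⟨h1, hj, h3⟩

/-- `lc` is the largest size of a chain of matches. Proof: induction on `n + m` (`List.ofFn_succ`): `≤` from `lc_cons` by adding
`(0, 0)` to a shifted chain; `≥`: a chain either does not use row `0`, or does not use column `0`, or contains `(0, 0)`. -/
theorem lc_eq_lp {n m : ℕ} (x : Fin n → α) (y : Fin m → α) :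
    lc (List.ofFn x) (List.ofFn y) = lp (rl x y) 0 n 0 m := by
  suffices H : ∀ k : ℕ, ∀ (n m : ℕ) (x : Fin n → α) (y : Fin m → α), n + m ≤ k →
      lc (List.ofFn x) (List.ofFn y) = lp (rl x y) 0 n 0 m from H _ n m x y le_rfl
  intro k
  induction k with
  | zero =>
    intro n m x y h
    have hn : n = 0 := by omega
    subst hn
    rw [List.ofFn_zero, lc_nil_left]
    have := lp_le_rows (rl x y) 0 0 0 m
    omega
  | succ k ih =>
    intro n m x y h
    cases n with
    | zero =>
      rw [List.ofFn_zero, lc_nil_left]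
      have := lp_le_rows (rl x y) 0 0 0 m
      omega
    | succ n =>
      cases m with
      | zero =>
        rw [List.ofFn_zero, lc_nil_right]
        have := lp_le_cols (rl x y) 0 (n + 1) 0 0
        omega
      | succ m =>
        have e1 := ih n (m + 1) (fun i => x i.succ) y (by omega)
        have e2 := ih (n + 1) m x (fun i => y i.succ) (by omega)
        have e3 := ih n m (fun i => x i.succ) (fun i => y i.succ) (by omega)
        rw [LcLp_tail x y 0 (m + 1)] at e1
        rw [LcLp_tail' x y 0 (n + 1)] at e2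
        rw [LcLp_tail x (fun i => y i.succ) 0 m, LcLp_tail' x y 1 (n + 1)] at e3
        rw [List.ofFn_succ] at e1 e2
        rw [List.ofFn_succ, List.ofFn_succ (f := y), lc_cons, e1, e2, e3]
        refine (LcLp_rec (rl x y) n m _ ⟨fun hr => ?_, fun hr => ?_⟩).symm
        · obtain ⟨h1, h2, h3⟩ := hr
          exact if_pos h3
        · refine if_neg fun h3 => hr ⟨Nat.succ_pos n, Nat.succ_pos m, h3⟩

end NV
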