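import Pool.Agent.Lib.MP_ae6bb1_pr.NV.BlkTy

/-! Probabilities of one or two cells. -/

open Finset LCSH

namespace NV

variable {T : Type} [Fintype T] (Q : Md T)

theorem r_nonneg : 0 ≤ Q.r :=
  sum_nonneg fun a _ => sum_nonneg fun b _ =>
    mul_nonneg (mul_nonneg (Q.nonneg a) (Q.nonneg b)) (ind_nonneg _)

theorem k_nonneg : 0 ≤ Q.k :=
  sum_nonneg fun a _ => sum_nonneg fun b _ => sum_nonneg fun c _ =>
    mul_nonneg (mul_nonneg (mul_nonneg (Q.nonneg a) (Q.nonneg b)) (Q.nonneg c)) (ind_nonneg _)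

theorem E2_isW (N : ℕ) : IsW (fun _ : Fin N => Q.lam) := ⟨fun _ => Q.nonneg, fun _ => Q.sum_one⟩

/-- expectation of a function of two coordinates -/
theorem PE_two {N : ℕ} {i j : Fin N} (hij : i ≠ j) (g : T → T → ℝ) :
    PE (fun _ : Fin N => Q.lam) (fun A => g (A i) (A j)) = ∑ a, Q.lam a * ∑ b, Q.lam b * g a b := by
  rw [PE_resample (E2_isW Q N) j]
  have h : ∀ A : Fin N → T, (∑ b, Q.lam b * g (Function.update A j b i) (Function.update A j b j)) =
      ∑ b, Q.lam b * g (A i) b := by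
    intro A
    refine sum_congr rfl fun b _ => ?_
    rw [Function.update_self, Function.update_of_ne hij]
  simp only [h]
  exact PE_single (E2_isW Q N) i (fun a => ∑ b, Q.lam b * g a b)

theorem ind_and_mul (E F : Prop) : ind (E ∧ F) = ind E * ind F := by
  by_cases h : E <;> by_cases h' : F <;> simp [ind, h, h']

/-- One cell. -/
theorem E2_cell {N M : ℕ} (t : Fin N) (u : Fin M) :
    E2 Q.lam N M (fun A B => ind (Q.rel (A t) (B u))) = Q.r := by
  unfold E2
  have h : ∀ A : Fin N → T, PE (fun _ : Fin M => Q.lam) (fun B => ind (Q.rel (A t) (B u))) =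
      ∑ b, Q.lam b * ind (Q.rel (A t) b) := fun A =>
    PE_single (E2_isW Q M) u (fun b => ind (Q.rel (A t) b))
  simp only [h]
  rw [PE_single (E2_isW Q N) t (fun a => ∑ b, Q.lam b * ind (Q.rel a b))]
  unfold Md.r
  refine sum_congr rfl fun a _ => ?_
  rw [mul_sum]
  exact sum_congr rfl fun b _ => by ring

/-- Two cells in different rows and columns. -/
theorem E2_cells {N M : ℕ} {t t' : Fin N} {u u' : Fin M} (ht : t ≠ t') (hu : u ≠ u') :
    E2 Q.lam N M (fun A B => ind (Q.rel (A t) (B u) ∧ Q.rel (A t') (B u'))) = Q.r ^ 2 := by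
  unfold E2
  have h : ∀ A : Fin N → T, PE (fun _ : Fin M => Q.lam)
      (fun B => ind (Q.rel (A t) (B u) ∧ Q.rel (A t') (B u'))) =
      (∑ b, Q.lam b * ind (Q.rel (A t) b)) * ∑ c, Q.lam c * ind (Q.rel (A t') c) := by
    intro A
    rw [PE_two Q hu (fun b c => ind (Q.rel (A t) b ∧ Q.rel (A t') c)), sum_mul]
    refine sum_congr rfl fun b _ => ?_
    rw [mul_sum, mul_sum]
    exact sum_congr rfl fun c _ => by rw [ind_and_mul]; ring
  simp only [h]
  rw [PE_two Q ht (fun a a' => (∑ b, Q.lam b * ind (Q.rel a b)) * ∑ c, Q.lam c * ind (Q.rel a' c))]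
  have hr : Q.r = ∑ a, Q.lam a * ∑ b, Q.lam b * ind (Q.rel a b) := by
    unfold Md.r
    refine sum_congr rfl fun a _ => ?_
    rw [mul_sum]
    exact sum_congr rfl fun b _ => by ring
  rw [sq]
  conv_rhs => rw [hr]
  rw [sum_mul_sum]
  refine sum_congr rfl fun a _ => ?_
  rw [mul_sum]
  exact sum_congr rfl fun b _ => by ring

/-- Two cells in the same row. -/
theorem E2_row {N M : ℕ} (t : Fin N) {u u' : Fin M} (hu : u ≠ u') :
    E2 Q.lam N M (fun A B => ind (Q.rel (A t) (B u) ∧ Q.rel (A t) (B u'))) = Q.k := by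
  unfold E2
  have h : ∀ A : Fin N → T, PE (fun _ : Fin M => Q.lam)
      (fun B => ind (Q.rel (A t) (B u) ∧ Q.rel (A t) (B u'))) =
      ∑ b, Q.lam b * ∑ c, Q.lam c * ind (Q.rel (A t) b ∧ Q.rel (A t) c) := fun A =>
    PE_two Q hu (fun b c => ind (Q.rel (A t) b ∧ Q.rel (A t) c))
  simp only [h]
  rw [PE_single (E2_isW Q N) t
    (fun a => ∑ b, Q.lam b * ∑ c, Q.lam c * ind (Q.rel a b ∧ Q.rel a c))]
  unfold Md.k
  refine sum_congr rfl fun a _ => ?_
  rw [mul_sum]
  refine sum_congr rfl fun b _ => ?_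
  rw [mul_sum, mul_sum]
  exact sum_congr rfl fun c _ => by ring

/-- Two cells in the same column (symmetry of the relation). -/
theorem E2_col {N M : ℕ} {t t' : Fin N} (ht : t ≠ t') (u : Fin M) :
    E2 Q.lam N M (fun A B => ind (Q.rel (A t) (B u) ∧ Q.rel (A t') (B u))) = Q.k := by
  unfold E2
  have h : ∀ A : Fin N → T, PE (fun _ : Fin M => Q.lam)
      (fun B => ind (Q.rel (A t) (B u) ∧ Q.rel (A t') (B u))) =
      ∑ b, Q.lam b * ind (Q.rel (A t) b ∧ Q.rel (A t') b) := fun A =>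
    PE_single (E2_isW Q M) u (fun b => ind (Q.rel (A t) b ∧ Q.rel (A t') b))
  simp only [h]
  rw [PE_two Q ht (fun a a' => ∑ b, Q.lam b * ind (Q.rel a b ∧ Q.rel a' b))]
  unfold Md.k
  have e : ∀ a b c : T, ind (Q.rel a b ∧ Q.rel c b) = ind (Q.rel b a ∧ Q.rel b c) := fun a b c =>
    le_antisymm (ind_mono fun h => ⟨Q.symm _ _ h.1, Q.symm _ _ h.2⟩)
      (ind_mono fun h => ⟨Q.symm _ _ h.1, Q.symm _ _ h.2⟩)
  simp only [mul_sum]
  calc (∑ a, ∑ c, ∑ b, Q.lam a * (Q.lam c * (Q.lam b * ind (Q.rel a b ∧ Q.rel c b)))) =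
      ∑ a, ∑ b, ∑ c, Q.lam a * (Q.lam c * (Q.lam b * ind (Q.rel a b ∧ Q.rel c b))) :=
        sum_congr rfl fun a _ => sum_comm
    _ = ∑ b, ∑ a, ∑ c, Q.lam a * (Q.lam c * (Q.lam b * ind (Q.rel a b ∧ Q.rel c b))) := sum_comm
    _ = _ := by
      refine sum_congr rfl fun b _ => sum_congr rfl fun a _ => sum_congr rfl fun c _ => ?_
      rw [e]; ring

end NV
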