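import Pool.Agent.Lib.MP_ae6bb1_pr.NV.ExpA
import Pool.Agent.Lib.MP_ae6bb1_pr.NV.Lb
import Pool.Agent.Lib.MP_ae6bb1_pr.NV.PrA

/-! The lower bound. -/

open Finset LCSH
open scoped ENNReal

namespace NV

variable {α : Type} [DecidableEq α] [Fintype α] {L : Law α} {o : α}

theorem LeGam_ind_le {T : Type} (rel : T → T → Prop) (A B : Fin 1 → T) :
    ind (rel (A 0) (B 0)) ≤ vv (rlr rel A B) 1 1 (Qr 1) := by
  have hQ : Qr 1 [] := Nat.zero_le _
  by_cases h : rel (A 0) (B 0)
  · rw [ind_of h]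
    have h1 : IsCh (rlr rel A B) 1 1 [((0 : ℕ), (0 : ℕ))] := by
      refine ⟨List.pairwise_singleton _ _, fun c hc => ?_⟩
      rw [List.mem_singleton] at hc
      subst hc
      exact ⟨Nat.one_pos, Nat.one_pos, Nat.one_pos, Nat.one_pos, h⟩
    have h2 := le_vv h1 (Q := Qr 1) (le_refl 1)
    have h3 : tvd 0 (dg [((0 : ℕ), (0 : ℕ))]) (((1 : ℕ) : ℤ) - ((1 : ℕ) : ℤ)) = 0 := by
      simp [dg, tvd]
    rw [h3, List.length_singleton] at h2
    simpa using h2
  · rw [ind_of_not h]
    exact vv_nonneg _ 1 hQ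

/-- Lower bound. Proof: `elc_le_gam` for `n = 1`, `E2_vv_le` for `N = M = 1` with `Q = Qr 1` and `vv ≥ 1` if the two words are related. -/
theorem le_gam (hm : 0 < L.p o) : L.p o * (1 + (wmd hm : Md (Finset α)).r) ≤ gam L := by
  have hQ : Qr 1 [] := Nat.zero_le _
  have h1 := elc_le_gam (L := L) (o := o) hm 1
  have h2 := E2_vv_le (L := L) (o := o) hm 1 1 hQ
  have h3 : (wmd hm : Md (Finset α)).r ≤
      E2 (lam L o) 1 1 (fun A B => vv (rlr mt A B) 1 1 (Qr 1)) := by
    rw [← E2_cell (wmd hm : Md (Finset α)) (N := 1) (M := 1) 0 0]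
    have hW := E2_isW (wmd hm : Md (Finset α)) 1
    refine PE_mono hW fun A => PE_mono hW fun B => ?_
    exact LeGam_ind_le mt A B
  have h4 : (wmd hm : Md (Finset α)).r + 1 ≤ elc L o 1 1 := by
    have h5 := h3.trans h2
    push_cast at h5
    linarith
  have h6 := mul_le_mul_of_nonneg_left h4 hm.le
  rw [Nat.cast_one, mul_one] at h1
  linarith

/-- The point mass. Proof: `rr = 0` implies `L.p o = 1`; `EL_le`, `elc_le_gam`, `le_elc`. -/
theorem gam_point (hm : 0 < L.p o) (h0 : rr L o = 0) : L.p o = 1 ∧ gam L = 1 := by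
  have h1 : ∑ a ∈ univ.erase o, L.p a ^ 2 = 0 := by
    unfold rr at h0
    rcases div_eq_zero_iff.1 h0 with h | h
    · exact h
    · exact absurd h (by positivity)
  have h2 : ∀ a ∈ univ.erase o, L.p a = 0 := by
    intro a ha
    have := (Finset.sum_eq_zero_iff_of_nonneg fun b _ => sq_nonneg (L.p b)).1 h1 a ha
    exact pow_eq_zero_iff (two_ne_zero) |>.1 this
  have h3 : L.p o = 1 := by
    have h4 := L.sum_one
    rw [← Finset.add_sum_erase univ _ (Finset.mem_univ o), Finset.sum_eq_zero h2, add_zero] at h4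
    exact h4
  refine ⟨h3, le_antisymm ?_ ?_⟩
  · unfold gam
    refine ciSup_le fun n => ?_
    have hn : (0 : ℝ) < (n : ℝ) + 1 := by positivity
    rw [div_le_one hn]
    have h5 := EL_le L (n + 1) (n + 1)
    push_cast at h5
    exact h5
  · have h6 := elc_le_gam (L := L) (o := o) hm 1
    have h7 := le_elc (L := L) (o := o) hm 1
    rw [h3, mul_one, Nat.cast_one, mul_one] at h6
    rw [Nat.cast_one] at h7
    exact h7.trans h6

end NV
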