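import Pool.Agent.Lib.MP_ae6bb1_pr.NV.LinkD

/-! Realised chains give strict chains of words. -/

open Finset LCSH
open scoped ENNReal

namespace NV

/-- the cells of a chain with increments `C` starting at `(t, u)` -/
def LinkB_pos : ℕ → ℕ → List (ℕ × ℕ) → List (ℕ × ℕ)
  | _, _, [] => []
  | t, u, c :: C => (t + c.1, u + c.2) :: LinkB_pos (t + c.1) (u + c.2) C

theorem LinkB_pos_length (C : List (ℕ × ℕ)) : ∀ t u : ℕ, (LinkB_pos t u C).length = C.length := by
  induction C with
  | nil => intro t u; rfl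
  | cons c C ih =>
    intro t u
    rw [LinkB_pos, List.length_cons, List.length_cons, ih]

theorem LinkB_nsc_cons (c : ℕ × ℕ) (C : List (ℕ × ℕ)) (h : nsc (c :: C) = 0) :
    0 < c.1 ∧ 0 < c.2 ∧ nsc C = 0 := by
  unfold nsc at h ⊢
  by_cases hc : c.1 = 0 ∨ c.2 = 0
  · rw [List.filter_cons_of_pos (by simpa using hc), List.length_cons] at h
    omega
  · rw [List.filter_cons_of_neg (by simpa using hc)] at h
    refine ⟨by omega, by omega, h⟩

theorem LinkB_pos_gt (C : List (ℕ × ℕ)) (h : nsc C = 0) : ∀ t u : ℕ,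
    ∀ c ∈ LinkB_pos t u C, t < c.1 ∧ u < c.2 := by
  induction C with
  | nil => intro t u c hc; exact absurd hc List.not_mem_nil
  | cons d C ih =>
    obtain ⟨h1, h2, h3⟩ := LinkB_nsc_cons d C h
    intro t u c hc
    rw [LinkB_pos] at hc
    rcases List.mem_cons.1 hc with rfl | hc
    · exact ⟨by simpa using h1, by simpa using h2⟩
    · have := ih h3 _ _ c hc
      omega

theorem LinkB_pos_pairwise (C : List (ℕ × ℕ)) (h : nsc C.tail = 0) : ∀ t u : ℕ,
    (LinkB_pos t u C).Pairwise (fun c c' => c.1 < c'.1 ∧ c.2 < c'.2) := by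
  induction C with
  | nil => intro t u; exact List.Pairwise.nil
  | cons d C ih =>
    rw [List.tail_cons] at h
    intro t u
    rw [LinkB_pos]
    refine List.Pairwise.cons (fun c hc => LinkB_pos_gt C h _ _ c hc) (ih ?_ _ _)
    cases C with
    | nil => rfl
    | cons d' C => exact (LinkB_nsc_cons d' C h).2.2

variable {α : Type} [DecidableEq α] {o : α}

theorem LinkB_tvd {C : List (ℕ × ℕ)} : ∀ {N M t u : ℕ}, t ≤ N → u ≤ M → adm (N - t) (M - u) C →
    tvd ((u : ℤ) - t) (dg (LinkB_pos t u C)) ((M : ℤ) - (N : ℤ)) = tvI (N - t) (M - u) C := by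
  induction C with
  | nil =>
    intro N M t u ht hu _
    rw [LinkB_pos, dg, List.map_nil, tvd_nil, tvI_nil]
    omega
  | cons c C ih =>
    intro N M t u ht hu h
    rw [adm] at h
    obtain ⟨h1, h2, h3⟩ := h
    have e1 : N - t - c.1 = N - (t + c.1) := by omega
    have e2 : M - u - c.2 = M - (u + c.2) := by omega
    rw [e1, e2] at h3
    have h4 := ih (by omega) (by omega) h3
    rw [LinkB_pos, dg, List.map_cons, tvd_cons, tvI_cons, e1, e2, ← h4]
    have e3 : ((((u + c.2 : ℕ) : ℤ) - ((t + c.1 : ℕ) : ℤ)) - ((u : ℤ) - t)).natAbs =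
        ((c.1 : ℤ) - c.2).natAbs := by
      push_cast
      omega
    rw [e3]
    rfl

theorem LinkB_Z_pos {x' : List α} {X : List α} {a : α} (ha : a ≠ o)
    (hb : isB o (X ++ a :: x')) : 0 < Z o x' := by
  rcases List.eq_nil_or_concat x' with rfl | ⟨y, c, rfl⟩
  · exact absurd (hb X a rfl) ha
  · rw [List.concat_eq_append] at hb ⊢
    have hc : c = o := by
      refine hb (X ++ a :: y) c ?_
      rw [List.append_assoc, List.cons_append]
    rw [Z_append, hc]
    have : Z o [o] = 1 := by
      unfold Z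
      rw [List.count_cons_self, List.count_nil]
    omega

theorem LinkB_wmem {x' X x₀ : List α} {a : α} (ha : a ≠ o) :
    wmem o (X ++ (x₀ ++ a :: x')) (Z o X + Z o x₀) a :=
  ⟨ha, X ++ x₀, x', by rw [List.append_assoc], Z_append o X x₀⟩

variable [Fintype α]

theorem LinkB_cells {C : List (ℕ × ℕ)} : ∀ {x y X Y : List α} {N M : ℕ}, RealI o x y C →
    isB o (X ++ x) → isB o (Y ++ y) → Z o (X ++ x) = N → Z o (Y ++ y) = M →
    ∀ c ∈ LinkB_pos (Z o X) (Z o Y) C,
      c.1 < N ∧ c.2 < M ∧ wr o N M (X ++ x) (Y ++ y) c.1 c.2 := by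
  induction C with
  | nil => intro x y X Y N M _ _ _ _ _ c hc; exact absurd hc List.not_mem_nil
  | cons d C ih =>
    intro x y X Y N M h hbx hby hN hM c hc
    obtain ⟨x₀, x', y₀, y', a, ha, rfl, rfl, h1, h2, h3⟩ := RealI.cons_iff.1 h
    have ex : X ++ (x₀ ++ a :: x') = (X ++ x₀ ++ [a]) ++ x' := by simp
    have ey : Y ++ (y₀ ++ a :: y') = (Y ++ y₀ ++ [a]) ++ y' := by simp
    have ezx : Z o (X ++ x₀ ++ [a]) = Z o X + d.1 := by
      rw [Z_append, Z_append, h1, Z_cons_ne ha, Z_nil, Nat.add_zero]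
    have ezy : Z o (Y ++ y₀ ++ [a]) = Z o Y + d.2 := by
      rw [Z_append, Z_append, h2, Z_cons_ne ha, Z_nil, Nat.add_zero]
    rw [LinkB_pos] at hc
    rcases List.mem_cons.1 hc with rfl | hc
    · have hx1 : 0 < Z o x' := by
        refine LinkB_Z_pos (X := X ++ x₀) ha ?_
        rw [List.append_assoc]
        exact hbx
      have hy1 : 0 < Z o y' := by
        refine LinkB_Z_pos (X := Y ++ y₀) ha ?_
        rw [List.append_assoc]
        exact hby
      have hN' : Z o X + d.1 < N := by
        rw [← hN, ex, Z_append, ezx]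
        omega
      have hM' : Z o Y + d.2 < M := by
        rw [← hM, ey, Z_append, ezy]
        omega
      refine ⟨hN', hM', ?_⟩
      refine ⟨hN', hM', ?_⟩
      unfold mt
      rw [Finset.not_disjoint_iff]
      refine ⟨a, ?_, ?_⟩
      · rw [mem_ws]
        simp only
        rw [← h1]
        exact LinkB_wmem ha
      · rw [mem_ws]
        simp only
        rw [← h2]
        exact LinkB_wmem ha
    · have h4 := ih (X := X ++ x₀ ++ [a]) (Y := Y ++ y₀ ++ [a]) (N := N) (M := M) h3
        (by rw [← ex]; exact hbx) (by rw [← ey]; exact hby) (by rw [← ex]; exact hN)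
        (by rw [← ey]; exact hM) c (by rw [ezx, ezy]; exact hc)
      rw [← ex, ← ey] at h4
      exact h4

/-- A realised chain without vanishing increments (except possibly in the first one) is a strict chain of related words. Here `x`
and `y` are blocks, so that after the last match there is a zero in both strings. -/
theorem isCh_of_real {N M : ℕ} {x y : List α} (hx : Z o x = N) (hy : Z o y = M) (hbx : isB o x)
    (hby : isB o y) {C : List (ℕ × ℕ)} (h : RealI o x y C) (hs : nsc C.tail = 0) :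
    ∃ C', IsCh (wr o N M x y) N M C' ∧ C'.length = C.length ∧
      tvd 0 (dg C') ((M : ℤ) - (N : ℤ)) = tvI N M C := by
  refine ⟨LinkB_pos 0 0 C, ⟨LinkB_pos_pairwise C hs 0 0, ?_⟩, LinkB_pos_length C 0 0, ?_⟩
  · have h1 := LinkB_cells (X := []) (Y := []) (N := N) (M := M) h (by rw [List.nil_append]; exact hbx)
      (by rw [List.nil_append]; exact hby) (by rw [List.nil_append]; exact hx)
      (by rw [List.nil_append]; exact hy)
    rw [Z_nil, List.nil_append, List.nil_append] at h1
    exact h1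
  · have h2 := h.adm
    rw [hx, hy] at h2
    have h3 := LinkB_tvd (C := C) (N := N) (M := M) (t := 0) (u := 0) (Nat.zero_le _)
      (Nat.zero_le _) (by rw [Nat.sub_zero, Nat.sub_zero]; exact h2)
    rw [Nat.sub_zero, Nat.sub_zero] at h3
    rw [← h3]
    simp

end NV
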