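import Pool.Agent.Lib.MP_ae6bb1_pr.NV.LinkA
import Pool.Agent.Lib.MP_ae6bb1_pr.NV.LinkB

/-! Strict chains of words and realised chains of letters. -/

open Finset LCSH
open scoped ENNReal

namespace NV

variable {α : Type} [DecidableEq α] [Fintype α] {o : α}

/-- Proof: `exists_vv`, `real_of_isCh`, `le_D`. -/
theorem vv_le_D {N M : ℕ} {x y : List α} (hx : Z o x = N) (hy : Z o y = M)
    {Q : List (ℕ × ℕ) → Prop} (hQ : Q []) : vv (wr o N M x y) N M Q ≤ D o x y := by
  obtain ⟨C, hC, -, hv⟩ := exists_vv (wr o N M x y) N M hQ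
  obtain ⟨C', h1, h2, h3⟩ := real_of_isCh hx hy hC
  have h4 := le_D h1
  rw [hx, hy] at h4
  unfold vI at h4
  rw [h2, h3] at h4
  rw [hv]
  exact h4

theorem link_aux {N M : ℕ} {x y : List α} (hx : Z o x = N) (hy : Z o y = M) (hbx : isB o x)
    (hby : isB o y) {C : List (ℕ × ℕ)} (h : RealI o x y C) (hd : D o x y ≤ vI N M C) (hs : nsc C.tail = 0)
    (Q : List (ℕ × ℕ) → Prop) (hQ : ∀ C', IsCh (wr o N M x y) N M C' → C'.length = C.length →
      tvd 0 (dg C') ((M : ℤ) - (N : ℤ)) = tvI N M C → Q C') : D o x y ≤ vv (wr o N M x y) N M Q := by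
  obtain ⟨C', h1, h2, h3⟩ := isCh_of_real hx hy hbx hby h hs
  have h4 := le_vv h1 (hQ C' h1 h2 h3)
  refine hd.trans ?_
  unfold vI
  rw [← h2, ← h3]
  exact h4

/-- Proof: `exists_D`, `isCh_of_real`, `le_vv`. -/
theorem D_le_or_R {N M : ℕ} {x y : List α} (hx : Z o x = N) (hy : Z o y = M) (hbx : isB o x)
    (hby : isB o y) (R : ℕ) :
    D o x y ≤ vv (wr o N M x y) N M (Qr R) ∨
      ∃ C, RealI o x y C ∧ D o x y ≤ vI N M C ∧ (1 ≤ nsc C.tail ∨ R < C.length) := by
  obtain ⟨C, h1, h2⟩ := exists_D o x y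
  rw [hx, hy] at h2
  by_cases hs : nsc C.tail = 0
  · by_cases hR : C.length ≤ R
    · left
      refine link_aux hx hy hbx hby h1 h2 hs (Qr R) fun C' _ h4 _ => ?_
      unfold Qr
      omega
    · right
      exact ⟨C, h1, h2, Or.inr (by omega)⟩
  · right
    exact ⟨C, h1, h2, Or.inl (by omega)⟩

/-- Proof: the same; if the strict chain leaves the window its total variation is at least `2 w` (`le_tvd_mem`). -/
theorem D_le_or_w {N : ℕ} {x y : List α} (hx : Z o x = N) (hy : Z o y = N) (hbx : isB o x)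
    (hby : isB o y) (w : ℕ) :
    D o x y ≤ vv (wr o N N x y) N N (Qw w) ∨
      ∃ C, RealI o x y C ∧ D o x y ≤ vI N N C ∧ (1 ≤ nsc C.tail ∨ 2 * w ≤ tvI N N C) := by
  obtain ⟨C, h1, h2⟩ := exists_D o x y
  rw [hx, hy] at h2
  by_cases hs : nsc C.tail = 0
  · by_cases hR : 2 * w ≤ tvI N N C
    · right
      exact ⟨C, h1, h2, Or.inr hR⟩
    · left
      refine link_aux hx hy hbx hby h1 h2 hs (Qw w) fun C' _ _ h5 => ?_
      intro c hc
      by_contra hcon
      have h6 : ((c.2 : ℤ) - (c.1 : ℤ)) ∈ dg C' := by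
        unfold dg
        exact List.mem_map.mpr ⟨c, hc, rfl⟩
      have h7 := le_tvd_mem h6 0 ((N : ℤ) - (N : ℤ))
      rw [h5] at h7
      omega
  · right
    exact ⟨C, h1, h2, Or.inl (by omega)⟩

end NV
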