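import Pool.Agent.Lib.MP_ae6bb1_pr.NV.LinkD

/-! Strict chains of words are realised. -/

open Finset LCSH
open scoped ENNReal

namespace NV

variable {α : Type} [DecidableEq α] [Fintype α] {o : α}

omit [Fintype α] in
/-- A letter after `t' > t` zeros of `x₀ ++ a :: x'`, where `Z x₀ = t`, is a letter of `x'` after `t' - t` zeros. -/
theorem wmem_shift {x₀ x' : List α} {a a' : α} (ha : a ≠ o) {t t' : ℕ} (ht : Z o x₀ = t)
    (htt : t < t') (h : wmem o (x₀ ++ a :: x') t' a') : wmem o x' (t' - t) a' := by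
  obtain ⟨ha', w₀, w', hw, hZ⟩ := h
  refine ⟨ha', ?_⟩
  rcases List.append_eq_append_iff.1 hw with ⟨as, h1, h2⟩ | ⟨bs, h1, h2⟩
  · cases as with
    | nil =>
      exfalso
      rw [h1, List.append_nil] at hZ
      omega
    | cons b as =>
      rw [List.cons_append, List.cons.injEq] at h2
      obtain ⟨h3, h4⟩ := h2
      subst h3
      refine ⟨as, w', h4, ?_⟩
      rw [h1, Z_append, Z_cons_ne ha, ht] at hZ
      omega
  · exfalso
    rw [h1, Z_append, hZ] at ht
    omega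

omit [Fintype α] in
theorem real_aux (C : List (ℕ × ℕ)) : ∀ (x y : List α) (s s' : ℕ),
    C.Pairwise (fun c c' => c.1 < c'.1 ∧ c.2 < c'.2) →
    (∀ c ∈ C, s ≤ c.1 ∧ s' ≤ c.2 ∧ ∃ a, wmem o x (c.1 - s) a ∧ wmem o y (c.2 - s') a) →
    ∃ C', RealI o x y C' ∧ C'.length = C.length ∧
      tvI (Z o x) (Z o y) C' = tvd ((s' : ℤ) - (s : ℤ)) (dg C)
        (((s' : ℤ) + (Z o y : ℤ)) - ((s : ℤ) + (Z o x : ℤ))) := by
  induction C with
  | nil =>
    intro x y s s' _ _
    refine ⟨[], by rw [RealI]; trivial, rfl, ?_⟩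
    rw [tvI_nil]
    unfold dg
    rw [List.map_nil, tvd]
    omega
  | cons c C ih =>
    intro x y s s' hp hC
    obtain ⟨hp1, hp2⟩ := List.pairwise_cons.1 hp
    obtain ⟨hs, hs', a, ⟨ha, x₀, x', hx, hZx⟩, ⟨_, y₀, y', hy, hZy⟩⟩ := hC c List.mem_cons_self
    subst hx
    subst hy
    obtain ⟨C', h1, h2, h3⟩ := ih x' y' c.1 c.2 hp2 (by
      intro c' hc'
      obtain ⟨h4, h5⟩ := hp1 c' hc'
      obtain ⟨h6, h7, a', h8, h9⟩ := hC c' (List.mem_cons_of_mem _ hc')
      refine ⟨h4.le, h5.le, a', ?_, ?_⟩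
      · have := wmem_shift ha hZx (by omega) h8
        rw [show c'.1 - s - (c.1 - s) = c'.1 - c.1 by omega] at this
        exact this
      · have := wmem_shift ha hZy (by omega) h9
        rw [show c'.2 - s' - (c.2 - s') = c'.2 - c.2 by omega] at this
        exact this)
    refine ⟨(c.1 - s, c.2 - s') :: C', RealI.cons_iff.2 ⟨x₀, x', y₀, y', a, ha, rfl, rfl, hZx, hZy, h1⟩,
      by rw [List.length_cons, List.length_cons, h2], ?_⟩
    rw [tvI_cons, Z_append, Z_cons_ne ha, Z_append, Z_cons_ne ha, hZx, hZy, Nat.add_sub_cancel_left,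
      Nat.add_sub_cancel_left, h3]
    unfold dg
    rw [List.map_cons, tvd]
    have e1 : ((((c.1 - s : ℕ), (c.2 - s' : ℕ)) : ℕ × ℕ).1 : ℤ) = (c.1 : ℤ) - s := by
      push_cast [hs]
      ring
    have e2 : ((((c.1 - s : ℕ), (c.2 - s' : ℕ)) : ℕ × ℕ).2 : ℤ) = (c.2 : ℤ) - s' := by
      push_cast [hs']
      ring
    have e3 : (((c.2 : ℤ) + (Z o y' : ℤ)) - ((c.1 : ℤ) + (Z o x' : ℤ))) =
        (((s' : ℤ) + ((c.2 - s' + Z o y' : ℕ) : ℤ)) - ((s : ℤ) + ((c.1 - s + Z o x' : ℕ) : ℤ))) := by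
      push_cast [hs, hs']
      ring
    rw [e1, e2, e3]
    congr 1
    omega

/-- A strict chain of related words is realised. Proof: choose common letters `a_k` of the words number `t_k` of `x` and `u_k` of `y`. If
`x = x₀ ++ a :: x'` with `Z x₀ = t` and the letter `a'` occurs in `x` after `t' > t` zeros then it occurs in `x'` after `t' - t` zeros. Induction
on the chain (statement for `x`, `y` and the chain shifted by `(t, u)`); the increments are `(t_k - t_(k-1), u_k - u_(k-1))`. -/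
theorem real_of_isCh {N M : ℕ} {x y : List α} (hx : Z o x = N) (hy : Z o y = M)
    {C : List (ℕ × ℕ)} (h : IsCh (wr o N M x y) N M C) :
    ∃ C', RealI o x y C' ∧ C'.length = C.length ∧
      tvI N M C' = tvd 0 (dg C) ((M : ℤ) - (N : ℤ)) := by
  obtain ⟨C', h1, h2, h3⟩ := real_aux (o := o) C x y 0 0 h.1 (by
    intro c hc
    obtain ⟨_, _, h3⟩ := h.2 c hc
    obtain ⟨ht, hu, h4⟩ := h3
    obtain ⟨a, ha, hb⟩ := Finset.not_disjoint_iff.1 h4
    exact ⟨Nat.zero_le _, Nat.zero_le _, a, mem_ws.1 ha, mem_ws.1 hb⟩)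
  refine ⟨C', h1, h2, ?_⟩
  rw [hx, hy] at h3
  rw [h3]
  simp only [Nat.cast_zero, sub_self, zero_add]

end NV
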