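import Pool.Agent.Lib.MP_ae6bb1_pr.NV.Defs

/-! Values of strict chains. -/

open Finset LCSH
open scoped ENNReal

namespace NV

theorem tvd_nil (d e : ℤ) : tvd d [] e = (e - d).natAbs := by
  rw [tvd]

theorem tvd_cons (d a : ℤ) (l : List ℤ) (e : ℤ) :
    tvd d (a :: l) e = (a - d).natAbs + tvd a l e := by
  rw [tvd]

theorem le_tvd (d : ℤ) (l : List ℤ) (e : ℤ) : (e - d).natAbs ≤ tvd d l e := by
  induction l generalizing d with
  | nil => rw [tvd_nil]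
  | cons a l ih =>
    have h := ih a
    rw [tvd_cons]
    omega

/-- `tvd` changes in `d` by at most the distance. -/
theorem tvd_lip (d d' : ℤ) (l : List ℤ) (e : ℤ) :
    tvd d l e ≤ (d' - d).natAbs + tvd d' l e := by
  cases l with
  | nil =>
    rw [tvd_nil, tvd_nil]
    omega
  | cons a l =>
    rw [tvd_cons, tvd_cons]
    omega

/-- Removing points does not increase the total variation. Proof: induction on the sublist relation; `tvd` changes in `d` by at most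
the distance. -/
theorem tvd_sublist {l l' : List ℤ} (h : l'.Sublist l) (d e : ℤ) : tvd d l' e ≤ tvd d l e := by
  induction h generalizing d with
  | slnil => exact le_refl _
  | cons a _ ih =>
    rw [tvd_cons]
    exact (tvd_lip d a _ e).trans (Nat.add_le_add_left (ih a) _)
  | cons_cons a _ ih =>
    rw [tvd_cons, tvd_cons]
    exact Nat.add_le_add_left (ih a) _

/-- A chain which visits `a` has total variation at least `|a - d| + |e - a|`. -/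
theorem le_tvd_mem {l : List ℤ} {a : ℤ} (ha : a ∈ l) (d e : ℤ) :
    (a - d).natAbs + (e - a).natAbs ≤ tvd d l e := by
  have h := tvd_sublist (List.singleton_sublist.2 ha) d e
  rwa [tvd_cons, tvd_nil] at h

theorem IsCh.sublist {m : ℕ → ℕ → Prop} {N M : ℕ} {C C' : List (ℕ × ℕ)} (h : IsCh m N M C)
    (hs : C'.Sublist C) : IsCh m N M C' :=
  ⟨h.1.sublist hs, fun c hc => h.2 c (hs.subset hc)⟩

theorem IsCh.length_le {m : ℕ → ℕ → Prop} {N M : ℕ} {C : List (ℕ × ℕ)} (h : IsCh m N M C) :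
    C.length ≤ N := by
  have h1 : (C.map Prod.fst).Nodup := by
    rw [List.Nodup, List.pairwise_map]
    exact h.1.imp fun hab => hab.1.ne
  have h2 : C.map Prod.fst ⊆ List.range N := by
    intro t ht
    obtain ⟨c, hc, rfl⟩ := List.mem_map.1 ht
    exact List.mem_range.2 (h.2 c hc).1
  have h3 := (List.subperm_of_subset h1 h2).length_le
  rwa [List.length_map, List.length_range] at h3

theorem v2_bdd (m : ℕ → ℕ → Prop) (N M : ℕ) (Q : List (ℕ × ℕ) → Prop) :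
    BddAbove {v : ℤ | ∃ C : List (ℕ × ℕ), IsCh m N M C ∧ Q C ∧
      v = 2 * (C.length : ℤ) - (tvd 0 (dg C) ((M : ℤ) - (N : ℤ)) : ℤ)} := by
  refine ⟨2 * (N : ℤ), ?_⟩
  rintro v ⟨C, hC, -, rfl⟩
  have h := hC.length_le
  omega

/-- The maximum is attained. Proof: `Int.csSup_mem`; nonempty (`C = []`), bounded above by `2 N` (`IsCh.length_le`). -/
theorem exists_v2 (m : ℕ → ℕ → Prop) (N M : ℕ) {Q : List (ℕ × ℕ) → Prop} (hQ : Q []) :
    ∃ C, IsCh m N M C ∧ Q C ∧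
      v2 m N M Q = 2 * (C.length : ℤ) - (tvd 0 (dg C) ((M : ℤ) - (N : ℤ)) : ℤ) := by
  have h1 : IsCh m N M [] := ⟨List.Pairwise.nil, fun c hc => absurd hc List.not_mem_nil⟩
  have h2 : {v : ℤ | ∃ C : List (ℕ × ℕ), IsCh m N M C ∧ Q C ∧
      v = 2 * (C.length : ℤ) - (tvd 0 (dg C) ((M : ℤ) - (N : ℤ)) : ℤ)}.Nonempty :=
    ⟨_, [], h1, hQ, rfl⟩
  exact Int.csSup_mem h2 (v2_bdd m N M Q)

theorem le_v2 {m : ℕ → ℕ → Prop} {N M : ℕ} {Q : List (ℕ × ℕ) → Prop} {C : List (ℕ × ℕ)}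
    (h : IsCh m N M C) (hQ : Q C) :
    2 * (C.length : ℤ) - (tvd 0 (dg C) ((M : ℤ) - (N : ℤ)) : ℤ) ≤ v2 m N M Q :=
  le_csSup (v2_bdd m N M Q) ⟨C, h, hQ, rfl⟩

/-- The real forms. -/
theorem exists_vv (m : ℕ → ℕ → Prop) (N M : ℕ) {Q : List (ℕ × ℕ) → Prop} (hQ : Q []) :
    ∃ C, IsCh m N M C ∧ Q C ∧
      vv m N M Q = (C.length : ℝ) - (tvd 0 (dg C) ((M : ℤ) - (N : ℤ)) : ℝ) / 2 := by
  obtain ⟨C, h1, h2, h3⟩ := exists_v2 m N M hQ
  refine ⟨C, h1, h2, ?_⟩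
  unfold vv
  rw [h3]
  push_cast
  ring

theorem le_vv {m : ℕ → ℕ → Prop} {N M : ℕ} {Q : List (ℕ × ℕ) → Prop} {C : List (ℕ × ℕ)}
    (h : IsCh m N M C) (hQ : Q C) :
    (C.length : ℝ) - (tvd 0 (dg C) ((M : ℤ) - (N : ℤ)) : ℝ) / 2 ≤ vv m N M Q := by
  have h1 := le_v2 h hQ
  have h2 : (((2 * (C.length : ℤ) - (tvd 0 (dg C) ((M : ℤ) - (N : ℤ)) : ℤ) : ℤ) : ℝ)) ≤
      ((v2 m N M Q : ℤ) : ℝ) := by
    exact_mod_cast h1
  unfold vv
  push_cast at h2
  linarith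

theorem vv_nonneg (m : ℕ → ℕ → Prop) (N : ℕ) {Q : List (ℕ × ℕ) → Prop} (hQ : Q []) :
    0 ≤ vv m N N Q := by
  have h1 : IsCh m N N [] := ⟨List.Pairwise.nil, fun c hc => absurd hc List.not_mem_nil⟩
  have h2 := le_vv h1 hQ
  simpa [dg, tvd] using h2

theorem vv_le (m : ℕ → ℕ → Prop) (N M : ℕ) {Q : List (ℕ × ℕ) → Prop} (hQ : Q []) :
    vv m N M Q ≤ N := by
  obtain ⟨C, h1, -, h2⟩ := exists_vv m N M hQ
  have h3 : (C.length : ℝ) ≤ N := by exact_mod_cast h1.length_le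
  have h4 : (0 : ℝ) ≤ (tvd 0 (dg C) ((M : ℤ) - (N : ℤ)) : ℝ) := Nat.cast_nonneg _
  rw [h2]
  linarith

end NV
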