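import Pool.Agent.Lib.MP_ae6bb1_pr.NV.Words
import Pool.Agent.Lib.MP_ae6bb1_pr.NV.Chain
import Pool.Agent.Lib.MP_ae6bb1_pr.NV.Val

/-! The relation of the words of two strings. -/

open Finset LCSH
open scoped ENNReal

namespace NV

variable {α : Type} [DecidableEq α] [Fintype α] {o : α}

/-- the relation of the words of two strings -/
def wr (o : α) (N M : ℕ) (x y : List α) : ℕ → ℕ → Prop :=
  rlr mt (fun t : Fin N => ws o x t) fun u : Fin M => ws o y u

end NV
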