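import Pool.Agent.Lib.MP_ae6bb1_pr.NV.ExC

/-! The theorem for the growth constant. -/

open Finset LCSH Filter Topology
open scoped ENNReal

namespace NV

/-- Proof: `exists_c`; `rr = 0`: `gam_point`. -/
theorem final_gam : ∃ c : ℝ, 1 ≤ c ∧ c ≤ 8 ∧ ∀ ε : ℝ, 0 < ε → ∃ η : ℝ, 0 < η ∧
    ∀ (α : Type) [DecidableEq α] [Fintype α] (L : Law α) (o : α), 0 < L.p o →
      ∑ a ∈ univ.erase o, L.p a ^ 2 ≤ η * L.p o ^ 2 →
      |gam L - L.p o - c * (∑ a ∈ univ.erase o, L.p a ^ 2) / L.p o| ≤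
        ε * (∑ a ∈ univ.erase o, L.p a ^ 2) / L.p o := by
  obtain ⟨c, hc1, hc8, h⟩ := exists_c
  refine ⟨c, hc1, hc8, ?_⟩
  intro ε hε
  obtain ⟨η, hη, hη'⟩ := h ε hε
  refine ⟨η, hη, ?_⟩
  intro α _ _ L o hm hS
  set S : ℝ := ∑ a ∈ univ.erase o, L.p a ^ 2 with hSdef
  have hrr : rr L o = S / L.p o ^ 2 := rfl
  have hS0 : 0 ≤ S := Finset.sum_nonneg fun a _ => sq_nonneg _
  rcases hS0.eq_or_lt with h0 | h0
  · have h1 : rr L o = 0 := by
      rw [hrr, ← h0, zero_div]
    obtain ⟨h2, h3⟩ := gam_point hm h1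
    rw [← h0, h2, h3]
    simp
  · have h1 : 0 < rr L o := by
      rw [hrr]
      positivity
    have h2 : rr L o ≤ η := by
      rw [hrr, div_le_iff₀ (by positivity)]
      exact hS
    have h3 := hη' α L o hm h1 h2
    have h4 : gam L - L.p o - c * S / L.p o = (rat L o - c) * (S / L.p o) := by
      have h5 : rat L o * rr L o = gam L / L.p o - 1 := by
        unfold rat
        field_simp
      have h6 : S / L.p o = rr L o * L.p o := by
        rw [hrr]
        field_simp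
      have h7 : (rat L o - c) * (S / L.p o) = rat L o * rr L o * L.p o - c * (S / L.p o) := by
        rw [sub_mul, h6]
        ring
      rw [h7, h5]
      field_simp
    rw [h4, abs_mul, abs_of_pos (div_pos h0 hm), mul_div_assoc]
    exact mul_le_mul_of_nonneg_right h3 (div_pos h0 hm).le

end NV
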