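import Pool.Agent.Lib.MP_ae6bb1_pr.NV.Lc

/-! Sums over strings: masses, concatenation, splitting at a letter. -/

open Finset LCSH
open scoped ENNReal

namespace NV

variable {α : Type} [DecidableEq α] [Fintype α] (L : Law α) (o : α)

theorem wt_append (x y : List α) : wt L (x ++ y) = wt L x * wt L y := by
  unfold wt
  rw [List.map_append, List.prod_append]

theorem wt_cons (a : α) (x : List α) : wt L (a :: x) = ENNReal.ofReal (L.p a) * wt L x := by
  unfold wt
  rw [List.map_cons, List.prod_cons]

theorem SS_mono {b : Bool} {n : ℕ} {g h : List α → ℝ≥0∞}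
    (hgh : ∀ x, Z o x = n → (b = true → isB o x) → g x ≤ h x) : SS L o b n g ≤ SS L o b n h := by
  unfold SS
  refine ENNReal.tsum_le_tsum fun x => ?_
  by_cases hx : Z o x = n ∧ (b = true → isB o x)
  · rw [if_pos hx, if_pos hx]
    gcongr
    exact hgh x hx.1 hx.2
  · rw [if_neg hx, if_neg hx]

theorem SS_add (b : Bool) (n : ℕ) (g h : List α → ℝ≥0∞) :
    SS L o b n (fun x => g x + h x) = SS L o b n g + SS L o b n h := by
  unfold SS
  rw [← ENNReal.tsum_add]
  refine tsum_congr fun x => ?_
  by_cases hx : Z o x = n ∧ (b = true → isB o x)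
  · rw [if_pos hx, if_pos hx, if_pos hx, mul_add]
  · rw [if_neg hx, if_neg hx, if_neg hx, add_zero]

theorem SS_const_mul (b : Bool) (n : ℕ) (c : ℝ≥0∞) (g : List α → ℝ≥0∞) :
    SS L o b n (fun x => c * g x) = c * SS L o b n g := by
  unfold SS
  rw [← ENNReal.tsum_mul_left]
  refine tsum_congr fun x => ?_
  by_cases hx : Z o x = n ∧ (b = true → isB o x)
  · rw [if_pos hx, if_pos hx]
    ring
  · rw [if_neg hx, if_neg hx, mul_zero]

theorem SS_tsum {ι : Type} (b : Bool) (n : ℕ) (g : ι → List α → ℝ≥0∞) :
    SS L o b n (fun x => ∑' i, g i x) = ∑' i, SS L o b n (g i) := by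
  unfold SS
  rw [ENNReal.tsum_comm]
  refine tsum_congr fun x => ?_
  by_cases hx : Z o x = n ∧ (b = true → isB o x)
  · simp only [if_pos hx]
    rw [ENNReal.tsum_mul_left]
  · simp only [if_neg hx]
    rw [tsum_zero]

/-! ### The total masses -/

omit [DecidableEq α] in
/-- a sum over all lists, split at the head -/
private theorem tsum_list (f : List α → ℝ≥0∞) :
    ∑' x, f x = f [] + ∑ a, ∑' x : List α, f (a :: x) := by
  classical
  rw [ENNReal.tsum_eq_add_tsum_ite ([] : List α)]
  congr 1
  have hg : Function.Injective (fun q : α × List α => q.1 :: q.2) := by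
    rintro ⟨a, x⟩ ⟨b, y⟩ h
    simp only [List.cons.injEq] at h
    exact Prod.ext h.1 h.2
  have h1 := hg.tsum_eq (f := fun x : List α => if x = [] then 0 else f x) (by
    intro x hx
    rw [Function.mem_support] at hx
    cases x with
    | nil => exact absurd (if_pos rfl) hx
    | cons a x => exact ⟨(a, x), rfl⟩)
  have h2 : (∑' x : List α, if x = [] then 0 else f x) = ∑' c : α × List α, f (c.1 :: c.2) := by
    rw [← h1]
    exact tsum_congr fun c => if_neg (List.cons_ne_nil _ _)
  refine (tsum_congr fun x => ?_).trans (h2.trans ?_)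
  · by_cases h : x = []
    · rw [if_pos h, if_pos h]
    · rw [if_neg h, if_neg h]
  · rw [ENNReal.tsum_prod', tsum_fintype]

omit [Fintype α] in
private theorem isB_cons (a : α) (x : List α) :
    isB o (a :: x) ↔ isB o x ∧ (x = [] → a = o) := by
  constructor
  · intro h
    refine ⟨fun y c hc => h (a :: y) c (by rw [hc, List.cons_append]), fun hx => h [] a ?_⟩
    rw [hx, List.nil_append]
  · rintro ⟨h1, h2⟩ y c hc
    cases y with
    | nil =>
      rw [List.nil_append, List.cons.injEq] at hc
      rw [← hc.1]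
      exact h2 hc.2
    | cons d y =>
      rw [List.cons_append, List.cons.injEq] at hc
      exact h1 y c hc.2

omit [DecidableEq α] [Fintype α] in
private theorem isB_nil : isB o ([] : List α) := by
  intro y c hc
  simp at hc

omit [Fintype α] in
private theorem Z_nil : Z o ([] : List α) = 0 := by simp [Z]

private noncomputable def mu : ℝ≥0∞ := ENNReal.ofReal (L.p o)
private noncomputable def nu : ℝ≥0∞ := ∑ a ∈ univ.erase o, ENNReal.ofReal (L.p a)

private theorem mu_add_nu : mu L o + nu L o = 1 := by
  unfold mu nu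
  rw [Finset.add_sum_erase univ (fun a => ENNReal.ofReal (L.p a)) (mem_univ o),
    ← ENNReal.ofReal_sum_of_nonneg (fun a _ => L.nonneg a), L.sum_one, ENNReal.ofReal_one]

private theorem nu_ne_top : nu L o ≠ ∞ := by
  unfold nu
  exact ENNReal.sum_ne_top.2 fun a _ => ENNReal.ofReal_ne_top

/-- splitting the sum over the letters -/
private theorem sum_letters (f : α → ℝ≥0∞) (c d : ℝ≥0∞) (h1 : f o = mu L o * c)
    (h2 : ∀ a, a ≠ o → f a = ENNReal.ofReal (L.p a) * d) : ∑ a, f a = mu L o * c + nu L o * d := by
  rw [← Finset.add_sum_erase univ f (mem_univ o), h1]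
  congr 1
  unfold nu
  rw [Finset.sum_mul]
  exact sum_congr rfl fun a ha => h2 a (ne_of_mem_erase ha)

/-- the recursion for the truncated sums -/
private theorem trunc_le (hm : 0 < L.p o) (k : ℕ) : ∀ n : ℕ,
    (∑' x : List α, if x.length < k ∧ Z o x = n then wt L x else 0) ≤ (mu L o)⁻¹ := by
  have hmu0 : mu L o ≠ 0 := by
    unfold mu
    exact (ENNReal.ofReal_pos.2 hm).ne'
  have hmut : mu L o ≠ ∞ := ENNReal.ofReal_ne_top
  induction k with
  | zero =>
    intro n
    simp
  | succ k ih =>
    intro n
    rw [tsum_list]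
    cases n with
    | zero =>
      have h0 : (if ([] : List α).length < k + 1 ∧ Z o ([] : List α) = 0 then wt L [] else 0) = 1 := by
        rw [if_pos ⟨Nat.succ_pos k, Z_nil o⟩]
        simp [wt]
      have h1 : (∑ a, ∑' x : List α,
          if (a :: x).length < k + 1 ∧ Z o (a :: x) = 0 then wt L (a :: x) else 0) =
          mu L o * 0 + nu L o *
            ∑' x : List α, if x.length < k ∧ Z o x = 0 then wt L x else 0 := by
        refine sum_letters L o _ _ _ ?_ ?_
        · rw [mul_zero, ENNReal.tsum_eq_zero]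
          intro x
          rw [if_neg]
          rintro ⟨-, h⟩
          rw [Z_cons_self] at h
          exact Nat.succ_ne_zero _ h
        · intro a ha
          rw [← ENNReal.tsum_mul_left]
          refine tsum_congr fun x => ?_
          by_cases h : x.length < k ∧ Z o x = 0
          · rw [if_pos h, if_pos ⟨by rw [List.length_cons]; omega, by rw [Z_cons_ne ha]; exact h.2⟩,
              wt_cons]
          · rw [if_neg h, if_neg, mul_zero]
            rintro ⟨h2, h3⟩
            rw [Z_cons_ne ha] at h3
            rw [List.length_cons] at h2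
            exact h ⟨by omega, h3⟩
      rw [h0, h1, mul_zero, zero_add]
      calc 1 + nu L o * _ ≤ 1 + nu L o * (mu L o)⁻¹ := by gcongr; exact ih 0
        _ = mu L o * (mu L o)⁻¹ + nu L o * (mu L o)⁻¹ := by rw [ENNReal.mul_inv_cancel hmu0 hmut]
        _ = (mu L o)⁻¹ := by rw [← add_mul, mu_add_nu, one_mul]
    | succ n =>
      have h0 : (if ([] : List α).length < k + 1 ∧ Z o ([] : List α) = n + 1 then wt L [] else 0) = 0 := by
        rw [if_neg]
        rintro ⟨-, h⟩
        rw [Z_nil] at h
        exact Nat.succ_ne_zero _ h.symm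
      have h1 : (∑ a, ∑' x : List α,
          if (a :: x).length < k + 1 ∧ Z o (a :: x) = n + 1 then wt L (a :: x) else 0) =
          mu L o * (∑' x : List α, if x.length < k ∧ Z o x = n then wt L x else 0) + nu L o *
            ∑' x : List α, if x.length < k ∧ Z o x = n + 1 then wt L x else 0 := by
        refine sum_letters L o _ _ _ ?_ ?_
        · rw [← ENNReal.tsum_mul_left]
          refine tsum_congr fun x => ?_
          by_cases h : x.length < k ∧ Z o x = n
          · rw [if_pos h, if_pos ⟨by rw [List.length_cons]; omega, by rw [Z_cons_self, h.2]⟩,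
              wt_cons]
            rfl
          · rw [if_neg h, if_neg, mul_zero]
            rintro ⟨h2, h3⟩
            rw [Z_cons_self] at h3
            rw [List.length_cons] at h2
            exact h ⟨by omega, by omega⟩
        · intro a ha
          rw [← ENNReal.tsum_mul_left]
          refine tsum_congr fun x => ?_
          by_cases h : x.length < k ∧ Z o x = n + 1
          · rw [if_pos h, if_pos ⟨by rw [List.length_cons]; omega, by rw [Z_cons_ne ha]; exact h.2⟩,
              wt_cons]
          · rw [if_neg h, if_neg, mul_zero]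
            rintro ⟨h2, h3⟩
            rw [Z_cons_ne ha] at h3
            rw [List.length_cons] at h2
            exact h ⟨by omega, h3⟩
      rw [h0, h1, zero_add]
      calc mu L o * _ + nu L o * _ ≤ mu L o * (mu L o)⁻¹ + nu L o * (mu L o)⁻¹ := by
            gcongr
            · exact ih n
            · exact ih (n + 1)
        _ = (mu L o)⁻¹ := by rw [← add_mul, mu_add_nu, one_mul]

private theorem SS_one_le (hm : 0 < L.p o) (b : Bool) (n : ℕ) :
    SS L o b n (fun _ => 1) ≤ (mu L o)⁻¹ := by
  unfold SS
  rw [ENNReal.tsum_eq_iSup_sum]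
  refine iSup_le fun s => ?_
  refine le_trans ?_ (trunc_le L o hm (s.sup List.length + 1) n)
  refine le_trans ?_ (ENNReal.sum_le_tsum s)
  refine sum_le_sum fun x hx => ?_
  by_cases h : Z o x = n ∧ (b = true → isB o x)
  · rw [if_pos h, if_pos ⟨Nat.lt_succ_of_le (Finset.le_sup (f := List.length) hx), h.1⟩, mul_one]
  · rw [if_neg h]
    exact zero_le

private theorem SS_one_ne_top (hm : 0 < L.p o) (b : Bool) (n : ℕ) :
    SS L o b n (fun _ => 1) ≠ ∞ := by
  refine ne_top_of_le_ne_top ?_ (SS_one_le L o hm b n)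
  exact ENNReal.inv_ne_top.2 (ENNReal.ofReal_pos.2 hm).ne'

private theorem SS_one_succ (b : Bool) (n : ℕ) : SS L o b (n + 1) (fun _ => 1) =
    mu L o * SS L o b n (fun _ => 1) + nu L o * SS L o b (n + 1) (fun _ => 1) := by
  have h0 := tsum_list (α := α) (fun x => open Classical in
    if Z o x = n + 1 ∧ (b = true → isB o x) then wt L x * 1 else 0)
  have h1 : SS L o b (n + 1) (fun _ => 1) = ∑' x : List α, open Classical in
    if Z o x = n + 1 ∧ (b = true → isB o x) then wt L x * 1 else 0 := rfl
  rw [h1] at *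
  conv_lhs => rw [h0]
  rw [if_neg (by
    rintro ⟨h, -⟩
    rw [Z_nil] at h
    exact Nat.succ_ne_zero _ h.symm), zero_add]
  refine sum_letters L o _ _ _ ?_ ?_
  · unfold SS
    rw [← ENNReal.tsum_mul_left]
    refine tsum_congr fun x => ?_
    have h2 : (Z o (o :: x) = n + 1 ∧ (b = true → isB o (o :: x))) ↔
        (Z o x = n ∧ (b = true → isB o x)) := by
      rw [Z_cons_self, isB_cons, Nat.add_right_cancel_iff]
      simp
    by_cases h : Z o x = n ∧ (b = true → isB o x)
    · rw [if_pos h, if_pos (h2.2 h), wt_cons, mul_one, mul_one]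
      rfl
    · rw [if_neg h, if_neg (fun h' => h (h2.1 h')), mul_zero]
  · intro a ha
    rw [← ENNReal.tsum_mul_left]
    refine tsum_congr fun x => ?_
    have h2 : (Z o (a :: x) = n + 1 ∧ (b = true → isB o (a :: x))) ↔
        (Z o x = n + 1 ∧ (b = true → isB o x)) := by
      rw [Z_cons_ne ha, isB_cons]
      constructor
      · rintro ⟨h3, h4⟩
        exact ⟨h3, fun hb => (h4 hb).1⟩
      · rintro ⟨h3, h4⟩
        refine ⟨h3, fun hb => ⟨h4 hb, fun hx => ?_⟩⟩
        rw [hx, Z_nil] at h3
        exact absurd h3.symm (Nat.succ_ne_zero _)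
    by_cases h : Z o x = n + 1 ∧ (b = true → isB o x)
    · rw [if_pos h, if_pos (h2.2 h), wt_cons, mul_one, mul_one]
    · rw [if_neg h, if_neg (fun h' => h (h2.1 h')), mul_zero]

private theorem SS_one_zero_true : SS L o true 0 (fun _ => 1) = 1 := by
  unfold SS
  rw [tsum_list]
  rw [if_pos ⟨Z_nil o, fun _ => isB_nil o⟩]
  have h1 : (∑ a, ∑' x : List α, open Classical in
      if Z o (a :: x) = 0 ∧ (true = true → isB o (a :: x)) then wt L (a :: x) * 1 else 0) = 0 := by
    refine sum_eq_zero fun a _ => ?_
    rw [ENNReal.tsum_eq_zero]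
    intro x
    rw [if_neg]
    rintro ⟨h, h'⟩
    have hB := h' rfl
    have h2 : ∃ y c, a :: x = y ++ [c] := by
      refine ⟨(a :: x).dropLast, (a :: x).getLast (List.cons_ne_nil a x), ?_⟩
      exact (List.dropLast_append_getLast _).symm
    obtain ⟨y, c, hc⟩ := h2
    have h3 := hB y c hc
    unfold Z at h
    rw [hc, h3] at h
    simp at h
  rw [h1]
  simp [wt]

private theorem SS_one_zero_false :
    SS L o false 0 (fun _ => 1) = 1 + nu L o * SS L o false 0 (fun _ => 1) := by
  have h0 := tsum_list (α := α) (fun x => open Classical in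
    if Z o x = 0 ∧ (false = true → isB o x) then wt L x * 1 else 0)
  have h1 : SS L o false 0 (fun _ => 1) = ∑' x : List α, open Classical in
    if Z o x = 0 ∧ (false = true → isB o x) then wt L x * 1 else 0 := rfl
  rw [h1] at *
  conv_lhs => rw [h0]
  rw [if_pos ⟨Z_nil o, fun h => absurd h (by decide)⟩]
  congr 1
  · simp [wt]
  have h2 : ∀ c : ℝ≥0∞, nu L o * c = mu L o * 0 + nu L o * c := fun c => by
    rw [mul_zero, zero_add]
  rw [h2]
  refine sum_letters L o _ _ _ ?_ ?_
  · rw [mul_zero, ENNReal.tsum_eq_zero]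
    intro x
    rw [if_neg]
    rintro ⟨h, -⟩
    rw [Z_cons_self] at h
    exact Nat.succ_ne_zero _ h
  · intro a ha
    rw [← ENNReal.tsum_mul_left]
    refine tsum_congr fun x => ?_
    have h2 : (Z o (a :: x) = 0 ∧ (false = true → isB o (a :: x))) ↔
        (Z o x = 0 ∧ (false = true → isB o x)) := by
      rw [Z_cons_ne ha]
      simp
    by_cases h : Z o x = 0 ∧ (false = true → isB o x)
    · rw [if_pos h, if_pos (h2.2 h), wt_cons, mul_one, mul_one]
    · rw [if_neg h, if_neg (fun h' => h (h2.1 h')), mul_zero]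

/-- `M = A + ν M` and `M < ∞` give `μ M = A` -/
private theorem fix_eq {M A : ℝ≥0∞} (hM : M ≠ ∞) (h : M = A + nu L o * M) : mu L o * M = A := by
  have h1 : mu L o * M + nu L o * M = A + nu L o * M := by
    rw [← add_mul, mu_add_nu, one_mul]
    exact h
  exact (ENNReal.add_left_inj (ENNReal.mul_ne_top (nu_ne_top L o) hM)).1 h1

/-- The total masses. Proof: a string with `n` zeros is `w₀ o w₁ o … o w_n` with words `w_i` without `o`; the sum of the weights of
the words without `o` is `1 / m` (`∑_j (1 - m)^j`; in `ℝ≥0∞`: `W = 1 + (1 - m) W`, `W ≤ ∑_j (1 - m)^j`). Induction on `n`: a string with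
`n + 1` zeros is uniquely `w ++ o :: x'` with `o ∉ w` and `Z x' = n`; and `isB (w ++ o :: x') ↔ isB x'`. -/
theorem SS_one (hm : 0 < L.p o) (b : Bool) (n : ℕ) : SS L o b n (fun _ => 1) = Ms L o b := by
  have hmu0 : mu L o ≠ 0 := (ENNReal.ofReal_pos.2 hm).ne'
  have hmut : mu L o ≠ ∞ := ENNReal.ofReal_ne_top
  induction n with
  | zero =>
    cases b with
    | true => rw [SS_one_zero_true]; rfl
    | false =>
      have h := fix_eq L o (SS_one_ne_top L o hm false 0) (SS_one_zero_false L o)
      have h2 : SS L o false 0 (fun _ => 1) = (mu L o)⁻¹ := by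
        rw [← ENNReal.inv_mul_cancel_left' (fun h => absurd h hmu0) (fun h => absurd h hmut)
          (b := SS L o false 0 (fun _ => 1)), h, mul_one]
      rw [h2]
      rfl
  | succ n ih =>
    have h := fix_eq L o (SS_one_ne_top L o hm b (n + 1)) (SS_one_succ L o b n)
    rw [← ih]
    exact (ENNReal.mul_right_inj hmu0 hmut).1 h

end NV
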