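import Pool.Agent.Lib.MP_ae6bb1_pr.NV.Mass

/-! Concatenation of blocks. -/

open Finset LCSH
open scoped ENNReal

namespace NV

section splitting
variable {α : Type} [DecidableEq α] (o : α)

omit [DecidableEq α] in
theorem mbB_nil : isB o ([] : List α) := by
  intro y a h
  simp at h

omit [DecidableEq α] in
theorem mbB_tail {a : α} {x : List α} (h : isB o (a :: x)) : isB o x := by
  intro y b hy
  exact h (a :: y) b (by rw [hy, List.cons_append])

omit [DecidableEq α] in
theorem mbB_cons {a : α} {x : List α} (h : isB o x) (ha : x = [] → a = o) : isB o (a :: x) := by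
  intro y b hy
  cases y with
  | nil =>
    rw [List.nil_append, List.cons.injEq] at hy
    rw [← hy.1]
    exact ha hy.2
  | cons c y =>
    rw [List.cons_append, List.cons.injEq] at hy
    exact h y b hy.2

omit [DecidableEq α] in
theorem mbB_append {x x' : List α} (hx : isB o x) (hx' : isB o x') : isB o (x ++ x') := by
  induction x with
  | nil => simpa using hx'
  | cons a x ih =>
    rw [List.cons_append]
    refine mbB_cons o (ih (mbB_tail o hx)) fun h => ?_
    rw [List.append_eq_nil_iff] at h
    refine hx [] a ?_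
    rw [h.1, List.nil_append]

theorem mbB_zero {x : List α} (hx : isB o x) (h : Z o x = 0) : x = [] := by
  rcases List.eq_nil_or_concat x with h1 | ⟨y, a, h1⟩
  · exact h1
  · exfalso
    rw [List.concat_eq_append] at h1
    have ha : a = o := hx y a h1
    rw [h1, ha] at h
    unfold Z at h
    rw [List.count_append] at h
    simp at h

omit [DecidableEq α] in
theorem mbB_right {x a : List α} (hx : isB o (x ++ a)) : isB o a := by
  intro y b hy
  exact hx (x ++ y) b (by rw [hy, List.append_assoc])

theorem mbB_unique {x x' y y' : List α} (h : x ++ x' = y ++ y') (hz : Z o x = Z o y)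
    (hx : isB o x) (hy : isB o y) : x = y ∧ x' = y' := by
  have hZ : ∀ u v : List α, Z o (u ++ v) = Z o u + Z o v := fun u v => List.count_append
  rcases List.append_eq_append_iff.1 h with ⟨a, h1, h2⟩ | ⟨a, h1, h2⟩
  · have ha : a = [] := by
      refine mbB_zero o (mbB_right o (x := x) (h1 ▸ hy)) ?_
      rw [h1, hZ] at hz
      omega
    rw [ha] at h1 h2
    simp at h1 h2
    exact ⟨h1.symm, h2⟩
  · have ha : a = [] := by
      refine mbB_zero o (mbB_right o (x := y) (h1 ▸ hx)) ?_
      rw [h1, hZ] at hz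
      omega
    rw [ha] at h1 h2
    simp at h1 h2
    exact ⟨h1, h2.symm⟩

theorem mbB_exists : ∀ (z : List α) (n n' : ℕ), Z o z = n + n' → isB o z →
    ∃ x x' : List α, z = x ++ x' ∧ (Z o x = n ∧ isB o x) ∧ (Z o x' = n' ∧ isB o x') := by
  intro z
  induction z with
  | nil =>
    intro n n' h _
    have h0 : Z o ([] : List α) = 0 := rfl
    refine ⟨[], [], rfl, ⟨?_, mbB_nil o⟩, ?_, mbB_nil o⟩
    · omega
    · omega
  | cons a z ih =>
    intro n n' h hB
    have h0 : Z o ([] : List α) = 0 := rfl
    by_cases hn : n = 0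
    · refine ⟨[], a :: z, rfl, ⟨by omega, mbB_nil o⟩, by omega, hB⟩
    · obtain ⟨k, rfl⟩ : ∃ k, n = k + 1 := ⟨n - 1, by omega⟩
      by_cases ha : a = o
      · have h1 : Z o (a :: z) = Z o z + 1 := by
          unfold Z
          rw [ha, List.count_cons_self]
        obtain ⟨x, x', h2, ⟨h3, h4⟩, h5⟩ := ih k n' (by omega) (mbB_tail o hB)
        refine ⟨a :: x, x', by rw [h2, List.cons_append], ⟨?_, mbB_cons o h4 fun _ => ha⟩, h5⟩
        have h6 : Z o (a :: x) = Z o x + 1 := by
          unfold Z
          rw [ha, List.count_cons_self]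
        omega
      · have h1 : Z o (a :: z) = Z o z := by
          unfold Z
          rw [List.count_cons_of_ne ha]
        obtain ⟨x, x', h2, ⟨h3, h4⟩, h5⟩ := ih (k + 1) n' (by omega) (mbB_tail o hB)
        refine ⟨a :: x, x', by rw [h2, List.cons_append], ⟨?_, mbB_cons o h4 fun h7 => ?_⟩, h5⟩
        · have h6 : Z o (a :: x) = Z o x := by
            unfold Z
            rw [List.count_cons_of_ne ha]
          omega
        · exfalso
          rw [h7] at h3
          omega

end splitting

variable {α : Type} [DecidableEq α] [Fintype α] (L : Law α) (o : α)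

/-- Concatenation of blocks. Proof: a block with `n + n'` zeros is uniquely `x ++ x'` with `x` a block with `n` zeros, `x'` a block with `n'`
zeros. -/
theorem SS_append (n n' : ℕ) (g : List α → ℝ≥0∞) :
    SS L o true (n + n') g = SS L o true n fun x => SS L o true n' fun x' => g (x ++ x') := by
  classical
  have hR : (SS L o true n fun x => SS L o true n' fun x' => g (x ++ x')) =
      ∑' p : List α × List α,
        if (Z o p.1 = n ∧ isB o p.1) ∧ (Z o p.2 = n' ∧ isB o p.2) then
          wt L p.1 * (wt L p.2 * g (p.1 ++ p.2)) else 0 := by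
    rw [ENNReal.tsum_prod']
    unfold SS
    refine tsum_congr fun x => ?_
    by_cases hx : Z o x = n ∧ isB o x
    · rw [if_pos ⟨hx.1, fun _ => hx.2⟩, ← ENNReal.tsum_mul_left]
      refine tsum_congr fun x' => ?_
      by_cases hx' : Z o x' = n' ∧ isB o x'
      · rw [if_pos ⟨hx'.1, fun _ => hx'.2⟩, if_pos ⟨hx, hx'⟩]
      · rw [if_neg fun h => hx' ⟨h.1, h.2 rfl⟩, if_neg fun h => hx' h.2, mul_zero]
    · rw [if_neg fun h => hx ⟨h.1, h.2 rfl⟩]
      symm
      rw [ENNReal.tsum_eq_zero]
      intro x'
      rw [if_neg fun h => hx h.1]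
  rw [hR]
  unfold SS
  have hsup : ∀ p : Function.support (fun p : List α × List α =>
        if (Z o p.1 = n ∧ isB o p.1) ∧ (Z o p.2 = n' ∧ isB o p.2) then
          wt L p.1 * (wt L p.2 * g (p.1 ++ p.2)) else 0),
      (Z o p.1.1 = n ∧ isB o p.1.1) ∧ (Z o p.1.2 = n' ∧ isB o p.1.2) := by
    intro p
    by_contra hc
    exact p.2 (if_neg hc)
  refine tsum_eq_tsum_of_ne_zero_bij (fun p => p.1.1 ++ p.1.2) ?_ ?_ ?_
  · intro p q h
    obtain ⟨h1, h2⟩ := mbB_unique o h ((hsup p).1.1.trans (hsup q).1.1.symm) (hsup p).1.2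
      (hsup q).1.2
    exact Subtype.ext (Prod.ext h1 h2)
  · intro z hz
    have hz1 : Z o z = n + n' ∧ isB o z := by
      by_contra hc
      exact hz (if_neg fun h => hc ⟨h.1, h.2 rfl⟩)
    obtain ⟨x, x', h1, h2, h3⟩ := mbB_exists o z n n' hz1.1 hz1.2
    refine ⟨⟨(x, x'), ?_⟩, h1.symm⟩
    intro h4
    refine hz ?_
    simp only [] at h4
    rw [if_pos ⟨h2, h3⟩, ← mul_assoc, ← wt_append, ← h1] at h4
    simp only []
    rw [if_pos ⟨hz1.1, fun _ => hz1.2⟩]
    exact h4
  · intro p
    have h := hsup p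
    have hZ : Z o (p.1.1 ++ p.1.2) = n + n' := by
      have h1 : Z o (p.1.1 ++ p.1.2) = Z o p.1.1 + Z o p.1.2 := List.count_append
      rw [h1, h.1.1, h.2.1]
    rw [if_pos h, if_pos ⟨hZ, fun _ => mbB_append o h.1.2 h.2.2⟩, wt_append, mul_assoc]

end NV
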