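import Pool.Agent.Lib.MP_ae6bb1_pr.NV.Mass

/-! Splitting at a letter. -/

open Finset LCSH
open scoped ENNReal

namespace NV

variable {α : Type} [DecidableEq α] [Fintype α] (L : Law α) (o : α)

omit [Fintype α] in
private theorem isB_of_append_cons {x₀ x' : List α} {a : α} (h : isB o (x₀ ++ a :: x')) :
    isB o x' := by
  intro y c hy
  refine h (x₀ ++ a :: y) c ?_
  rw [hy, List.append_assoc, List.cons_append]

/-- Splitting at a letter `≠ o` after `i` zeros. Proof: exchange the sums over `x` and over `q`; `x` is determined by `q`,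
`wt x = wt x₀ p a wt x'`, `Z x' = n - i`, and `isB x → isB x'`. -/
theorem SS_split_at (b : Bool) (n i : ℕ) (F : List α → α → List α → ℝ≥0∞) :
    (SS L o b n fun x => ∑' q : List α × α × List α, open Classical in
      if q.2.1 ≠ o ∧ Z o q.1 = i ∧ x = q.1 ++ q.2.1 :: q.2.2 then F q.1 q.2.1 q.2.2 else 0) ≤
      SS L o false i fun x₀ => ∑ a ∈ univ.erase o,
        ENNReal.ofReal (L.p a) * SS L o b (n - i) fun x' => F x₀ a x' := by
  classical
  set G : List α × α × List α → ℝ≥0∞ := fun q =>
    if q.2.1 ≠ o ∧ Z o q.1 = i ∧ Z o q.2.2 = n - i ∧ (b = true → isB o q.2.2) then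
      wt L q.1 * (ENNReal.ofReal (L.p q.2.1) * (wt L q.2.2 * F q.1 q.2.1 q.2.2)) else 0 with hG
  have h1 : (SS L o b n fun x => ∑' q : List α × α × List α,
      if q.2.1 ≠ o ∧ Z o q.1 = i ∧ x = q.1 ++ q.2.1 :: q.2.2 then F q.1 q.2.1 q.2.2 else 0) ≤
      ∑' q, G q := by
    have e1 : (SS L o b n fun x => ∑' q : List α × α × List α,
      if q.2.1 ≠ o ∧ Z o q.1 = i ∧ x = q.1 ++ q.2.1 :: q.2.2 then F q.1 q.2.1 q.2.2 else 0) =
      ∑' q : List α × α × List α, ∑' x : List α,
        if Z o x = n ∧ (b = true → isB o x) then wt L x *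
          (if q.2.1 ≠ o ∧ Z o q.1 = i ∧ x = q.1 ++ q.2.1 :: q.2.2 then
            F q.1 q.2.1 q.2.2 else 0) else 0 := by
      unfold SS
      rw [ENNReal.tsum_comm]
      refine tsum_congr fun x => ?_
      by_cases hx : Z o x = n ∧ (b = true → isB o x)
      · simp only [if_pos hx]
        rw [ENNReal.tsum_mul_left]
      · simp only [if_neg hx, tsum_zero]
    rw [e1]
    refine ENNReal.tsum_le_tsum fun q => ?_
    rw [tsum_eq_single (q.1 ++ q.2.1 :: q.2.2)]
    · by_cases hx : Z o (q.1 ++ q.2.1 :: q.2.2) = n ∧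
          (b = true → isB o (q.1 ++ q.2.1 :: q.2.2))
      · rw [if_pos hx]
        by_cases hq : q.2.1 ≠ o ∧ Z o q.1 = i
        · rw [if_pos ⟨hq.1, hq.2, rfl⟩]
          have hZ : Z o q.2.2 = n - i := by
            have h := hx.1
            unfold Z at h ⊢
            have h3 := hq.2
            unfold Z at h3
            rw [List.count_append, List.count_cons_of_ne hq.1, h3] at h
            omega
          have hcond : q.2.1 ≠ o ∧ Z o q.1 = i ∧ Z o q.2.2 = n - i ∧
              (b = true → isB o q.2.2) :=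
            ⟨hq.1, hq.2, hZ, fun hb => isB_of_append_cons o (hx.2 hb)⟩
          rw [hG]
          simp only [if_pos hcond]
          rw [wt_append, wt_cons]
          apply le_of_eq
          ring
        · rw [if_neg (fun h => hq ⟨h.1, h.2.1⟩), mul_zero]
          exact bot_le
      · rw [if_neg hx]
        exact bot_le
    · intro x hx
      by_cases hc : Z o x = n ∧ (b = true → isB o x)
      · rw [if_pos hc]
        have hn : ¬ (q.2.1 ≠ o ∧ Z o q.1 = i ∧ x = q.1 ++ q.2.1 :: q.2.2) := fun h => hx h.2.2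
        rw [if_neg hn, mul_zero]
      · exact if_neg hc
  refine h1.trans (le_of_eq ?_)
  rw [ENNReal.tsum_prod']
  unfold SS
  refine tsum_congr fun x₀ => ?_
  rw [ENNReal.tsum_prod']
  by_cases hx : Z o x₀ = i
  · rw [if_pos ⟨hx, fun h => absurd h (by decide)⟩]
    rw [tsum_fintype, ← Finset.sum_erase (a := o) univ]
    · rw [Finset.mul_sum]
      refine Finset.sum_congr rfl fun a ha => ?_
      have hao : a ≠ o := Finset.ne_of_mem_erase ha
      rw [← ENNReal.tsum_mul_left, ← ENNReal.tsum_mul_left]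
      refine tsum_congr fun x' => ?_
      rw [hG]
      by_cases hx' : Z o x' = n - i ∧ (b = true → isB o x')
      · simp only [if_pos hx']
        rw [if_pos ⟨hao, hx, hx'.1, hx'.2⟩]
      · simp only [if_neg hx']
        rw [if_neg (fun h => hx' h.2.2), mul_zero, mul_zero]
    · rw [ENNReal.tsum_eq_zero]
      intro x'
      rw [hG]
      exact if_neg fun h => h.1 rfl
  · rw [if_neg (fun h => hx h.1), ENNReal.tsum_eq_zero]
    intro a
    rw [ENNReal.tsum_eq_zero]
    intro x'
    rw [hG]
    exact if_neg fun h => hx h.2.1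

end NV
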