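import Mathlib

/-! An elementary inequality. -/

namespace NV

/-- The elementary inequality of the proof of `rat_le`. -/
theorem num_fin {ε : ℝ} (hε : 0 < ε) : ∃ k₀ : ℕ, 1 ≤ k₀ ∧ ∀ k : ℕ, k₀ ≤ k →
    (2 * (8 * (1000 * (k : ℝ) ^ 2 + 1)) + 1) * (Real.exp (11 / 10) + 1) + 400 * k + 1 ≤
      Real.exp (ε * k / 50 - 1) := by
  have hb : 0 < ε / 50 := by positivity
  set C : ℝ := 16017 * (Real.exp (11 / 10) + 1) + 401 with hC
  have hC0 : 0 < C := by positivity
  have h1 := (isLittleO_pow_exp_pos_mul_atTop 2 hb).comp_tendsto tendsto_natCast_atTop_atTop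
  have hc : 0 < Real.exp (-1) / C := by positivity
  have h2 := h1.bound hc
  rw [Filter.eventually_atTop] at h2
  obtain ⟨a, ha⟩ := h2
  refine ⟨max a 1, le_max_right _ _, fun k hk => ?_⟩
  have h3 := ha k ((le_max_left _ _).trans hk)
  have hk1 : 1 ≤ k := (le_max_right _ _).trans hk
  have hk1' : (1 : ℝ) ≤ k := by exact_mod_cast hk1
  simp only [Function.comp_apply, Real.norm_eq_abs, abs_pow, Real.abs_exp, Nat.abs_cast] at h3
  have h4 : C * (k : ℝ) ^ 2 ≤ Real.exp (-1) * Real.exp (ε / 50 * k) := by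
    have := mul_le_mul_of_nonneg_left h3 hC0.le
    calc C * (k : ℝ) ^ 2 ≤ C * (Real.exp (-1) / C * Real.exp (ε / 50 * k)) := this
      _ = _ := by field_simp
  have h5 : Real.exp (ε * k / 50 - 1) = Real.exp (-1) * Real.exp (ε / 50 * k) := by
    rw [← Real.exp_add]; congr 1; ring
  rw [h5]
  refine le_trans ?_ h4
  have hE : 0 < Real.exp (11 / 10) + 1 := by positivity
  have hk2 : (k : ℝ) ≤ (k : ℝ) ^ 2 := by nlinarith
  have hk3 : (1 : ℝ) ≤ (k : ℝ) ^ 2 := by nlinarith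
  have e1 : (2 * (8 * (1000 * (k : ℝ) ^ 2 + 1)) + 1) ≤ 16017 * (k : ℝ) ^ 2 := by nlinarith
  have e2 := mul_le_mul_of_nonneg_right e1 hE.le
  rw [hC]
  nlinarith

end NV
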