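import Pool.Agent.Lib.MP_ae6bb1_pr.NV.PrA

/-! Mini blocks: probabilities. -/

open Finset LCSH

namespace NV

/-- the cells of the window -/
def PrBW (w h : ℕ) : Finset (Fin h × Fin h) :=
  univ.filter fun c => (((c.2 : ℕ) : ℤ) - ((c.1 : ℕ) : ℤ)).natAbs ≤ w

/-- the cells of a diagonal -/
def PrBdg (h : ℕ) (d : ℤ) : Finset (Fin h × Fin h) :=
  univ.filter fun c => ((c.2 : ℕ) : ℤ) - ((c.1 : ℕ) : ℤ) = d

theorem mem_PrBW {w h : ℕ} {c : Fin h × Fin h} :
    c ∈ PrBW w h ↔ (((c.2 : ℕ) : ℤ) - ((c.1 : ℕ) : ℤ)).natAbs ≤ w := by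
  simp [PrBW]

theorem card_PrBW_row (w h : ℕ) (t : Fin h) :
    ((PrBW w h).filter (fun c => t = c.1)).card ≤ 2 * w + 1 := by
  have h1 : ((PrBW w h).filter (fun c => t = c.1)).card ≤
      (Finset.Icc (((t : ℕ) : ℤ) - w) (((t : ℕ) : ℤ) + w)).card := by
    refine Finset.card_le_card_of_injOn (fun c => ((c.2 : ℕ) : ℤ)) ?_ ?_
    · intro c hc
      have h2 := Finset.mem_filter.1 (Finset.mem_coe.1 hc)
      have h3 := mem_PrBW.1 h2.1
      have h4 : (t : ℕ) = (c.1 : ℕ) := by rw [h2.2]
      simp only [Finset.coe_Icc, Set.mem_Icc]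
      omega
    · intro c hc c' hc' hcc
      have h2 := Finset.mem_filter.1 (Finset.mem_coe.1 hc)
      have h2' := Finset.mem_filter.1 (Finset.mem_coe.1 hc')
      have h5 : ((c.2 : ℕ) : ℤ) = ((c'.2 : ℕ) : ℤ) := hcc
      refine Prod.ext (h2.2.symm.trans h2'.2) (Fin.ext (by omega))
  refine h1.trans ?_
  rw [Int.card_Icc]
  omega

theorem card_PrBW_col (w h : ℕ) (t : Fin h) :
    ((PrBW w h).filter (fun c => t = c.2)).card ≤ 2 * w + 1 := by
  have h1 : ((PrBW w h).filter (fun c => t = c.2)).card ≤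
      (Finset.Icc (((t : ℕ) : ℤ) - w) (((t : ℕ) : ℤ) + w)).card := by
    refine Finset.card_le_card_of_injOn (fun c => ((c.1 : ℕ) : ℤ)) ?_ ?_
    · intro c hc
      have h2 := Finset.mem_filter.1 (Finset.mem_coe.1 hc)
      have h3 := mem_PrBW.1 h2.1
      have h4 : (t : ℕ) = (c.2 : ℕ) := by rw [h2.2]
      simp only [Finset.coe_Icc, Set.mem_Icc]
      omega
    · intro c hc c' hc' hcc
      have h2 := Finset.mem_filter.1 (Finset.mem_coe.1 hc)
      have h2' := Finset.mem_filter.1 (Finset.mem_coe.1 hc')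
      have h5 : ((c.1 : ℕ) : ℤ) = ((c'.1 : ℕ) : ℤ) := hcc
      refine Prod.ext (Fin.ext (by omega)) (h2.2.symm.trans h2'.2)
  refine h1.trans ?_
  rw [Int.card_Icc]
  omega

theorem card_PrBW (w h : ℕ) : (PrBW w h).card ≤ h * (2 * w + 1) := by
  have h1 : (PrBW w h).card = ∑ t : Fin h, ((PrBW w h).filter (fun c => c.1 = t)).card :=
    Finset.card_eq_sum_card_fiberwise (fun _ _ => Finset.mem_coe.2 (Finset.mem_univ _))
  rw [h1]
  calc ∑ t : Fin h, ((PrBW w h).filter (fun c => c.1 = t)).card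
      ≤ ∑ _t : Fin h, (2 * w + 1) := by
        refine Finset.sum_le_sum fun t _ => ?_
        have h2 : (PrBW w h).filter (fun c => c.1 = t) = (PrBW w h).filter (fun c => t = c.1) := by
          ext c
          simp only [Finset.mem_filter, eq_comm]
        rw [h2]
        exact card_PrBW_row w h t
    _ = h * (2 * w + 1) := by
        rw [Finset.sum_const, Finset.card_univ, Fintype.card_fin, smul_eq_mul]

theorem card_PrBdg_le (h : ℕ) (d : ℤ) : (PrBdg h d).card ≤ h := by
  have h1 : (PrBdg h d).card ≤ (univ : Finset (Fin h)).card := by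
    refine Finset.card_le_card_of_injOn (fun c => c.1) (fun _ _ => Finset.mem_coe.2 (Finset.mem_univ _)) ?_
    intro c hc c' hc' hcc
    have h2 := (Finset.mem_filter.1 (Finset.mem_coe.1 hc)).2
    have h2' := (Finset.mem_filter.1 (Finset.mem_coe.1 hc')).2
    have h5 : c.1 = c'.1 := hcc
    refine Prod.ext h5 (Fin.ext ?_)
    rw [h5] at h2
    omega
  rwa [Finset.card_univ, Fintype.card_fin] at h1

theorem le_card_PrBdg (w h : ℕ) (d : ℤ) (hd : d.natAbs ≤ w) : h - w ≤ (PrBdg h d).card := by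
  have h1 : (univ : Finset (Fin (h - w))).card ≤ (PrBdg h d).card := by
    rcases le_or_gt 0 d with h0 | h0
    · refine Finset.card_le_card_of_injOn
        (fun t => ((⟨(t : ℕ), by have := t.2; omega⟩ : Fin h),
          (⟨(t : ℕ) + d.toNat, by have := t.2; omega⟩ : Fin h))) ?_ ?_
      · intro t _
        simp only [PrBdg, Finset.coe_filter, Finset.mem_univ, true_and, Set.mem_ofPred_eq]
        push_cast
        omega
      · intro t _ t' _ htt
        have h3 := congrArg (fun c : Fin h × Fin h => (c.1 : ℕ)) htt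
        exact Fin.ext h3
    · refine Finset.card_le_card_of_injOn
        (fun t => ((⟨(t : ℕ) + (-d).toNat, by have := t.2; omega⟩ : Fin h),
          (⟨(t : ℕ), by have := t.2; omega⟩ : Fin h))) ?_ ?_
      · intro t _
        simp only [PrBdg, Finset.coe_filter, Finset.mem_univ, true_and, Set.mem_ofPred_eq]
        push_cast
        omega
      · intro t _ t' _ htt
        have h3 := congrArg (fun c : Fin h × Fin h => (c.2 : ℕ)) htt
        exact Fin.ext h3
  rwa [Finset.card_univ, Fintype.card_fin] at h1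

variable {T : Type} [Fintype T] (Q : Md T)

theorem PrB_win (rel : T → T → Prop) [∀ a b, Decidable (rel a b)] (w : ℕ) {h : ℕ}
    (a b : Fin h → T) :
    win rel w a b = (PrBW w h).filter (fun c => rel (a c.1) (b c.2)) := by
  ext c
  simp only [win, PrBW, Finset.mem_filter, Finset.mem_univ, true_and]

theorem PrB_mono {N M : ℕ} {F G : (Fin N → T) → (Fin M → T) → ℝ} (h : ∀ A B, F A B ≤ G A B) :
    E2 Q.lam N M F ≤ E2 Q.lam N M G :=
  PE_mono (E2_isW Q N) fun A => PE_mono (E2_isW Q M) fun B => h A B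

theorem PrB_sum {κ : Type} {N M : ℕ} (s : Finset κ) (F : κ → (Fin N → T) → (Fin M → T) → ℝ) :
    E2 Q.lam N M (fun A B => ∑ c ∈ s, F c A B) = ∑ c ∈ s, E2 Q.lam N M (F c) := by
  unfold E2
  simp only [PE_sum]

theorem PrB_add {N M : ℕ} (F G : (Fin N → T) → (Fin M → T) → ℝ) :
    E2 Q.lam N M (fun A B => F A B + G A B) = E2 Q.lam N M F + E2 Q.lam N M G := by
  unfold E2
  simp only [PE_add]

open Classical in
theorem PrB_card_win_mul (rel : T → T → Prop) (w : ℕ) {h : ℕ} (a b : Fin h → T) :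
    ((win rel w a b).card : ℝ) * (((win rel w a b).card : ℝ) - 1) =
      ∑ p ∈ (PrBW w h).offDiag, ind (rel (a p.1.1) (b p.1.2) ∧ rel (a p.2.1) (b p.2.2)) := by
  have h1 : ∑ p ∈ (PrBW w h).offDiag, ind (rel (a p.1.1) (b p.1.2) ∧ rel (a p.2.1) (b p.2.2)) =
      (((PrBW w h).offDiag.filter
        (fun p => rel (a p.1.1) (b p.1.2) ∧ rel (a p.2.1) (b p.2.2))).card : ℝ) := by
    rw [Finset.card_filter]
    push_cast
    refine Finset.sum_congr rfl fun p _ => ?_
    unfold ind
    split_ifs <;> simp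
  have h2 : (PrBW w h).offDiag.filter
      (fun p => rel (a p.1.1) (b p.1.2) ∧ rel (a p.2.1) (b p.2.2)) = (win rel w a b).offDiag := by
    ext p
    rw [PrB_win]
    simp only [Finset.mem_filter, Finset.mem_offDiag]
    tauto
  rw [h1, h2, Finset.offDiag_card, Nat.cast_sub (Nat.le_mul_self _)]
  push_cast
  ring

/-- Ordered pairs of different related cells of the window. Proof: the window has at most `h (2 w + 1)` cells; at most `h (2 w + 1)^2` ordered pairs
of cells in the same row, and in the same column. -/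
theorem E2_pairs (w h : ℕ) :
    E2 Q.lam h h (fun a b => ((win Q.rel w a b).card : ℝ) * (((win Q.rel w a b).card : ℝ) - 1)) ≤
      pq w h Q.r Q.k := by
  classical
  have hr := r_nonneg Q
  have hk := k_nonneg Q
  simp only [PrB_card_win_mul]
  rw [PrB_sum]
  have h1 : ∑ p ∈ (PrBW w h).offDiag, E2 Q.lam h h
        (fun a b => ind (Q.rel (a p.1.1) (b p.1.2) ∧ Q.rel (a p.2.1) (b p.2.2))) ≤
      ∑ p ∈ (PrBW w h).offDiag, (Q.r ^ 2 + (if p.1.1 = p.2.1 then Q.k else 0) +
        (if p.1.2 = p.2.2 then Q.k else 0)) := by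
    refine Finset.sum_le_sum fun p hp => ?_
    have hne := (Finset.mem_offDiag.1 hp).2.2
    have hr2 : 0 ≤ Q.r ^ 2 := by positivity
    by_cases e1 : p.1.1 = p.2.1
    · by_cases e2 : p.1.2 = p.2.2
      · exact absurd (Prod.ext e1 e2) hne
      · rw [if_pos e1, if_neg e2, ← e1, E2_row Q _ e2]
        linarith
    · by_cases e2 : p.1.2 = p.2.2
      · rw [if_neg e1, if_pos e2, ← e2, E2_col Q e1 _]
        linarith
      · rw [if_neg e1, if_neg e2, E2_cells Q e1 e2]
        linarith
  refine h1.trans ?_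
  have h2 : ∑ p ∈ (PrBW w h).offDiag, (Q.r ^ 2 + (if p.1.1 = p.2.1 then Q.k else 0) +
        (if p.1.2 = p.2.2 then Q.k else 0)) ≤
      ∑ p ∈ (PrBW w h) ×ˢ (PrBW w h), (Q.r ^ 2 + (if p.1.1 = p.2.1 then Q.k else 0) +
        (if p.1.2 = p.2.2 then Q.k else 0)) := by
    refine Finset.sum_le_sum_of_subset_of_nonneg ?_ ?_
    · intro p hp
      have := Finset.mem_offDiag.1 hp
      exact Finset.mem_product.2 ⟨this.1, this.2.1⟩
    · intro p _ _
      have e1 : 0 ≤ (if p.1.1 = p.2.1 then Q.k else 0) := by split_ifs <;> simp [hk]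
      have e2 : 0 ≤ (if p.1.2 = p.2.2 then Q.k else 0) := by split_ifs <;> simp [hk]
      positivity
  refine h2.trans ?_
  have hW : ((PrBW w h).card : ℝ) ≤ h * (2 * w + 1) := by
    exact_mod_cast card_PrBW w h
  have hW0 : (0 : ℝ) ≤ ((PrBW w h).card : ℝ) := Nat.cast_nonneg _
  rw [Finset.sum_add_distrib, Finset.sum_add_distrib]
  have t1 : ∑ _p ∈ (PrBW w h) ×ˢ (PrBW w h), Q.r ^ 2 ≤ ((h : ℝ) * (2 * w + 1)) ^ 2 * Q.r ^ 2 := by
    rw [Finset.sum_const, Finset.card_product, nsmul_eq_mul]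
    refine mul_le_mul_of_nonneg_right ?_ (by positivity)
    push_cast
    rw [sq]
    exact mul_le_mul hW hW hW0 (by positivity)
  have t2 : ∑ p ∈ (PrBW w h) ×ˢ (PrBW w h), (if p.1.1 = p.2.1 then Q.k else 0) ≤
      (h : ℝ) * (2 * w + 1) ^ 2 * Q.k := by
    rw [Finset.sum_product]
    calc ∑ c ∈ PrBW w h, ∑ c' ∈ PrBW w h, (if c.1 = c'.1 then Q.k else 0)
        ≤ ∑ _c ∈ PrBW w h, (2 * (w : ℝ) + 1) * Q.k := by
          refine Finset.sum_le_sum fun c _ => ?_
          rw [← Finset.sum_filter, Finset.sum_const, nsmul_eq_mul]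
          refine mul_le_mul_of_nonneg_right ?_ hk
          exact_mod_cast card_PrBW_row w h c.1
      _ = ((PrBW w h).card : ℝ) * ((2 * (w : ℝ) + 1) * Q.k) := by
          rw [Finset.sum_const, nsmul_eq_mul]
      _ ≤ (h * (2 * w + 1)) * ((2 * (w : ℝ) + 1) * Q.k) :=
          mul_le_mul_of_nonneg_right hW (by positivity)
      _ = (h : ℝ) * (2 * w + 1) ^ 2 * Q.k := by ring
  have t3 : ∑ p ∈ (PrBW w h) ×ˢ (PrBW w h), (if p.1.2 = p.2.2 then Q.k else 0) ≤
      (h : ℝ) * (2 * w + 1) ^ 2 * Q.k := by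
    rw [Finset.sum_product]
    calc ∑ c ∈ PrBW w h, ∑ c' ∈ PrBW w h, (if c.2 = c'.2 then Q.k else 0)
        ≤ ∑ _c ∈ PrBW w h, (2 * (w : ℝ) + 1) * Q.k := by
          refine Finset.sum_le_sum fun c _ => ?_
          rw [← Finset.sum_filter, Finset.sum_const, nsmul_eq_mul]
          refine mul_le_mul_of_nonneg_right ?_ hk
          exact_mod_cast card_PrBW_col w h c.2
      _ = ((PrBW w h).card : ℝ) * ((2 * (w : ℝ) + 1) * Q.k) := by
          rw [Finset.sum_const, nsmul_eq_mul]
      _ ≤ (h * (2 * w + 1)) * ((2 * (w : ℝ) + 1) * Q.k) :=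
          mul_le_mul_of_nonneg_right hW (by positivity)
      _ = (h : ℝ) * (2 * w + 1) ^ 2 * Q.k := by ring
  unfold pq
  linarith

theorem PrB_pq_nonneg (w h : ℕ) : 0 ≤ pq w h Q.r Q.k := by
  have hk := k_nonneg Q
  unfold pq
  positivity

/-- Windows with at least two related cells. -/
theorem E2_bad (w h : ℕ) :
    E2 Q.lam h h (fun a b => if 2 ≤ (win Q.rel w a b).card then ((win Q.rel w a b).card : ℝ) else 0)
      ≤ pq w h Q.r Q.k := by
  refine (PrB_mono Q fun a b => ?_).trans (E2_pairs Q w h)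
  have h0 : (0 : ℝ) ≤ ((win Q.rel w a b).card : ℝ) := Nat.cast_nonneg _
  split_ifs with h2
  · have h3 : (2 : ℝ) ≤ ((win Q.rel w a b).card : ℝ) := by exact_mod_cast h2
    nlinarith
  · rcases Nat.lt_or_ge (win Q.rel w a b).card 1 with h3 | h3
    · have h4 : (win Q.rel w a b).card = 0 := by omega
      rw [h4]
      simp
    · have h4 : (1 : ℝ) ≤ ((win Q.rel w a b).card : ℝ) := by exact_mod_cast h3
      nlinarith

/-- The probability of the type `some k`. Proof: at most the mean number of related cells on the diagonal, at most `h r`; at least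
`(h - w) r` minus the mean of `card (card - 1)`. -/
theorem E2_ty (w h : ℕ) (k : Fin (2 * w + 1)) :
    |E2 Q.lam h h (fun a b => ind (ty Q.rel w a b = some k)) - h * Q.r| ≤
      w * Q.r + pq w h Q.r Q.k := by
  classical
  have hr := r_nonneg Q
  have hpq := PrB_pq_nonneg Q w h
  set d : ℤ := ((k : ℕ) : ℤ) - (w : ℤ) with hd
  have hdw : d.natAbs ≤ w := by
    have := k.2
    omega
  have hsum : E2 Q.lam h h (fun a b => ∑ c ∈ PrBdg h d, ind (Q.rel (a c.1) (b c.2))) =
      ((PrBdg h d).card : ℝ) * Q.r := by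
    rw [PrB_sum]
    simp only [E2_cell]
    rw [Finset.sum_const, nsmul_eq_mul]
  have hup : ∀ a b : Fin h → T, ind (ty Q.rel w a b = some k) ≤
      ∑ c ∈ PrBdg h d, ind (Q.rel (a c.1) (b c.2)) := by
    intro a b
    by_cases hty : ty Q.rel w a b = some k
    · rw [ind_of hty]
      obtain ⟨c, hc, hcd⟩ := (ty_eq_some Q.rel).1 hty
      have hcm : c ∈ win Q.rel w a b := by
        rw [hc]
        exact Finset.mem_singleton_self c
      have hcr : Q.rel (a c.1) (b c.2) := by
        rw [PrB_win] at hcm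
        exact (Finset.mem_filter.1 hcm).2
      have hcd' : c ∈ PrBdg h d := Finset.mem_filter.2 ⟨Finset.mem_univ _, hcd⟩
      calc (1 : ℝ) = ind (Q.rel (a c.1) (b c.2)) := (ind_of hcr).symm
        _ ≤ _ := Finset.single_le_sum (f := fun c : Fin h × Fin h => ind (Q.rel (a c.1) (b c.2)))
            (fun _ _ => ind_nonneg _) hcd'
    · rw [ind_of_not hty]
      exact Finset.sum_nonneg fun _ _ => ind_nonneg _
  have hlo : ∀ a b : Fin h → T, ∑ c ∈ PrBdg h d, ind (Q.rel (a c.1) (b c.2)) ≤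
      ind (ty Q.rel w a b = some k) +
        ((win Q.rel w a b).card : ℝ) * (((win Q.rel w a b).card : ℝ) - 1) := by
    intro a b
    have e1 : ∑ c ∈ PrBdg h d, ind (Q.rel (a c.1) (b c.2)) =
        (((PrBdg h d).filter (fun c => Q.rel (a c.1) (b c.2))).card : ℝ) := by
      rw [Finset.card_filter]
      push_cast
      refine Finset.sum_congr rfl fun p _ => ?_
      unfold ind
      split_ifs <;> simp
    have e2 : (PrBdg h d).filter (fun c => Q.rel (a c.1) (b c.2)) ⊆ win Q.rel w a b := by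
      intro c hc
      rw [PrB_win]
      have h3 := Finset.mem_filter.1 hc
      have h4 := (Finset.mem_filter.1 h3.1).2
      refine Finset.mem_filter.2 ⟨mem_PrBW.2 ?_, h3.2⟩
      rw [h4]
      exact hdw
    have e3 := Finset.card_le_card e2
    have i0 := ind_nonneg (ty Q.rel w a b = some k)
    rw [e1]
    rcases Nat.lt_or_ge (win Q.rel w a b).card 2 with h5 | h5
    · rcases Nat.lt_or_ge (((PrBdg h d).filter (fun c => Q.rel (a c.1) (b c.2))).card) 1 with h6 | h6
      · have h7 : ((PrBdg h d).filter (fun c => Q.rel (a c.1) (b c.2))).card = 0 := by omega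
        have h8 : (0 : ℝ) ≤ ((win Q.rel w a b).card : ℝ) *
            (((win Q.rel w a b).card : ℝ) - 1) := by
          have : (win Q.rel w a b).card = 0 ∨ (win Q.rel w a b).card = 1 := by omega
          rcases this with h | h <;> rw [h] <;> norm_num
        rw [h7]
        push_cast
        linarith
      · have h7 : (win Q.rel w a b).card = 1 := by omega
        have h8 : ((PrBdg h d).filter (fun c => Q.rel (a c.1) (b c.2))).card = 1 := by omega
        have hw1 : (PrBdg h d).filter (fun c => Q.rel (a c.1) (b c.2)) = win Q.rel w a b :=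
          Finset.eq_of_subset_of_card_le e2 (by omega)
        obtain ⟨c, hc⟩ := Finset.card_eq_one.1 h7
        have hcm : c ∈ (PrBdg h d).filter (fun c => Q.rel (a c.1) (b c.2)) := by
          rw [hw1, hc]
          exact Finset.mem_singleton_self c
        have h9 := (Finset.mem_filter.1 (Finset.mem_filter.1 hcm).1).2
        have hty : ty Q.rel w a b = some k := (ty_eq_some Q.rel).2 ⟨c, hc, h9⟩
        rw [ind_of hty, h7, h8]
        norm_num
    · have h6 : (2 : ℝ) ≤ ((win Q.rel w a b).card : ℝ) := by exact_mod_cast h5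
      have h7 : (((PrBdg h d).filter (fun c => Q.rel (a c.1) (b c.2))).card : ℝ) ≤
          ((win Q.rel w a b).card : ℝ) := by exact_mod_cast e3
      nlinarith
  have k1 := PrB_mono Q hup
  rw [hsum] at k1
  have k2 := PrB_mono Q hlo
  rw [hsum, PrB_add] at k2
  have k3 := E2_pairs Q w h
  have c1 : ((PrBdg h d).card : ℝ) ≤ h := by exact_mod_cast card_PrBdg_le h d
  have c2 : (h : ℝ) - w ≤ ((PrBdg h d).card : ℝ) := by
    have h1 := le_card_PrBdg w h d hdw
    have h2 : (h : ℝ) ≤ ((PrBdg h d).card : ℝ) + w := by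
      have : h ≤ (PrBdg h d).card + w := by omega
      exact_mod_cast this
    linarith
  have c3 : ((PrBdg h d).card : ℝ) * Q.r ≤ h * Q.r := mul_le_mul_of_nonneg_right c1 hr
  have c4 : ((h : ℝ) - w) * Q.r ≤ ((PrBdg h d).card : ℝ) * Q.r := mul_le_mul_of_nonneg_right c2 hr
  have c5 : 0 ≤ (w : ℝ) * Q.r := by positivity
  rw [abs_le]
  constructor
  · nlinarith
  · linarith

end NV
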