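import Pool.Agent.Lib.MP_ae6bb1_pr.NV.PrA

/-! Cells in different mini blocks. -/

open Finset LCSH

namespace NV

variable {T : Type} [Fintype T] (Q : Md T)

private theorem prC_key {a b h w : ℕ} (hh : 0 < h) (h1 : ((b : ℤ) - (a : ℤ)).natAbs ≤ w)
    (h2 : a / h ≠ b / h) :
    max (a / h) (b / h) * h ≤ a + w ∧ max (a / h) (b / h) * h ≤ b + w ∧
      a ≤ max (a / h) (b / h) * h + w ∧ b ≤ max (a / h) (b / h) * h + w := by
  have hab : b ≤ a + w ∧ a ≤ b + w := by omega
  have ha := Nat.div_mul_le_self a h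
  have hb := Nat.div_mul_le_self b h
  rcases Nat.lt_or_ge (a / h) (b / h) with hlt | hge
  · rw [max_eq_right hlt.le]
    have h3 : a < b / h * h := (Nat.div_lt_iff_lt_mul hh).1 hlt
    omega
  · have hlt : b / h < a / h := lt_of_le_of_ne hge (Ne.symm h2)
    rw [max_eq_left hlt.le]
    have h3 : b < a / h * h := (Nat.div_lt_iff_lt_mul hh).1 hlt
    omega

private theorem prC_count (w J h : ℕ) :
    ((univ : Finset (Fin (J * h) × Fin (J * h))).filter fun c =>
      (((c.2 : ℕ) : ℤ) - ((c.1 : ℕ) : ℤ)).natAbs ≤ w ∧ (c.1 : ℕ) / h ≠ (c.2 : ℕ) / h).card ≤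
      J * (2 * w + 1) ^ 2 := by
  have hcard : (range J ×ˢ (range (2 * w + 1) ×ˢ range (2 * w + 1))).card = J * (2 * w + 1) ^ 2 := by
    rw [Finset.card_product, Finset.card_product, Finset.card_range, Finset.card_range]
    ring
  rw [← hcard]
  apply Finset.card_le_card_of_injOn (fun c => (max ((c.1 : ℕ) / h) ((c.2 : ℕ) / h),
    ((c.1 : ℕ) + w - max ((c.1 : ℕ) / h) ((c.2 : ℕ) / h) * h,
      (c.2 : ℕ) + w - max ((c.1 : ℕ) / h) ((c.2 : ℕ) / h) * h)))
  · intro c hc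
    obtain ⟨-, h1, h2⟩ := Finset.mem_filter.1 hc
    have hh : 0 < h := by
      rcases Nat.eq_zero_or_pos h with h0 | h0
      · subst h0; exact absurd c.1.2 (by simp)
      · exact h0
    obtain ⟨k1, k2, k3, k4⟩ := prC_key hh h1 h2
    have hJ : max ((c.1 : ℕ) / h) ((c.2 : ℕ) / h) < J :=
      max_lt ((Nat.div_lt_iff_lt_mul hh).2 c.1.2) ((Nat.div_lt_iff_lt_mul hh).2 c.2.2)
    simp only [Finset.coe_product, Finset.coe_range, Set.mem_prod, Set.mem_Iio]
    refine ⟨hJ, ?_, ?_⟩ <;> omega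
  · intro c hc c' hc' he
    obtain ⟨-, h1, h2⟩ := Finset.mem_filter.1 hc
    obtain ⟨-, h1', h2'⟩ := Finset.mem_filter.1 hc'
    have hh : 0 < h := by
      rcases Nat.eq_zero_or_pos h with h0 | h0
      · subst h0; exact absurd c.1.2 (by simp)
      · exact h0
    obtain ⟨k1, k2, -, -⟩ := prC_key hh h1 h2
    obtain ⟨k1', k2', -, -⟩ := prC_key hh h1' h2'
    simp only [Prod.mk.injEq] at he
    obtain ⟨e1, e2, e3⟩ := he
    rw [e1] at e2 e3 k1 k2
    refine Prod.ext (Fin.ext ?_) (Fin.ext ?_) <;> omega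

/-- Cells in different mini blocks. Proof: each such cell `(t, u)` with `|t - u| ≤ w` is separated by a multiple `i h` (`0 < i < J`); at most
`w (w + 1)` cells for each `i`. -/
theorem E2_bdc (w J h : ℕ) :
    E2 Q.lam (J * h) (J * h) (fun A B => (bdc Q.rel w A B : ℝ)) ≤ J * (2 * w + 1) ^ 2 * Q.r := by
  set S := (univ : Finset (Fin (J * h) × Fin (J * h))).filter fun c =>
      (((c.2 : ℕ) : ℤ) - ((c.1 : ℕ) : ℤ)).natAbs ≤ w ∧ (c.1 : ℕ) / h ≠ (c.2 : ℕ) / h with hS
  have h1 : (fun A B => (bdc Q.rel w A B : ℝ)) = fun (A B : Fin (J * h) → T) =>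
      ∑ c ∈ S, ind (Q.rel (A c.1) (B c.2)) := by
    classical
    funext A B
    have h2 : bdc Q.rel w A B = (S.filter fun c => Q.rel (A c.1) (B c.2)).card := by
      unfold bdc
      rw [hS, Finset.filter_filter]
      congr 1
      ext c
      simp only [Finset.mem_filter, Finset.mem_univ, true_and, and_assoc]
    rw [h2, Finset.card_filter]
    push_cast
    refine Finset.sum_congr rfl fun c _ => ?_
    by_cases h : Q.rel (A c.1) (B c.2)
    · rw [if_pos h, ind_of h]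
    · rw [if_neg h, ind_of_not h]
  have h3 : E2 Q.lam (J * h) (J * h) (fun A B => ∑ c ∈ S, ind (Q.rel (A c.1) (B c.2))) =
      ∑ c ∈ S, Q.r := by
    unfold E2
    simp_rw [PE_sum]
    exact Finset.sum_congr rfl fun c _ => E2_cell Q c.1 c.2
  rw [h1, h3, Finset.sum_const, nsmul_eq_mul]
  refine mul_le_mul_of_nonneg_right ?_ (r_nonneg Q)
  have h4 : S.card ≤ J * (2 * w + 1) ^ 2 := prC_count w J h
  calc (S.card : ℝ) ≤ ((J * (2 * w + 1) ^ 2 : ℕ) : ℝ) := Nat.cast_le.2 h4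
    _ = (J : ℝ) * (2 * w + 1) ^ 2 := by push_cast; ring

end NV
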