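import Pool.Agent.Lib.MP_ae6bb1_pr.NV.BlkLaw
import Pool.Agent.Lib.MP_ae6bb1_pr.NV.BlkLo
import Pool.Agent.Lib.MP_ae6bb1_pr.NV.BlkUp
import Pool.Agent.Lib.MP_ae6bb1_pr.NV.PrB
import Pool.Agent.Lib.MP_ae6bb1_pr.NV.PrC
import Pool.Agent.Lib.MP_ae6bb1_pr.NV.Hyb

/-! Comparison with the limit model. -/

open Finset LCSH

namespace NV

variable {T : Type} [Fintype T] (Q : Md T)

theorem UnivA_E2_mono {N M : ℕ} {F G : (Fin N → T) → (Fin M → T) → ℝ}
    (h : ∀ A B, F A B ≤ G A B) : E2 Q.lam N M F ≤ E2 Q.lam N M G :=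
  PE_mono (E2_isW Q N) fun A => PE_mono (E2_isW Q M) fun B => h A B

theorem UnivA_E2_add {N M : ℕ} (F G : (Fin N → T) → (Fin M → T) → ℝ) :
    E2 Q.lam N M (fun A B => F A B + G A B) = E2 Q.lam N M F + E2 Q.lam N M G := by
  unfold E2
  rw [← PE_add]
  congr 1
  funext A
  exact PE_add _ _ _

theorem UnivA_laws (w J h : ℕ) {p : ℝ} (i : Fin J) :
    ∑ b, |tyw Q w h b - qw w p b| ≤
      2 * (2 * w + 1) * (|h * Q.r - p| + w * Q.r + pq w h Q.r Q.k) := by
  set C : ℝ := |h * Q.r - p| + w * Q.r + pq w h Q.r Q.k with hC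
  have h1 : ∀ k : Fin (2 * w + 1), |tyw Q w h (some k) - p| ≤ C := by
    intro k
    have h2 := E2_ty Q w h k
    have h3 : |tyw Q w h (some k) - p| ≤ |tyw Q w h (some k) - h * Q.r| + |h * Q.r - p| :=
      abs_sub_le _ _ _
    have h4 : |tyw Q w h (some k) - h * Q.r| ≤ w * Q.r + pq w h Q.r Q.k := h2
    linarith
  have h2 : ∑ k : Fin (2 * w + 1), |tyw Q w h (some k) - p| ≤ (2 * w + 1) * C := by
    refine (Finset.sum_le_sum fun k _ => h1 k).trans ?_
    rw [Finset.sum_const, Finset.card_univ, Fintype.card_fin, nsmul_eq_mul]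
    push_cast
    exact le_rfl
  have h3 : tyw Q w h none + ∑ k : Fin (2 * w + 1), tyw Q w h (some k) = 1 := by
    rw [← Fintype.sum_option]
    exact (isW_tyw Q w J h).sum_one i
  have h4 : |tyw Q w h none - qw w p none| ≤ ∑ k : Fin (2 * w + 1), |tyw Q w h (some k) - p| := by
    have h5 : tyw Q w h none - qw w p none = -∑ k : Fin (2 * w + 1), (tyw Q w h (some k) - p) := by
      rw [Finset.sum_sub_distrib, Finset.sum_const, Finset.card_univ, Fintype.card_fin,
        nsmul_eq_mul]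
      unfold qw
      push_cast
      linarith
    rw [h5, abs_neg]
    exact Finset.abs_sum_le_sum_abs _ _
  rw [Fintype.sum_option]
  have h6 : ∑ k : Fin (2 * w + 1), |tyw Q w h (some k) - qw w p (some k)| =
      ∑ k : Fin (2 * w + 1), |tyw Q w h (some k) - p| := rfl
  rw [h6]
  linarith

/-- **Comparison with the limit model.** Proof: `gv_le_vv`, `vv_le_gv`, `E2_bad`, `E2_bdc`, `E2_tys`, `PE_hybrid`, `gv_lip`, `E2_ty`; the
probabilities of `none` differ by at most the sum of the differences of the others. -/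
theorem univ_abs (w J h : ℕ) {p : ℝ} (h0 : 0 ≤ p) (h1 : (2 * (w : ℝ) + 1) * p ≤ 1) :
    |E2 Q.lam (J * h) (J * h) (fun A B => vv (rlr Q.rel A B) (J * h) (J * h) (Qw w)) - Gm w J p| ≤
      J * pq w h Q.r Q.k + J * (2 * w + 1) ^ 2 * Q.r +
        J * (2 * (2 * w + 1) * (|h * Q.r - p| + w * Q.r + pq w h Q.r Q.k)) := by
  set X : ℝ := E2 Q.lam (J * h) (J * h)
    (fun A B => vv (rlr Q.rel A B) (J * h) (J * h) (Qw w)) with hX
  set Y : ℝ := E2 Q.lam (J * h) (J * h) (fun A B => gv w (tys Q.rel w A B)) with hY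
  have hYX : Y ≤ X := UnivA_E2_mono Q fun A B => gv_le_vv Q.rel A B
  have hXY : X ≤ Y + J * pq w h Q.r Q.k + J * (2 * w + 1) ^ 2 * Q.r := by
    have h2 : X ≤ E2 Q.lam (J * h) (J * h) (fun A B => gv w (tys Q.rel w A B) +
        ∑ i : Fin J, (if 2 ≤ (win Q.rel w (blk A i) (blk B i)).card then
          ((win Q.rel w (blk A i) (blk B i)).card : ℝ) else 0) + bdc Q.rel w A B) :=
      UnivA_E2_mono Q fun A B => vv_le_gv Q.rel A B
    rw [UnivA_E2_add, UnivA_E2_add] at h2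
    have h3 := E2_sum_blk Q J h fun a b =>
      if 2 ≤ (win Q.rel w a b).card then ((win Q.rel w a b).card : ℝ) else 0
    rw [h3] at h2
    have h4 := E2_bad Q w h
    have h5 := E2_bdc Q w J h
    have h6 : (J : ℝ) * E2 Q.lam h h (fun a b =>
        if 2 ≤ (win Q.rel w a b).card then ((win Q.rel w a b).card : ℝ) else 0) ≤
        J * pq w h Q.r Q.k := mul_le_mul_of_nonneg_left h4 (Nat.cast_nonneg _)
    linarith
  have hYG : |Y - Gm w J p| ≤
      J * (2 * (2 * w + 1) * (|h * Q.r - p| + w * Q.r + pq w h Q.r Q.k)) := by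
    rw [hY, E2_tys]
    unfold Gm
    refine (PE_hybrid (isW_tyw Q w J h) (isW_qw h0 h1 J) (gv w)
      (fun τ i b => gv_lip w τ i b)).trans ?_
    refine (Finset.sum_le_sum fun i _ => UnivA_laws Q w J h i).trans ?_
    rw [Finset.sum_const, Finset.card_univ, Fintype.card_fin, nsmul_eq_mul]
  have h2 := abs_sub_le X Y (Gm w J p)
  have h3 : |X - Y| = X - Y := abs_of_nonneg (by linarith)
  linarith

end NV
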