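import Pool.Agent.Lib.MP_ae6bb1_pr.NV.ExpA
import Pool.Agent.Lib.MP_ae6bb1_pr.NV.ExpB
import Pool.Agent.Lib.MP_ae6bb1_pr.NV.UnivA
import Pool.Agent.Lib.MP_ae6bb1_pr.NV.Hit

/-! Universality of the excess of finite blocks. -/

open Finset LCSH
open scoped ENNReal

namespace NV

/-- the bound for the error of the comparison, in terms of real numbers only -/
theorem univ_err {K ε W w J s r q ρ κ h p : ℝ} (hK : 0 < K) (hw : 0 ≤ w) (hW : W = 2 * w + 1)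
    (hJ0 : 0 < J) (hp : p = K / J) (hJ3 : 3 * W ^ 3 * K ^ 2 / J ≤ ε / 8)
    (hq0 : 0 ≤ q) (hqs : q ≤ s) (hs1 : s ≤ 1 / 100) (hqr : r = q * q)
    (hρ0 : 0 ≤ ρ) (hρr : ρ ≤ r) (hρl : r - 4 * (r * q) ≤ ρ)
    (hκ : κ ≤ 3 * (r * q)) (hh : 0 ≤ h) (hh1 : h * r ≤ p) (hh2 : p ≤ h * r + r) :
    J * ((h * (2 * w + 1)) ^ 2 * ρ ^ 2 + 2 * h * (2 * w + 1) ^ 2 * κ) + J * (2 * w + 1) ^ 2 * ρ +
        J * (2 * (2 * w + 1) * (|h * ρ - p| + w * ρ +
          ((h * (2 * w + 1)) ^ 2 * ρ ^ 2 + 2 * h * (2 * w + 1) ^ 2 * κ))) ≤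
      ε / 8 + (6 * W ^ 2 * K * (1 + 2 * W) + J * W ^ 2 + 2 * W * J * (1 + w) + 8 * W * K) * s := by
  have hW1 : 1 ≤ W := by rw [hW]; linarith
  rw [← hW]
  have hs0 : 0 ≤ s := hq0.trans hqs
  have hp0 : 0 < p := by rw [hp]; positivity
  have hJp : J * p = K := by rw [hp]; field_simp
  have hr0 : 0 ≤ r := by rw [hqr]; positivity
  have hrq : r ≤ q := by rw [hqr]; nlinarith
  have hrs : r ≤ s := hrq.trans hqs
  have hhρ : h * ρ ≤ p := (mul_le_mul_of_nonneg_left hρr hh).trans hh1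
  have hhρ0 : 0 ≤ h * ρ := mul_nonneg hh hρ0
  -- the distance of `h ρ` and `p`
  have ha : |h * ρ - p| ≤ r + 4 * (p * q) := by
    rw [abs_le]
    constructor
    · have h1 : h * (r - 4 * (r * q)) ≤ h * ρ := mul_le_mul_of_nonneg_left hρl hh
      have h2 : h * r * q ≤ p * q := mul_le_mul_of_nonneg_right hh1 hq0
      nlinarith
    · have : 0 ≤ p * q := mul_nonneg hp0.le hq0
      linarith
  -- the bound of `pq`
  set P : ℝ := (h * W) ^ 2 * ρ ^ 2 + 2 * h * W ^ 2 * κ with hP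
  have hb : P ≤ W ^ 2 * (p ^ 2 + 6 * (p * q)) := by
    have h1 : (h * ρ) ^ 2 ≤ p ^ 2 := pow_le_pow_left₀ hhρ0 hhρ 2
    have h2 : h * κ ≤ 3 * (p * q) := by
      have h3 : h * κ ≤ h * (3 * (r * q)) := mul_le_mul_of_nonneg_left hκ hh
      have h4 : h * r * q ≤ p * q := mul_le_mul_of_nonneg_right hh1 hq0
      linarith
    have h5 : P = W ^ 2 * ((h * ρ) ^ 2 + 2 * (h * κ)) := by rw [hP]; ring
    rw [h5]
    exact mul_le_mul_of_nonneg_left (by linarith) (by positivity)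
  have hJP : J * P ≤ W ^ 2 * (K ^ 2 / J + 6 * (K * q)) := by
    calc J * P ≤ J * (W ^ 2 * (p ^ 2 + 6 * (p * q))) := mul_le_mul_of_nonneg_left hb hJ0.le
      _ = W ^ 2 * (J * p * p + 6 * (J * p * q)) := by ring
      _ = W ^ 2 * (K ^ 2 / J + 6 * (K * q)) := by
        rw [hJp, hp]; ring
  have hKJ : 0 ≤ K ^ 2 / J := by positivity
  have hKq : K * q ≤ K * s := mul_le_mul_of_nonneg_left hqs hK.le
  have hJP2 : J * P ≤ W ^ 2 * (K ^ 2 / J + 6 * (K * s)) :=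
    hJP.trans (mul_le_mul_of_nonneg_left (by linarith) (by positivity))
  have hρs : ρ ≤ s := hρr.trans hrs
  have t1 : J * P + 2 * W * (J * P) ≤ (1 + 2 * W) * (W ^ 2 * (K ^ 2 / J + 6 * (K * s))) := by
    have : (1 + 2 * W) * (J * P) ≤ (1 + 2 * W) * (W ^ 2 * (K ^ 2 / J + 6 * (K * s))) :=
      mul_le_mul_of_nonneg_left hJP2 (by positivity)
    linarith
  have t2 : J * W ^ 2 * ρ ≤ J * W ^ 2 * s := mul_le_mul_of_nonneg_left hρs (by positivity)
  have t3 : J * (2 * W * |h * ρ - p|) ≤ 2 * W * J * s + 8 * W * K * s := by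
    have h1 : |h * ρ - p| ≤ s + 4 * (p * s) :=
      ha.trans (by
        have : p * q ≤ p * s := mul_le_mul_of_nonneg_left hqs hp0.le
        linarith)
    have h2 : J * (2 * W * |h * ρ - p|) ≤ J * (2 * W * (s + 4 * (p * s))) := by gcongr
    have h3 : J * (2 * W * (s + 4 * (p * s))) = 2 * W * J * s + 8 * W * (J * p) * s := by ring
    rw [h3, hJp] at h2
    exact h2
  have t4 : J * (2 * W * (w * ρ)) ≤ 2 * W * J * w * s := by
    have : J * (2 * W * (w * ρ)) ≤ J * (2 * W * (w * s)) := by gcongr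
    linarith
  have t5 : (1 + 2 * W) * (W ^ 2 * (K ^ 2 / J)) ≤ ε / 8 := by
    refine le_trans ?_ hJ3
    have h1 : 3 * W ^ 3 * K ^ 2 / J = (3 * W) * (W ^ 2 * (K ^ 2 / J)) := by ring
    rw [h1]
    exact mul_le_mul_of_nonneg_right (by linarith) (by positivity)
  calc J * P + J * W ^ 2 * ρ + J * (2 * W * (|h * ρ - p| + w * ρ + P))
      = (J * P + 2 * W * (J * P)) + J * W ^ 2 * ρ + J * (2 * W * |h * ρ - p|) +
        J * (2 * W * (w * ρ)) := by ring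
    _ ≤ (1 + 2 * W) * (W ^ 2 * (K ^ 2 / J + 6 * (K * s))) + J * W ^ 2 * s +
        (2 * W * J * s + 8 * W * K * s) + 2 * W * J * w * s := by
      linarith
    _ = (1 + 2 * W) * (W ^ 2 * (K ^ 2 / J)) +
        (6 * W ^ 2 * K * (1 + 2 * W) + J * W ^ 2 + 2 * W * J * (1 + w) + 8 * W * K) * s := by ring
    _ ≤ _ := by linarith

/-- **Universality.** Proof: `E2_vv_le`, `elc_le_E2`, `univ_abs` with `p = K / J`, `r_le`, `le_r`, `k_le`. Choose `w` with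
`2 exp (- 3 w / 4) exp (1000 K) ≤ ε / 8`, then `J ≥ (2 w + 1) K` with `3 (2 w + 1)^3 K^2 / J ≤ ε / 8`, then `η`: with `h = ⌊K / (J rr)⌋`,
`h rr ≤ K / J`, `|h r - K / J| ≤ rr + 4 (K / J) √rr`, `pq w h r k ≤ (2 w + 1)^2 ((K / J)^2 + 6 (K / J) √rr)`. -/
theorem univ_elc {K ε : ℝ} (hK : 0 < K) (hε : 0 < ε) : ∃ w J : ℕ, 0 < J ∧ ∃ η : ℝ, 0 < η ∧
    ∀ (α : Type) [DecidableEq α] [Fintype α] (L : Law α) (o : α), 0 < L.p o → 0 < rr L o →
      rr L o ≤ η → |elc L o (J * ⌊K / (J * rr L o)⌋₊) (J * ⌊K / (J * rr L o)⌋₊) -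
        ((J * ⌊K / (J * rr L o)⌋₊ : ℕ) : ℝ) - Gm w J (K / J)| ≤ ε := by
  obtain ⟨w, hw⟩ := exists_nat_gt ((1000 * K - Real.log (ε / 16)) * (4 / 3))
  have hwe : 2 * Real.exp (-(3 / 4 * (w : ℝ))) * Real.exp (1000 * K) ≤ ε / 8 := by
    rw [mul_assoc, ← Real.exp_add]
    have h1 : Real.exp (-(3 / 4 * (w : ℝ)) + 1000 * K) ≤ ε / 16 := by
      calc Real.exp (-(3 / 4 * (w : ℝ)) + 1000 * K) ≤ Real.exp (Real.log (ε / 16)) :=
            Real.exp_le_exp.2 (by linarith)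
        _ = ε / 16 := Real.exp_log (by positivity)
    linarith
  obtain ⟨W, hW⟩ : ∃ W : ℝ, W = 2 * (w : ℝ) + 1 := ⟨_, rfl⟩
  have hw0 : (0 : ℝ) ≤ w := Nat.cast_nonneg w
  have hW1 : 1 ≤ W := by rw [hW]; linarith
  obtain ⟨J, hJ⟩ := exists_nat_gt (max (W * K) (24 * W ^ 3 * K ^ 2 / ε))
  have hJ1 : W * K < J := lt_of_le_of_lt (le_max_left _ _) hJ
  have hJ2 : 24 * W ^ 3 * K ^ 2 / ε < J := lt_of_le_of_lt (le_max_right _ _) hJ
  have hJ0 : (0 : ℝ) < J := lt_of_le_of_lt (by positivity) hJ1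
  have hJ3 : 3 * W ^ 3 * K ^ 2 / J ≤ ε / 8 := by
    rw [div_le_iff₀ hJ0]
    rw [div_lt_iff₀ hε] at hJ2
    linarith
  obtain ⟨C0, hC0⟩ : ∃ C0 : ℝ, C0 = 6 * W ^ 2 * K * (1 + 2 * W) + J * W ^ 2 +
    2 * W * J * (1 + w) + 8 * W * K := ⟨_, rfl⟩
  have hC0p : 0 < C0 := by rw [hC0]; positivity
  obtain ⟨C, hC⟩ : ∃ C : ℝ, C = C0 + 4000 * Real.exp (1000 * K) := ⟨_, rfl⟩
  have hCp : 0 < C := by rw [hC]; positivity
  obtain ⟨s, hs⟩ : ∃ s : ℝ, s = min (1 / 100) (ε / (2 * C)) := ⟨_, rfl⟩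
  have hs0 : 0 < s := by rw [hs]; exact lt_min (by norm_num) (by positivity)
  have hs1 : s ≤ 1 / 100 := by rw [hs]; exact min_le_left _ _
  have hs2 : C * s ≤ ε / 2 := by
    have h1 : s ≤ ε / (2 * C) := by rw [hs]; exact min_le_right _ _
    have h2 : C * s ≤ C * (ε / (2 * C)) := mul_le_mul_of_nonneg_left h1 hCp.le
    have h3 : C * (ε / (2 * C)) = ε / 2 := by field_simp
    linarith
  refine ⟨w, J, by exact_mod_cast hJ0, s ^ 2, by positivity, ?_⟩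
  intro α _ _ L o hm hr0 hr
  obtain ⟨r, hrr⟩ : ∃ r : ℝ, r = rr L o := ⟨_, rfl⟩
  obtain ⟨h, hh⟩ : ∃ h : ℕ, h = ⌊K / (J * rr L o)⌋₊ := ⟨_, rfl⟩
  have hr1000 : rr L o ≤ 1 / 1000 := hr.trans (by nlinarith)
  have hr1 : rr L o ≤ 1 := by linarith
  have hρr := r_le (L := L) (o := o) hm
  have hρl := le_r (L := L) (o := o) hm hr1
  have hκ := k_le (L := L) (o := o) hm hr1
  have hq : Real.sqrt (rr L o) ≤ s := by
    rw [show s = Real.sqrt (s ^ 2) by rw [Real.sqrt_sq hs0.le]]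
    exact Real.sqrt_le_sqrt hr
  have hqq : rr L o = Real.sqrt (rr L o) * Real.sqrt (rr L o) := (Real.mul_self_sqrt hr0.le).symm
  have hq0 : 0 ≤ Real.sqrt (rr L o) := Real.sqrt_nonneg _
  have hJr : 0 < (J : ℝ) * rr L o := mul_pos hJ0 hr0
  have hfl : (h : ℝ) ≤ K / (J * rr L o) := by
    rw [hh]; exact Nat.floor_le (by positivity)
  have hfl2 : K / (J * rr L o) < h + 1 := by
    rw [hh]; exact Nat.lt_floor_add_one _
  have hhr1 : (h : ℝ) * rr L o ≤ K / J := by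
    rw [le_div_iff₀ hJr] at hfl
    rw [le_div_iff₀ hJ0]
    linarith
  have hhr2 : K / J ≤ h * rr L o + rr L o := by
    rw [div_lt_iff₀ hJr] at hfl2
    rw [div_le_iff₀ hJ0]
    linarith
  have hρ0 : 0 ≤ (wmd hm : Md (Finset α)).r := by
    refine le_trans ?_ hρl
    have : rr L o * Real.sqrt (rr L o) ≤ rr L o * (1 / 100) :=
      mul_le_mul_of_nonneg_left (hq.trans hs1) hr0.le
    linarith
  have herr := univ_err (ε := ε) hK hw0 hW hJ0 (rfl : K / (J : ℝ) = K / J) hJ3 hq0 hq hs1 hqq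
    hρ0 hρr hρl hκ (Nat.cast_nonneg h) hhr1 hhr2
  have habs := univ_abs (wmd hm) w J h (p := K / J) (by positivity) (by
    rw [← hW, ← mul_div_assoc, div_le_one hJ0]; exact hJ1.le)
  have habs2 : |E2 (lam L o) (J * h) (J * h)
      (fun A B => vv (rlr mt A B) (J * h) (J * h) (Qw w)) - Gm w J (K / J)| ≤
      ε / 8 + C0 * s := by
    rw [hC0]
    exact habs.trans herr
  have hlo := E2_vv_le (L := L) (o := o) hm (J * h) (J * h) (Q := Qw w) (by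
    intro c hc; exact absurd hc (List.not_mem_nil))
  have hup := elc_le_E2 (L := L) (o := o) hm hr0 hr1000 (J * h) w
  have hN : rr L o * ((J * h : ℕ) : ℝ) ≤ K := by
    rw [le_div_iff₀ hJ0] at hhr1
    push_cast
    linarith
  have hexp : Real.exp (1000 * rr L o * ((J * h : ℕ) : ℝ)) ≤ Real.exp (1000 * K) :=
    Real.exp_le_exp.2 (by linarith)
  have hrs : rr L o ≤ s := hr.trans (by nlinarith)
  have hex0 : 0 < Real.exp (-(3 / 4 * (w : ℝ))) := Real.exp_pos _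
  have hup2 : (4000 * rr L o + 2 * Real.exp (-(3 / 4 * (w : ℝ)))) *
      Real.exp (1000 * rr L o * ((J * h : ℕ) : ℝ)) ≤ 4000 * Real.exp (1000 * K) * s + ε / 8 := by
    calc (4000 * rr L o + 2 * Real.exp (-(3 / 4 * (w : ℝ)))) *
        Real.exp (1000 * rr L o * ((J * h : ℕ) : ℝ))
        ≤ (4000 * rr L o + 2 * Real.exp (-(3 / 4 * (w : ℝ)))) * Real.exp (1000 * K) :=
          mul_le_mul_of_nonneg_left hexp (by positivity)
      _ = 4000 * Real.exp (1000 * K) * rr L o +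
          2 * Real.exp (-(3 / 4 * (w : ℝ))) * Real.exp (1000 * K) := by ring
      _ ≤ 4000 * Real.exp (1000 * K) * s + ε / 8 :=
          add_le_add (mul_le_mul_of_nonneg_left hrs (by positivity)) hwe
  have hCs : C0 * s + 4000 * Real.exp (1000 * K) * s ≤ ε / 2 := by
    have : C * s = C0 * s + 4000 * Real.exp (1000 * K) * s := by rw [hC]; ring
    linarith
  have hC0s : 0 ≤ C0 * s := by positivity
  have h4s : 0 ≤ 4000 * Real.exp (1000 * K) * s := by positivity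
  rw [← hh]
  rw [abs_le] at habs2 ⊢
  constructor
  · linarith [habs2.1]
  · linarith [habs2.2]

end NV
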