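import Pool.Agent.Lib.MP_ae6bb1_pr.NV.NumFin
import Pool.Agent.Lib.MP_ae6bb1_pr.NV.Bound
import Pool.Agent.Lib.MP_ae6bb1_pr.NV.Univ
import Pool.Agent.Lib.MP_ae6bb1_pr.NV.Gam8
import Pool.Agent.Lib.MP_ae6bb1_pr.NV.LeGam

/-! The ratios of two laws. -/

open Finset LCSH Filter Topology
open scoped ENNReal

namespace NV

/-- `(γ / m - 1) / rr` -/
noncomputable def rat {α : Type} [DecidableEq α] [Fintype α] (L : Law α) (o : α) : ℝ :=
  (gam L / L.p o - 1) / rr L o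

/-- **The ratios of two laws.** Proof: fix `k` (from `num_fin` for `ε`), `K = k^2`, `K' = 2 K + 1`, `univ_elc` for `K'` and `1/2`. Let
`a = rat L₁ o₁ ∈ [0, 8]` (`gam_le8`, `le_gam`, `le_r`). For `n₁ = J ⌊K' / (J rr₁)⌋`: `elc n₁ n₁ - n₁ ≤ (γ₁ / m₁ - 1) n₁ ≤ a K'`
(`elc_le_gam`), so for `N' = J ⌊K' / (J rr₂)⌋` the second law has `elc N' N' - N' ≤ b = a K' + 1`. Apply `gam_le_of` to the second law with
`N = ⌊K / rr₂⌋`, `s = 1 / (50 k)`, `R = 1000 k^2 + 10`, `V = 8 (1000 k^2 + 1)`, `κ = (a + ε) rr₂`: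
`s b / 2 + 1 ≤ s a K + 11/10` and `s κ N ≥ s a K + ε k / 50 - 1`. -/
theorem rat_le {ε : ℝ} (hε : 0 < ε) (hε1 : ε ≤ 1) : ∃ η : ℝ, 0 < η ∧
    ∀ (α₁ : Type) [DecidableEq α₁] [Fintype α₁] (L₁ : Law α₁) (o₁ : α₁)
      (α₂ : Type) [DecidableEq α₂] [Fintype α₂] (L₂ : Law α₂) (o₂ : α₂),
      0 < L₁.p o₁ → 0 < rr L₁ o₁ → rr L₁ o₁ ≤ η → 0 < L₂.p o₂ → 0 < rr L₂ o₂ → rr L₂ o₂ ≤ η →
      rat L₂ o₂ ≤ rat L₁ o₁ + ε := by
  obtain ⟨k, hk1, hk⟩ := num_fin hε
  have hkk := hk k le_rfl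
  have hk1' : (1 : ℝ) ≤ k := by exact_mod_cast hk1
  have hk0 : (0 : ℝ) < k := by linarith
  set K : ℝ := (k : ℝ) ^ 2 with hKdef
  have hK1 : 1 ≤ K := one_le_pow₀ hk1'
  have hK' : (0 : ℝ) < 2 * K + 1 := by linarith
  obtain ⟨w, J, hJ, η₁, hη₁, hU⟩ := univ_elc hK' (ε := 1 / 2) (by norm_num)
  obtain ⟨η₂, hη₂, h8⟩ := gam_le8
  have hJ' : (1 : ℝ) ≤ J := by exact_mod_cast hJ
  have hJ0 : (0 : ℝ) < J := by linarith
  set V : ℕ := 8 * (1000 * k ^ 2 + 1) with hVdef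
  have hVr : (V : ℝ) = 8 * (1000 * K + 1) := by
    rw [hVdef, hKdef]
    push_cast
    ring
  have hV0 : (0 : ℝ) ≤ V := Nat.cast_nonneg _
  set E : ℝ := Real.exp (1000 * K) with hEdef
  have hE0 : 0 < E := Real.exp_pos _
  set C : ℝ := 250000 * K * E + (V + J) + 8000 * E + 1000 with hCdef
  have hC0 : 0 < C := by positivity
  refine ⟨min η₁ (min η₂ (1 / C)), lt_min hη₁ (lt_min hη₂ (by positivity)), ?_⟩
  intro α₁ _ _ L₁ o₁ α₂ _ _ L₂ o₂ hm₁ hr₁0 hr₁ hm₂ hr₂0 hr₂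
  have hC₁ : rr L₁ o₁ ≤ 1 / C := hr₁.trans ((min_le_right _ _).trans (min_le_right _ _))
  have hC₂ : rr L₂ o₂ ≤ 1 / C := hr₂.trans ((min_le_right _ _).trans (min_le_right _ _))
  have key : ∀ r : ℝ, 0 < r → r ≤ 1 / C → r ≤ 1 / 1000 ∧ (V + J) ≤ 1 / r ∧
      4000 * r * E ≤ 1 / 2 ∧ 250000 * K * E * r ≤ 1 := by
    intro r hr0 hrC
    have h1 : r * C ≤ 1 := by
      rw [le_div_iff₀ hC0] at hrC
      exact hrC
    have hKE : 0 ≤ 250000 * K * E := by positivity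
    have e1 : r * C = 250000 * K * E * r + (V + J) * r + 8000 * E * r + 1000 * r := by
      rw [hCdef]
      ring
    rw [e1] at h1
    have p1 : 0 ≤ 250000 * K * E * r := by positivity
    have p2 : 0 ≤ (V + J : ℝ) * r := by positivity
    have p3 : 0 ≤ 8000 * E * r := by positivity
    have p4 : 0 ≤ 1000 * r := by positivity
    refine ⟨by linarith, ?_, by linarith, by linarith⟩
    rw [le_div_iff₀ hr0]
    linarith
  obtain ⟨h1a, h1b, h1c, h1d⟩ := key _ hr₁0 hC₁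
  obtain ⟨h2a, h2b, h2c, h2d⟩ := key _ hr₂0 hC₂
  set r₁ := rr L₁ o₁ with hr1def
  set r₂ := rr L₂ o₂ with hr2def
  have hη1₁ : r₁ ≤ η₁ := hr₁.trans (min_le_left _ _)
  have hη1₂ : r₂ ≤ η₁ := hr₂.trans (min_le_left _ _)
  have hη2₁ : r₁ ≤ η₂ := hr₁.trans ((min_le_right _ _).trans (min_le_left _ _))
  -- the ratio of the first law
  set a : ℝ := rat L₁ o₁ with hadef
  have har : gam L₁ / L₁.p o₁ - 1 = a * r₁ := by
    rw [hadef]
    unfold rat
    rw [← hr1def]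
    field_simp
  have ha8 : a ≤ 8 := by
    have h1 := h8 α₁ L₁ o₁ hm₁ hr₁0 hη2₁
    have h2 : gam L₁ / L₁.p o₁ ≤ 1 + 8 * r₁ := by
      rw [div_le_iff₀ hm₁, mul_comm]
      exact h1
    have h3 : a * r₁ ≤ 8 * r₁ := by
      rw [← har]
      linarith
    exact le_of_mul_le_mul_right h3 hr₁0
  have ha0 : 0 ≤ a := by
    have h1 := le_gam hm₁
    have h2 := le_r hm₁ (by linarith : rr L₁ o₁ ≤ 1)
    have h3 : Real.sqrt r₁ ≤ 1 / 4 := by
      rw [Real.sqrt_le_left (by norm_num)]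
      norm_num
      linarith
    have h4 : 0 ≤ r₁ - 4 * (r₁ * Real.sqrt r₁) := by
      nlinarith
    have h5 : 1 ≤ gam L₁ / L₁.p o₁ := by
      rw [le_div_iff₀ hm₁]
      refine le_trans ?_ h1
      rw [mul_comm]
      refine mul_le_mul_of_nonneg_left ?_ hm₁.le
      rw [← hr1def] at h2
      linarith
    have h6 : 0 ≤ a * r₁ := by
      rw [← har]
      linarith
    exact nonneg_of_mul_nonneg_left h6 hr₁0
  -- the excess of the first law
  set n₁ : ℕ := J * ⌊(2 * K + 1) / (J * r₁)⌋₊ with hn₁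
  set n₂ : ℕ := J * ⌊(2 * K + 1) / (J * r₂)⌋₊ with hn₂
  have hn₁r : r₁ * n₁ ≤ 2 * K + 1 := by
    have h1 : ((⌊(2 * K + 1) / (J * r₁)⌋₊ : ℕ) : ℝ) ≤ (2 * K + 1) / (J * r₁) :=
      Nat.floor_le (by positivity)
    rw [hn₁]
    push_cast
    calc r₁ * ((J : ℝ) * ((⌊(2 * K + 1) / (J * r₁)⌋₊ : ℕ) : ℝ))
        ≤ r₁ * ((J : ℝ) * ((2 * K + 1) / (J * r₁))) := by gcongr
      _ = 2 * K + 1 := by field_simp
  have hexc : elc L₁ o₁ n₁ n₁ - n₁ ≤ a * (2 * K + 1) := by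
    have h1 := elc_le_gam hm₁ n₁
    have h2 : elc L₁ o₁ n₁ n₁ ≤ gam L₁ / L₁.p o₁ * n₁ := by
      rw [div_mul_eq_mul_div, le_div_iff₀ hm₁]
      exact h1
    have h3 : gam L₁ / L₁.p o₁ = 1 + a * r₁ := by linarith
    rw [h3] at h2
    have h4 : a * (r₁ * n₁) ≤ a * (2 * K + 1) := mul_le_mul_of_nonneg_left hn₁r ha0
    linarith
  have hU1 := abs_le.1 (hU α₁ L₁ o₁ hm₁ hr₁0 hη1₁)
  have hU2 := abs_le.1 (hU α₂ L₂ o₂ hm₂ hr₂0 hη1₂)
  rw [← hr1def, ← hn₁] at hU1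
  rw [← hr2def, ← hn₂] at hU2
  have hb : elc L₂ o₂ n₂ n₂ - n₂ ≤ a * (2 * K + 1) + 1 := by linarith [hU1.1, hU2.2]
  -- the parameters for the second law
  set N : ℕ := ⌊K / r₂⌋₊ with hN
  have hNle : (N : ℝ) ≤ K / r₂ := Nat.floor_le (by positivity)
  have hNge : K / r₂ - 1 ≤ N := by
    have := Nat.lt_floor_add_one (K / r₂)
    rw [← hN] at this
    linarith
  have hr2one : r₂ ≤ 1 := by linarith
  have hN1 : 1 ≤ N := by
    rw [hN]
    refine Nat.le_floor ?_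
    rw [Nat.cast_one, le_div_iff₀ hr₂0]
    linarith
  have hKN : r₂ * N ≤ K := by
    calc r₂ * (N : ℝ) ≤ r₂ * (K / r₂) := by gcongr
      _ = K := by field_simp
  have hKN' : K - r₂ ≤ r₂ * N := by
    calc K - r₂ = r₂ * (K / r₂ - 1) := by field_simp
      _ ≤ r₂ * N := by gcongr
  have hN' : 2 * N + V ≤ n₂ := by
    have h1 : (2 * K + 1) / (J * r₂) - 1 ≤ ((⌊(2 * K + 1) / (J * r₂)⌋₊ : ℕ) : ℝ) := by
      have := Nat.lt_floor_add_one ((2 * K + 1) / (J * r₂))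
      linarith
    have h2 : (2 * K + 1) / r₂ - J ≤ (n₂ : ℝ) := by
      rw [hn₂]
      push_cast
      calc (2 * K + 1) / r₂ - J = J * ((2 * K + 1) / (J * r₂) - 1) := by field_simp
        _ ≤ _ := by gcongr
    have h3 : (2 * K + 1) / r₂ = 2 * (K / r₂) + 1 / r₂ := by ring
    have h4 : (2 * (N : ℝ) + V) ≤ n₂ := by
      rw [h3] at h2
      linarith
    exact_mod_cast h4
  set s : ℝ := 1 / (50 * k) with hs
  have hs0 : 0 < s := by positivity
  have hsk : s * K = k / 50 := by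
    rw [hs, hKdef]
    field_simp
  have hs50 : s ≤ 1 / 50 := by
    rw [hs]
    exact one_div_le_one_div_of_le (by norm_num) (by linarith)
  have hs1 : s ≤ 1 := by linarith
  have hbad : (4000 * r₂ + 2 * Real.exp (-((1000 * k ^ 2 + 10 : ℕ) : ℝ))) *
      Real.exp (1000 * K) ≤ 1 := by
    have h1 : Real.exp (-((1000 * k ^ 2 + 10 : ℕ) : ℝ)) * Real.exp (1000 * K) = Real.exp (-10) := by
      rw [← Real.exp_add]
      congr 1
      rw [hKdef]
      push_cast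
      ring
    have h2 : Real.exp (-10) ≤ 1 / 4 := by
      have h3 : (11 : ℝ) ≤ Real.exp 10 := by
        have := Real.add_one_le_exp (10 : ℝ)
        linarith
      rw [Real.exp_neg]
      rw [inv_eq_one_div]
      exact one_div_le_one_div_of_le (by norm_num) (by linarith)
    rw [add_mul, mul_assoc 2, h1, ← hEdef]
    linarith
  have hsR : 2 * ((1000 * k ^ 2 + 10 : ℕ) : ℝ) * s ^ 2 ≤ 1 := by
    rw [hs]
    push_cast
    rw [div_pow, one_pow, mul_one_div, div_le_one (by positivity)]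
    nlinarith
  have hκ : 0 ≤ (a + ε) * r₂ := by positivity
  have hfin : (2 * (V : ℝ) + 1) * (Real.exp (s * (a * (2 * K + 1) + 1) / 2 + 1) + 1) + 8 / s +
      100 * r₂ * Real.exp (1000 * K) / s ^ 2 ≤ Real.exp (s * ((a + ε) * r₂) * N) := by
    have e0 : 1 ≤ Real.exp (s * a * K) := Real.one_le_exp (by positivity)
    have e1 : Real.exp (s * (a * (2 * K + 1) + 1) / 2 + 1) ≤
        Real.exp (s * a * K) * Real.exp (11 / 10) := by
      rw [← Real.exp_add]
      apply Real.exp_le_exp.2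
      have : s * (a + 1) ≤ 1 / 50 * 9 := by
        apply mul_le_mul hs50 (by linarith) (by linarith) (by norm_num)
      nlinarith
    have e2 : 8 / s = 400 * k := by
      rw [hs]
      field_simp
      ring
    have e3 : 100 * r₂ * Real.exp (1000 * K) / s ^ 2 ≤ 1 := by
      have h1 : 100 * r₂ * Real.exp (1000 * K) / s ^ 2 = 250000 * K * E * r₂ := by
        rw [hs, ← hEdef, hKdef]
        field_simp
        ring
      rw [h1]
      exact h2d
    have e4 : Real.exp (s * a * K) * Real.exp (ε * k / 50 - 1) ≤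
        Real.exp (s * ((a + ε) * r₂) * N) := by
      rw [← Real.exp_add]
      apply Real.exp_le_exp.2
      have h1 : s * ((a + ε) * (K - r₂)) ≤ s * ((a + ε) * r₂) * N := by
        have h2 : (a + ε) * (K - r₂) ≤ (a + ε) * (r₂ * N) :=
          mul_le_mul_of_nonneg_left hKN' (by linarith)
        calc s * ((a + ε) * (K - r₂)) ≤ s * ((a + ε) * (r₂ * N)) :=
              mul_le_mul_of_nonneg_left h2 hs0.le
          _ = _ := by ring
      have h3 : s * ((a + ε) * r₂) ≤ 1 := by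
        have h4 : (a + ε) * r₂ ≤ 9 * 1 :=
          mul_le_mul (by linarith) hr2one hr₂0.le (by norm_num)
        have h5 : s * ((a + ε) * r₂) ≤ 1 / 50 * (9 * 1) :=
          mul_le_mul hs50 h4 (by positivity) (by norm_num)
        linarith
      have h6 : s * ((a + ε) * (K - r₂)) = s * a * K + ε * (s * K) - s * ((a + ε) * r₂) := by ring
      rw [hsk] at h6
      have h7 : ε * ((k : ℝ) / 50) = ε * k / 50 := by ring
      rw [h7] at h6
      linarith
    have hkk' : (2 * (V : ℝ) + 1) * (Real.exp (11 / 10) + 1) + 400 * k + 1 ≤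
        Real.exp (ε * k / 50 - 1) := by
      rw [hVr]
      exact hkk
    calc (2 * (V : ℝ) + 1) * (Real.exp (s * (a * (2 * K + 1) + 1) / 2 + 1) + 1) + 8 / s +
          100 * r₂ * Real.exp (1000 * K) / s ^ 2
        ≤ (2 * (V : ℝ) + 1) * (Real.exp (s * a * K) * Real.exp (11 / 10) +
            Real.exp (s * a * K)) + Real.exp (s * a * K) * (400 * k) +
              Real.exp (s * a * K) * 1 := by
          have f1 : (2 * (V : ℝ) + 1) * (Real.exp (s * (a * (2 * K + 1) + 1) / 2 + 1) + 1) ≤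
              (2 * (V : ℝ) + 1) * (Real.exp (s * a * K) * Real.exp (11 / 10) +
                Real.exp (s * a * K)) :=
            mul_le_mul_of_nonneg_left (add_le_add e1 e0) (by positivity)
          have f2 : 8 / s ≤ Real.exp (s * a * K) * (400 * k) := by
            rw [e2]
            exact le_mul_of_one_le_left (by positivity) e0
          have f3 : 100 * r₂ * Real.exp (1000 * K) / s ^ 2 ≤ Real.exp (s * a * K) * 1 := by
            rw [mul_one]
            exact e3.trans e0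
          linarith
      _ = Real.exp (s * a * K) *
          ((2 * (V : ℝ) + 1) * (Real.exp (11 / 10) + 1) + 400 * k + 1) := by ring
      _ ≤ Real.exp (s * a * K) * Real.exp (ε * k / 50 - 1) :=
          mul_le_mul_of_nonneg_left hkk' (Real.exp_pos _).le
      _ ≤ _ := e4
  have hgam := gam_le_of hm₂ hr₂0 h2a hN1 hKN hbad hs0 hs1 hsR hVr.ge hN' hb hκ hfin
  unfold rat
  rw [← hr2def, div_le_iff₀ hr₂0, sub_le_iff_le_add, div_le_iff₀ hm₂]
  calc gam L₂ ≤ L₂.p o₂ * (1 + (a + ε) * r₂) := hgam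
    _ = ((a + ε) * r₂ + 1) * L₂.p o₂ := by ring

end NV
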