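import Pool.Agent.Lib.MP_ae6bb1_pr.NV.UbD
import Pool.Agent.Lib.MP_ae6bb1_pr.NV.MassC
import Pool.Agent.Lib.MP_ae6bb1_pr.NV.Cut

/-! The recursion. -/

open Finset LCSH
open scoped ENNReal

namespace NV

variable {α : Type} [DecidableEq α] [Fintype α] {L : Law α} {o : α}

/-- a sum is at most the sum over a cover of the index set by two families -/
theorem UbA_cover {β ι κ : Type} (g : β → ℝ≥0∞) (φ : ι → β) (h : ι → ℝ≥0∞) (ψ : κ → β) (h' : κ → ℝ≥0∞)
    (hc : ∀ b, g b ≠ 0 → (∃ i, φ i = b ∧ g b ≤ h i) ∨ ∃ j, ψ j = b ∧ g b ≤ h' j) :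
    ∑' b, g b ≤ ∑' i, h i + ∑' j, h' j := by
  classical
  have h1 : ∀ b, g b ≤ (∑' i, if φ i = b then h i else 0) + ∑' j, if ψ j = b then h' j else 0 := by
    intro b
    by_cases h0 : g b = 0
    · rw [h0]
      exact bot_le
    · rcases hc b h0 with ⟨i, hi, hg⟩ | ⟨j, hj, hg⟩
      · refine (hg.trans ?_).trans le_self_add
        refine le_trans ?_ (ENNReal.le_tsum i)
        rw [if_pos hi]
      · refine (hg.trans ?_).trans le_add_self
        refine le_trans ?_ (ENNReal.le_tsum j)
        rw [if_pos hj]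
  refine (ENNReal.tsum_le_tsum h1).trans ?_
  rw [ENNReal.tsum_add, ENNReal.tsum_comm, ENNReal.tsum_comm (f := fun b j => if ψ j = b then h' j else 0)]
  refine le_of_eq ?_
  congr 1
  · refine tsum_congr fun i => ?_
    rw [tsum_eq_single (φ i) fun b hb => if_neg fun h' => hb h'.symm, if_pos rfl]
  · refine tsum_congr fun j => ?_
    rw [tsum_eq_single (ψ j) fun b hb => if_neg fun h'' => hb h''.symm, if_pos rfl]

theorem UbA_prod {β γ : Type} (f : β → ℝ≥0∞) (g : γ → ℝ≥0∞) :
    ∑' p : β × γ, f p.1 * g p.2 = (∑' b, f b) * ∑' c, g c := by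
  rw [ENNReal.tsum_prod' (f := fun p : β × γ => f p.1 * g p.2)]
  simp only [ENNReal.tsum_mul_left, ENNReal.tsum_mul_right]

theorem UbA_ex_add (s t : ℝ) : ex (s + t) = ex s * ex t := by
  unfold ex
  rw [Real.exp_add, ENNReal.ofReal_mul (Real.exp_pos _).le]

theorem UbA_ex_mono {s t : ℝ} (h : s ≤ t) : ex s ≤ ex t :=
  ENNReal.ofReal_le_ofReal (Real.exp_le_exp.2 h)

theorem UbA_isB_cons {a : α} {x : List α} (hx : x ≠ []) (h : isB o x) : isB o (a :: x) := by
  intro y b hy
  cases y with
  | nil =>
    exfalso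
    rw [List.nil_append, List.cons.injEq] at hy
    exact hx hy.2
  | cons c y =>
    rw [List.cons_append, List.cons.injEq] at hy
    exact h y b hy.2

theorem UbA_isB_one : isB o [o] := by
  intro y b hy
  cases y with
  | nil =>
    rw [List.nil_append, List.cons.injEq] at hy
    exact hy.1.symm
  | cons c y =>
    rw [List.cons_append, List.cons.injEq] at hy
    exact absurd hy.2 (by simp)

theorem UbA_isB_nil : isB o ([] : List α) := by
  intro y b hy
  simp at hy

/-- a string with at least `N` zeros starts with a block with `N` zeros -/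
theorem UbA_block : ∀ (X : List α) (N : ℕ), N ≤ Z o X → ∃ x X' : List α, X = x ++ X' ∧ Z o x = N ∧ isB o x := by
  intro X
  induction X with
  | nil =>
    intro N hN
    refine ⟨[], [], rfl, ?_, UbA_isB_nil⟩
    have h1 : Z o ([] : List α) = 0 := List.count_nil
    omega
  | cons a X ih =>
    intro N hN
    cases N with
    | zero => exact ⟨[], a :: X, rfl, List.count_nil, UbA_isB_nil⟩
    | succ N =>
      by_cases ha : a = o
      · subst ha
        rw [Z_cons_self] at hN
        obtain ⟨x, X', h1, h2, h3⟩ := ih N (by omega)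
        refine ⟨a :: x, X', by rw [h1, List.cons_append], by rw [Z_cons_self, h2], ?_⟩
        by_cases hx : x = []
        · rw [hx]
          exact UbA_isB_one
        · exact UbA_isB_cons hx h3
      · rw [Z_cons_ne ha] at hN
        obtain ⟨x, X', h1, h2, h3⟩ := ih (N + 1) hN
        refine ⟨a :: x, X', by rw [h1, List.cons_append], by rw [Z_cons_ne ha, h2], ?_⟩
        refine UbA_isB_cons ?_ h3
        rintro rfl
        have h4 : Z o ([] : List α) = 0 := List.count_nil
        omega

/-- sum over all strings with `Q` as a sum over the number of zeros -/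
theorem UbA_tsum_SS (b : Bool) (g : List α → ℝ≥0∞) : open Classical in
    (∑' y : List α, if (b = true → isB o y) then wt L y * g y else 0) = ∑' M : ℕ, SS L o b M g := by
  classical
  unfold SS
  rw [ENNReal.tsum_comm]
  refine tsum_congr fun y => ?_
  rw [tsum_eq_single (Z o y)]
  · by_cases h : b = true → isB o y
    · rw [if_pos h, if_pos ⟨rfl, h⟩]
    · rw [if_neg h, if_neg fun h' => h h'.2]
  · intro M hM
    exact if_neg fun h' => hM h'.1.symm

/-- the sum over all second strings -/
noncomputable def UbAh (L : Law α) (o : α) (s : ℝ) (u : List α) : ℝ≥0∞ := ∑' y : List α, wt L y * ex (s * D o u y)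

theorem UbA_SS_h (s : ℝ) (i : ℕ) : SS L o false i (UbAh L o s) = Zf L o s i := by
  classical
  have h1 : UbAh L o s = fun u => ∑' M : ℕ, SS L o false M fun y => ex (s * D o u y) := by
    funext u
    rw [← UbA_tsum_SS]
    unfold UbAh
    refine tsum_congr fun y => ?_
    rw [if_pos (by simp)]
  rw [h1, SS_tsum]
  rfl

open Classical in
noncomputable def UbAg1 (L : Law α) (o : α) (s : ℝ) (x : List α) : ℝ≥0∞ :=
  ∑' y : List α, if isB o y then wt L y * ex (s * D o x y) else 0

theorem UbA_SS_g1 (s : ℝ) (N : ℕ) : SS L o true N (UbAg1 L o s) = Zs L o s N := by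
  classical
  have h1 : UbAg1 L o s = fun u => ∑' M : ℕ, SS L o true M fun y => ex (s * D o u y) := by
    funext u
    rw [← UbA_tsum_SS]
    unfold UbAg1
    refine tsum_congr fun y => ?_
    by_cases h : isB o y
    · rw [if_pos h, if_pos fun _ => h]
    · rw [if_neg h, if_neg fun h' => h (h' rfl)]
  rw [h1, SS_tsum]
  rfl

open Classical in
noncomputable def UbAg2 (L : Law α) (o : α) (s : ℝ) (x : List α) : ℝ≥0∞ :=
  ∑' q : List α × α × List α, if q.2.1 ≠ o ∧ x = q.1 ++ q.2.1 :: q.2.2 then
    ENNReal.ofReal (L.p q.2.1) * ex s * ex (-(s * Z o q.2.2 / 2)) * UbAh L o s q.1 else 0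

theorem UbA_SS_g2 (hm : 0 < L.p o) (s : ℝ) (N : ℕ) : SS L o true N (UbAg2 L o s) ≤ T2 L o s N := by
  classical
  -- the number of zeros of the first part
  have h1 : SS L o true N (UbAg2 L o s) ≤ SS L o true N fun x => ∑' i : Fin N, ∑' q : List α × α × List α,
      if q.2.1 ≠ o ∧ Z o q.1 = (i : ℕ) ∧ x = q.1 ++ q.2.1 :: q.2.2 then
        ENNReal.ofReal (L.p q.2.1) * ex s * ex (-(s * Z o q.2.2 / 2)) * UbAh L o s q.1 else 0 := by
    refine SS_mono L o fun x hx hb => ?_
    unfold UbAg2
    rw [ENNReal.tsum_comm]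
    refine ENNReal.tsum_le_tsum fun q => ?_
    by_cases h : q.2.1 ≠ o ∧ x = q.1 ++ q.2.1 :: q.2.2
    · rw [if_pos h]
      have hlt : Z o q.1 < N := by
        have h2 : Z o x = Z o q.1 + Z o q.2.2 := by
          rw [h.2, Z_append, Z_cons_ne h.1]
        have h3 : 0 < Z o q.2.2 := by
          rcases List.eq_nil_or_concat q.2.2 with h4 | ⟨y, b, h4⟩
          · exfalso
            apply h.1
            refine hb rfl q.1 q.2.1 ?_
            rw [h.2, h4]
          · have h5 : b = o := by
              refine hb rfl (q.1 ++ q.2.1 :: y) b ?_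
              rw [h.2, h4]
              simp
            rw [h4, h5, List.concat_eq_append, Z_append]
            have h6 : Z o [o] = 1 := by
              unfold Z
              simp
            omega
        omega
      refine le_trans ?_ (ENNReal.le_tsum (⟨Z o q.1, hlt⟩ : Fin N))
      rw [if_pos ⟨h.1, rfl, h.2⟩]
    · rw [if_neg h]
      exact bot_le
  refine h1.trans ?_
  rw [SS_tsum, tsum_fintype, T2, ← Fin.sum_univ_eq_sum_range (fun i => ex (-(s * ((N : ℝ) - i) / 2)) * Zf L o s i), Finset.mul_sum]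
  refine Finset.sum_le_sum fun i _ => ?_
  refine (SS_split_at L o true N i (fun u a v => ENNReal.ofReal (L.p a) * ex s * ex (-(s * Z o v / 2)) * UbAh L o s u)).trans ?_
  have h2 : ∀ u : List α, (∑ a ∈ univ.erase o, ENNReal.ofReal (L.p a) * SS L o true (N - i) fun v =>
      ENNReal.ofReal (L.p a) * ex s * ex (-(s * Z o v / 2)) * UbAh L o s u) ≤
      (ex s * ENNReal.ofReal (∑ a ∈ univ.erase o, L.p a ^ 2) * ex (-(s * ((N : ℝ) - (i : ℕ)) / 2))) * UbAh L o s u := by
    intro u
    have h3 : ∀ a : α, (SS L o true (N - i) fun v => ENNReal.ofReal (L.p a) * ex s * ex (-(s * Z o v / 2)) * UbAh L o s u) ≤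
        ENNReal.ofReal (L.p a) * ex s * ex (-(s * ((N : ℝ) - (i : ℕ)) / 2)) * UbAh L o s u := by
      intro a
      have h4 : (SS L o true (N - i) fun v => ENNReal.ofReal (L.p a) * ex s * ex (-(s * Z o v / 2)) * UbAh L o s u) ≤
          SS L o true (N - i) fun v => (ENNReal.ofReal (L.p a) * ex s * ex (-(s * ((N : ℝ) - (i : ℕ)) / 2)) * UbAh L o s u) * 1 := by
        refine SS_mono L o fun v hv _ => ?_
        rw [hv, mul_one, Nat.cast_sub i.2.le]
      refine h4.trans ?_
      rw [SS_const_mul, SS_one L o hm, Ms, if_pos rfl, mul_one]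
    refine (Finset.sum_le_sum fun a _ => mul_le_mul_right (h3 a) (ENNReal.ofReal (L.p a))).trans (le_of_eq ?_)
    rw [ENNReal.ofReal_sum_of_nonneg fun a _ => sq_nonneg _, Finset.mul_sum, Finset.sum_mul, Finset.sum_mul]
    refine Finset.sum_congr rfl fun a _ => ?_
    rw [sq, ENNReal.ofReal_mul (L.nonneg a)]
    ring
  refine (SS_mono L o fun u _ _ => h2 u).trans ?_
  rw [SS_const_mul, UbA_SS_h, mul_assoc]

/-- the sum over the second strings -/
noncomputable def UbAf (L : Law α) (o : α) (s κ : ℝ) (X : List α) : ℝ≥0∞ :=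
  ∑' Y : List α, wt L Y * ex (s * (D o X Y - κ * Z o X))

/-- the step: cut of the second string -/
theorem UbA_step {s : ℝ} (hs : 0 < s) (κ : ℝ) {N : ℕ} (x X' : List α) (hx : Z o x = N) :
    UbAf L o s κ (x ++ X') ≤ ex (-(s * κ * N)) * (UbAg1 L o s x + UbAg2 L o s x) * UbAf L o s κ X' := by
  classical
  have h1 := UbA_cover (fun Y : List α => wt L Y * ex (s * (D o (x ++ X') Y - κ * Z o (x ++ X'))))
    (fun p : List α × List α => p.1 ++ p.2)
    (fun p => (ex (-(s * κ * N)) * if isB o p.1 then wt L p.1 * ex (s * D o x p.1) else 0) *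
      (wt L p.2 * ex (s * (D o X' p.2 - κ * Z o X'))))
    (fun p : (List α × α × List α) × (List α × List α) => p.2.1 ++ p.1.2.1 :: p.2.2)
    (fun p => (ex (-(s * κ * N)) * if p.1.2.1 ≠ o ∧ x = p.1.1 ++ p.1.2.1 :: p.1.2.2 then
      ENNReal.ofReal (L.p p.1.2.1) * ex s * ex (-(s * Z o p.1.2.2 / 2)) else 0) *
      ((wt L p.2.1 * ex (s * D o p.1.1 p.2.1)) * (wt L p.2.2 * ex (s * (D o X' p.2.2 - κ * Z o X'))))) (by
    intro Y _
    have hZ : Z o (x ++ X') = N + Z o X' := by rw [Z_append, hx]
    rcases cut_ref o x X' Y with ⟨y₁, y₂, h2, h3, h4⟩ | ⟨x₁, x₂, y₁, y₂, a, h2, h3, h4, h5⟩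
    · left
      refine ⟨(y₁, y₂), h2.symm, ?_⟩
      simp only
      rw [if_pos h3, h2, wt_append]
      have h6 : s * (D o (x ++ X') (y₁ ++ y₂) - κ * Z o (x ++ X')) ≤
          -(s * κ * N) + (s * D o x y₁ + s * (D o X' y₂ - κ * Z o X')) := by
        have h7 : D o (x ++ X') (y₁ ++ y₂) ≤ D o x y₁ + D o X' y₂ := by
          have h8 : (lc (x ++ X') (y₁ ++ y₂) : ℝ) ≤ lc x y₁ + lc X' y₂ := by
            rw [← h2]
            exact_mod_cast h4
          unfold D
          rw [Z_append, Z_append]
          push_cast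
          linarith
        rw [hZ]
        push_cast
        nlinarith [mul_le_mul_of_nonneg_left h7 hs.le]
      calc wt L y₁ * wt L y₂ * ex (s * (D o (x ++ X') (y₁ ++ y₂) - κ * Z o (x ++ X')))
          ≤ wt L y₁ * wt L y₂ * ex (-(s * κ * N) + (s * D o x y₁ + s * (D o X' y₂ - κ * Z o X'))) :=
            mul_le_mul_right (UbA_ex_mono h6) _
        _ = _ := by
            rw [UbA_ex_add, UbA_ex_add]
            ring
    · right
      refine ⟨((x₁, a, x₂), (y₁, y₂)), h4.symm, ?_⟩
      simp only
      rw [if_pos ⟨h2, h3⟩, h4, wt_append, wt_cons]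
      have hZx : Z o x₁ + Z o x₂ = N := by
        rw [← hx, h3, Z_append, Z_cons_ne h2]
      have h6 : s * (D o (x ++ X') (y₁ ++ a :: y₂) - κ * Z o (x ++ X')) ≤
          -(s * κ * N) + (s + (-(s * Z o x₂ / 2) + (s * D o x₁ y₁ + s * (D o X' y₂ - κ * Z o X')))) := by
        have h7 : D o (x ++ X') (y₁ ++ a :: y₂) ≤ 1 - Z o x₂ / 2 + D o x₁ y₁ + D o X' y₂ := by
          have h8 : (lc (x ++ X') (y₁ ++ a :: y₂) : ℝ) ≤ lc x₁ y₁ + 1 + lc X' y₂ := by
            rw [← h4]
            exact_mod_cast h5
          unfold D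
          rw [hZ, Z_append, Z_cons_ne h2, ← hZx]
          push_cast
          linarith
        rw [hZ]
        push_cast
        nlinarith [mul_le_mul_of_nonneg_left h7 hs.le]
      calc wt L y₁ * (ENNReal.ofReal (L.p a) * wt L y₂) * ex (s * (D o (x ++ X') (y₁ ++ a :: y₂) - κ * Z o (x ++ X')))
          ≤ wt L y₁ * (ENNReal.ofReal (L.p a) * wt L y₂) *
            ex (-(s * κ * N) + (s + (-(s * Z o x₂ / 2) + (s * D o x₁ y₁ + s * (D o X' y₂ - κ * Z o X'))))) :=
            mul_le_mul_right (UbA_ex_mono h6) _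
        _ = _ := by
            rw [UbA_ex_add, UbA_ex_add, UbA_ex_add, UbA_ex_add]
            ring)
  refine h1.trans (le_of_eq ?_)
  rw [UbA_prod (fun y₁ => ex (-(s * κ * N)) * if isB o y₁ then wt L y₁ * ex (s * D o x y₁) else 0)
    (fun Y' => wt L Y' * ex (s * (D o X' Y' - κ * Z o X'))), ENNReal.tsum_mul_left]
  have h2 : (∑' p : (List α × α × List α) × (List α × List α),
      (ex (-(s * κ * N)) * if p.1.2.1 ≠ o ∧ x = p.1.1 ++ p.1.2.1 :: p.1.2.2 then
      ENNReal.ofReal (L.p p.1.2.1) * ex s * ex (-(s * Z o p.1.2.2 / 2)) else 0) *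
      ((wt L p.2.1 * ex (s * D o p.1.1 p.2.1)) * (wt L p.2.2 * ex (s * (D o X' p.2.2 - κ * Z o X'))))) =
      ex (-(s * κ * N)) * UbAg2 L o s x * UbAf L o s κ X' := by
    rw [ENNReal.tsum_prod']
    have h3 : ∀ q : List α × α × List α, (∑' p : List α × List α,
        (ex (-(s * κ * N)) * if q.2.1 ≠ o ∧ x = q.1 ++ q.2.1 :: q.2.2 then
        ENNReal.ofReal (L.p q.2.1) * ex s * ex (-(s * Z o q.2.2 / 2)) else 0) *
        ((wt L p.1 * ex (s * D o q.1 p.1)) * (wt L p.2 * ex (s * (D o X' p.2 - κ * Z o X'))))) =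
        ex (-(s * κ * N)) * (if q.2.1 ≠ o ∧ x = q.1 ++ q.2.1 :: q.2.2 then
          ENNReal.ofReal (L.p q.2.1) * ex s * ex (-(s * Z o q.2.2 / 2)) * UbAh L o s q.1 else 0) * UbAf L o s κ X' := by
      intro q
      rw [ENNReal.tsum_mul_left, UbA_prod (fun y => wt L y * ex (s * D o q.1 y)) (fun y => wt L y * ex (s * (D o X' y - κ * Z o X')))]
      by_cases h : q.2.1 ≠ o ∧ x = q.1 ++ q.2.1 :: q.2.2
      · rw [if_pos h, if_pos h]
        unfold UbAh UbAf
        ring
      · rw [if_neg h, if_neg h]
        simp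
    rw [tsum_congr h3, ENNReal.tsum_mul_right, ENNReal.tsum_mul_left]
    rfl
  rw [h2]
  unfold UbAg1
  rw [show (∑' Y' : List α, wt L Y' * ex (s * (D o X' Y' - κ * Z o X'))) = UbAf L o s κ X' from rfl]
  ring

/-- the strings with few zeros -/
theorem UbA_few {s κ : ℝ} (hs : 0 < s) (hκ : 0 ≤ κ) (N : ℕ) : open Classical in
    (∑' X : List α, if Z o X < N then wt L X * UbAf L o s κ X else 0) ≤ ∑ i ∈ range N, Zf L o s i := by
  classical
  have h1 : ∀ X : List α, (if Z o X < N then wt L X * UbAf L o s κ X else 0) ≤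
      ∑ i ∈ range N, if Z o X = i ∧ (false = true → isB o X) then wt L X * UbAh L o s X else 0 := by
    intro X
    by_cases h : Z o X < N
    · rw [if_pos h]
      refine le_trans ?_ (Finset.single_le_sum (f := fun i => if Z o X = i ∧ (false = true → isB o X) then wt L X * UbAh L o s X else 0)
        (fun _ _ => bot_le) (Finset.mem_range.2 h))
      simp only
      rw [if_pos ⟨trivial, fun h' => absurd h' (by simp)⟩]
      refine mul_le_mul_right (ENNReal.tsum_le_tsum fun Y => mul_le_mul_right (UbA_ex_mono ?_) _) _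
      have h2 : 0 ≤ κ * Z o X := by positivity
      exact mul_le_mul_of_nonneg_left (by linarith) hs.le
    · rw [if_neg h]
      exact bot_le
  refine (ENNReal.tsum_le_tsum h1).trans ?_
  rw [Summable.tsum_finsetSum fun _ _ => ENNReal.summable]
  refine Finset.sum_le_sum fun i _ => ?_
  rw [← UbA_SS_h]
  rfl

/-- **Recursion.** Let `Cr = ∑_{i < N} Zf s i`. Proof: strings `X` with fewer than `N` zeros contribute at most `Cr` (`κ ≥ 0`). Otherwise
`X = x₁ ++ X'`, `x₁` a block with `N` zeros, and by `cut_ref` for every `Y`: either `Y = y₁ ++ Y'` with `isB y₁` and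
`D X Y ≤ D x₁ y₁ + D X' Y'`, or `x₁ = u ++ a :: v`, `Y = y₁ ++ a :: Y'`, `a ≠ o`, `D X Y ≤ 1 + D u y₁ - Z v / 2 + D X' Y'`. So the sum over `Y` is at most
`∑_{(y₁, Y')} + ∑_{(u, a, v), (y₁, Y')}`. Summing over `x₁` (with `k = |x₁| ≤ n`, `k ≥ N ≥ 1`) and `X'` of length `n - k`, and using the
bound for `Un (n - k)`: `Un n ≤ Cr + exp (- s κ N) (Zs s N + T2 s N) max_{k < n} Un k`. -/
theorem Un_le {s κ : ℝ} (hm : 0 < L.p o) (hs : 0 < s) (hκ : 0 ≤ κ) {N : ℕ} (hN : 1 ≤ N)
    (hZ : Zs L o s N + T2 L o s N ≤ ex (s * κ * N)) (n : ℕ) :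
    Un L o s κ n ≤ (n + 1) * ∑ i ∈ range N, Zf L o s i := by
  classical
  induction n using Nat.strong_induction_on with
  | _ n ih =>
  set Cr : ℝ≥0∞ := ∑ i ∈ range N, Zf L o s i with hCr
  have h1 := UbA_cover (fun X : List α => if X.length = n then wt L X * UbAf L o s κ X else 0)
    (fun X : List α => X) (fun X => if Z o X < N then wt L X * UbAf L o s κ X else 0)
    (fun p : List α × List α => p.1 ++ p.2)
    (fun p => if Z o p.1 = N ∧ (true = true → isB o p.1) then
      wt L p.1 * (ex (-(s * κ * N)) * (UbAg1 L o s p.1 + UbAg2 L o s p.1)) *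
        (if p.1.length + p.2.length = n then wt L p.2 * UbAf L o s κ p.2 else 0) else 0) (by
    intro X hX
    have hl : X.length = n := by
      by_contra h
      exact hX (if_neg h)
    rw [if_pos hl]
    by_cases h : Z o X < N
    · left
      refine ⟨X, rfl, ?_⟩
      rw [if_pos h]
    · right
      obtain ⟨x, X', h2, h3, h4⟩ := UbA_block X N (not_lt.1 h)
      refine ⟨(x, X'), h2.symm, ?_⟩
      simp only
      rw [if_pos ⟨h3, fun _ => h4⟩, if_pos (by rw [← hl, h2, List.length_append]), h2, wt_append]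
      calc wt L x * wt L X' * UbAf L o s κ (x ++ X') ≤ wt L x * wt L X' *
            (ex (-(s * κ * N)) * (UbAg1 L o s x + UbAg2 L o s x) * UbAf L o s κ X') :=
            mul_le_mul_right (UbA_step hs κ x X' h3) _
        _ = _ := by ring)
  have h2 : Un L o s κ n ≤ (∑' X : List α, if Z o X < N then wt L X * UbAf L o s κ X else 0) +
      ∑' p : List α × List α, if Z o p.1 = N ∧ (true = true → isB o p.1) then
      wt L p.1 * (ex (-(s * κ * N)) * (UbAg1 L o s p.1 + UbAg2 L o s p.1)) *
        (if p.1.length + p.2.length = n then wt L p.2 * UbAf L o s κ p.2 else 0) else 0 := by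
    refine le_trans (le_of_eq ?_) h1
    unfold Un
    refine tsum_congr fun X => ?_
    by_cases h : X.length = n
    · rw [if_pos h, if_pos h]
      rfl
    · rw [if_neg h, if_neg h]
  refine h2.trans ?_
  have h3 : (∑' p : List α × List α, if Z o p.1 = N ∧ (true = true → isB o p.1) then
      wt L p.1 * (ex (-(s * κ * N)) * (UbAg1 L o s p.1 + UbAg2 L o s p.1)) *
        (if p.1.length + p.2.length = n then wt L p.2 * UbAf L o s κ p.2 else 0) else 0) ≤ n * Cr := by
    rw [ENNReal.tsum_prod']
    have h4 : ∀ x : List α, (∑' X' : List α, if Z o x = N ∧ (true = true → isB o x) then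
        wt L x * (ex (-(s * κ * N)) * (UbAg1 L o s x + UbAg2 L o s x)) *
        (if x.length + X'.length = n then wt L X' * UbAf L o s κ X' else 0) else 0) ≤
        ex (-(s * κ * N)) * (n * Cr) * (if Z o x = N ∧ (true = true → isB o x) then
          wt L x * (UbAg1 L o s x + UbAg2 L o s x) else 0) := by
      intro x
      by_cases h : Z o x = N ∧ (true = true → isB o x)
      · rw [tsum_congr fun X' => if_pos h, if_pos h, ENNReal.tsum_mul_left]
        have h5 : (∑' X' : List α, if x.length + X'.length = n then wt L X' * UbAf L o s κ X' else 0) ≤ n * Cr := by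
          by_cases h6 : x.length ≤ n
          · have h7 : 1 ≤ x.length := by
              have h8 : Z o x ≤ x.length := List.count_le_length
              omega
            have h8 : (∑' X' : List α, if x.length + X'.length = n then wt L X' * UbAf L o s κ X' else 0) = Un L o s κ (n - x.length) := by
              unfold Un
              refine tsum_congr fun X' => ?_
              by_cases h9 : x.length + X'.length = n
              · rw [if_pos h9, if_pos (by omega)]
                rfl
              · rw [if_neg h9, if_neg (by omega)]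
            rw [h8]
            refine (ih (n - x.length) (by omega)).trans ?_
            refine mul_le_mul_left ?_ _
            have h9 : n - x.length + 1 ≤ n := by omega
            exact_mod_cast h9
          · have h8 : (∑' X' : List α, if x.length + X'.length = n then wt L X' * UbAf L o s κ X' else 0) = 0 := by
              rw [ENNReal.tsum_eq_zero]
              intro X'
              exact if_neg (by omega)
            rw [h8]
            exact bot_le
        calc wt L x * (ex (-(s * κ * N)) * (UbAg1 L o s x + UbAg2 L o s x)) *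
              (∑' X' : List α, if x.length + X'.length = n then wt L X' * UbAf L o s κ X' else 0)
            ≤ wt L x * (ex (-(s * κ * N)) * (UbAg1 L o s x + UbAg2 L o s x)) * (n * Cr) := mul_le_mul_right h5 _
          _ = _ := by ring
      · rw [tsum_congr fun X' => if_neg h, tsum_zero]
        exact bot_le
    refine (ENNReal.tsum_le_tsum h4).trans ?_
    rw [ENNReal.tsum_mul_left]
    have h5 : (∑' x : List α, if Z o x = N ∧ (true = true → isB o x) then
        wt L x * (UbAg1 L o s x + UbAg2 L o s x) else 0) ≤ ex (s * κ * N) := by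
      refine le_trans ?_ hZ
      have h6 : SS L o true N (fun x => UbAg1 L o s x + UbAg2 L o s x) ≤ Zs L o s N + T2 L o s N := by
        rw [SS_add]
        exact add_le_add (le_of_eq (UbA_SS_g1 s N)) (UbA_SS_g2 hm s N)
      exact h6
    calc ex (-(s * κ * N)) * (n * Cr) * (∑' x : List α, if Z o x = N ∧ (true = true → isB o x) then
        wt L x * (UbAg1 L o s x + UbAg2 L o s x) else 0) ≤ ex (-(s * κ * N)) * (n * Cr) * ex (s * κ * N) := mul_le_mul_right h5 _
      _ = (ex (-(s * κ * N)) * ex (s * κ * N)) * (n * Cr) := by ring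
      _ = n * Cr := by
        rw [← UbA_ex_add, neg_add_cancel]
        unfold ex
        rw [Real.exp_zero, ENNReal.ofReal_one, one_mul]
  refine (add_le_add (UbA_few hs hκ N) h3).trans (le_of_eq ?_)
  rw [← hCr]
  ring

end NV
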