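import Pool.Agent.Lib.MP_ae6bb1_pr.NV.Mass

/-! The sums `Un`. -/

open Finset LCSH
open scoped ENNReal

namespace NV

variable {α : Type} [DecidableEq α] [Fintype α] (L : Law α) (o : α)

/-- `U n`: strings `X` of length `n`, all strings `Y` -/
noncomputable def Un (s κ : ℝ) (n : ℕ) : ℝ≥0∞ :=
  ∑' X : List α, if X.length = n then
    wt L X * ∑' Y : List α, wt L Y * ex (s * (D o X Y - κ * Z o X)) else 0

end NV
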