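import Pool.Agent.Lib.MP_ae6bb1_pr.NV.MassB

/-! The sets of letters of the words of a block are independent. -/

open Finset LCSH
open scoped ENNReal

namespace NV

variable {α : Type} [DecidableEq α] [Fintype α] {L : Law α} {o : α}

theorem mem_ws {x : List α} {t : ℕ} {a : α} : a ∈ ws o x t ↔ wmem o x t a := by
  unfold ws
  simp

theorem notMem_ws (x : List α) (t : ℕ) : o ∉ ws o x t := fun h => (mem_ws.1 h).1 rfl

/-- The first word. Proof: for a block `x₁` with exactly one zero and any `x`, the letters of `x₁ ++ x` after no zero are those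
of `x₁`. -/
theorem ws_append_zero {x₁ : List α} (h1 : Z o x₁ = 1) (_hb : isB o x₁) (x : List α) :
    ws o (x₁ ++ x) 0 = ws o x₁ 0 := by
  ext a
  rw [mem_ws, mem_ws]
  constructor
  · rintro ⟨ha, x₀, x', he, hz⟩
    refine ⟨ha, ?_⟩
    rcases List.append_eq_append_iff.1 he with ⟨c, hc1, hc2⟩ | ⟨c, hc1, hc2⟩
    · exfalso
      rw [hc1] at hz
      unfold Z at hz h1
      rw [List.count_append] at hz
      omega
    · cases c with
      | nil =>
        exfalso
        rw [List.append_nil] at hc1
        rw [hc1] at h1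
        omega
      | cons b c =>
        rw [List.cons_append, List.cons.injEq] at hc2
        refine ⟨x₀, c, ?_, hz⟩
        rw [hc1, hc2.1]
  · rintro ⟨ha, x₀, x', he, hz⟩
    refine ⟨ha, x₀, x' ++ x, ?_, hz⟩
    rw [he, List.append_assoc, List.cons_append]

theorem ws_append_succ {x₁ : List α} (h1 : Z o x₁ = 1) (hb : isB o x₁) (x : List α) (t : ℕ) :
    ws o (x₁ ++ x) (t + 1) = ws o x t := by
  ext a
  rw [mem_ws, mem_ws]
  constructor
  · rintro ⟨ha, x₀, x', he, hz⟩
    refine ⟨ha, ?_⟩
    rcases List.append_eq_append_iff.1 he with ⟨c, hc1, hc2⟩ | ⟨c, hc1, hc2⟩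
    · refine ⟨c, x', hc2, ?_⟩
      rw [hc1] at hz
      unfold Z at hz h1 ⊢
      rw [List.count_append] at hz
      omega
    · have hzc : Z o x₁ = Z o x₀ + Z o c := by
        rw [hc1]
        unfold Z
        rw [List.count_append]
      have hc0 : c = [] := by
        refine mbB_zero o (x := c) ?_ ?_
        · rw [hc1] at hb
          exact mbB_right o hb
        · omega
      rw [hc0, List.nil_append] at hc2
      refine ⟨[], x', ?_, ?_⟩
      · rw [List.nil_append, hc2]
      · unfold Z
        rw [hc0] at hzc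
        unfold Z at hzc h1 hz
        rw [List.count_nil] at hzc ⊢
        omega
  · rintro ⟨ha, x₀, x', he, hz⟩
    refine ⟨ha, x₁ ++ x₀, x', ?_, ?_⟩
    · rw [he, List.append_assoc]
    · unfold Z at hz h1 ⊢
      rw [List.count_append]
      omega

private theorem Wd_congr {n : ℕ} {g h : List α → ℝ≥0∞}
    (hgh : ∀ x, Z o x = n → isB o x → g x = h x) : SS L o true n g = SS L o true n h :=
  le_antisymm (SS_mono L o fun x hx hb => (hgh x hx (hb rfl)).le)
    (SS_mono L o fun x hx hb => (hgh x hx (hb rfl)).ge)

theorem lam_nonneg (A : Finset α) : 0 ≤ lam L o A := ENNReal.toReal_nonneg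

open Classical in
private theorem Wd_ne_top (hm : 0 < L.p o) (A : Finset α) :
    (SS L o true 1 fun x => if ws o x 0 = A then 1 else 0) ≠ ∞ := by
  have h1 : (SS L o true 1 fun x => if ws o x 0 = A then 1 else 0) ≤
      SS L o true 1 fun _ => 1 := by
    refine SS_mono L o fun x _ _ => ?_
    split_ifs
    · exact le_rfl
    · exact zero_le_one
  rw [SS_one L o hm] at h1
  refine ne_top_of_le_ne_top ?_ h1
  unfold Ms
  rw [if_pos rfl]
  exact ENNReal.one_ne_top

theorem lam_eq (hm : 0 < L.p o) (A : Finset α) : open Classical in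
    ENNReal.ofReal (lam L o A) = SS L o true 1 fun x => if ws o x 0 = A then 1 else 0 := by
  unfold lam
  exact ENNReal.ofReal_toReal (Wd_ne_top hm A)

private theorem Wd_one (hm : 0 < L.p o) (H : Finset α → ℝ≥0∞) :
    (SS L o true 1 fun x => H (ws o x 0)) = ∑ A, ENNReal.ofReal (lam L o A) * H A := by
  classical
  have h1 : (SS L o true 1 fun x => H (ws o x 0)) =
      SS L o true 1 fun x => ∑' A : Finset α, H A * (if ws o x 0 = A then 1 else 0) := by
    congr 1
    funext x
    rw [tsum_fintype, Finset.sum_eq_single (ws o x 0)]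
    · rw [if_pos rfl, mul_one]
    · intro b _ hb
      rw [if_neg (Ne.symm hb), mul_zero]
    · intro h
      exact absurd (Finset.mem_univ _) h
  rw [h1, SS_tsum, tsum_fintype]
  refine Finset.sum_congr rfl fun A _ => ?_
  rw [SS_const_mul, lam_eq hm A, mul_comm]

/-- Proof: `SS_one`. -/
theorem lam_sum (hm : 0 < L.p o) : ∑ A, lam L o A = 1 := by
  classical
  have h1 := Wd_one (L := L) (o := o) hm fun _ => 1
  rw [SS_one L o hm] at h1
  simp only [mul_one] at h1
  rw [← ENNReal.ofReal_sum_of_nonneg fun A _ => lam_nonneg A] at h1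
  unfold Ms at h1
  rw [if_pos rfl] at h1
  have h2 : ENNReal.ofReal (∑ A, lam L o A) = ENNReal.ofReal 1 := by
    rw [ENNReal.ofReal_one]
    exact h1.symm
  exact (ENNReal.ofReal_eq_ofReal_iff (Finset.sum_nonneg fun A _ => lam_nonneg A)
    zero_le_one).1 h2

/-- **Independence of the words.** Proof: induction on `n` (generalising `G`), `SS_append` for `n + 1 = 1 + n`, `ws_append_zero`,
`ws_append_succ`, `Fin.cons`. -/
theorem words_law (hm : 0 < L.p o) (n : ℕ) (G : (Fin n → Finset α) → ℝ≥0∞) :
    (SS L o true n fun x => G fun t => ws o x t) =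
      ∑ A : Fin n → Finset α, (∏ t, ENNReal.ofReal (lam L o (A t))) * G A := by
  classical
  induction n with
  | zero =>
    have h1 : (SS L o true 0 fun x => G fun t => ws o x t) =
        SS L o true 0 fun _ => G default * 1 := by
      congr 1
      funext x
      rw [mul_one]
      congr 1
      exact Subsingleton.elim _ _
    rw [h1, SS_const_mul, SS_one L o hm]
    unfold Ms
    rw [if_pos rfl, mul_one, Fintype.sum_unique, Finset.univ_eq_empty, Finset.prod_empty, one_mul]
    exact congrArg G (Subsingleton.elim _ _)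
  | succ n ih =>
    have e := SS_append L o 1 n (fun x => G fun t : Fin (n + 1) => ws o x t)
    rw [Nat.add_comm 1 n] at e
    rw [e]
    have h1 : (SS L o true 1 fun x => SS L o true n fun x' =>
        G fun t : Fin (n + 1) => ws o (x ++ x') t) =
        SS L o true 1 fun x => (fun B : Finset α =>
          SS L o true n fun x' => G (Fin.cons B fun t : Fin n => ws o x' t)) (ws o x 0) := by
      refine Wd_congr fun x hx hb => Wd_congr fun x' _ _ => ?_
      congr 1
      funext t
      refine Fin.cases ?_ (fun t => ?_) t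
      · rw [Fin.cons_zero]
        exact ws_append_zero hx hb x'
      · rw [Fin.cons_succ]
        exact ws_append_succ hx hb x' t
    rw [h1, Wd_one hm fun B : Finset α =>
      SS L o true n fun x' => G (Fin.cons B fun t : Fin n => ws o x' t)]
    have h2 : ∀ B : Finset α, (SS L o true n fun x' => G (Fin.cons B fun t : Fin n => ws o x' t)) =
        ∑ A : Fin n → Finset α, (∏ t, ENNReal.ofReal (lam L o (A t))) * G (Fin.cons B A) :=
      fun B => ih fun A => G (Fin.cons B A)
    simp only [h2]
    rw [← (Fin.consEquiv fun _ : Fin (n + 1) => Finset α).sum_comp, Fintype.sum_prod_type]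
    refine Finset.sum_congr rfl fun B _ => ?_
    rw [Finset.mul_sum]
    refine Finset.sum_congr rfl fun A _ => ?_
    rw [Fin.prod_univ_succ]
    simp only [Fin.consEquiv_apply, Fin.cons_zero, Fin.cons_succ]
    rw [mul_assoc]
    rfl

theorem words_E2 (hm : 0 < L.p o) (n m : ℕ) (F : (Fin n → Finset α) → (Fin m → Finset α) → ℝ)
    (hF : ∀ A B, 0 ≤ F A B) :
    (SS2 L o true n m fun x y => ENNReal.ofReal (F (fun t => ws o x t) fun u => ws o y u)) =
      ENNReal.ofReal (E2 (lam L o) n m F) := by
  unfold SS2
  have h1 : ∀ x : List α, (SS L o true m fun y =>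
      ENNReal.ofReal (F (fun t => ws o x t) fun u => ws o y u)) =
      ∑ B : Fin m → Finset α, (∏ u, ENNReal.ofReal (lam L o (B u))) *
        ENNReal.ofReal (F (fun t => ws o x t) B) :=
    fun x => words_law hm m fun B => ENNReal.ofReal (F (fun t => ws o x t) B)
  simp only [h1]
  rw [words_law hm n fun A => ∑ B : Fin m → Finset α, (∏ u, ENNReal.ofReal (lam L o (B u))) *
        ENNReal.ofReal (F A B)]
  unfold E2 PE
  rw [ENNReal.ofReal_sum_of_nonneg]
  · refine Finset.sum_congr rfl fun A _ => ?_
    rw [ENNReal.ofReal_mul (Finset.prod_nonneg fun t _ => lam_nonneg (A t)),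
      ENNReal.ofReal_prod_of_nonneg fun t _ => lam_nonneg (A t)]
    congr 1
    rw [ENNReal.ofReal_sum_of_nonneg]
    · refine Finset.sum_congr rfl fun B _ => ?_
      rw [ENNReal.ofReal_mul (Finset.prod_nonneg fun t _ => lam_nonneg (B t)),
        ENNReal.ofReal_prod_of_nonneg fun t _ => lam_nonneg (B t)]
    · exact fun B _ => mul_nonneg (Finset.prod_nonneg fun t _ => lam_nonneg (B t)) (hF A B)
  · exact fun A _ => mul_nonneg (Finset.prod_nonneg fun t _ => lam_nonneg (A t))
      (Finset.sum_nonneg fun B _ => mul_nonneg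
        (Finset.prod_nonneg fun t _ => lam_nonneg (B t)) (hF A B))

/-- The model of the words. -/
noncomputable def wmd (hm : 0 < L.p o) : Md (Finset α) where
  lam := lam L o
  rel := mt
  e := ∅
  nonneg := lam_nonneg
  sum_one := lam_sum hm
  symm := fun _ _ h => fun h' => h (disjoint_comm.1 h')
  null := fun _ h => h (Finset.disjoint_empty_left _)

end NV
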